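import Pool.Agent.Lib.MP_661727_gt.T3.Spec
import Pool.Agent.Lib.MP_661727_gt.FG

/-! Congruence subgroups. -/

namespace Pool.Agent.Lib.MP_661727_gt.T3

open Multiplicative Ar

variable {d : ℕ} (L : Cusped d)

/-- the standard basis -/
noncomputable def congB (d : ℕ) : Module.Basis (Unit ⊕ Fin d) ℝ (Mink d) :=
  (Module.Basis.singleton Unit ℝ).prod (Pi.basisFun ℝ (Fin d))

lemma cong_lat {R : Subring ℝ} {I : Ideal R} {v : Mink d} :
    v ∈ lat R I ↔ ∀ o, ∃ r ∈ I, (r : ℝ) = (congB d).repr v o := by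
  rw [Sum.forall]
  exact ⟨fun h => ⟨fun _ => by simpa [congB] using h.1, fun i => by simpa [congB] using h.2 i⟩,
    fun h => ⟨by simpa [congB] using h.1 (), fun i => by simpa [congB] using h.2 i⟩⟩

lemma cong_top {R : Subring ℝ} {v : Mink d} :
    v ∈ lat R ⊤ ↔ ∀ o, (congB d).repr v o ∈ R := by
  rw [cong_lat]
  exact forall_congr' fun o => ⟨fun ⟨r, _, h⟩ => h ▸ r.2, fun h => ⟨⟨_, h⟩, trivial, rfl⟩⟩

section
variable {R : Subring ℝ} {I : Ideal R} {v w : Mink d}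

lemma cong_zero : (0 : Mink d) ∈ lat R I := cong_lat.2 fun o => ⟨0, I.zero_mem, by simp⟩

lemma cong_add (hv : v ∈ lat R I) (hw : w ∈ lat R I) : v + w ∈ lat R I := cong_lat.2 fun o => by
  obtain ⟨r, h1, h2⟩ := cong_lat.1 hv o
  obtain ⟨s, h3, h4⟩ := cong_lat.1 hw o
  exact ⟨r + s, I.add_mem h1 h3, by simp [h2, h4]⟩

lemma cong_neg (hv : v ∈ lat R I) : -v ∈ lat R I := cong_lat.2 fun o => by
  obtain ⟨r, h1, h2⟩ := cong_lat.1 hv o
  exact ⟨-r, I.neg_mem h1, by simp [h2]⟩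

lemma cong_sub' (hv : v ∈ lat R I) (hw : w ∈ lat R I) : v - w ∈ lat R I := by
  rw [sub_eq_add_neg]; exact cong_add hv (cong_neg hw)

lemma cong_smul (a : R) (hv : v ∈ lat R I) : (a : ℝ) • v ∈ lat R I := cong_lat.2 fun o => by
  obtain ⟨r, h1, h2⟩ := cong_lat.1 hv o
  exact ⟨a * r, I.mul_mem_left a h1, by simp [h2]⟩

lemma cong_smul' {a : R} (ha : a ∈ I) (hv : v ∈ lat R ⊤) : (a : ℝ) • v ∈ lat R I :=
  cong_lat.2 fun o => by
    obtain ⟨r, -, h2⟩ := cong_lat.1 hv o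
    exact ⟨a * r, I.mul_mem_right r ha, by simp [h2]⟩

lemma cong_sum {ι : Type} (s : Finset ι) (f : ι → Mink d) (h : ∀ i ∈ s, f i ∈ lat R I) :
    ∑ i ∈ s, f i ∈ lat R I :=
  Finset.sum_induction f (· ∈ lat R I) (fun _ _ => cong_add) cong_zero h

lemma cong_basis (o : Unit ⊕ Fin d) : congB d o ∈ lat R ⊤ := cong_top.2 fun p => by
  classical
  rw [Module.Basis.repr_self, Finsupp.single_apply]
  split_ifs
  · exact R.one_mem
  · exact R.zero_mem

lemma cong_map (f : Mink d →ₗ[ℝ] Mink d) (hf : ∀ o, f (congB d o) ∈ lat R ⊤) (hv : v ∈ lat R I) :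
    f v ∈ lat R I := by
  rw [← (congB d).sum_repr v, map_sum]
  refine cong_sum _ _ fun o _ => ?_
  obtain ⟨r, h1, h2⟩ := cong_lat.1 hv o
  rw [map_smul, ← h2]
  exact cong_smul' h1 (hf o)

lemma cong_map' (f : Mink d →ₗ[ℝ] Mink d) (hf : ∀ o, f (congB d o) ∈ lat R I) (hv : v ∈ lat R ⊤) :
    f v ∈ lat R I := by
  rw [← (congB d).sum_repr v, map_sum]
  refine cong_sum _ _ fun o _ => ?_
  obtain ⟨r, -, h2⟩ := cong_lat.1 hv o
  rw [map_smul, ← h2]
  exact cong_smul r (hf o)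

lemma cong_inv (hR : ∀ g, ∀ v ∈ lat R ⊤, L.lin g v ∈ lat R ⊤) (g : L.G) (hv : v ∈ lat R I) :
    L.lin g v ∈ lat R I :=
  cong_map (L.lin g : Mink d →ₗ[ℝ] Mink d) (fun o => hR g _ (cong_basis o)) hv

end

lemma exists_ring (T : Set (Mink d)) (hT : T.Finite) : ∃ R : Subring ℝ, Algebra.FiniteType ℤ R ∧
    T ⊆ lat R ⊤ ∧ ∀ g, ∀ v ∈ lat R ⊤, L.lin g v ∈ lat R ⊤ := by
  obtain ⟨S, hS, hf⟩ := Group.fg_iff.1 L.fg
  let W : Set (Mink d) := T ∪ ((fun p : L.G × (Unit ⊕ Fin d) => L.lin p.1 (congB d p.2)) ''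
    (S ×ˢ Set.univ) ∪ (fun p : L.G × (Unit ⊕ Fin d) => L.lin p.1⁻¹ (congB d p.2)) ''
    (S ×ˢ Set.univ))
  have hW : W.Finite := hT.union
    (((hf.prod Set.finite_univ).image _).union ((hf.prod Set.finite_univ).image _))
  let U : Set ℝ := (fun p : Mink d × (Unit ⊕ Fin d) => (congB d).repr p.1 p.2) '' (W ×ˢ Set.univ)
  have hU : U.Finite := (hW.prod Set.finite_univ).image _
  have hW' : W ⊆ lat (Algebra.adjoin ℤ U).toSubring ⊤ := fun v hv => cong_top.2 fun o =>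
    Algebra.subset_adjoin (R := ℤ) (s := U) ⟨(v, o), ⟨hv, trivial⟩, rfl⟩
  refine ⟨(Algebra.adjoin ℤ U).toSubring, ?_, fun v hv => hW' (Or.inl hv), fun g => ?_⟩
  · have : Algebra.FiniteType ℤ (Algebra.adjoin ℤ U) :=
      ⟨(Subalgebra.fg_top _).2 (Subalgebra.fg_def.2 ⟨U, hU, rfl⟩)⟩
    exact this
  · have hg : g ∈ Subgroup.closure S := hS ▸ Subgroup.mem_top g
    induction hg using Subgroup.closure_induction'' with
    | one => intro v hv; rw [map_one]; exact hv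
    | mem x hx =>
      exact fun v hv => cong_map (L.lin x : Mink d →ₗ[ℝ] Mink d)
        (fun o => hW' (Or.inr (Or.inl ⟨(x, o), ⟨hx, trivial⟩, rfl⟩))) hv
    | inv_mem x hx =>
      exact fun v hv => cong_map (L.lin x⁻¹ : Mink d →ₗ[ℝ] Mink d)
        (fun o => hW' (Or.inr (Or.inr ⟨(x, o), ⟨hx, trivial⟩, rfl⟩))) hv
    | mul x y _ _ h1 h2 => intro v hv; rw [b_mul]; exact h1 _ (h2 v hv)

lemma cong_sub (R : Subring ℝ) (hR : ∀ g, ∀ v ∈ lat R ⊤, L.lin g v ∈ lat R ⊤) (I : Ideal R)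
    (hI : Finite (R ⧸ I)) : ∃ H : Subgroup L.G, H.Normal ∧ H.FiniteIndex ∧
      ∀ g, g ∈ H ↔ ∀ v ∈ lat R ⊤, L.lin g v - v ∈ lat R I := by
  let H : Subgroup L.G :=
    { carrier := {g | ∀ v ∈ lat R ⊤, L.lin g v - v ∈ lat R I}
      one_mem' := fun v _ => by
        rw [map_one]
        exact (sub_self v).symm ▸ cong_zero
      mul_mem' := fun {a b} ha hb v hv => by
        have := cong_add (ha _ (hR b v hv)) (hb v hv)
        rwa [sub_add_sub_cancel, ← b_mul] at this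
      inv_mem' := fun {a} ha v hv => by
        have := cong_neg (ha _ (hR a⁻¹ v hv))
        rwa [b_inv', neg_sub] at this }
  refine ⟨H, ⟨fun g hg k v hv => ?_⟩, ?_, fun g => Iff.rfl⟩
  · have := cong_inv L hR k (hg _ (hR k⁻¹ v hv))
    rwa [map_sub, b_inv', ← b_mul, ← b_mul] at this
  · let φ : L.G → (Unit ⊕ Fin d) → (Unit ⊕ Fin d) → R ⧸ I := fun g o p =>
      Ideal.Quotient.mk I ⟨_, cong_top.1 (hR g _ (cong_basis o)) p⟩
    have h1 : ∀ g h, φ g = φ h → g⁻¹ * h ∈ H := fun g h e v hv => by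
      have a1 : ((L.lin h : Mink d →ₗ[ℝ] Mink d) - (L.lin g : Mink d →ₗ[ℝ] Mink d)) v ∈ lat R I := by
        refine cong_map' _ (fun o => cong_lat.2 fun p => ?_) hv
        have := Ideal.Quotient.eq.1 (congrFun (congrFun e o) p).symm
        exact ⟨_, this, by simp⟩
      have a2 := cong_inv L hR g⁻¹ a1
      simp only [LinearMap.sub_apply, LinearEquiv.coe_coe, map_sub] at a2
      rwa [b_inv, ← b_mul] at a2
    have : Finite (L.G ⧸ H) := Finite.of_injective (fun q : L.G ⧸ H => φ q.out) fun q q' e => by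
      rw [← q.out_eq, ← q'.out_eq]
      exact QuotientGroup.eq.2 (h1 _ _ e)
    exact Subgroup.finiteIndex_of_finite_quotient

/-- odd powers of unipotent elements are congruent to the identity -/
lemma pow_cong (R : Subring ℝ) (hR : ∀ g, ∀ v ∈ lat R ⊤, L.lin g v ∈ lat R ⊤) (I : Ideal R) {k : ℕ}
    (hk : Odd k) (hI : (k : R) ∈ I) (c : L.C) (h : Zk (d - 1)) :
    ∀ v ∈ lat R ⊤, L.lin (L.α c (ofAdd (k • h))) v - v ∈ lat R I := by
  intro v hv
  set g := L.α c (ofAdd h) with hg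
  have hb : L.lin g (L.b c) = L.b c := b_fix L c _
  obtain ⟨w, hw⟩ : ∃ w, w = L.lin g v - v := ⟨_, rfl⟩
  have hwb : lor w (L.b c) = 0 := by rw [hw, lor_sub_left, b_lor_fix L hb, sub_self]
  obtain ⟨t, ht⟩ := L.transl c (ofAdd h) w hwb
  have ht' : L.lin g w = w + t • L.b c := ht
  have hv' : L.lin g v = v + w := by rw [hw]; abel
  have hn : ∀ n : ℕ, L.lin (g ^ n) v = v + (n : ℝ) • w + ((n : ℝ) * (n - 1) / 2) • t • L.b c := by
    intro n
    induction n with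
    | zero => rw [pow_zero, map_one]; simp
    | succ n ih =>
      rw [pow_succ', b_mul, ih, map_add, map_add, map_smul, map_smul, map_smul, hb, hv', ht']
      push_cast
      module
  have hw1 : w ∈ lat R ⊤ := hw ▸ cong_sub' (hR g v hv) hv
  have hw2 : t • L.b c ∈ lat R ⊤ := by
    have := cong_sub' (hR g w hw1) hw1
    rwa [ht', add_sub_cancel_left] at this
  obtain ⟨m, hm⟩ := hk
  have e : L.lin (L.α c (ofAdd (k • h))) v - v =
      ((k : R) : ℝ) • (w + ((m : R) : ℝ) • t • L.b c) := by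
    rw [ofAdd_nsmul, map_pow, hn, SubringClass.coe_natCast, SubringClass.coe_natCast, hm]
    push_cast
    module
  rw [e]
  exact cong_smul' hI (cong_add hw1 (cong_smul _ hw2))

lemma cong_det (g : L.G) : LinearMap.det (L.lin g : Mink d →ₗ[ℝ] Mink d) ^ 2 = 1 := by
  classical
  let Bf : LinearMap.BilinForm ℝ (Mink d) := LinearMap.mk₂ ℝ lor lor_add_left lor_smul_left
    (fun x y z => lor_add_right y z x) (fun t x y => lor_smul_right t y x)
  have h1 : Bf.comp (L.lin g : Mink d →ₗ[ℝ] Mink d) (L.lin g : Mink d →ₗ[ℝ] Mink d) = Bf :=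
    LinearMap.ext fun x => LinearMap.ext fun y => b_isom L g x y
  have h2 := LinearMap.BilinForm.toMatrix_comp (congB d) (congB d) Bf
    (L.lin g : Mink d →ₗ[ℝ] Mink d) (L.lin g : Mink d →ₗ[ℝ] Mink d)
  rw [h1] at h2
  have h3 := congrArg Matrix.det h2
  rw [Matrix.det_mul, Matrix.det_mul, Matrix.det_transpose, LinearMap.det_toMatrix] at h3
  have h4 : (LinearMap.BilinForm.toMatrix (congB d) Bf).det ≠ 0 := by
    refine (LinearMap.BilinForm.nondegenerate_iff_det_ne_zero (congB d)).1 ⟨fun x hx => ?_, fun x hx => ?_⟩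
    · exact lor_nondeg hx
    · exact lor_nondeg fun y => (lor_comm _ _).trans (hx y)
  apply mul_left_cancel₀ h4
  linear_combination -h3

lemma cong_ne {η η' : Mink d} (hη : η ∈ cusps L) (hη' : η' ∈ cusps L) (h : η ≠ η') :
    lor η η' < 0 := by
  have n1 := cusps_nul L η hη
  have n2 := cusps_nul L η' hη'
  refine lt_of_le_of_ne (lor_nonpos n1.fut n2.fut) fun h0 => h ?_
  have p1 := n1.2
  have p2 := n2.2
  set t := (η.1 ^ 2 + η'.1 ^ 2) / η.1 with ht
  have t1 : t * η.1 = η.1 ^ 2 + η'.1 ^ 2 := div_mul_cancel₀ _ p1.ne'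
  have hm : lor (oo d + t • η) (oo d + t • η) = -1 - 2 * (t * η.1) := by
    simp only [lor_add_left, lor_add_right, lor_smul_left, lor_smul_right, n1.1,
      lor_comm η (oo d), lor_oo]
    ring
  refine L.old.B_eq' (m := oo d + t • η) (b_cusps_eq L ▸ hη) (b_cusps_eq L ▸ hη') ?_ ?_ ?_
  · simp only [Prod.fst_add, Prod.smul_fst, smul_eq_mul]
    nlinarith
  · rw [hm, lor_add_left, lor_smul_left, n1.1, lor_oo]
    nlinarith
  · rw [hm, lor_add_left, lor_smul_left, h0, lor_oo]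
    nlinarith

lemma cong_pairs (B : ℝ) : ∃ S : Set (Mink d), S.Finite ∧ ∀ η ∈ cusps L, ∀ η' ∈ cusps L, η ≠ η' →
    - lor η η' ≤ B → ∃ γ, L.lin γ η ∈ S ∧ L.lin γ η' ∈ S := by
  obtain ⟨R, hR⟩ := cusps_cpt L (H := ⊤) inferInstance
  refine ⟨{b ∈ L.old.B | b.1 ≤ max (2 * R) (R * B)}, L.old.B_fin _, fun η hη η' hη' hne hB => ?_⟩
  have n1 := cusps_nul L η hη
  have n2 := cusps_nul L η' hη'
  have c0 := cong_ne L hη hη' hne
  set c := - lor η η' with hc
  have c1 : 0 < c := by linarith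
  have e0 : lor η η' = -c := by rw [hc, neg_neg]
  obtain ⟨x, hx⟩ : ∃ x, x = (1 / 2 : ℝ) • η + c⁻¹ • η' := ⟨_, rfl⟩
  have x1 : lor x η = -1 := by
    rw [hx, lor_add_left, lor_smul_left, lor_smul_left, n1.1, lor_comm η', e0]
    field_simp
    ring
  have x2 : lor x η' = - (c / 2) := by
    rw [hx, lor_add_left, lor_smul_left, lor_smul_left, n2.1, e0]
    ring
  have x3 : lor x x = -1 := by
    conv_lhs => rw [hx, lor_add_right, lor_smul_right, lor_smul_right, ← hx, x1, x2]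
    field_simp
    ring
  have x4 : x ∈ Hyp d := mem_hyp x3 n1.fut (by rw [x1]; norm_num)
  obtain ⟨g, -, hg⟩ := hR x x4 (cusps_horo L η hη x x4 x1)
  have m1 := b_sheet L g x4
  have k1 := cusps_inv L g η hη
  have k2 := cusps_inv L g η' hη'
  have r1 := rev_le m1 (cusps_nul L _ k1).fut
  have r2 := rev_le m1 (cusps_nul L _ k2).fut
  rw [b_isom, x1] at r1
  rw [b_isom, x2] at r2
  have m2 := m1.2
  refine ⟨g, ⟨b_cusps_eq L ▸ k1, le_max_of_le_left (by linarith)⟩,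
    b_cusps_eq L ▸ k2, le_max_of_le_right (r2.trans ?_)⟩
  have : (L.lin g x).1 * c ≤ R * B := mul_le_mul hg hB c1.le (by linarith)
  linarith

theorem exists_sep (B : ℝ) {b : ℕ} (hb : 0 < b) : ∃ H : Subgroup L.G, H.Normal ∧ H.FiniteIndex ∧
    (∀ g ∈ H, LinearMap.det (L.lin g : Mink d →ₗ[ℝ] Mink d) = 1) ∧
    (∀ g ∈ H, ∀ η ∈ cusps L, - lor η (L.lin g η) ≤ B → L.lin g η = η) ∧
    ∃ e1 : ℕ, 0 < e1 ∧ e1.Coprime b ∧ ∀ c h, L.α c (ofAdd (e1 • h)) ∈ H := by
  classical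
  obtain ⟨S, hS, hp⟩ := cong_pairs L B
  obtain ⟨R, ft, hSR, hR⟩ := exists_ring L S hS
  have hD : {r : R | r ≠ 0 ∧ ∃ η ∈ S, ∃ η' ∈ S, ∃ o, (r : ℝ) = (congB d).repr (η - η') o}.Finite := by
    refine Set.Finite.of_finite_image (f := Subtype.val) ?_ Subtype.val_injective.injOn
    refine (((hS.prod hS).prod Set.finite_univ).image
      fun p : (Mink d × Mink d) × (Unit ⊕ Fin d) => (congB d).repr (p.1.1 - p.1.2) p.2).subset ?_
    rintro _ ⟨r, ⟨-, η, h1, η', h2, o, h3⟩, rfl⟩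
    exact ⟨((η, η'), o), ⟨⟨h1, h2⟩, trivial⟩, h3.symm⟩
  let ψ : R →+* ℂ := Complex.ofRealHom.comp R.subtype
  have hψ : Function.Injective ψ := Complex.ofReal_injective.comp Subtype.val_injective
  have hu : ψ (∏ r ∈ hD.toFinset, r) ≠ 0 := by
    rw [map_ne_zero_iff ψ hψ]
    exact Finset.prod_ne_zero_iff.2 fun r hr => (hD.mem_toFinset.1 hr).1
  obtain ⟨n, n0, hn⟩ := spec ft ψ hu
  obtain ⟨l, l1, l2⟩ := Nat.exists_infinite_primes (n + b + 3)
  have : Fact l.Prime := ⟨l2⟩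
  obtain ⟨φ, f1, -, f2⟩ := hn l l2 (fun h => by have := Nat.le_of_dvd n0 h; omega) (kk l)
  have hI : Finite (R ⧸ RingHom.ker φ) := by
    have := f2.to_subtype
    exact Finite.of_injective (fun q => (⟨RingHom.kerLift φ q, by
      obtain ⟨r, rfl⟩ := Ideal.Quotient.mk_surjective q
      exact ⟨r, (RingHom.kerLift_mk φ r).symm⟩⟩ : Set.range φ))
      fun q q' e => RingHom.kerLift_injective φ (congrArg Subtype.val e)
  obtain ⟨H, h1, h2, h3⟩ := cong_sub L R hR _ hI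
  refine ⟨H, h1, h2, fun g hg => ?_, fun g hg η hη hB => ?_, l, l2.pos, ?_, fun c h => ?_⟩
  · let A : Matrix (Unit ⊕ Fin d) (Unit ⊕ Fin d) R := Matrix.of fun p o =>
      ⟨_, cong_top.1 (hR g _ (cong_basis o)) p⟩
    have a1 : R.subtype.mapMatrix A =
        LinearMap.toMatrix (congB d) (congB d) (L.lin g : Mink d →ₗ[ℝ] Mink d) := by
      ext p o
      simp [A, LinearMap.toMatrix_apply]
    have a2 : ((A.det : R) : ℝ) = LinearMap.det (L.lin g : Mink d →ₗ[ℝ] Mink d) := by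
      rw [← LinearMap.det_toMatrix (congB d), ← a1]
      exact R.subtype.map_det A
    have a3 : φ.mapMatrix A = 1 := by
      ext p o
      obtain ⟨r, r1, r2⟩ := cong_lat.1 ((h3 g).1 hg _ (cong_basis o)) p
      have : A p o = r + (1 : Matrix _ _ R) p o := by
        apply Subtype.ext
        rw [map_sub, Finsupp.sub_apply, Module.Basis.repr_self, Finsupp.single_apply] at r2
        simp only [A, Matrix.of_apply, Subring.coe_add, r2, Matrix.one_apply, eq_comm (a := p)]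
        split_ifs <;> simp
      rw [RingHom.mapMatrix_apply, Matrix.map_apply, this, map_add, (RingHom.mem_ker).1 r1, zero_add,
        Matrix.one_apply, Matrix.one_apply]
      split_ifs <;> simp
    have a4 : φ A.det = 1 := by rw [φ.map_det, a3, Matrix.det_one]
    rcases mul_self_eq_one_iff.1 ((sq _).symm.trans (cong_det L g)) with h | h
    · exact h
    · exfalso
      have a5 : A.det = -1 := Subtype.ext (by rw [a2, h]; simp)
      rw [a5, map_neg, map_one] at a4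
      have a6 : ((2 : ℕ) : kk l) = 0 := by push_cast; linear_combination -a4
      have := Nat.le_of_dvd two_pos ((CharP.cast_eq_zero_iff (kk l) l 2).1 a6)
      omega
  · by_contra hne
    obtain ⟨γ, g1, g2⟩ := hp η hη _ (cusps_inv L g η hη) (Ne.symm hne) hB
    have b1 := (h3 _).1 (h1.conj_mem g hg γ) _ (hSR g1)
    rw [b_mul, b_mul, b_inv] at b1
    have b2 : (congB d).repr (L.lin γ (L.lin g η) - L.lin γ η) ≠ 0 := fun h0 =>
      hne ((L.lin γ).injective (sub_eq_zero.1 ((congB d).repr.map_eq_zero_iff.1 h0)))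
    obtain ⟨o, ho⟩ := Finsupp.ne_iff.1 b2
    obtain ⟨r, r1, r2⟩ := cong_lat.1 b1 o
    have r3 : r ∈ hD.toFinset := hD.mem_toFinset.2
      ⟨fun h0 => ho (by rw [← r2, h0]; rfl), _, g2, _, g1, o, r2⟩
    apply f1
    rw [map_prod]
    exact Finset.prod_eq_zero r3 r1
  · exact (Nat.Prime.coprime_iff_not_dvd l2).2 fun h => by have := Nat.le_of_dvd hb h; omega
  · refine (h3 _).2 (pow_cong L R hR _ (l2.odd_of_ne_two (by omega)) ?_ c h)
    rw [RingHom.mem_ker, map_natCast]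
    exact CharP.cast_eq_zero _ l

end Pool.Agent.Lib.MP_661727_gt.T3
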