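import Pool.Agent.Lib.MP_661727_gt.T3.Defs
import Pool.Agent.Lib.MP_661727_gt.Adapt

/-! From covers of the bases to flip manifolds. -/

namespace Pool.Agent.Lib.MP_661727_gt.T3

open Multiplicative

lemma core_split (b : ℕ) : ∀ r : ℕ, 0 < r → ∃ r1 r2, r = r1 * r2 ∧ r2.Coprime b ∧
    ∀ x : ℕ, x.Coprime b → x.Coprime r1 := by
  intro r
  induction r using Nat.strong_induction_on with
  | _ r ih =>
    intro hr
    by_cases h : r.Coprime b
    · exact ⟨1, r, (one_mul r).symm, h, fun x _ => Nat.coprime_one_right x⟩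
    · obtain ⟨r', hr'⟩ := Nat.gcd_dvd_left r b
      have h0 : 0 < r.gcd b := Nat.gcd_pos_of_pos_left b hr
      have h1 : 1 < r.gcd b := lt_of_le_of_ne h0 fun e => h e.symm
      have h2 : 0 < r' := Nat.pos_of_mul_pos_left (hr' ▸ hr)
      obtain ⟨r1, r2, e, h3, h4⟩ := ih r' (by nlinarith) h2
      refine ⟨r.gcd b * r1, r2, by rw [mul_assoc, ← e]; exact hr', h3, fun x hx => ?_⟩
      exact Nat.Coprime.mul_right (hx.coprime_dvd_right (Nat.gcd_dvd_right r b)) (h4 x hx)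

lemma pick {V : Type} [Finite V] {b m : ℕ} (hb : 0 < b) (hm : 0 < m) (hc : m.Coprime b)
    (Pr : V → ℕ → Prop) (h : ∀ v, Good b (Pr v)) :
    ∃ k : ℕ, 0 < k ∧ k.Coprime b ∧ m ∣ k ∧ ∀ v, Pr v k := by
  have := Fintype.ofFinite V
  choose e1 n h1 h2 h3 h using h
  have p1 : 0 < ∏ v, e1 v := Finset.prod_pos fun v _ => h1 v
  have p2 : 0 < ∏ v, n v := Finset.prod_pos fun v _ => h3 v
  obtain ⟨l, hl, lp⟩ := Nat.exists_infinite_primes (b * (m * ∏ v, e1 v) * ∏ v, n v + 1)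
  have hl0 : ¬ l ∣ b * (m * ∏ v, e1 v) * ∏ v, n v := fun hd => by
    have := Nat.le_of_dvd (by positivity) hd
    omega
  choose e0 j0 g1 g2 g3 h using fun v => h v l lp fun hd =>
    hl0 ((hd.trans (Finset.dvd_prod_of_mem n (Finset.mem_univ v))).mul_left _)
  have p3 : 0 < ∏ v, e0 v := Finset.prod_pos fun v _ => g1 v
  have p4 : 0 < ∏ v, j0 v := Finset.prod_pos fun v _ => g3 v
  have c1 : l.Coprime ((∏ v, e0 v) * (b * (m * ∏ v, e1 v))) :=
    Nat.Coprime.mul_right (Nat.Coprime.prod_right fun v _ => (Nat.Prime.coprime_iff_not_dvd lp).2 (g2 v))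
      ((Nat.Prime.coprime_iff_not_dvd lp).2 fun hd => hl0 (hd.mul_right _))
  obtain ⟨j1, q1, q2, q3⟩ : ∃ j1, 0 < j1 ∧ (∀ v, j0 v ∣ j1) ∧
      l ^ j1 ≡ 1 [MOD (∏ v, e0 v) * (b * (m * ∏ v, e1 v))] := by
    refine ⟨Nat.totient ((∏ v, e0 v) * (b * (m * ∏ v, e1 v))) * ∏ v, j0 v,
      Nat.mul_pos (Nat.totient_pos.2 (by positivity)) p4,
      fun v => (Finset.dvd_prod_of_mem j0 (Finset.mem_univ v)).mul_left _, ?_⟩
    rw [pow_mul]
    simpa using (Nat.ModEq.pow_totient c1).pow (∏ v, j0 v)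
  have q4 : 1 < l ^ j1 := Nat.one_lt_pow q1.ne' lp.one_lt
  obtain ⟨r0, hr0⟩ := (Nat.modEq_iff_dvd' q4.le).1 q3.symm
  have q5 : 0 < r0 := Nat.pos_of_mul_pos_left (hr0 ▸ Nat.sub_pos_of_lt q4)
  obtain ⟨r1, r2, e, c2, c3⟩ := core_split b (b * (m * ∏ v, e1 v) * r0) (by positivity)
  have c4 : (m * ∏ v, e1 v).Coprime b := Nat.Coprime.mul_left hc (Nat.Coprime.prod_left fun v _ => h2 v)
  have d1 : (m * ∏ v, e1 v) ∣ r2 := (c3 _ c4).dvd_of_dvd_mul_left (e ▸ ⟨b * r0, by ring⟩)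
  have q6 : 0 < r1 * r2 := e ▸ by positivity
  have q7 : (∏ v, e0 v) * r1 * r2 + 1 = l ^ j1 := by
    rw [mul_assoc, ← e, ← mul_assoc, ← hr0]; omega
  have q8 : ¬ l ∣ (∏ v, e0 v) * r1 := fun hd => by
    have h5 : l ∣ (∏ v, e0 v) * r1 * r2 + 1 := q7 ▸ dvd_pow_self l q1.ne'
    exact lp.one_lt.ne' (Nat.dvd_one.1 ((Nat.dvd_add_right (hd.mul_right _)).1 h5))
  choose s0 h using fun v => h v ((∏ v, e0 v) * r1) (Nat.mul_pos p3 (Nat.pos_of_mul_pos_right q6))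
    ((Finset.dvd_prod_of_mem e0 (Finset.mem_univ v)).mul_right _) q8
  set t := 1 + b * ∑ v, s0 v with ht
  have q9 : l ^ j1 ≡ 1 [MOD b] := q3.of_dvd ⟨(∏ v, e0 v) * (m * ∏ v, e1 v), by ring⟩
  have s1 : ∑ i ∈ Finset.range t, (l ^ j1) ^ i ≡ 1 [MOD b] := by
    have : ∀ t : ℕ, ∑ i ∈ Finset.range t, (l ^ j1) ^ i ≡ t [MOD b] := fun t => by
      induction t with
      | zero => rfl
      | succ t ih =>
        rw [Finset.sum_range_succ]
        exact ih.add (by simpa using q9.pow t)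
    exact (this t).trans (by rw [ht]; exact Nat.add_mul_mod_self_left 1 b _)
  have s2 : (∑ i ∈ Finset.range t, (l ^ j1) ^ i).Coprime b := by
    rw [Nat.Coprime, s1.gcd_eq]; simp
  have s3 : 0 < ∑ i ∈ Finset.range t, (l ^ j1) ^ i :=
    Finset.sum_pos (fun i _ => by positivity) ⟨0, by simp [ht]⟩
  have s4 : (∏ v, e0 v) * r1 * (r2 * ∑ i ∈ Finset.range t, (l ^ j1) ^ i) + 1 = (l ^ j1) ^ t := by
    have := geom_sum_mul_add ((∏ v, e0 v) * r1 * r2) t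
    rw [q7] at this
    rw [← this]; ring
  refine ⟨l * (r2 * ∑ i ∈ Finset.range t, (l ^ j1) ^ i),
    Nat.mul_pos lp.pos (Nat.mul_pos (Nat.pos_of_mul_pos_left q6) s3),
    Nat.Coprime.mul_left ((Nat.Prime.coprime_iff_not_dvd lp).2 fun hd =>
      hl0 ((hd.mul_right _).mul_right _)) (Nat.Coprime.mul_left c2 s2),
    (((Dvd.intro _ rfl).trans d1).mul_right _).mul_left _, fun v => ?_⟩
  obtain ⟨u, hu⟩ := q2 v
  have u0 : 0 < u := Nat.pos_of_mul_pos_left (hu ▸ q1)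
  refine h v (u * t) ?_ _ (by rw [s4, ← mul_assoc, ← hu, pow_mul]) ((((Finset.dvd_prod_of_mem e1
    (Finset.mem_univ v)).mul_left m).trans d1).mul_right _)
  have := Finset.single_le_sum (f := s0) (fun i _ => Nat.zero_le _) (Finset.mem_univ v)
  nlinarith [Nat.le_mul_of_pos_left (∑ v, s0 v) hb, Nat.le_mul_of_pos_left t u0]

lemma core_unimod {H0 F0 H1 F1 : Type} [AddCommGroup H0] [AddCommGroup F0] [AddCommGroup H1]
    [AddCommGroup F1] [Module.Free ℤ H0] [Module.Finite ℤ H0] [Module.Free ℤ F0] [Module.Finite ℤ F0]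
    [Module.Free ℤ H1] [Module.Finite ℤ H1] [Module.Free ℤ F1] [Module.Finite ℤ F1]
    (ψ : H0 × F0 ≃+ H1 × F1) (irr : ∀ f, (ψ (0, f)).1 = 0 → f = 0) (q : Prop)
    (hq : q → ∃ r : H1 →+ F0, ∀ f, r (ψ (0, f)).1 = f) :
    ∃ (η0 : H0 →+ H0) (η1 : H1 →+ H1) (ψ1 : H0 × F0 ≃+ H1 × F1),
      (Function.Injective η0 ∧ (q → η0.range = ⊤)) ∧ (Function.Injective η1 ∧ (q → η1.range = ⊤)) ∧
      (∀ w, ψ (η0 w.1, w.2) = (η1 (ψ1 w).1, (ψ1 w).2)) ∧
      (∃ (b : F0 →+ H1) (r : H1 →+ F0), (∀ x, r (b x) = x) ∧ ∀ f, b f = (ψ1 (0, f)).1) ∧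
      ∃ (b : F1 →+ H0) (r : H0 →+ F1), (∀ x, r (b x) = x) ∧ ∀ f, b f = (ψ1.symm (0, f)).1 := by
  by_cases h : q
  · obtain ⟨r, hr⟩ := hq h
    let π : H0 × F0 →+ F0 := r.comp ((AddMonoidHom.fst _ _).comp ψ.toAddMonoidHom)
    refine ⟨AddMonoidHom.id _, AddMonoidHom.id _, ψ, ⟨fun _ _ h => h, fun _ => by
      rw [AddMonoidHom.range_eq_top]; exact fun x => ⟨x, rfl⟩⟩, ⟨fun _ _ h => h, fun _ => by
      rw [AddMonoidHom.range_eq_top]; exact fun x => ⟨x, rfl⟩⟩, fun w => rfl,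
      ⟨(AddMonoidHom.fst _ _).comp (ψ.toAddMonoidHom.comp (AddMonoidHom.inr _ _)), r, hr, fun f => rfl⟩,
      ⟨(AddMonoidHom.fst _ _).comp (ψ.symm.toAddMonoidHom.comp (AddMonoidHom.inr _ _)),
        (AddMonoidHom.snd _ _).comp (ψ.toAddMonoidHom.comp
          ((AddMonoidHom.id _).prod (-(π.comp (AddMonoidHom.inl _ _))))), fun x => ?_, fun f => rfl⟩⟩
    have e0 : π (ψ.symm (0, x)) = 0 := by
      show r (ψ (ψ.symm (0, x))).1 = 0
      rw [ψ.apply_symm_apply, map_zero]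
    have e1 : π ((ψ.symm (0, x)).1, 0) + (ψ.symm (0, x)).2 = 0 := by
      have e2 : π (0, (ψ.symm (0, x)).2) = (ψ.symm (0, x)).2 := hr _
      have e3 := map_add π ((ψ.symm (0, x)).1, 0) (0, (ψ.symm (0, x)).2)
      rw [e2, Prod.mk_add_mk, add_zero, zero_add, Prod.mk.eta, e0] at e3
      exact e3.symm
    show (ψ ((ψ.symm (0, x)).1, - π ((ψ.symm (0, x)).1, 0))).2 = x
    rw [neg_eq_of_add_eq_zero_right e1, Prod.mk.eta, ψ.apply_symm_apply]
  · obtain ⟨η0, η1, ψ1, c0, c1, c2⟩ := unimod ψ irr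
    exact ⟨η0, η1, ψ1, ⟨c0, fun h' => (h h').elim⟩, ⟨c1, fun h' => (h h').elim⟩, c2⟩

theorem core_ce {n : ℕ} (P : Pattern n) (ψ : P.Glue) (irr : Pattern.Irred ψ) (S : P.V → Prop)
    (hS : ∀ e, S (P.src e) ∨ S (P.tgt e) → ∃ r : Zk (P.d (P.tgt e) - 1) →+ Zk (n - P.d (P.src e)),
      ∀ f, r (ψ e (0, f)).1 = f) :
    ∃ A : ∀ v, (P.N v).C → AddSubgroup (Zk (P.d v - 1)), (∀ v c, (A v c).FiniteIndex) ∧
      (∀ v c, S v → A v c = ⊤) ∧ ∀ k : ℕ, 0 < k → (∀ v, (P.N v).Cov (A v) k) →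
        ∃ (P' : Pattern n) (ψ' : P'.Glue), Pattern.Flip ψ' ∧ CE (P.pi1 ψ) (P'.pi1 ψ') := by
  have := P.finV
  have := P.finE
  have := Fintype.ofFinite P.V
  choose η0 η1 ψ1 c0 c1 c2 c3 c4 using fun e => core_unimod (ψ e) (irr e) _ (hS e)
  have : ∀ p : Σ v, (P.N v).C,
      Inhabited {η : Zk (P.d p.1 - 1) →+ Zk (P.d p.1 - 1) // Function.Injective η ∧
        (S p.1 → η.range = ⊤)} :=
    fun p => ⟨⟨AddMonoidHom.id _, fun _ _ h => h, fun _ => by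
      rw [AddMonoidHom.range_eq_top]; exact fun x => ⟨x, rfl⟩⟩⟩
  obtain ⟨η, hη⟩ := dep_ext (Y := fun p : Σ v, (P.N v).C =>
    {η : Zk (P.d p.1 - 1) →+ Zk (P.d p.1 - 1) // Function.Injective η ∧ (S p.1 → η.range = ⊤)})
    P.once (fun x => match x with
      | .inl e => ⟨η0 e, (c0 e).1, fun h => (c0 e).2 (.inl h)⟩
      | .inr e => ⟨η1 e, (c1 e).1, fun h => (c1 e).2 (.inr h)⟩)
  have e0 : ∀ e, (η ⟨P.src e, P.cs e⟩).1 = η0 e := fun e => congrArg Subtype.val (hη (.inl e))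
  have e1 : ∀ e, (η ⟨P.tgt e, P.ct e⟩).1 = η1 e := fun e => congrArg Subtype.val (hη (.inr e))
  refine ⟨fun v c => (η ⟨v, c⟩).1.range, fun v c => fi_of_inj (η ⟨v, c⟩).2.1,
    fun v c h => (η ⟨v, c⟩).2.2 h, fun k hk hH => ?_⟩
  choose H hn hf hH using hH
  let θ : ∀ v, (P.N v).C → Zk (P.d v - 1) →+ Zk (P.d v - 1) := fun v c => k • (η ⟨v, c⟩).1
  have θ1 : ∀ v c, Function.Injective (θ v c) := fun v c a b h =>
    (η ⟨v, c⟩).2.1 (nsmul_right_injective hk.ne' h)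
  have θ2 : ∀ v c x, (P.N v).α c (ofAdd x) ∈ H v ↔ x ∈ (θ v c).range := fun v c x =>
    (hH v c x).trans ⟨by rintro ⟨_, ⟨a, rfl⟩, rfl⟩; exact ⟨a, rfl⟩,
      by rintro ⟨a, rfl⟩; exact ⟨_, ⟨a, rfl⟩, rfl⟩⟩
  have θ3 : ∀ e z, ψ e (θ _ (P.cs e) z.1, k • z.2) =
      (θ _ (P.ct e) (ψ1 e z).1, k • (ψ1 e z).2) := fun e z => by
    have := congrArg (k • ·) (c2 e z)
    simp only [← map_nsmul (ψ e), Prod.smul_mk, ← e0, ← e1] at this
    exact this
  let q : ∀ e, Multiplicative (Zk (P.d (P.src e) - 1) × Zk (n - P.d (P.src e))) →*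
      Multiplicative (Zk (P.d (P.src e) - 1) × Zk (n - P.d (P.src e))) := fun e =>
    AddMonoidHom.toMultiplicative ((θ _ (P.cs e)).prodMap (k • AddMonoidHom.id _))
  let ι1 : ∀ e, Multiplicative (Zk (P.d (P.src e) - 1) × Zk (n - P.d (P.src e))) →*
      (P.N (P.tgt e)).G × Multiplicative (Zk (n - P.d (P.tgt e))) := fun e =>
    (ioh ((P.N _).α (P.ct e))).comp (AddMonoidHom.toMultiplicative (ψ e).toAddMonoidHom)
  have d0 := fun e => dec_pc (α := (P.N _).α (P.cs e)) _ hk.ne' (hn _) (q e) (ioh ((P.N _).α (P.cs e)))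
    (fun w => mem_pc _ (θ2 _ _) w.toAdd) (fun w => ⟨w.toAdd, rfl⟩) fun z => ⟨ofAdd z, rfl⟩
  have d1 := fun e => dec_pc (α := (P.N _).α (P.ct e)) _ hk.ne' (hn _) (q e) (ι1 e)
    (fun w => (mem_pc _ (θ2 _ _) (ψ e w.toAdd)).trans ⟨fun ⟨z, hz⟩ => ⟨ofAdd ((ψ1 e).symm z),
      toAdd.injective ((ψ e).injective ((θ3 e _).trans (by simpa using hz)))⟩,
      by rintro ⟨z, rfl⟩; exact ⟨_, (θ3 e z.toAdd).symm⟩⟩) (fun w => ⟨ψ e w.toAdd, rfl⟩)
      fun z => ⟨ofAdd ((ψ e).symm z), congrArg (io _) ((ψ e).apply_symm_apply z)⟩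
  have := fun v => pc_fi (H v) (n - P.d v) k hk.ne'
  have := fun v c => (P.N v).DC_fin (H v) c
  obtain ⟨I, _, pt, β, conn⟩ := balance P.conn (fun e => (P.N _).DC (H _) (P.cs e))
    (fun e => (P.N _).DC (H _) (P.ct e)) (fun v => (pc (H v) (n - P.d v) k).range.index)
    (fun v => Subgroup.FiniteIndex.index_ne_zero) _ (fun e => (d0 e).2) fun e => (d1 e).2
  have : ∀ e, Finite (_ ⧸ (q e).range) := fun e => Nat.finite_of_card_ne_zero
    (left_ne_zero_of_mul ((d0 e).2 ▸ Subgroup.FiniteIndex.index_ne_zero))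
  let L := fun v => (P.N v).cover (H v) (hn v) (θ v) (θ1 v) (θ2 v)
  let pr : (Σ x : Σ v, I v, (L x.1).C) → Σ v, (P.N v).C := fun z => ⟨z.1.1, z.2.1⟩
  let P' : Pattern n :=
    { V := Σ v, I v
      E := Σ e, (P.N _).DC (H _) (P.cs e) × I (P.src e)
      finV := inferInstance
      finE := inferInstance
      base := ⟨P.base, pt _⟩
      d := fun x => P.d x.1
      hd := fun x => P.hd x.1
      N := fun x => L x.1
      src := fun e => ⟨P.src e.1, e.2.2⟩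
      tgt := fun e => ⟨P.tgt e.1, (β e.1 e.2).2⟩
      cs := fun e => ⟨P.cs e.1, e.2.1⟩
      ct := fun e => ⟨P.ct e.1, (β e.1 e.2).1⟩
      once := by
        rintro (⟨e, x⟩ | ⟨e, x⟩) (⟨e', x'⟩ | ⟨e', x'⟩) h
        · cases P.once (a₁ := .inl e) (a₂ := .inl e') (congrArg pr h)
          obtain ⟨x, i⟩ := x
          obtain ⟨x', i'⟩ := x'
          cases h; rfl
        · cases P.once (a₁ := .inl e) (a₂ := .inr e') (congrArg pr h)
        · cases P.once (a₁ := .inr e) (a₂ := .inl e') (congrArg pr h)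
        · cases P.once (a₁ := .inr e) (a₂ := .inr e') (congrArg pr h)
          obtain ⟨⟨x, i⟩, rfl⟩ := (β e).symm.surjective x
          obtain ⟨⟨x', i'⟩, rfl⟩ := (β e).symm.surjective x'
          simp only [Sum.elim_inr] at h
          rw [Equiv.apply_symm_apply, Equiv.apply_symm_apply] at h
          cases h; rfl
      conn := conn }
  obtain ⟨ψ', a, b⟩ := flip_ce P' (fun e => ψ1 e.1) (fun _ => AddMonoidHom.id _) (fun _ _ _ h => h)
    (fun e => c3 e.1) fun e => c4 e.1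
  refine ⟨P', ψ', a, CE.trans ?_ b⟩
  exact cover (G := fun v => (P.N v).G × Multiplicative (Zk (n - P.d v)))
    (G' := fun v => H v × Multiplicative (Zk (n - P.d v))) P.base
    (fun e => ioh ((P.N _).α (P.cs e))) ι1 (fun v => pc (H v) (n - P.d v) k)
    (fun v => pc_inj _ _ _ hk.ne') q pt (K := fun e => (P.N _).DC (H _) (P.cs e) × I (P.src e))
    (Ω := fun e => _ ⧸ (q e).range) (fun e => Quotient.out) (fun e w ω => by
      obtain ⟨⟨_, z, rfl⟩, h⟩ := QuotientGroup.mk_out_eq_mul (q e).range (w * ω.out)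
      exact ⟨QuotientGroup.mk (w * ω.out), z⁻¹, by rw [h, map_inv, mul_inv_cancel_right]⟩)
    (fun e x => (x.1.out, 1)) (fun e x => ((β e x).1.out, 1)) (fun e x => x.2) (fun e x => (β e x).2)
    (fun e x => ioh ((L _).α ⟨P.cs e, x.1⟩)) (fun e x => (ioh ((L _).α ⟨P.ct e, (β e x).1⟩)).comp
      (AddMonoidHom.toMultiplicative (ψ1 e).toAddMonoidHom))
    (fun e x => ioh_inj ((L _).α_inj _)) (fun e x => (ioh_inj ((L _).α_inj _)).comp (ψ1 e).injective)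
    (fun e x w => Prod.ext (show (P.N _).α _ (ofAdd (θ _ _ w.toAdd.1)) * x.1.out = x.1.out *
      (x.1.out⁻¹ * (P.N _).α _ (ofAdd (θ _ _ w.toAdd.1)) * x.1.out⁻¹⁻¹) by group) (mul_comm _ _))
    (fun e x w => by
      show io _ (ψ e (θ _ (P.cs e) w.toAdd.1, k • w.toAdd.2)) * _ = _
      rw [θ3]
      exact Prod.ext (show (P.N _).α _ (ofAdd (θ _ _ (ψ1 e w.toAdd).1)) * (β e x).1.out =
        (β e x).1.out * ((β e x).1.out⁻¹ * (P.N _).α _ (ofAdd (θ _ _ (ψ1 e w.toAdd).1)) *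
          (β e x).1.out⁻¹⁻¹) by group) (mul_comm _ _))
    (fun e => bij_β (d0 e).1 (Equiv.refl _)) fun e => bij_β (d1 e).1 (β e)

end Pool.Agent.Lib.MP_661727_gt.T3
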