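import Pool.Agent.Lib.MP_661727_gt.T3.Defs

/-! Spinors. -/

namespace Pool.Agent.Lib.MP_661727_gt.T3

open Ar

/-- the light-like vector of a spinor -/
noncomputable def nv (p : ℂ × ℂ) : Mink 3 :=
  ((Complex.normSq p.1 + Complex.normSq p.2) / 2,
    ![(p.1 * (starRingEnd ℂ) p.2).re, (p.1 * (starRingEnd ℂ) p.2).im,
      (Complex.normSq p.1 - Complex.normSq p.2) / 2])

/-- determinant of four vectors -/
noncomputable def det4 (a b c d : Mink 3) : ℝ :=
  Matrix.det !![a.1, a.2 0, a.2 1, a.2 2; b.1, b.2 0, b.2 1, b.2 2; c.1, c.2 0, c.2 1, c.2 2;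
    d.1, d.2 0, d.2 1, d.2 2]

variable {p q r s p' q' r' s' : ℂ × ℂ}

lemma sp_lor3 (x y : Mink 3) :
    lor x y = x.2 0 * y.2 0 + x.2 1 * y.2 1 + x.2 2 * y.2 2 - x.1 * y.1 := by
  simp [lor, dotProduct, Fin.sum_univ_three]

lemma sp_mink_ext {x y : Mink 3} (h : x.1 = y.1) (h0 : x.2 0 = y.2 0) (h1 : x.2 1 = y.2 1)
    (h2 : x.2 2 = y.2 2) : x = y :=
  Prod.ext h (funext fun i => by fin_cases i <;> assumption)

lemma sp_nv_1 (p : ℂ × ℂ) : (nv p).1 =
    (p.1.re * p.1.re + p.1.im * p.1.im + (p.2.re * p.2.re + p.2.im * p.2.im)) / 2 := by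
  simp [nv, Complex.normSq_apply]
lemma sp_nv_20 (p : ℂ × ℂ) : (nv p).2 0 = p.1.re * p.2.re + p.1.im * p.2.im := by simp [nv]
lemma sp_nv_21 (p : ℂ × ℂ) : (nv p).2 1 = p.1.im * p.2.re - p.1.re * p.2.im := by
  simp [nv]; ring
lemma sp_nv_22 (p : ℂ × ℂ) : (nv p).2 2 =
    (p.1.re * p.1.re + p.1.im * p.1.im - (p.2.re * p.2.re + p.2.im * p.2.im)) / 2 := by
  simp [nv, Complex.normSq_apply]

lemma sp_det4_eq (a b c d : Mink 3) : det4 a b c d =
    a.1 * (b.2 0 * (c.2 1 * d.2 2 - c.2 2 * d.2 1) - b.2 1 * (c.2 0 * d.2 2 - c.2 2 * d.2 0)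
      + b.2 2 * (c.2 0 * d.2 1 - c.2 1 * d.2 0))
    - a.2 0 * (b.1 * (c.2 1 * d.2 2 - c.2 2 * d.2 1) - b.2 1 * (c.1 * d.2 2 - c.2 2 * d.1)
      + b.2 2 * (c.1 * d.2 1 - c.2 1 * d.1))
    + a.2 1 * (b.1 * (c.2 0 * d.2 2 - c.2 2 * d.2 0) - b.2 0 * (c.1 * d.2 2 - c.2 2 * d.1)
      + b.2 2 * (c.1 * d.2 0 - c.2 0 * d.1))
    - a.2 2 * (b.1 * (c.2 0 * d.2 1 - c.2 1 * d.2 0) - b.2 0 * (c.1 * d.2 1 - c.2 1 * d.1)
      + b.2 1 * (c.1 * d.2 0 - c.2 0 * d.1)) := by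
  simp [det4, Matrix.det_succ_row_zero, Fin.sum_univ_succ, Fin.succAbove]
  ring

/-- coordinates -/
def sp_co4 : Mink 3 ≃ₗ[ℝ] (Fin 4 → ℝ) where
  toFun a := ![a.1, a.2 0, a.2 1, a.2 2]
  invFun x := (x 0, ![x 1, x 2, x 3])
  map_add' a b := by ext i; fin_cases i <;> simp
  map_smul' t a := by ext i; fin_cases i <;> simp
  left_inv a := sp_mink_ext rfl rfl rfl rfl
  right_inv x := by ext i; fin_cases i <;> simp

lemma sp_det4_basis (a b c d : Mink 3) :
    det4 a b c d = (Module.Basis.ofEquivFun sp_co4).det ![a, b, c, d] := by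
  rw [Module.Basis.det_apply, ← Matrix.det_transpose, det4]
  congr 1
  ext i j
  fin_cases i <;> fin_cases j <;> rfl

lemma exists_sp {η : Mink 3} (h : Nul η) : ∃ p, nv p = η := by
  obtain ⟨h1, h2⟩ := h
  rw [sp_lor3] at h1
  rcases eq_or_ne (η.1 + η.2 2) 0 with h3 | h3
  · have e : η.2 2 = -η.1 := by linarith
    rw [e] at h1
    have h4 : η.2 0 = 0 := by nlinarith [mul_self_nonneg (η.2 0), mul_self_nonneg (η.2 1)]
    have h5 : η.2 1 = 0 := by nlinarith [mul_self_nonneg (η.2 0), mul_self_nonneg (η.2 1)]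
    have h6 := Real.mul_self_sqrt (x := 2 * η.1) (by linarith)
    refine ⟨(0, (√(2 * η.1) : ℝ)), sp_mink_ext ?_ ?_ ?_ ?_⟩
    · rw [sp_nv_1]; simp only [Complex.zero_re, Complex.zero_im, Complex.ofReal_re, Complex.ofReal_im]
      linarith
    · rw [sp_nv_20, h4]; simp
    · rw [sp_nv_21, h5]; simp
    · rw [sp_nv_22]; simp only [Complex.zero_re, Complex.zero_im, Complex.ofReal_re, Complex.ofReal_im]
      linarith
  · have h4 : 0 < η.1 + η.2 2 := by
      refine lt_of_le_of_ne ?_ h3.symm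
      by_contra hc
      push Not at hc
      nlinarith [mul_self_nonneg (η.2 0), mul_self_nonneg (η.2 1)]
    have h5 := Real.mul_self_sqrt h4.le
    have h6 := (Real.sqrt_pos.2 h4).ne'
    set u := √(η.1 + η.2 2)
    have h7 : η.2 0 / u * (η.2 0 / u) + -η.2 1 / u * (-η.2 1 / u) = η.1 - η.2 2 := by
      field_simp
      rw [sq u, h5]
      linarith
    refine ⟨(⟨u, 0⟩, ⟨η.2 0 / u, -η.2 1 / u⟩), sp_mink_ext ?_ ?_ ?_ ?_⟩
    · rw [sp_nv_1]; simp only []; rw [h7, h5]; ring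
    · rw [sp_nv_20]; simp only []; field_simp; ring
    · rw [sp_nv_21]; simp only []; field_simp; ring
    · rw [sp_nv_22]; simp only []; rw [h7, h5]; ring
lemma lor_nv (p q : ℂ × ℂ) : lor (nv p) (nv q) = - Complex.normSq (br p q) / 2 := by
  simp only [sp_lor3, sp_nv_1, sp_nv_20, sp_nv_21, sp_nv_22, br, Complex.normSq_apply, Complex.sub_re,
    Complex.sub_im, Complex.mul_re, Complex.mul_im]
  ring
lemma det4_map (A : Mink 3 →ₗ[ℝ] Mink 3) (a b c d : Mink 3) :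
    det4 (A a) (A b) (A c) (A d) = LinearMap.det A * det4 a b c d := by
  rw [sp_det4_basis, sp_det4_basis, ← Module.Basis.det_comp]
  congr 1
  ext i : 1
  fin_cases i <;> rfl

lemma sp_im_num (p q r s : ℂ × ℂ) : (br s q * br p r * (starRingEnd ℂ) (br r q * br p s)).im =
    -2 * det4 (nv p) (nv q) (nv r) (nv s) := by
  simp only [sp_det4_eq, sp_nv_1, sp_nv_20, sp_nv_21, sp_nv_22, br, Complex.sub_re, Complex.sub_im,
    Complex.mul_re, Complex.mul_im, Complex.conj_re, Complex.conj_im]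
  ring

lemma sp_im_cr (p q r s : ℂ × ℂ) : (cr p q r s).im =
    -2 * det4 (nv p) (nv q) (nv r) (nv s) / Complex.normSq (br r q * br p s) := by
  rw [← sp_im_num, cr, Complex.div_im]
  simp only [Complex.mul_im (br s q * br p r), Complex.conj_re, Complex.conj_im]
  ring

/-- the sign of the shape is the orientation -/
lemma im_cr : ∃ ε : ℝ, ε ≠ 0 ∧ ∀ p q r s : ℂ × ℂ, br r q ≠ 0 → br p s ≠ 0 → ∃ c : ℝ, 0 < c ∧
    (cr p q r s).im = c * ε * det4 (nv p) (nv q) (nv r) (nv s) :=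
  ⟨-2, by norm_num, fun p q r s h1 h2 => ⟨(Complex.normSq (br r q * br p s))⁻¹,
    inv_pos.2 (Complex.normSq_pos.2 (mul_ne_zero h1 h2)), by rw [sp_im_cr]; ring⟩⟩
/-- opposite sides of a face -/
lemma det4_side {a b c d d' e : Mink 3} (h : LinearIndependent ℝ ![a, b, c, d]) (ha : lor e a = 0)
    (hb : lor e b = 0) (hc : lor e c = 0) (h1 : lor e d < 0) (h2 : 0 < lor e d') :
    det4 a b c d' * det4 a b c d < 0 := by
  have h0 : det4 a b c d ≠ 0 := by
    rw [sp_det4_basis]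
    refine ((Module.Basis.ofEquivFun sp_co4).is_basis_iff_det.1 ⟨h, ?_⟩).ne_zero
    exact h.span_eq_top_of_card_eq_finrank (by simp)
  have h3 : det4 a b c d' * lor e d - det4 a b c d * lor e d' = det4 a b d d' * lor e c
      - det4 a c d d' * lor e b + det4 b c d d' * lor e a := by
    simp only [sp_det4_eq, sp_lor3]
    ring
  rw [ha, hb, hc] at h3
  have h4 : det4 a b c d' * det4 a b c d * lor e d = det4 a b c d * det4 a b c d * lor e d' := by
    linear_combination det4 a b c d * h3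
  have h5 := mul_pos (mul_self_pos.2 h0) h2
  by_contra h6
  push Not at h6
  nlinarith [mul_nonneg h6 (neg_pos.2 h1).le]

lemma sp_nsq_inv (A : Mink 3 →ₗ[ℝ] Mink 3) (hA : ∀ x y, lor (A x) (A y) = lor x y)
    (e1 : nv p' = A (nv p)) (e2 : nv q' = A (nv q)) :
    Complex.normSq (br p' q') = Complex.normSq (br p q) := by
  have h := hA (nv p) (nv q)
  rw [← e1, ← e2, lor_nv, lor_nv] at h
  linarith

lemma sp_one_sub_cr (h1 : br r q ≠ 0) (h2 : br p s ≠ 0) :
    1 - cr p q r s = br p q * br r s / (br r q * br p s) := by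
  rw [cr, one_sub_div (mul_ne_zero h1 h2)]
  congr 1
  simp only [br]
  ring

lemma cr_inv (A : Mink 3 →ₗ[ℝ] Mink 3) (hA : ∀ x y, lor (A x) (A y) = lor x y)
    (hd : LinearMap.det A = 1) (h1 : br r q ≠ 0) (h2 : br p s ≠ 0) (e1 : nv p' = A (nv p))
    (e2 : nv q' = A (nv q)) (e3 : nv r' = A (nv r)) (e4 : nv s' = A (nv s)) :
    cr p' q' r' s' = cr p q r s := by
  have a1 := sp_nsq_inv A hA e3 e2
  have a2 := sp_nsq_inv A hA e1 e4
  have h1' : br r' q' ≠ 0 := Complex.normSq_pos.1 (a1 ▸ Complex.normSq_pos.2 h1)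
  have h2' : br p' s' ≠ 0 := Complex.normSq_pos.1 (a2 ▸ Complex.normSq_pos.2 h2)
  have b1 : Complex.normSq (cr p' q' r' s') = Complex.normSq (cr p q r s) := by
    simp only [cr, map_div₀, map_mul, a1, a2, sp_nsq_inv A hA e4 e2, sp_nsq_inv A hA e1 e3]
  have b2 : Complex.normSq (1 - cr p' q' r' s') = Complex.normSq (1 - cr p q r s) := by
    simp only [sp_one_sub_cr h1 h2, sp_one_sub_cr h1' h2', map_div₀, map_mul, a1, a2,
      sp_nsq_inv A hA e1 e2, sp_nsq_inv A hA e3 e4]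
  apply Complex.ext
  · simp only [Complex.normSq_apply, Complex.sub_re, Complex.sub_im, Complex.one_re,
      Complex.one_im] at b1 b2
    linarith
  · rw [sp_im_cr, sp_im_cr, e1, e2, e3, e4, det4_map, hd, one_mul, map_mul, map_mul, a1, a2]

/-- the real linear extension of `nv x ↦ br x q * conj (br p x)` -/
noncomputable def sp_lam (p q : ℂ × ℂ) : Mink 3 →ₗ[ℝ] ℂ where
  toFun v := q.2 * (starRingEnd ℂ) p.1 * (v.2 0 + v.2 1 * Complex.I)
    - q.2 * (starRingEnd ℂ) p.2 * (v.1 + v.2 2) - q.1 * (starRingEnd ℂ) p.1 * (v.1 - v.2 2)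
    + q.1 * (starRingEnd ℂ) p.2 * (v.2 0 - v.2 1 * Complex.I)
  map_add' a b := by simp; ring
  map_smul' t a := by simp; ring

lemma sp_lam_nv (p q x : ℂ × ℂ) : sp_lam p q (nv x) = br x q * (starRingEnd ℂ) (br p x) := by
  apply Complex.ext <;>
  · simp only [sp_lam, LinearMap.coe_mk, AddHom.coe_mk, sp_nv_1, sp_nv_20, sp_nv_21, sp_nv_22, br,
      Complex.sub_re, Complex.sub_im, Complex.add_re, Complex.add_im, Complex.mul_re,
      Complex.mul_im, Complex.conj_re, Complex.conj_im, Complex.ofReal_re, Complex.ofReal_im,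
      Complex.I_re, Complex.I_im]
    ring

lemma sp_br_self (p : ℂ × ℂ) : br p p = 0 := by simp [br, mul_comm]

lemma sp_cr_lam (p q r x : ℂ × ℂ) :
    cr p q r x = br p r / br r q * (sp_lam p q (nv x) / (Complex.normSq (br p x) : ℝ)) := by
  rw [sp_lam_nv, cr, ← Complex.mul_conj]
  rcases eq_or_ne (br p x) 0 with h | h
  · simp [h]
  · have : (starRingEnd ℂ) (br p x) ≠ 0 := by simpa using h
    rw [mul_div_mul_right _ _ this]
    ring

lemma cr_par (A : Mink 3 →ₗ[ℝ] Mink 3) (hA : ∀ x y, lor (A x) (A y) = lor x y)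
    (h0 : A (nv p) = nv p) (ht : ∀ v, lor v (nv p) = 0 → ∃ t : ℝ, A v = v + t • nv p)
    (h1 : br p q ≠ 0) (h2 : br p r ≠ 0) (h3 : br r q ≠ 0) (e2 : nv q' = A (nv q))
    (e3 : nv r' = A (nv r)) : cr p q r r' - cr p q r q' = 1 := by
  have a1 := sp_nsq_inv A hA h0.symm e2
  have a2 := sp_nsq_inv A hA h0.symm e3
  have n1 := (Complex.normSq_pos.2 h1).ne'
  have n2 := (Complex.normSq_pos.2 h2).ne'
  obtain ⟨t, e⟩ := ht ((Complex.normSq (br p r))⁻¹ • nv r - (Complex.normSq (br p q))⁻¹ • nv q) (by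
    rw [lor_sub_left, lor_smul_left, lor_smul_left, lor_comm (nv r), lor_comm (nv q), lor_nv,
      lor_nv]
    field_simp
    ring)
  have e' := congrArg (sp_lam p q) e
  simp only [map_sub, map_add, map_smul, ← e2, ← e3] at e'
  rw [sp_lam_nv p q p, sp_lam_nv p q q, sp_br_self, sp_br_self] at e'
  have c : cr p q r r = 1 := by rw [cr]; exact div_self (mul_ne_zero h3 h2)
  rw [← c, sp_cr_lam, sp_cr_lam, sp_cr_lam, a1, a2, ← mul_sub]
  congr 1
  simp only [Complex.real_smul, Complex.ofReal_inv, map_zero, mul_zero, zero_mul, sub_zero,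
    add_zero] at e'
  rw [div_eq_inv_mul, div_eq_inv_mul, div_eq_inv_mul]
  exact e'

/-- the vector that represents the real part of `c * sp_lam p q` -/
noncomputable def sp_wv (c : ℂ) (p q : ℂ × ℂ) : Mink 3 :=
  ((c * (q.2 * (starRingEnd ℂ) p.2 + q.1 * (starRingEnd ℂ) p.1)).re,
    ![(c * (q.2 * (starRingEnd ℂ) p.1 + q.1 * (starRingEnd ℂ) p.2)).re,
      (c * (q.1 * (starRingEnd ℂ) p.2 - q.2 * (starRingEnd ℂ) p.1)).im,
      (c * (q.1 * (starRingEnd ℂ) p.1 - q.2 * (starRingEnd ℂ) p.2)).re])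

lemma sp_lor_wv (c : ℂ) (p q : ℂ × ℂ) (v : Mink 3) : lor (sp_wv c p q) v = (c * sp_lam p q v).re := by
  simp [sp_lor3, sp_wv, sp_lam]
  ring

lemma sp_wv_wv (c : ℂ) (p q : ℂ × ℂ) :
    lor (sp_wv c p q) (sp_wv c p q) = Complex.normSq c * Complex.normSq (br p q) := by
  simp [sp_lor3, sp_wv, br, Complex.normSq_apply]
  ring

lemma cr_span (h1 : br p q ≠ 0) (h2 : br p r ≠ 0) (h3 : br r q ≠ 0) {z : ℂ} (hz : z ≠ 0) :
    ∃ w, lor w (nv p) = 0 ∧ lor w w = 1 ∧ ∀ (A : Mink 3 →ₗ[ℝ] Mink 3) (q' : ℂ × ℂ),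
      (∀ x y, lor (A x) (A y) = lor x y) → A (nv p) = nv p →
      (∃ t : ℝ, A w = w + t • nv p) → A w ≠ w → nv q' = A (nv q) → (z * cr p q r q').re ≠ 0 := by
  set c := z * (br p r / br r q) with hc
  have c0 : c ≠ 0 := mul_ne_zero hz (div_ne_zero h2 h3)
  have n1 := Complex.normSq_pos.2 h1
  have m : 0 < lor (sp_wv c p q) (sp_wv c p q) := by
    rw [sp_wv_wv]; exact mul_pos (Complex.normSq_pos.2 c0) n1
  have m1 := Real.mul_self_sqrt m.le
  have m2 := (Real.sqrt_pos.2 m).ne'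
  set u := √(lor (sp_wv c p q) (sp_wv c p q))
  refine ⟨u⁻¹ • sp_wv c p q, ?_, ?_, fun A q' hA h0 ⟨t, ht⟩ hne e hre => ?_⟩
  · rw [lor_smul_left, sp_lor_wv, sp_lam_nv, sp_br_self]; simp
  · rw [lor_smul_left, lor_smul_right, ← m1]; field_simp
  · have t0 : t ≠ 0 := fun h => hne (by rw [ht, h, zero_smul, add_zero])
    have a1 := sp_nsq_inv A hA h0.symm e
    have k := hA (u⁻¹ • sp_wv c p q) (nv q)
    rw [ht, ← e, lor_add_left, lor_smul_left, lor_smul_left, lor_smul_left, sp_lor_wv, sp_lor_wv,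
      sp_lam_nv p q q, sp_br_self, lor_nv, a1] at k
    rw [sp_cr_lam, ← mul_assoc, ← hc, ← mul_div_assoc, Complex.div_ofReal_re, a1,
      div_eq_zero_iff] at hre
    rw [hre.resolve_right n1.ne'] at k
    simp [t0, h1] at k

end Pool.Agent.Lib.MP_661727_gt.T3
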