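import Pool.Agent.Lib.MP_661727_gt.T3.P2
import Pool.Agent.Lib.MP_661727_gt.T3.Spin

/-! The triangulation dual to the polyhedron. -/

namespace Pool.Agent.Lib.MP_661727_gt.T3

open Equiv Ar

namespace Mk

variable {G : Type} [Group G] {K : Cfg G}

/-- ordered tetrahedra -/
def Fl (K : Cfg G) : Type := {φ : Fin 4 → K.C // ∃ y, K.Flag (fun j => (φ j : Mink 3)) y}

def val (φ : Fl K) : Fin 4 → Mink 3 := fun j => (φ.1 j : Mink 3)

noncomputable def vt (φ : Fl K) : Mink 3 := φ.2.choose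

lemma hvt (φ : Fl K) : K.Flag (val φ) (vt φ) := φ.2.choose_spec

lemma val_inj : Function.Injective (val (K := K)) := fun _ _ h =>
  Subtype.ext (funext fun j => Subtype.ext (congrFun h j))

lemma v_inj (φ : Fl K) : Function.Injective φ.1 := fun _ _ h =>
  (hvt φ).inj (congrArg Subtype.val h)

def mk {ψ : Fin 4 → Mink 3} {y : Mink 3} (h : K.Flag ψ y) : Fl K :=
  ⟨fun j => ⟨ψ j, h.sub j⟩, y, h⟩

lemma vt_mk {ψ : Fin 4 → Mink 3} {y : Mink 3} (h : K.Flag ψ y) : vt (mk h) = y :=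
  (hvt (mk h)).uniq h

instance : MulAction G (Fl K) where
  smul g φ := ⟨fun j => g • φ.1 j, _, (hvt φ).smul g⟩
  one_smul φ := Subtype.ext (funext fun j => one_smul G (φ.1 j))
  mul_smul g h φ := Subtype.ext (funext fun j => mul_smul g h (φ.1 j))

def pm (φ : Fl K) (s : Perm (Fin 4)) : Fl K := ⟨fun j => φ.1 (s j), _, (hvt φ).pm s⟩

lemma vt_pm (φ : Fl K) (s : Perm (Fin 4)) : vt (pm φ s) = vt φ :=
  (hvt (pm φ s)).uniq ((hvt φ).pm s)

lemma same {φ ψ : Fl K} (h : vt φ = vt ψ) : ∃ s, ψ = pm φ s := by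
  obtain ⟨s, e⟩ := (hvt φ).same (h ▸ hvt ψ)
  exact ⟨s, val_inj e⟩

lemma ex_flip (φ : Fl K) : ∃ ψ : Fl K, (∀ j, j ≠ 3 → ψ.1 j = φ.1 j) ∧ vt ψ ≠ vt φ := by
  obtain ⟨ψ, y, h, e, n⟩ := (hvt φ).edge
  exact ⟨mk h, fun j hj => Subtype.ext (e j hj), by rwa [vt_mk]⟩

noncomputable def flip (φ : Fl K) : Fl K := (ex_flip φ).choose

lemma v_flip (φ : Fl K) (j : Fin 4) (hj : j ≠ 3) : (flip φ).1 j = φ.1 j :=
  (ex_flip φ).choose_spec.1 j hj

lemma vt_flip (φ : Fl K) : vt (flip φ) ≠ vt φ := (ex_flip φ).choose_spec.2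

lemma flip_ne (φ : Fl K) : flip φ ≠ φ := fun h => vt_flip φ (congrArg vt h)

lemma cone (x : Mink 3) (φ ψ : Fl K) : ∃ a : Fin 4 → ℝ, (∀ i, 0 ≤ a i) ∧
    (∀ i, ψ.1 i = φ.1 i → a i = 0) ∧ - lor (vt ψ) x = - lor (vt φ) x +
      ∑ i, a i * (- lor (vt (flip (pm φ (swap 3 i)))) x - - lor (vt φ) x) := by
  obtain ⟨a, a0, a1, e⟩ := (hvt φ).cone (fun i => vt (flip (pm φ (swap 3 i))))
    (fun i => (hvt _).mem) (fun i j hij => by
      have h3 : swap 3 i j ≠ 3 := fun h => hij (by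
        have := congrArg (swap 3 i) h
        rw [swap_apply_self, swap_apply_left] at this
        exact this.symm)
      have := (hvt (flip (pm φ (swap 3 i)))).act (swap 3 i j)
      rw [val, v_flip _ _ h3] at this
      simpa [pm, val] using this)
    (fun i => by rw [← vt_pm φ (swap 3 i)]; exact vt_flip _) (hvt ψ).mem
  refine ⟨a, a0, fun i hi => a1 i ?_, ?_⟩
  · have := (hvt ψ).act i
    rwa [val, hi] at this
  · conv_lhs => rw [e]
    simp only [Fin.sum_univ_four, lor_add_left, lor_smul_left, lor_sub_left]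
    ring

noncomputable def sp (η : K.C) : ℂ × ℂ := (exists_sp (K.light η η.2)).choose

lemma nv_sp (η : K.C) : nv (sp η) = η := (exists_sp (K.light η η.2)).choose_spec

lemma br_ne (x y : K.C) (h : x ≠ y) : br (sp x) (sp y) ≠ 0 := fun e => by
  have h1 := lor_nv (sp x) (sp y)
  have h2 := K.neg x x.2 y y.2 fun e => h (Subtype.ext e)
  rw [nv_sp, nv_sp, e] at h1
  simp at h1
  exact h2.ne h1

lemma br_v (φ : Fl K) {i j : Fin 4} (h : i ≠ j) : br (sp (φ.1 i)) (sp (φ.1 j)) ≠ 0 :=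
  br_ne _ _ fun e => h (v_inj φ e)

lemma nv_smul (g : G) (η : K.C) :
    nv (sp (g • η)) = (K.ρ g : Mink 3 →ₗ[ℝ] Mink 3) (nv (sp η)) := by
  rw [nv_sp, nv_sp]
  rfl

lemma im_flip (φ : Fl K) :
    (cr (sp (φ.1 0)) (sp (φ.1 1)) (sp (φ.1 2)) (sp ((flip φ).1 3))).im *
      (cr (sp (φ.1 0)) (sp (φ.1 1)) (sp (φ.1 2)) (sp (φ.1 3))).im < 0 := by
  obtain ⟨ε, hε, h⟩ := im_cr
  obtain ⟨c, hc, e⟩ := h (sp (φ.1 0)) (sp (φ.1 1)) (sp (φ.1 2)) (sp (φ.1 3))
    (br_v φ (by decide)) (br_v φ (by decide))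
  obtain ⟨c', hc', e'⟩ := h (sp (φ.1 0)) (sp (φ.1 1)) (sp (φ.1 2)) (sp ((flip φ).1 3))
    (br_v φ (by decide)) (by rw [← v_flip φ 0 (by decide)]; exact br_v _ (by decide))
  have hv : ∀ j, j ≠ 3 → val (flip φ) j = val φ j := fun j hj =>
    congrArg Subtype.val (v_flip φ j hj)
  obtain ⟨d1, d2⟩ := (hvt φ).side (hvt (flip φ)) hv fun e => flip_ne φ (val_inj e)
  have z : ∀ j, j ≠ 3 → lor (vt (flip φ) - vt φ) (val φ j) = 0 := fun j hj => by
    rw [lor_sub_left, (hvt φ).act j, ← hv j hj, (hvt (flip φ)).act j, sub_self]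
  have li : LinearIndependent ℝ ![val φ 0, val φ 1, val φ 2, val φ 3] := by
    convert (hvt φ).li using 1
    funext j
    fin_cases j <;> rfl
  have := det4_side li (z 0 (by decide)) (z 1 (by decide)) (z 2 (by decide)) d1 d2
  rw [e, e']
  simp only [nv_sp]
  have p : 0 < c * c' * ε ^ 2 := by positivity
  have q := mul_neg_of_pos_of_neg p this
  simp only [val] at q
  linarith

end Mk

open Mk in
theorem exists_tri {G : Type} [Group G] (K : Cfg G) : Nonempty (Tri G K.C) := by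
  obtain ⟨x, hx, hf⟩ := K.exists_ht
  have gen : ∀ φ ψ : Fl K, - lor (vt φ) x = - lor (vt ψ) x → vt φ = vt ψ := fun φ ψ h =>
    hx _ _ _ _ (hvt φ) (hvt ψ) (neg_injective h)
  have all : ∀ η : K.C, ∃ φ : Fl K, φ.1 0 = η := fun η => by
    obtain ⟨φ, y, h, e⟩ := K.exists_flag η.2
    exact ⟨mk h, Subtype.ext e⟩
  have m0 : ∀ φ ψ : Fl K, (∀ s, - lor (vt φ) x < - lor (vt (flip (pm φ s))) x) →
      - lor (vt φ) x ≤ - lor (vt ψ) x := fun φ ψ h => by
    obtain ⟨a, a0, -, e⟩ := cone x φ ψ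
    rw [e]
    exact le_add_of_nonneg_right
      (Finset.sum_nonneg fun i _ => mul_nonneg (a0 i) (sub_nonneg.2 (h _).le))
  have m1 : ∀ φ ψ : Fl K, φ.1 0 = ψ.1 0 →
      (∀ s : Perm (Fin 4), s 0 = 0 → - lor (vt φ) x < - lor (vt (flip (pm φ s))) x) →
      - lor (vt φ) x ≤ - lor (vt ψ) x := fun φ ψ h0 h => by
    obtain ⟨a, a0, a1, e⟩ := cone x φ ψ
    rw [e]
    refine le_add_of_nonneg_right (Finset.sum_nonneg fun i _ => ?_)
    by_cases hi : i = 0
    · rw [hi, a1 0 h0.symm, zero_mul]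
    · exact mul_nonneg (a0 i) (sub_nonneg.2
        (h _ (swap_apply_of_ne_of_ne (by decide) (Ne.symm hi))).le)
  obtain ⟨η0, h0⟩ := K.ne
  refine ⟨{
    F := Fl K
    ne := ⟨(all ⟨η0, h0⟩).choose⟩
    v := fun φ => φ.1
    v_smul := fun _ _ _ => rfl
    ext := fun _ _ h => Subtype.ext h
    pm := pm
    v_pm := fun _ _ _ => rfl
    lab := fun φ i j g h => ?_
    free := fun g a b h h1 h2 => K.free2 g a.2 b.2 (fun e => h (Subtype.ext e))
      (congrArg Subtype.val h1) (congrArg Subtype.val h2)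
    fin := ?_
    all := all
    flip := flip
    v_flip := v_flip
    flip_ne := flip_ne
    two := fun φ ψ h => ?_
    ht := fun φ => - lor (vt φ) x
    ht_pm := fun φ s => by rw [vt_pm]
    ht_fin := fun R => ((hf R).preimage val_inj.injOn).subset fun φ h => ⟨_, hvt φ, h⟩
    ht_ne := fun φ h => vt_flip φ (gen _ _ h)
    min0 := fun φ ψ h h' => same (gen _ _ ((m0 φ ψ h).antisymm (m0 ψ φ h')))
    min1 := fun φ ψ e h h' => same (gen _ _ ((m1 φ ψ e h).antisymm (m1 ψ φ e.symm h')))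
    max2 := fun φ h h' ψ e0 e1 => ?_
    sp := sp
    br_ne := br_ne
    cr_smul := fun g φ => cr_inv (K.ρ g) (K.isom g) (K.det g) (br_v φ (by decide))
      (br_v φ (by decide)) (nv_smul g _) (nv_smul g _) (nv_smul g _) (nv_smul g _)
    im_flip := im_flip
    par := fun g φ h => ?_
    span := fun φ z hz => ?_ }⟩
  · have e : K.ρ g (φ.1 i) = φ.1 j := congrArg Subtype.val h
    have := K.lab _ (hvt φ).mem g _ (φ.1 i).2 ((hvt φ).act i) (e ▸ (hvt φ).act j)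
    exact (hvt φ).inj (this.symm.trans e)
  · obtain ⟨S, hS, h⟩ := K.flag_orb
    exact ⟨val ⁻¹' S, hS.preimage val_inj.injOn, fun φ => h _ _ (hvt φ)⟩
  · exact ((hvt φ).two (hvt (flip φ)) (hvt ψ) (fun j hj => congrArg Subtype.val (v_flip φ j hj))
      (fun j hj => congrArg Subtype.val (h j hj)) fun e => flip_ne φ (val_inj e)).imp
      (fun e => val_inj e) fun e => val_inj e
  · obtain ⟨a, a0, a1, e⟩ := cone x φ ψ
    have p3 : pm φ (swap 3 3) = φ := Subtype.ext (funext fun j => by simp [pm])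
    rw [Fin.sum_univ_four, a1 0 e0, a1 1 e1, p3, swap_comm 3 2] at e
    have l : - lor (vt ψ) x ≤ - lor (vt φ) x := by
      have b2 := mul_nonneg (a0 2) (sub_nonneg.2 h'.le)
      have b3 := mul_nonneg (a0 3) (sub_nonneg.2 h.le)
      linarith
    exact l.lt_or_eq.imp id fun e => same (gen _ _ e.symm)
  · have e : K.ρ g (φ.1 0) = φ.1 0 := congrArg Subtype.val h
    refine cr_par (K.ρ g) (K.isom g) ?_ ?_ (br_v φ (by decide)) (br_v φ (by decide))
      (br_v φ (by decide)) (nv_smul g _) (nv_smul g _)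
    · rw [nv_sp]
      exact e
    · rw [nv_sp]
      exact K.transl g _ (φ.1 0).2 e
  · obtain ⟨w, w0, w1, h⟩ := cr_span (br_v φ (by decide : (0 : Fin 4) ≠ 1))
      (br_v φ (by decide : (0 : Fin 4) ≠ 2)) (br_v φ (by decide : (2 : Fin 4) ≠ 1)) hz
    rw [nv_sp] at w0 h
    obtain ⟨g, e, n⟩ := K.move _ (φ.1 0).2 w w0 w1
    exact ⟨g, Subtype.ext e, h (K.ρ g) _ (K.isom g) e (K.transl g _ (φ.1 0).2 e w w0) n
      (nv_smul g _)⟩

end Pool.Agent.Lib.MP_661727_gt.T3
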