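import Pool.Agent.Lib.MP_661727_gt.T3.Defs

/-! Specialisation of finitely generated rings. -/

namespace Pool.Agent.Lib.MP_661727_gt.T3

variable {R : Type} [CommRing R]

/-- a subring containing the images of the generators contains the whole image -/
lemma spec_mem {K : Type} [CommRing K] {t : Finset R} (ht : Algebra.adjoin ℤ (t : Set R) = ⊤)
    (χ : R →+* K) (S : Subring K) (h : ∀ r ∈ t, χ r ∈ S) (r : R) : χ r ∈ S := by
  have hr : r ∈ Algebra.adjoin ℤ (t : Set R) := ht ▸ Algebra.mem_top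
  induction hr using Algebra.adjoin_induction with
  | mem x hx => exact h x hx
  | algebraMap a => simp
  | add x y _ _ hx hy => rw [map_add]; exact S.add_mem hx hy
  | mul x y _ _ hx hy => rw [map_mul]; exact S.mul_mem hx hy

/-- a point with values in a number field -/
lemma spec_point (ft : Algebra.FiniteType ℤ R) (ψ : R →+* ℂ) {u : R} (hu : ψ u ≠ 0) :
    ∃ (K : Type) (_ : Field K) (_ : NumberField K) (χ : R →+* K), χ u ≠ 0 ∧
      ∀ r, ψ r = 0 → χ r = 0 := by
  classical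
  obtain ⟨t, ht⟩ := ft.out
  let s : Finset ℂ := insert (ψ u)⁻¹ (t.image ψ)
  let S : Subalgebra ℚ ℂ := Algebra.adjoin ℚ (s : Set ℂ)
  have hS : ∀ r, ψ r ∈ S.toSubring := spec_mem ht ψ S.toSubring fun r hr =>
    Algebra.subset_adjoin (by
      simp only [s, Finset.coe_insert, Finset.coe_image]
      exact Or.inr ⟨r, hr, rfl⟩)
  have hi : (ψ u)⁻¹ ∈ S := Algebra.subset_adjoin (by simp [s])
  have fS : Algebra.FiniteType ℚ S := Algebra.FiniteType.adjoin_of_finite s.finite_toSet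
  obtain ⟨m, hm⟩ := Ideal.exists_maximal S
  let : Field (S ⧸ m) := Ideal.Quotient.field m
  have fK : Algebra.FiniteType ℚ (S ⧸ m) :=
    Algebra.FiniteType.of_surjective (Ideal.Quotient.mkₐ ℚ m) (Ideal.Quotient.mkₐ_surjective ℚ m)
  have hf : Module.Finite ℚ (S ⧸ m) := finite_of_finite_type_of_isJacobsonRing ℚ (S ⧸ m)
  have cz : CharZero (S ⧸ m) := algebraRat.charZero (S ⧸ m)
  have nf : NumberField (S ⧸ m) := 
    { to_charZero := cz
      to_finiteDimensional := by convert hf; exact Subsingleton.elim _ _ }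
  let ψ' : R →+* S := ψ.codRestrict S hS
  refine ⟨S ⧸ m, inferInstance, nf, (Ideal.Quotient.mk m).comp ψ', ?_, ?_⟩
  · have h1 : ψ' u * ⟨(ψ u)⁻¹, hi⟩ = 1 := Subtype.ext (mul_inv_cancel₀ hu)
    intro h0
    have h2 := congrArg (Ideal.Quotient.mk m) h1
    rw [map_mul, map_one] at h2
    have h3 : Ideal.Quotient.mk m (ψ' u) = 0 := h0
    rw [h3, zero_mul] at h2
    exact zero_ne_one h2
  · intro r hr
    have : ψ' r = 0 := Subtype.ext hr
    simp [this]

/-- the elements that become integral after multiplication by a power of `n` -/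
def specRing (K : Type) [Field K] (n : ℕ) : Subring K where
  carrier := {x | ∃ m : ℕ, IsIntegral ℤ ((n : K) ^ m * x)}
  mul_mem' := by
    rintro x y ⟨a, ha⟩ ⟨b, hb⟩
    refine ⟨a + b, ?_⟩
    have e : (n : K) ^ (a + b) * (x * y) = (n : K) ^ a * x * ((n : K) ^ b * y) := by ring
    rw [e]
    exact ha.mul hb
  one_mem' := ⟨0, by simpa using isIntegral_one⟩
  add_mem' := by
    rintro x y ⟨a, ha⟩ ⟨b, hb⟩
    refine ⟨a + b, ?_⟩
    have hn : IsIntegral ℤ (n : K) := by
      simpa using (isIntegral_algebraMap (R := ℤ) (A := K) (x := (n : ℤ)))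
    have e : (n : K) ^ (a + b) * (x + y) =
        (n : K) ^ b * ((n : K) ^ a * x) + (n : K) ^ a * ((n : K) ^ b * y) := by ring
    rw [e]
    exact ((hn.pow b).mul ha).add ((hn.pow a).mul hb)
  zero_mem' := ⟨0, by simpa using isIntegral_zero⟩
  neg_mem' := by
    rintro x ⟨a, ha⟩
    exact ⟨a, by simpa using ha.neg⟩

lemma specRing_finite (K : Type) [Field K] [NumberField K] {n k : ℕ} (hk : 0 < k)
    (h : k.Coprime n) : Finite (specRing K n ⧸ Ideal.span {(k : specRing K n)}) := by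
  let ι : NumberField.RingOfIntegers K →+* specRing K n :=
    (algebraMap (NumberField.RingOfIntegers K) K).codRestrict (specRing K n) fun o =>
      ⟨0, by simpa using o.isIntegral_coe⟩
  have hk0 : Ideal.span {(k : NumberField.RingOfIntegers K)} ≠ ⊥ := by
    rw [Ne, Ideal.span_singleton_eq_bot]
    exact_mod_cast hk.ne'
  have f0 : Finite (NumberField.RingOfIntegers K ⧸
      Ideal.span {(k : NumberField.RingOfIntegers K)}) :=
    Ideal.finiteQuotientOfFreeOfNeBot _ hk0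
  let g := Ideal.quotientMap (Ideal.span {(k : specRing K n)}) ι
    (I := Ideal.span {(k : NumberField.RingOfIntegers K)}) (by
      rw [Ideal.span_le, Set.singleton_subset_iff]
      show ι (k : NumberField.RingOfIntegers K) ∈ Ideal.span {(k : specRing K n)}
      rw [map_natCast]
      exact Ideal.mem_span_singleton_self _)
  refine Finite.of_surjective g ?_
  intro y
  obtain ⟨x, rfl⟩ := Ideal.Quotient.mk_surjective y
  obtain ⟨m, hm⟩ := x.2
  have hc : IsCoprime (k : ℤ) ((n : ℤ) ^ m) := (Nat.isCoprime_iff_coprime.2 h).pow_right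
  obtain ⟨b, a, hab⟩ := hc
  refine ⟨Ideal.Quotient.mk _ ((a : NumberField.RingOfIntegers K) * ⟨(n : K) ^ m * x, hm⟩), ?_⟩
  rw [Ideal.quotientMap_mk, Ideal.Quotient.eq, Ideal.mem_span_singleton]
  refine ⟨-(b : specRing K n) * x, Subtype.ext ?_⟩
  have hab' : (b : K) * (k : K) + (a : K) * (n : K) ^ m = 1 := by exact_mod_cast congrArg (Int.cast : ℤ → K) hab
  have e1 : ((ι ((a : NumberField.RingOfIntegers K) * ⟨(n : K) ^ m * x, hm⟩) : specRing K n) : K) =
      (a : K) * ((n : K) ^ m * x) := by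
    rw [map_mul, map_intCast]
    rfl
  push_cast
  rw [e1]
  linear_combination (x : K) * hab'

lemma specRing_dvd (K : Type) [Field K] [NumberField K] {n k : ℕ} (hk : 0 < k)
    (h : k.Coprime n) (a : ℤ) (hd : (k : specRing K n) ∣ (a : specRing K n)) : (k : ℤ) ∣ a := by
  obtain ⟨x, hx⟩ := hd
  obtain ⟨m, hm⟩ := x.2
  have hx' : (a : K) = (k : K) * x := by exact_mod_cast congrArg Subtype.val hx
  have hk0 : (k : K) ≠ 0 := by exact_mod_cast hk.ne'
  have hk1 : (k : ℚ) ≠ 0 := by exact_mod_cast hk.ne'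
  have e : (n : K) ^ m * x = algebraMap ℚ K ((n : ℚ) ^ m * a / k) := by
    rw [map_div₀, map_mul, map_pow, map_natCast, map_natCast, map_intCast, hx']
    field_simp
  rw [e, isIntegral_algebraMap_iff (algebraMap ℚ K).injective] at hm
  obtain ⟨c, hc⟩ := IsIntegrallyClosed.isIntegral_iff.1 hm
  have hc' : (c : ℚ) * k = (n : ℚ) ^ m * a := by
    have : (c : ℚ) = (n : ℚ) ^ m * a / k := by simpa using hc
    rw [this]
    field_simp
  have hz : c * k = (n : ℤ) ^ m * a := by exact_mod_cast hc'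
  have hco : IsCoprime (k : ℤ) ((n : ℤ) ^ m) := (Nat.isCoprime_iff_coprime.2 h).pow_right
  exact hco.dvd_of_dvd_mul_left ⟨c, by rw [← hz]; ring⟩

theorem spec0 (ft : Algebra.FiniteType ℤ R) (ψ : R →+* ℂ) {u : R} (hu : ψ u ≠ 0) :
    ∃ n : ℕ, 0 < n ∧ ∃ (R1 : Type) (_ : CommRing R1) (φ : R →+* R1), IsUnit (φ u) ∧
      (∀ r, ψ r = 0 → φ r = 0) ∧ ∀ k : ℕ, 0 < k → k.Coprime n →
        Finite (R1 ⧸ Ideal.span {(k : R1)}) ∧ ∀ a : ℤ, (k : R1) ∣ (a : R1) → (k : ℤ) ∣ a := by
  classical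
  obtain ⟨K, _, _, χ, hχ, h0⟩ := spec_point ft ψ hu
  obtain ⟨t, ht⟩ := ft.out
  have : Algebra.IsAlgebraic ℤ K :=
    (IsFractionRing.comap_isAlgebraic_iff (A := ℤ) (K := ℚ) (C := K)).2 inferInstance
  obtain ⟨y, hy, hint⟩ := Algebra.IsAlgebraic.exists_integral_multiples ℤ
    (insert (χ u)⁻¹ (t.image χ))
  have hmem : ∀ z ∈ insert (χ u)⁻¹ (t.image χ), z ∈ specRing K y.natAbs := by
    intro z hz
    refine ⟨1, ?_⟩
    have h1 := hint z hz
    rw [pow_one]
    rcases Int.natAbs_eq y with h | h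
    · have : ((y.natAbs : ℕ) : K) = (y : K) := by
        conv_rhs => rw [h]
        simp
      rw [this]; simpa using h1
    · have : ((y.natAbs : ℕ) : K) = -(y : K) := by
        conv_rhs => rw [h]
        simp
      rw [this]; simpa using h1.neg
  have hall : ∀ r, χ r ∈ specRing K y.natAbs := spec_mem ht χ _ fun r hr =>
    hmem _ (Finset.mem_insert_of_mem (Finset.mem_image_of_mem χ hr))
  refine ⟨y.natAbs, Int.natAbs_pos.2 hy, specRing K y.natAbs, inferInstance,
    χ.codRestrict _ hall, ?_, ?_, fun k hk hc => ⟨specRing_finite K hk hc, specRing_dvd K hk hc⟩⟩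
  · exact IsUnit.of_mul_eq_one ⟨(χ u)⁻¹, hmem _ (Finset.mem_insert_self _ _)⟩
      (Subtype.ext (mul_inv_cancel₀ hχ))
  · intro r hr
    exact Subtype.ext (h0 r hr)

theorem spec (ft : Algebra.FiniteType ℤ R) (ψ : R →+* ℂ) {u : R} (hu : ψ u ≠ 0) :
    ∃ n : ℕ, 0 < n ∧ ∀ l : ℕ, l.Prime → ¬ l ∣ n →
      ∀ (k : Type) [Field k] [IsAlgClosed k] [CharP k l], ∃ φ : R →+* k, φ u ≠ 0 ∧
        (∀ r, ψ r = 0 → φ r = 0) ∧ (Set.range φ).Finite := by
  obtain ⟨n, hn, R1, _, φ, hφ, h0, hk⟩ := spec0 ft ψ hu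
  refine ⟨n, hn, fun l hl hln k _ _ _ => ?_⟩
  obtain ⟨hfin, hdvd⟩ := hk l hl.pos ((Nat.Prime.coprime_iff_not_dvd hl).2 hln)
  have hne : Ideal.span {(l : R1)} ≠ ⊤ := by
    intro h
    have h1 : (l : R1) ∣ ((1 : ℤ) : R1) := by
      rw [Int.cast_one, ← Ideal.mem_span_singleton, h]
      exact Submodule.mem_top
    have h2 := hdvd 1 h1
    have h3 : l ∣ 1 := by exact_mod_cast h2
    exact hl.one_lt.ne' (Nat.dvd_one.1 h3)
  obtain ⟨M, hM, hle⟩ := Ideal.exists_le_maximal _ hne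
  let : Field (R1 ⧸ M) := Ideal.Quotient.field M
  have fF : Finite (R1 ⧸ M) :=
    Finite.of_surjective (Ideal.Quotient.factor hle) (Ideal.Quotient.factor_surjective hle)
  have : Fact l.Prime := ⟨hl⟩
  have hl0 : (l : R1 ⧸ M) = 0 := by
    rw [← map_natCast (Ideal.Quotient.mk M), Ideal.Quotient.eq_zero_iff_mem]
    exact hle (Ideal.mem_span_singleton_self _)
  have : CharP (R1 ⧸ M) l := (CharP.charP_iff_prime_eq_zero hl).2 hl0
  let : Algebra (ZMod l) (R1 ⧸ M) := ZMod.algebra _ l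
  let : Algebra (ZMod l) k := ZMod.algebra _ l
  have : Module.Finite (ZMod l) (R1 ⧸ M) := Module.Finite.of_finite
  let j : (R1 ⧸ M) →ₐ[ZMod l] k := IsAlgClosed.lift
  refine ⟨j.toRingHom.comp ((Ideal.Quotient.mk M).comp φ), ?_, ?_, ?_⟩
  · exact ((hφ.map (Ideal.Quotient.mk M)).map j.toRingHom).ne_zero
  · intro r hr
    simp [h0 r hr]
  · refine (Set.finite_range j).subset ?_
    rintro _ ⟨r, rfl⟩
    exact ⟨_, rfl⟩

lemma fin_range (ft : Algebra.FiniteType ℤ R) (l : ℕ) [Fact l.Prime] (π : R →+* kk l) :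
    (Set.range π).Finite := by
  classical
  obtain ⟨t, ht⟩ := ft.out
  let S : Subalgebra (ZMod l) (kk l) := Algebra.adjoin (ZMod l) ((t.image π : Finset (kk l)) : Set (kk l))
  have hS : Module.Finite (ZMod l) S :=
    Algebra.finite_adjoin_of_finite_of_isIntegral (Finset.finite_toSet _) fun x _ =>
      Algebra.IsIntegral.isIntegral x
  have : NeZero l := ⟨(Fact.out : l.Prime).ne_zero⟩
  have fS : Finite S := Module.finite_of_finite (ZMod l)
  have hall : ∀ r, π r ∈ S.toSubring := spec_mem ht π S.toSubring fun r hr =>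
    Algebra.subset_adjoin (by
      simp only [Finset.coe_image]
      exact ⟨r, hr, rfl⟩)
  refine (Set.toFinite (S : Set (kk l))).subset ?_
  rintro _ ⟨r, rfl⟩
  exact hall r

end Pool.Agent.Lib.MP_661727_gt.T3
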