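import Pool.Agent.Lib.MP_661727_gt.T3.Hens
import Pool.Agent.Lib.MP_661727_gt.T3.Spec

/-! Deformations. -/

namespace Pool.Agent.Lib.MP_661727_gt.T3

open Polynomial

section
variable {J : Type} [Fintype J]

omit [Fintype J] in
lemma dfm_den {σ : Type} (v : σ → J → ℤ) {w : J → ℚ}
    (hw : w ∈ Submodule.span ℚ (Set.range fun s j => (v s j : ℚ))) :
    ∃ k : ℕ, 0 < k ∧ ∃ u ∈ Submodule.span ℤ (Set.range v), ∀ j, (k : ℚ) * w j = u j := by
  induction hw using Submodule.span_induction with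
  | mem w hw =>
    obtain ⟨s, rfl⟩ := hw
    exact ⟨1, one_pos, v s, Submodule.subset_span ⟨s, rfl⟩, fun j => by simp⟩
  | zero => exact ⟨1, one_pos, 0, zero_mem _, fun j => by simp⟩
  | add w w' _ _ h h' =>
    obtain ⟨k, hk, u, hu, e⟩ := h
    obtain ⟨k', hk', u', hu', e'⟩ := h'
    refine ⟨k * k', mul_pos hk hk', (k' : ℤ) • u + (k : ℤ) • u',
      add_mem (Submodule.smul_mem _ _ hu) (Submodule.smul_mem _ _ hu'), fun j => ?_⟩
    simp only [Pi.add_apply, Pi.smul_apply, smul_eq_mul]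
    push_cast
    rw [← e j, ← e' j]
    ring
  | smul q w _ h =>
    obtain ⟨k, hk, u, hu, e⟩ := h
    refine ⟨k * q.den, mul_pos hk q.den_pos, q.num • u, Submodule.smul_mem _ _ hu, fun j => ?_⟩
    simp only [Pi.smul_apply, smul_eq_mul]
    push_cast
    rw [← e j, ← Rat.mul_den_eq_num q]
    ring

lemma dfm_unif (N : Submodule ℤ (J → ℤ)) :
    ∃ n : ℕ, 0 < n ∧ ∀ v : J → ℤ, (∃ k : ℕ, 0 < k ∧ (k : ℤ) • v ∈ N) → (n : ℤ) • v ∈ N := by
  let P : Submodule ℤ (J → ℤ) :=
    { carrier := {v | ∃ k : ℕ, 0 < k ∧ (k : ℤ) • v ∈ N}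
      zero_mem' := ⟨1, one_pos, by simp⟩
      add_mem' := by
        rintro v w ⟨k, hk, h⟩ ⟨k', hk', h'⟩
        refine ⟨k * k', mul_pos hk hk', ?_⟩
        have : ((k * k' : ℕ) : ℤ) • (v + w) = (k' : ℤ) • ((k : ℤ) • v) + (k : ℤ) • ((k' : ℤ) • w) := by
          rw [smul_add, smul_smul, smul_smul]
          push_cast
          rw [mul_comm (k' : ℤ)]
        rw [this]
        exact add_mem (N.smul_mem _ h) (N.smul_mem _ h')
      smul_mem' := by
        rintro c v ⟨k, hk, h⟩
        exact ⟨k, hk, by rw [smul_comm]; exact N.smul_mem _ h⟩ }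
  obtain ⟨s, hs⟩ : P.FG := IsNoetherian.noetherian P
  have h1 : ∀ v : s, ∃ k : ℕ, 0 < k ∧ (k : ℤ) • (v : J → ℤ) ∈ N := fun v => by
    have : (v : J → ℤ) ∈ P := hs ▸ Submodule.subset_span v.2
    exact this
  choose k hk hN using h1
  refine ⟨∏ v, k v, Finset.prod_pos fun v _ => hk v, fun v hv => ?_⟩
  have hv' : v ∈ Submodule.span ℤ (s : Set (J → ℤ)) := hs ▸ (hv : v ∈ P)
  clear hv
  induction hv' using Submodule.span_induction with
  | mem w hw =>
    obtain ⟨c, hc⟩ : k ⟨w, hw⟩ ∣ ∏ v, k v := Finset.dvd_prod_of_mem _ (Finset.mem_univ _)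
    rw [hc, mul_comm, Nat.cast_mul, mul_smul]
    exact N.smul_mem _ (hN ⟨w, hw⟩)
  | zero => simp
  | add w w' _ _ h h' => rw [smul_add]; exact add_mem h h'
  | smul c w _ h => rw [smul_comm]; exact N.smul_mem _ h

end

variable {I ι κ : Type} [Fintype I] [DecidableEq I] [Fintype κ] (S : MS I ι κ)

/-- the rows as a linear function of the exponents -/
noncomputable def dfmL (x : I × Bool → ℂˣ) : (I × Bool → ℚ) →ₗ[ℚ] (I → ℂ) where
  toFun v i := (v (i, false) : ℂ) * ((x (i, false))⁻¹ : ℂˣ) - (v (i, true) : ℂ) * ((x (i, true))⁻¹ : ℂˣ)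
  map_add' v w := by
    ext i
    simp only [Pi.add_apply]
    push_cast
    ring
  map_smul' q v := by
    ext i
    simp only [Pi.smul_apply, smul_eq_mul, RingHom.id_apply, Rat.smul_def]
    push_cast
    ring

omit [Fintype I] [DecidableEq I] in
lemma dfmL_row (x : I × Bool → ℂˣ) (m : Mon I) :
    dfmL x (fun j => (m.2.toAdd j : ℚ)) = row x m := by
  ext i
  simp [dfmL, row]

omit [DecidableEq I] in
lemma dfm_rank : Module.finrank ℂ (Submodule.span ℂ (Set.range fun e => row S.x0 (S.E e))) ≤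
    Module.finrank ℚ (exs S.E) := by
  let b := Module.finBasis ℚ (exs S.E)
  have h : Submodule.span ℂ (Set.range fun e => row S.x0 (S.E e)) ≤
      Submodule.span ℂ (Set.range fun i => dfmL S.x0 (b i)) := by
    rw [Submodule.span_le]
    rintro _ ⟨e, rfl⟩
    have hm : (fun j => ((S.E e).2.toAdd j : ℚ)) ∈ exs S.E := Submodule.subset_span ⟨e, rfl⟩
    have h1 := congrArg (fun v : exs S.E => dfmL S.x0 v) (b.sum_repr ⟨_, hm⟩)
    simp only [Submodule.coe_sum, Submodule.coe_smul, map_sum, map_smul, dfmL_row] at h1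
    show row S.x0 (S.E e) ∈ _
    rw [← h1]
    refine Submodule.sum_mem _ fun i _ => ?_
    exact Submodule.smul_of_tower_mem _ _ (Submodule.subset_span ⟨i, rfl⟩)
  refine (Submodule.finrank_mono h).trans ?_
  exact (finrank_range_le_card (R := ℂ) fun i => dfmL S.x0 (b i)).trans (by simp)

omit [DecidableEq I] in
lemma dfm_top : Submodule.span ℂ (Set.range fun e => row S.x0 (S.E e)) ⊔
    Submodule.span ℂ (Set.range fun c => row S.x0 (S.M c)) = ⊤ := by
  classical
  by_contra hne
  obtain ⟨f, hf, hk⟩ := Submodule.exists_le_ker_of_lt_top _ (lt_top_iff_ne_top.2 hne)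
  have hfw : ∀ v : I → ℂ, f v = ∑ i, v i * f (Pi.single i 1) := fun v => by
    rw [LinearMap.pi_apply_eq_sum_univ]
    refine Finset.sum_congr rfl fun i _ => ?_
    rw [smul_eq_mul]
    congr 2
    ext j
    simp [Pi.single_apply, eq_comm]
  have hw := S.rig (fun i => f (Pi.single i 1))
    (fun e => by
      rw [dl, ← hfw]
      exact hk (Submodule.mem_sup_left (Submodule.subset_span ⟨e, rfl⟩)))
    (fun c => by
      rw [dl, ← hfw]
      exact hk (Submodule.mem_sup_right (Submodule.subset_span ⟨c, rfl⟩)))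
  refine hf (LinearMap.ext fun v => ?_)
  rw [hfw]
  refine Finset.sum_eq_zero fun i _ => ?_
  rw [show f (Pi.single i 1) = 0 from congrFun hw i, mul_zero]

theorem MS.square : ∃ a : I → ι ⊕ κ, Function.Injective a ∧ (∀ c, ∃ j, a j = .inr c) ∧
    (jac S.x0 fun j => Sum.elim S.E S.M (a j)).det ≠ 0 ∧ ∃ n : ℕ, 0 < n ∧ ∀ e,
      S.E e ^ n ∈ Subgroup.closure {m | ∃ j e', a j = .inl e' ∧ m = S.E e'} := by
  classical
  obtain ⟨σ, b, hb, hsp, hli⟩ := exists_linearIndependent' ℂ fun e => row S.x0 (S.E e)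
  have : Finite σ := hli.finite
  have := Fintype.ofFinite σ
  have hc : Fintype.card σ ≤ Module.finrank ℚ (exs S.E) := by
    have h1 := finrank_span_eq_card hli
    rw [hsp] at h1
    rw [← h1]
    exact dfm_rank S
  let v : σ ⊕ κ → I → ℂ := fun s => row S.x0 (Sum.elim S.E S.M (Sum.map b id s))
  have htop : ⊤ ≤ Submodule.span ℂ (Set.range v) := by
    rw [← dfm_top S, ← hsp]
    refine sup_le (Submodule.span_mono ?_) (Submodule.span_mono ?_)
    · rintro _ ⟨s, rfl⟩
      exact ⟨.inl s, rfl⟩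
    · rintro _ ⟨s, rfl⟩
      exact ⟨.inr s, rfl⟩
  have hge : Fintype.card I ≤ Fintype.card σ + Fintype.card κ := by
    have h1 := finrank_range_le_card (R := ℂ) v
    rw [Set.finrank, top_le_iff.1 htop] at h1
    simpa using h1
  have hrk := S.rk
  have hcard : Fintype.card (σ ⊕ κ) = Fintype.card I := by
    rw [Fintype.card_sum]
    omega
  have hv : LinearIndependent ℂ v :=
    linearIndependent_of_top_le_span_of_card_eq_finrank htop (by simpa using hcard)
  let q : I ≃ σ ⊕ κ := Fintype.equivOfCardEq hcard.symm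
  refine ⟨fun j => Sum.map b id (q j), (hb.sumMap Function.injective_id).comp q.injective,
    fun c => ⟨q.symm (.inr c), by simp⟩, ?_, ?_⟩
  · have h1 : LinearIndependent ℂ
        (jac S.x0 fun j => Sum.elim S.E S.M (Sum.map b id (q j))).row := hv.comp q q.injective
    have h2 := Matrix.linearIndependent_rows_iff_isUnit.1 h1
    exact ((Matrix.isUnit_iff_isUnit_det _).1 h2).ne_zero
  · let w : σ → I × Bool → ℤ := fun s => (S.E (b s)).2.toAdd
    have hq : LinearIndependent ℚ fun s j => (w s j : ℚ) := by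
      refine LinearIndependent.of_comp (dfmL S.x0) ?_
      have h1 : (dfmL S.x0) ∘ (fun s j => (w s j : ℚ)) = (fun e => row S.x0 (S.E e)) ∘ b :=
        funext fun s => dfmL_row _ _
      rw [h1]
      exact hli.restrict_scalars' ℚ
    have hle : Submodule.span ℚ (Set.range fun s j => (w s j : ℚ)) ≤ exs S.E := by
      refine Submodule.span_mono ?_
      rintro _ ⟨s, rfl⟩
      exact ⟨b s, rfl⟩
    have heq : Submodule.span ℚ (Set.range fun s j => (w s j : ℚ)) = exs S.E := by
      refine Submodule.eq_of_le_of_finrank_le hle ?_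
      rw [finrank_span_eq_card hq]
      omega
    obtain ⟨n, hn, hN⟩ := dfm_unif (Submodule.span ℤ (Set.range w))
    refine ⟨n * 2, by omega, fun e => ?_⟩
    set H := Subgroup.closure {m | ∃ j e', Sum.map b id (q j) = Sum.inl e' ∧ m = S.E e'} with hH
    have hA : ∀ u ∈ Submodule.span ℤ (Set.range w), ∃ m ∈ H, m.2.toAdd = u := by
      intro u hu
      induction hu using Submodule.span_induction with
      | mem u hu =>
        obtain ⟨s, rfl⟩ := hu
        exact ⟨S.E (b s), Subgroup.subset_closure ⟨q.symm (.inl s), b s, by simp, rfl⟩, rfl⟩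
      | zero => exact ⟨1, one_mem _, rfl⟩
      | add u u' _ _ h h' =>
        obtain ⟨m, hm, rfl⟩ := h
        obtain ⟨m', hm', rfl⟩ := h'
        exact ⟨m * m', mul_mem hm hm', rfl⟩
      | smul c u _ h =>
        obtain ⟨m, hm, rfl⟩ := h
        exact ⟨m ^ c, zpow_mem hm c, by simp⟩
    have hm : (fun j => ((S.E e).2.toAdd j : ℚ)) ∈
        Submodule.span ℚ (Set.range fun s j => (w s j : ℚ)) := by
      rw [heq]
      exact Submodule.subset_span ⟨e, rfl⟩
    obtain ⟨k, hk, u, hu, hku⟩ := dfm_den w hm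
    have h1 : (k : ℤ) • (S.E e).2.toAdd = u := by
      ext j
      have := hku j
      simp only [Pi.smul_apply, smul_eq_mul]
      exact_mod_cast this
    obtain ⟨m, hm, hme⟩ := hA _ (hN _ ⟨k, hk, h1 ▸ hu⟩)
    have h2 : S.E e ^ (n * 2) = m ^ 2 := by
      rw [pow_mul]
      refine Prod.ext ?_ ?_
      · simp only [Prod.pow_fst, Int.units_sq]
      · simp only [Prod.pow_snd]
        congr 1
        apply Multiplicative.toAdd.injective
        rw [hme, toAdd_pow, natCast_zsmul]
    rw [h2]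
    exact pow_mem hm 2

omit [Fintype I] [DecidableEq I] in
lemma dfm_row {R R' : Type} [CommRing R] [CommRing R'] (π : R →+* R') {x : I × Bool → Rˣ}
    {x' : I × Bool → R'ˣ} (h : ∀ j, π (x j) = x' j) (m : Mon I) (i : I) :
    π (row x m i) = row x' m i := by
  have hi : ∀ j, π ((x j)⁻¹ : Rˣ) = ((x' j)⁻¹ : R'ˣ) := fun j => by
    refine (Units.inv_eq_of_mul_eq_one_right ?_).symm
    rw [← h, ← map_mul, Units.mul_inv, map_one]
  simp only [row, map_sub, map_mul, map_intCast, hi]

lemma dfm_jac {R R' : Type} [CommRing R] [CommRing R'] (π : R →+* R') {x : I × Bool → Rˣ}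
    {x' : I × Bool → R'ˣ} (h : ∀ j, π (x j) = x' j) (m : I → Mon I) :
    π (jac x m).det = (jac x' m).det := by
  rw [RingHom.map_det]
  congr 1
  ext j i
  exact dfm_row π h _ _

lemma dfm_root {k : Type} [Field k] {y : PowerSeries k} {n : ℕ} (hn : (n : k) ≠ 0) (h : y ^ n = 1)
    (h0 : PowerSeries.constantCoeff y = 1) : y = 1 := by
  have h1 := mul_geom_sum y n
  rw [h, sub_self, mul_eq_zero] at h1
  rcases h1 with h1 | h1
  · exact sub_eq_zero.1 h1
  · have h2 := congrArg PowerSeries.constantCoeff h1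
    simp only [map_sum, map_pow, h0, one_pow, Finset.sum_const, Finset.card_range, nsmul_eq_mul,
      mul_one, map_zero] at h2
    exact absurd h2 hn

lemma dfm_alg {R : Type} [CommRing R] {x : I × Bool → Rˣ} (hx : Sol x)
    (hg : Subring.closure (Set.range (fun j => (x j : R)) ∪
      Set.range fun j => (((x j)⁻¹ : Rˣ) : R)) = ⊤) (m : I → Mon I) (y : R) (Z : Set R)
    (hm : ∀ j, (ev x (m j) : R) = y ∨ (ev x (m j) : R) - 1 ∈ Z) (r : R) :
    ∃ A : ℤ[X][X], A ≠ 0 ∧ ∀ (R' : Type) [CommRing R'] (ψ : R →+* R') (t : R'),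
      IsUnit (ψ (jac x m).det) → ψ y = 1 + t → (∀ z ∈ Z, ψ z = 0) →
        A.eval₂ (eval₂RingHom (Int.castRingHom _) t) (ψ r) = 0 := by
  let Q := R ⧸ Ideal.span Z
  let δ : Q := Ideal.Quotient.mk _ (jac x m).det
  let B := Localization.Away δ
  let β : R →+* B := (algebraMap Q B).comp (Ideal.Quotient.mk _)
  let α : ℤ[X] →+* B := eval₂RingHom (Int.castRingHom _) (β y - 1)
  let _ : Algebra ℤ[X] B := α.toAlgebra
  have hα : algebraMap ℤ[X] B = α := rfl
  let xB : I × Bool → Bˣ := fun j => Units.map β.toMonoidHom (x j)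
  have hxB : ∀ j, β (x j) = xB j := fun j => rfl
  have hd : (IsLocalization.Away.invSelf δ : B) * (jac xB m).det = 1 := by
    rw [← dfm_jac β hxB, mul_comm]
    exact IsLocalization.Away.mul_invSelf δ
  have hu := unr xB (hx.map β) m hd (fun j => by
      rw [← ev_map' β hxB]
      rcases hm j with h | h
      · exact ⟨X + 1, by simp [hα, α, h]⟩
      · refine ⟨1, ?_⟩
        have h1 : β ((ev x (m j) : R) - 1) = 0 := by
          show algebraMap Q B (Ideal.Quotient.mk _ _) = 0
          rw [Ideal.Quotient.eq_zero_iff_mem.2 (Ideal.subset_span h), map_zero]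
        rw [map_sub, map_one, sub_eq_zero] at h1
        rw [h1, map_one]) (by
      rw [eq_top_iff]
      intro z _
      set C := Algebra.adjoin ℤ[X] (insert (IsLocalization.Away.invSelf δ : B)
        (Set.range (fun j => (xB j : B)) ∪ Set.range fun j => (((xB j)⁻¹ : Bˣ) : B))) with hC
      have h1 : ∀ r, β r ∈ C := fun r => by
        have h2 : Subring.closure (Set.range (fun j => (x j : R)) ∪
            Set.range fun j => (((x j)⁻¹ : Rˣ) : R)) ≤ C.toSubring.comap β := by
          rw [Subring.closure_le]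
          rintro _ (⟨j, rfl⟩ | ⟨j, rfl⟩)
          · exact Algebra.subset_adjoin (Or.inr (Or.inl ⟨j, rfl⟩))
          · exact Algebra.subset_adjoin (Or.inr (Or.inr ⟨j, rfl⟩))
        rw [hg] at h2
        exact h2 (Subring.mem_top r)
      obtain ⟨⟨p, _, n, rfl⟩, hz⟩ := IsLocalization.surj (Submonoid.powers δ) z
      obtain ⟨p, rfl⟩ := Ideal.Quotient.mk_surjective p
      have h3 : z = β p * IsLocalization.Away.invSelf δ ^ n := by
        have h4 : algebraMap Q B δ * IsLocalization.Away.invSelf δ = 1 :=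
          IsLocalization.Away.mul_invSelf δ
        have h5 : z * algebraMap Q B δ ^ n = β p := by
          rw [← map_pow]
          exact hz
        rw [← h5, mul_assoc, ← mul_pow, h4, one_pow, mul_one]
      rw [h3]
      have h6 : (IsLocalization.Away.invSelf δ : B) ∈ C := Algebra.subset_adjoin (Set.mem_insert _ _)
      exact mul_mem (h1 p) (pow_mem h6 n)) (β r)
  obtain ⟨A, hA, hA0⟩ := hu
  refine ⟨A, hA, fun R' _ ψ t hδ hy hZ => ?_⟩
  let ψ1 : Q →+* R' := Ideal.Quotient.lift _ ψ fun z hz => by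
    have : Ideal.span Z ≤ RingHom.ker ψ := Ideal.span_le.2 hZ
    exact this hz
  let ψ2 : B →+* R' := IsLocalization.Away.lift δ (g := ψ1) hδ
  have h2 : ∀ r, ψ2 (β r) = ψ r := fun r => IsLocalization.Away.lift_eq δ hδ _
  have h3 : ψ2.comp α = eval₂RingHom (Int.castRingHom _) t := by
    refine Polynomial.ringHom_ext' (RingHom.ext_int _ _) ?_
    simp [α, h2, hy]
  have h4 := congrArg ψ2 hA0
  rw [aeval_def, hom_eval₂, hα, h3, h2, map_zero] at h4
  exact h4

theorem MS.dfm {R : Type} [CommRing R] {x : I × Bool → Rˣ} (h : Univ S.E x) (ψ0 : R →+* ℂ)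
    (h0 : ∀ j, ψ0 (x j) = S.x0 j) (c0 : κ) : Dfm ψ0 (fun c => ev x (S.M c)) c0 := by
  classical
  obtain ⟨a, -, hc, hdet, n, hn, hcl⟩ := S.square
  set m : I → Mon I := fun j => Sum.elim S.E S.M (a j) with hm
  choose A hA hA0 using dfm_alg h.sol h.gen m (ev x (S.M c0) : R)
    (insert 0 {z | ∃ c, c ≠ c0 ∧ z = (ev x (S.M c) : R) - 1}) (fun j => by
      rcases hj : a j with e | c
      · right
        left
        simp [hm, hj, h.eqn]
      · by_cases hcc : c = c0
        · left
          simp [hm, hj, hcc]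
        · right
          right
          exact ⟨c, hcc, by simp [hm, hj]⟩)
  refine ⟨A, hA, fun T hT => ?_⟩
  obtain ⟨n1, hn1, hsp⟩ := spec h.ft ψ0 (u := (jac x m).det * ∏ r ∈ T, r) (by
    rw [map_mul, map_prod, dfm_jac ψ0 h0]
    exact mul_ne_zero hdet (Finset.prod_ne_zero_iff.2 hT))
  refine ⟨n1 * n, mul_pos hn1 hn, fun l hl hln k _ _ _ => ?_⟩
  obtain ⟨φ, hφ, hφ0, -⟩ := hsp l hl (fun hd => hln (hd.mul_right n)) k
  rw [map_mul, map_prod] at hφ
  have hnk : (n : k) ≠ 0 := fun hd => hln (((CharP.cast_eq_zero_iff k l n).1 hd).mul_left n1)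
  let xk : I × Bool → kˣ := fun j => Units.map φ.toMonoidHom (x j)
  have hxk : ∀ j, φ (x j) = xk j := fun j => rfl
  have hE : ∀ e, (ev xk (S.E e) : k) = 1 := fun e => by
    rw [← ev_map' φ hxk, h.eqn, Units.val_one, map_one]
  have hM : ∀ c, (ev xk (S.M c) : k) = 1 := fun c => by
    have h1 := hφ0 ((ev x (S.M c) : R) - 1) (by
      rw [map_sub, ev_map' ψ0 h0, S.m0, map_one, Units.val_one, sub_self])
    rwa [map_sub, map_one, sub_eq_zero, ev_map' φ hxk] at h1
  obtain ⟨x', hs, hcc, hτ⟩ := hensel xk (h.sol.map φ) m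
    (by rw [← dfm_jac φ hxk]; exact left_ne_zero_of_mul hφ)
    (fun j => if a j = .inr c0 then 1 + PowerSeries.X else 1) (fun j => by
      have h1 : (ev xk (m j) : k) = 1 := by
        rcases hj : a j with e | c
        · simpa [hm, hj] using hE e
        · simpa [hm, hj] using hM c
      rw [h1]
      split_ifs <;> simp)
  have hE' : ∀ e, ev x' (S.E e) = 1 := fun e => by
    have h1 : Subgroup.closure {m | ∃ j e', a j = .inl e' ∧ m = S.E e'} ≤ (ev x').ker := by
      rw [Subgroup.closure_le]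
      rintro _ ⟨j, e', hj, rfl⟩
      have h2 := hτ j
      simp only [hm, hj, Sum.elim_inl, reduceCtorEq, if_false] at h2
      exact Units.ext h2
    have h2 : ev x' (S.E e ^ n) = 1 := h1 (hcl e)
    refine Units.ext (dfm_root hnk ?_ ?_)
    · rw [← Units.val_pow_eq_pow_val, ← map_pow, h2, Units.val_one]
    · exact (ev_map' (PowerSeries.constantCoeff : PowerSeries k →+* k) hcc _).trans (hE e)
  obtain ⟨ψ, hψ⟩ := h.lift _ x' hs hE'
  have hcψ : PowerSeries.constantCoeff.comp ψ = φ := h.ext fun j => by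
    rw [RingHom.comp_apply, hψ, hcc, hxk]
  have hcψ' : ∀ r, PowerSeries.constantCoeff (ψ r) = φ r := fun r => by rw [← hcψ]; rfl
  have hu : ∀ c, ψ (ev x (S.M c) : R) = if c = c0 then 1 + PowerSeries.X else 1 := fun c => by
    obtain ⟨j, hj⟩ := hc c
    have h2 := hτ j
    simp only [hm, hj, Sum.elim_inr, Sum.inr.injEq] at h2
    rw [ev_map' ψ hψ, h2]
  refine ⟨ψ, by simpa using hu c0, fun c hc => by simpa [hc] using hu c, fun r hr => ?_,
    fun r => hA0 r _ ψ _ ?_ (by simpa using hu c0) ?_⟩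
  · rw [hcψ']
    exact Finset.prod_ne_zero_iff.1 (right_ne_zero_of_mul hφ) r hr
  · rw [PowerSeries.isUnit_iff_constantCoeff, hcψ']
    exact (left_ne_zero_of_mul hφ).isUnit
  · rintro _ (rfl | ⟨c, hc, rfl⟩)
    · exact map_zero _
    · rw [map_sub, hu, if_neg hc, map_one, sub_self]

end Pool.Agent.Lib.MP_661727_gt.T3
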