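import Pool.Agent.Lib.MP_661727_gt.T3.Dev

/-! Infinitesimal rigidity. -/

namespace Pool.Agent.Lib.MP_661727_gt.T3

open Equiv

namespace Tri.Base

variable {G X κ : Type} [Group G] [MulAction G X] {T : Tri G X} (B : T.Base)

/-- a representative of each orbit of flags -/
noncomputable def rigRep (p : B.I × Perm (Fin 4)) : T.F := (B.surj p.1 p.2).choose

lemma rig_tet (p : B.I × Perm (Fin 4)) : B.tet (B.rigRep p) = p.1 := (B.surj p.1 p.2).choose_spec.1

lemma rig_pos (p : B.I × Perm (Fin 4)) : B.pos (B.rigRep p) = p.2 := (B.surj p.1 p.2).choose_spec.2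

lemma rig_orb (φ : T.F) : ∃ g : G, B.rigRep (B.tet φ, B.pos φ) = g • φ :=
  B.orb _ _ (B.rig_tet (B.tet φ, B.pos φ)).symm (B.rig_pos (B.tet φ, B.pos φ)).symm

lemma rig_sum (f : T.F → ℂ) (hf : ∀ (g : G) φ, f (g • φ) = f φ) (τ : T.F → T.F)
    (hτ : ∀ (g : G) φ, τ (g • φ) = g • τ φ) (inj : Function.Injective τ) :
    ∑ p, f (τ (B.rigRep p)) = ∑ p, f (B.rigRep p) := by
  let t : B.I × Perm (Fin 4) → B.I × Perm (Fin 4) := fun p =>
    (B.tet (τ (B.rigRep p)), B.pos (τ (B.rigRep p)))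
  have ht : Function.Injective t := by
    intro p q h
    obtain ⟨g, hg⟩ := B.orb _ _ (congrArg Prod.fst h) (congrArg Prod.snd h)
    rw [← hτ] at hg
    have e := inj hg
    refine Prod.ext ?_ ?_
    · rw [← B.rig_tet p, ← B.rig_tet q, e, B.tet_smul]
    · rw [← B.rig_pos p, ← B.rig_pos q, e, B.pos_smul]
  rw [← (Finite.injective_iff_bijective.1 ht).sum_comp fun p => f (B.rigRep p)]
  refine Finset.sum_congr rfl fun p _ => ?_
  obtain ⟨g, hg⟩ := B.rig_orb (τ (B.rigRep p))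
  show _ = f (B.rigRep (B.tet _, B.pos _))
  rw [hg, hf]

lemma rig_pm_inj (s : Perm (Fin 4)) : Function.Injective fun φ : T.F => T.pm φ s := by
  intro φ ψ h
  have := congrArg (fun χ => T.pm χ s⁻¹) h
  simpa [T.pm_pm, T.pm_one] using this

/-- the quadratic form -/
lemma rig_of (ζ σ : T.F → ℂ) (z1 : ∀ (g : G) φ, ζ (g • φ) = ζ φ) (z2 : ∀ φ, ζ (T.pm φ s0) = - ζ φ)
    (z3 : ∀ φ, ζ (T.pm φ s1) * (1 - T.Z0 φ) = - (ζ φ * T.Z0 φ))
    (a1 : ∀ (g : G) φ, σ (g • φ) = σ φ) (a2 : ∀ φ, σ (T.flip φ) = σ φ)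
    (a3 : ∀ φ, σ (T.pm φ s1) = σ φ) (a4 : ∀ φ, σ (T.pm φ s2) = σ φ + ζ φ) (φ : T.F) : ζ φ = 0 := by
  classical
  obtain ⟨B⟩ := T.exists_base
  have z4 : ∀ φ, ζ (T.pm φ s2) = - ζ φ := by
    intro φ
    have h := a4 (T.pm φ s2)
    rw [T.pm_pm, show s2 * s2 = 1 by decide, T.pm_one, a4] at h
    linear_combination -h
  -- relations in one tetrahedron
  have A3 : ∀ φ (s t : Perm (Fin 4)), s * s1 = t → σ (T.pm φ t) = σ (T.pm φ s) := by
    intro φ s t h
    rw [← h, ← T.pm_pm, a3]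
  have A4 : ∀ φ (s t : Perm (Fin 4)), s * s2 = t →
      σ (T.pm φ t) = σ (T.pm φ s) + ζ (T.pm φ s) := by
    intro φ s t h
    rw [← h, ← T.pm_pm, a4]
  have Z2 : ∀ φ (s t : Perm (Fin 4)), s * s0 = t → ζ (T.pm φ t) = - ζ (T.pm φ s) := by
    intro φ s t h
    rw [← h, ← T.pm_pm, z2]
  let L : T.F → ℂ := fun φ => σ φ + σ (T.pm φ s0)
  have L0 : ∀ φ, L (T.pm φ s0) = L φ := by
    intro φ
    simp only [L]
    rw [T.pm_pm, show s0 * s0 = 1 by decide, T.pm_one, add_comm]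
  have L2 : ∀ φ, L (T.pm φ s2) = L φ := by
    intro φ
    simp only [L]
    rw [T.pm_pm, show s2 * s0 = s0 * s2 by decide, ← T.pm_pm, a4, a4, z2]
    ring
  have Lf : ∀ φ, L (T.flip φ) = L φ := by
    intro φ
    simp only [L]
    rw [← T.flip_pm φ (show s0 3 = 3 by decide), a2, a2]
  have Lg : ∀ (g : G) φ, L (g • φ) = L φ := by
    intro g φ
    simp only [L]
    rw [T.pm_smul, a1, a1]
  let c : Perm (Fin 4) := s1 * s2
  let k : Perm (Fin 4) := s1 * s0 * s2 * s1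
  let A : T.F → ℂ := fun φ => L φ + L (T.pm φ k)
  have Zne : ∀ φ, 1 - T.Z0 φ ≠ 0 := fun φ => T.Z0_s1 φ ▸ T.Z0_ne _
  have zk : ∀ φ, ζ (T.pm φ k) = ζ φ := by
    intro φ
    have h := z3 (T.pm (T.pm (T.pm φ s1) s0) s2)
    rw [z4, z2, T.Z0_s2, T.Z0_s0, T.Z0_s1, inv_inv, T.pm_pm, T.pm_pm, T.pm_pm,
      ← mul_assoc, ← mul_assoc] at h
    apply mul_right_cancel₀ (T.Z0_ne φ)
    have h' := z3 φ
    simp only [k]
    linear_combination h - h'
  -- a face: the value at a vertex through the three edges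
  have face : ∀ φ, 2 * σ φ = L φ + L (T.pm φ s1) - L (T.pm φ (s0 * s1 * s0)) := by
    intro φ
    simp only [L, T.pm_pm]
    have e1 := a3 φ
    have e2 := A3 φ s0 (s0 * s1 * s0 * s0) (by decide)
    have e3 := A3 φ (s1 * s0) (s0 * s1 * s0) (by decide)
    linear_combination - e1 + e2 + e3
  have LL : ∀ φ (s t : Perm (Fin 4)), (s = t ∨ s = t * s0 ∨ s = t * s2 ∨ s = t * s0 * s2) →
      L (T.pm φ s) = L (T.pm φ t) := by
    rintro φ s t (h | h | h | h)
    · rw [h]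
    · rw [h, ← T.pm_pm, L0]
    · rw [h, ← T.pm_pm, L2]
    · rw [h, ← T.pm_pm, ← T.pm_pm, L2, L0]
  have zA : ∀ φ, 2 * ζ φ = A (T.pm φ (c * c)) - A (T.pm φ c) := by
    intro φ
    have f1 := face φ
    have f2 := face (T.pm φ s2)
    rw [L2, a4, T.pm_pm, T.pm_pm] at f2
    simp only [A, T.pm_pm]
    rw [LL φ (c * c) (s2 * s1) (by decide), LL φ (c * c * k) (s0 * s1 * s0) (by decide),
      LL φ c s1 (by decide), LL φ (c * k) (s2 * (s0 * s1 * s0)) (by decide)]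
    linear_combination f2 - f1
  let e : T.F → ℂ := fun φ => if 0 < (T.Z0 φ).im then 1 else 0
  have eg : ∀ (g : G) φ, e (g • φ) = e φ := fun g φ => by simp only [e, T.Z0_smul]
  have er : ∀ φ, e (T.rot φ) = e φ := fun φ => by simp only [e, T.im_rot]
  have ep : ∀ φ (s : Perm (Fin 4)), Perm.sign s = 1 → e (T.pm φ s) = e φ := fun φ s h => by
    simp only [e, T.im_pm, h, iff_true]
  let W : T.F → ℂ := fun φ => e φ * starRingEnd ℂ (L φ) * ζ φ
  have Wg : ∀ (g : G) φ, W (g • φ) = W φ := fun g φ => by simp only [W, eg, Lg, z1]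
  have S0 : ∑ p, W (B.rigRep p) = 0 := by
    have h := B.rig_sum (fun φ => e φ * starRingEnd ℂ (L φ) * σ φ)
      (fun g φ => by simp only [eg, Lg, a1]) T.rot T.rot_smul T.rot_inj
    rw [← sub_eq_zero, ← Finset.sum_sub_distrib] at h
    rw [← h]
    refine Finset.sum_congr rfl fun p _ => ?_
    simp only [W]
    rw [er, Tri.rot, Lf, L2, a2, a4]
    ring
  have S1 : ∀ s : Perm (Fin 4), ∑ p, W (T.pm (B.rigRep p) s) = 0 := fun s => by
    rw [B.rig_sum W Wg (fun φ => T.pm φ s) (fun g φ => T.pm_smul g φ s) (rig_pm_inj s), S0]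
  let N : T.F → ℝ := fun φ =>
    if 0 < (T.Z0 φ).im then Complex.normSq (ζ φ) * (T.Z0 φ / (1 - T.Z0 φ)).im else 0
  have hq : ∀ φ, (T.Z0 φ / (1 - T.Z0 φ)).im = (T.Z0 φ).im / Complex.normSq (1 - T.Z0 φ) := by
    intro φ
    rw [Complex.div_im]
    simp
    ring
  have N0 : ∀ φ, 0 ≤ N φ := by
    intro φ
    simp only [N]
    split_ifs with h
    · rw [hq]
      exact mul_nonneg (Complex.normSq_nonneg _) (div_nonneg h.le (Complex.normSq_nonneg _))
    · exact le_rfl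
  have zc : ∀ φ, ζ (T.pm φ c) = ζ φ * (T.Z0 φ / (1 - T.Z0 φ)) := by
    intro φ
    have h := z3 φ
    have h' := Zne φ
    simp only [c]
    rw [← T.pm_pm, z4]
    field_simp
    linear_combination -h
  have key : ∀ φ, W φ + W (T.pm φ k) + W (T.pm φ c) + W (T.pm φ (c * k)) + W (T.pm φ (c * c)) +
      W (T.pm φ (c * c * k)) = - 4 * Complex.I * N φ := by
    intro φ
    have b : ∀ ψ, W ψ + W (T.pm ψ k) = e ψ * starRingEnd ℂ (A ψ) * ζ ψ := by
      intro ψ
      simp only [W, A]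
      rw [ep ψ k (by decide), zk, map_add _ (L ψ) (L (T.pm ψ k))]
      ring
    have b0 := b φ
    have b1 := b (T.pm φ c)
    have b2 := b (T.pm φ (c * c))
    rw [T.pm_pm, ep φ _ (by decide)] at b1 b2
    have y0 := zA φ
    have y1 := zA (T.pm φ c)
    have y2 := zA (T.pm φ (c * c))
    rw [T.pm_pm, T.pm_pm, show c * (c * c) = 1 by decide, T.pm_one] at y1
    rw [T.pm_pm, T.pm_pm, show c * c * (c * c) = c by decide, show c * c * c = 1 by decide,
      T.pm_one] at y2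
    have c0 := congrArg (starRingEnd ℂ) y0
    have c1 := congrArg (starRingEnd ℂ) y1
    simp only [map_mul, map_sub, map_ofNat] at c0 c1
    have q : W φ + W (T.pm φ k) + W (T.pm φ c) + W (T.pm φ (c * k)) + W (T.pm φ (c * c)) +
        W (T.pm φ (c * c * k)) = - 2 * e φ * (starRingEnd ℂ (ζ φ) * ζ (T.pm φ c) -
          ζ φ * starRingEnd ℂ (ζ (T.pm φ c))) := by
      linear_combination b0 + b1 + b2 + e φ * starRingEnd ℂ (A (T.pm φ (c * c))) / 2 * (y0 + y1 + y2)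
        + e φ * ζ (T.pm φ c) * c0 - e φ * ζ φ * c1
    rw [q, zc]
    simp only [e, N]
    split_ifs with h
    · generalize T.Z0 φ / (1 - T.Z0 φ) = u
      generalize ζ φ = z
      apply Complex.ext <;> simp [Complex.normSq_apply] <;> ring
    · simp
  have S2 : ∑ p, N (B.rigRep p) = 0 := by
    have h : ∑ p, - 4 * Complex.I * (N (B.rigRep p) : ℂ) = 0 := by
      simp only [← key, Finset.sum_add_distrib, S0, S1, add_zero]
    rw [← Finset.mul_sum, mul_eq_zero] at h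
    rcases h with h | h
    · exact absurd h (by simp)
    · exact_mod_cast h
  have pos : ∀ φ, 0 < (T.Z0 φ).im → ζ φ = 0 := by
    intro φ h
    have h0 := (Finset.sum_eq_zero_iff_of_nonneg fun p _ => N0 _).1 S2 (B.tet φ, B.pos φ)
      (Finset.mem_univ _)
    obtain ⟨g, hg⟩ := B.rig_orb φ
    rw [hg] at h0
    simp only [N, T.Z0_smul, z1, h, if_true, hq] at h0
    have h2 : 0 < (T.Z0 φ).im / Complex.normSq (1 - T.Z0 φ) :=
      div_pos h (Complex.normSq_pos.2 (Zne φ))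
    exact Complex.normSq_eq_zero.1 ((mul_eq_zero.1 h0).resolve_right h2.ne')
  by_cases h : 0 < (T.Z0 φ).im
  · exact pos φ h
  · have := pos (T.pm φ s0) ((T.im_pm φ s0).2 (by
      rw [show Perm.sign s0 = -1 by decide]
      simp [h]))
    rw [z2] at this
    exact neg_eq_zero.1 this

/-- logarithmic derivative of a unit of the dual numbers -/
noncomputable def rigLd (a : (DualNumber ℂ)ˣ) : ℂ := (a : DualNumber ℂ).snd / (a : DualNumber ℂ).fst

lemma rig_fst_ne (a : (DualNumber ℂ)ˣ) : (a : DualNumber ℂ).fst ≠ 0 :=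
  (TrivSqZeroExt.isUnit_iff_isUnit_fst.1 a.isUnit).ne_zero

lemma rigLd_mul (a b : (DualNumber ℂ)ˣ) : rigLd (a * b) = rigLd a + rigLd b := by
  have ha := rig_fst_ne a
  have hb := rig_fst_ne b
  simp only [rigLd, Units.val_mul, TrivSqZeroExt.fst_mul, DualNumber.snd_mul]
  field_simp
  ring

lemma rig_var {I : Type} [Fintype I] {x0 : I × Bool → ℂˣ} (hs : Sol x0) (w : I → ℂ) :
    ∃ x : I × Bool → (DualNumber ℂ)ˣ, Sol x ∧ ∀ m, (ev x m : DualNumber ℂ).fst = ev x0 m ∧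
      (ev x m : DualNumber ℂ).snd = ev x0 m * dl x0 m w := by
  let ι : ℂ →+* DualNumber ℂ := algebraMap ℂ _
  let y : I × Bool → DualNumber ℂ := fun j =>
    if j.2 then ι (x0 j) - DualNumber.eps * ι (w j.1) else ι (x0 j) + DualNumber.eps * ι (w j.1)
  have hy : ∀ j, IsUnit (y j) := by
    rintro ⟨i, b⟩
    rw [TrivSqZeroExt.isUnit_iff_isUnit_fst]
    cases b <;> simp [y, ι, TrivSqZeroExt.algebraMap_eq_inl]
  refine ⟨fun j => (hy j).unit, fun i => ?_, fun m => ?_⟩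
  · simp only [IsUnit.unit_spec, y, if_true, Bool.false_eq_true, if_false]
    have := congrArg ι (hs i)
    rw [map_add, map_one] at this
    linear_combination this
  · have h := ev_var (x := fun j => Units.map ι.toMonoidHom (x0 j)) (x' := fun j => (hy j).unit)
      (⊥ : Ideal (DualNumber ℂ)) (t := DualNumber.eps) (by simp) (fun i => ι (w i))
      (fun i => by simp [y]) (fun i => by simp [y]) m
    have e : dl (fun j => Units.map ι.toMonoidHom (x0 j)) m (fun i => ι (w i)) = ι (dl x0 m w) := by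
      simp only [dl, row, map_sum, map_mul, map_sub, map_intCast, ← map_inv]
      rfl
    rw [Ideal.mem_bot, sub_eq_zero, e, ev_map] at h
    rw [h]
    simp [ι, TrivSqZeroExt.algebraMap_eq_inl]

theorem rig {φc : κ → T.F} (h : Reps G fun c => T.v (φc c) 0) (μ : κ → G)
    (h1 : ∀ c, μ c • T.v (φc c) 0 = T.v (φc c) 0) (h2 : ∀ c, μ c ≠ 1) (M : κ → Mon B.I)
    (hM : ∀ c, B.Hol (φc c) (μ c • φc c) (M c)) {x0 : B.I × Bool → ℂˣ} (hs : Sol x0)
    (hx : ∀ φ, (ev x0 (B.mon φ) : ℂ) = T.Z0 φ) (he : ∀ e, ev x0 (B.E e) = 1) (w : B.I → ℂ)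
    (w1 : ∀ e, dl x0 (B.E e) w = 0) (w2 : ∀ c, dl x0 (M c) w = 0) : w = 0 := by
  obtain ⟨x, xs, hv⟩ := rig_var hs w
  have one : ∀ m, ev x0 m = 1 → dl x0 m w = 0 → ev x m = 1 := by
    intro m e1 e2
    apply Units.ext
    refine TrivSqZeroExt.ext ?_ ?_
    · rw [(hv m).1, e1]
      rfl
    · rw [(hv m).2, e2, mul_zero]
      rfl
  obtain ⟨D, hD⟩ := B.exists_dev xs fun e => one _ (he e) (w1 e)
  obtain ⟨ρ, hρ⟩ := hD.rep fun g φ => by rw [B.mon_smul]
  let π : DualNumber ℂ →+* ℂ := (TrivSqZeroExt.fstHom ℂ ℂ ℂ).toRingHom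
  have hol : ∀ φ ψ, T.v ψ 0 = T.v φ 0 → ∃ a b, D ψ = D φ * aff a b := by
    intro φ ψ e
    obtain ⟨m, hm⟩ := B.exists_hol e
    obtain ⟨b, hb⟩ := hm _ x D hD
    exact ⟨_, b, hb⟩
  have geo : ∀ φ (g : G), g • T.v φ 0 = T.v φ 0 → ∀ a b, D (g • φ) = D φ * aff a b →
      (a : DualNumber ℂ).fst = 1 ∧ b.fst = T.b0 φ g := by
    intro φ g e a b hb
    have q := (hD.map π).geo (fun φ => (hv _).1.trans (hx φ)) φ e
    simp only [hb, map_mul, mp_aff] at q
    obtain ⟨q1, q2⟩ := aff_inj (mul_left_cancel q)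
    exact ⟨congrArg Units.val q1, q2⟩
  have par : ∀ c (g : G), g • T.v (φc c) 0 = T.v (φc c) 0 → ∀ a b,
      D (g • φc c) = D (φc c) * aff a b → a = 1 := by
    intro c g e a b hb
    obtain ⟨β, hβ⟩ := hM c _ x D hD
    obtain ⟨q1, q2⟩ := geo _ _ (h1 c) _ _ hβ
    rw [one _ (Units.ext ((hv _).1.symm.trans q1)) (w2 c)] at hβ
    have u : IsUnit β := by
      rw [TrivSqZeroExt.isUnit_iff_isUnit_fst, q2, isUnit_iff_ne_zero]
      exact fun z => h2 c (b0_inj _ (h1 c) z)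
    have e1 : D ((g * μ c) • φc c) = D (φc c) * (aff a b * aff 1 β) := by
      rw [mul_smul, hρ, hβ, ← mul_assoc, ← hρ, hb, mul_assoc]
    have e2 : D ((μ c * g) • φc c) = D (φc c) * (aff 1 β * aff a b) := by
      rw [mul_smul, hρ, hb, ← mul_assoc, ← hρ, hβ, mul_assoc]
    rw [T.stab_comm e (h1 c), e2, aff_mul, aff_mul] at e1
    have q := (aff_inj (mul_left_cancel e1)).2
    apply Units.ext
    apply u.mul_right_cancel
    simp only [Units.val_one] at q ⊢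
    linear_combination -q
  let Lin : T.F → (DualNumber ℂ)ˣ → Prop := fun φ a => ∃ c, ∃ (g : G), ∃ b,
    T.v φ 0 = g • T.v (φc c) 0 ∧ D φ = D (g • φc c) * aff a b
  have ex : ∀ φ, ∃ a, Lin φ a := by
    intro φ
    obtain ⟨c, g, e⟩ := h.ex (T.v φ 0)
    obtain ⟨a, b, q⟩ := hol (g • φc c) φ (by rw [T.v_smul]; exact e)
    exact ⟨a, c, g, b, e, q⟩
  have uq : ∀ φ a a', Lin φ a → Lin φ a' → a = a' := by
    rintro φ a a' ⟨c, g, b, e, q⟩ ⟨c', g', b', e', q'⟩
    have s : (g'⁻¹ * g) • T.v (φc c) 0 = T.v (φc c') 0 := by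
      rw [mul_smul, ← e, e', inv_smul_smul]
    obtain rfl := h.uq c c' _ s
    obtain ⟨a1, b1, q1⟩ := hol (φc c) ((g'⁻¹ * g) • φc c) (by rw [T.v_smul]; exact s)
    obtain rfl := par c _ s _ _ q1
    have q2 : D (g • φc c) = D (g' • φc c) * aff 1 b1 := by
      rw [hρ g', mul_assoc, ← q1, ← hρ, smul_smul, mul_inv_cancel_left]
    rw [q', q2, mul_assoc, aff_mul, one_mul] at q
    exact (aff_inj (mul_left_cancel q)).1.symm
  choose l hl using ex
  have z : ∀ φ, dl x0 (B.mon φ) w = 0 := by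
    refine rig_of (fun φ => dl x0 (B.mon φ) w) (fun φ => rigLd (l φ))
      (fun g φ => by rw [B.mon_smul]) (fun φ => by rw [B.mon_s0, dl_inv]) (fun φ => ?_)
      (fun g φ => ?_) (fun φ => ?_) (fun φ => ?_) (fun φ => ?_)
    · have q := congrArg TrivSqZeroExt.snd (B.ev_s1 xs φ)
      rw [TrivSqZeroExt.snd_sub, (hv _).2, (hv _).2, hx, hx, T.Z0_s1, TrivSqZeroExt.snd_one] at q
      linear_combination q
    · obtain ⟨c, g', b, e, q⟩ := hl φ
      rw [uq _ _ (l φ) (hl _) ⟨c, g * g', b, by rw [T.v_smul, e, mul_smul],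
        by rw [hρ, q, mul_smul, hρ g, mul_assoc]⟩]
    · obtain ⟨c, g', b, e, q⟩ := hl φ
      rw [uq _ _ (l φ) (hl _) ⟨c, g', b, by rw [T.v_flip _ _ (by decide), e], by rw [hD.flip, q]⟩]
    · obtain ⟨c, g', b, e, q⟩ := hl φ
      rw [uq _ _ (l φ * -1) (hl _) ⟨c, g', _, by rw [T.v_pm]; exact e,
        by rw [hD.p1, q, mul_assoc, aff_mul]⟩, rigLd_mul]
      simp [rigLd]
    · obtain ⟨c, g', b, e, q⟩ := hl φ
      rw [uq _ _ (l φ * ev x (B.mon φ)) (hl _) ⟨c, g', _, by rw [T.v_pm]; exact e,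
        by rw [hD.p2, q, mul_assoc, aff_mul]⟩, rigLd_mul]
      congr 1
      rw [rigLd, (hv _).1, (hv _).2, mul_div_cancel_left₀ _ (Units.ne_zero _)]
  funext i
  obtain ⟨φ, rfl, e⟩ := B.surj i 1
  have q := z φ
  rw [B.mon_one e, dl, Finset.sum_eq_single (B.tet φ)] at q
  · simpa [row] using q
  · intro j _ hj
    simp [row, hj]
  · simp

end Tri.Base

end Pool.Agent.Lib.MP_661727_gt.T3
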