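import Pool.Agent.Lib.MP_661727_gt.T3.Rank
import Pool.Agent.Lib.MP_661727_gt.T3.Rig
import Pool.Agent.Lib.MP_661727_gt.T3.Dfm

/-! The universal representation. -/

namespace Pool.Agent.Lib.MP_661727_gt.T3

theorem exists_uni {G X κ : Type} [Group G] [MulAction G X] (T : Tri G X) [Finite κ] {xc : κ → X}
    (h : Reps G xc) : Nonempty (Uni G fun c => MulAction.stabilizer G (xc c)) := by
  classical
  let _ : Fintype κ := Fintype.ofFinite κ
  obtain ⟨B⟩ := T.exists_base
  choose φc hφ using fun c => T.all (xc c)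
  obtain ⟨R, _, x, u⟩ := exists_univ B.E
  obtain ⟨D, hD⟩ := B.exists_dev u.sol u.eqn
  obtain ⟨ρ, hρ⟩ := hD.rep fun g φ => by rw [B.mon_smul]
  have hm : ∀ c (g : G), ∃ m, g • xc c = xc c → B.Hol (φc c) (g • φc c) m := fun c g => by
    by_cases e : g • xc c = xc c
    · obtain ⟨m, hm⟩ := B.exists_hol (φ := φc c) (ψ := g • φc c) (by rw [T.v_smul, hφ, e])
      exact ⟨m, fun _ => hm⟩
    · exact ⟨1, fun e' => absurd e' e⟩
  choose m hm using hm
  have hb : ∀ c (g : G), ∃ b, g • xc c = xc c →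
      D (g • φc c) = D (φc c) * aff (ev x (m c g)) b := fun c g => by
    by_cases e : g • xc c = xc c
    · obtain ⟨b, hb⟩ := hm c g e R x D hD
      exact ⟨b, fun _ => hb⟩
    · exact ⟨0, fun e' => absurd e' e⟩
  choose b hb using hb
  obtain ⟨x0, hs, hx, he⟩ := B.exists_x0
  obtain ⟨ψ0, h0⟩ := u.lift ℂ x0 hs he
  have key : ∀ c (g : G), g • xc c = xc c →
      ψ0 (ev x (m c g)) = 1 ∧ ψ0 (b c g) = T.b0 (φc c) g := fun c g e => by
    have h1 := (hD.map ψ0).geo (fun φ => (ev_map' ψ0 h0 (B.mon φ)).trans (hx φ)) (φc c) (g := g)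
      (by rw [hφ, e])
    rw [hb c g e, map_mul, mp_aff] at h1
    obtain ⟨h2, h3⟩ := aff_inj (mul_left_cancel h1)
    exact ⟨congrArg Units.val h2, h3⟩
  refine ⟨{ R := R, ft := u.ft, ρ := ρ, S := fun c => D (φc c), χ := fun c g => ev x (m c g)
            β := b, conj := fun c g e => ?_, ψ0 := ψ0, par := fun c g e => (key c g e).1
            inj := fun c g e h1 => ?_, span := fun c z hz => ?_, dfm := fun μ hμ c0 => ?_ }⟩
  · rw [← hb c g e, hρ, mul_inv_cancel_right]
  · exact Tri.b0_inj (φc c) (by rw [hφ]; exact e) (((key c g e).2).symm.trans h1)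
  · obtain ⟨g, e, hg⟩ := T.span (φc c) z hz
    have e' : g • xc c = xc c := by rw [← hφ]; exact e
    exact ⟨g, e', by rw [(key c g e').2]; exact hg⟩
  · have h' : Reps G fun c => T.v (φc c) 0 := by simpa only [hφ] using h
    let S : MS B.I {φ : T.F // 0 < (T.Z0 φ).im} κ :=
      { E := B.E
        M := fun c => m c (μ c)
        x0 := x0
        sol := hs
        e0 := he
        m0 := fun c => Units.ext ((ev_map' ψ0 h0 _).symm.trans (key c _ (hμ c).1).1)
        rk := B.rank h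
        rig := fun w w1 w2 => B.rig h' μ (fun c => by rw [hφ]; exact (hμ c).1) (fun c => (hμ c).2)
          _ (fun c => hm c _ (hμ c).1) hs hx he w w1 w2 }
    exact S.dfm u ψ0 h0 c0

lemma Tri.exists_reps {G X : Type} [Group G] [MulAction G X] (T : Tri G X) :
    ∃ (κ : Type) (_ : Finite κ) (xc : κ → X), Reps G xc := by
  obtain ⟨S, hS, h⟩ := T.fin
  refine ⟨Quotient (MulAction.orbitRel G X), ?_, Quotient.out, fun x => ?_, fun c c' g e => ?_⟩
  · have : Finite S := hS
    refine Finite.of_surjective (fun φ : S => Quotient.mk _ (T.v φ 0)) fun c => ?_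
    induction c using Quotient.inductionOn with
    | _ x =>
      obtain ⟨φ, rfl⟩ := T.all x
      obtain ⟨g, hg⟩ := h φ
      exact ⟨⟨_, hg⟩, Quotient.sound ⟨g, (T.v_smul g φ 0).symm⟩⟩
  · obtain ⟨g, hg⟩ := (Quotient.mk_out (s := MulAction.orbitRel G X) x)
    refine ⟨Quotient.mk _ x, g⁻¹, ?_⟩
    rw [← hg]
    exact (inv_smul_smul g x).symm
  · rw [← c.out_eq, ← c'.out_eq]
    exact (Quotient.sound ⟨g, e⟩ : Quotient.mk (MulAction.orbitRel G X) c'.out = _).symm

end Pool.Agent.Lib.MP_661727_gt.T3
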