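import Pool.Agent.Lib.MP_661727_gt.T3.P1
import Pool.Agent.Lib.MP_661727_gt.FG

/-! Generic weights. -/

namespace Pool.Agent.Lib.MP_661727_gt.T3

open Ar

/-- a parameter that satisfies no fixed linear relation -/
lemma wt_gen {d : ℕ} {A : Set (Mink d)} (hA : A.Countable) (n : Mink d → ℕ) :
    ∃ t : ℝ, 0 < t ∧ t < 1 ∧ ∀ S : Finset (Mink d), (S : Set (Mink d)) ⊆ A → Set.InjOn n S →
      (∃ y, ∀ η ∈ S, lor y η = -(1 + t ^ (n η + 1))) → LinearIndepOn ℝ id (S : Set (Mink d)) := by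
  classical
  have h1 : ∀ S : Finset (Mink d), ∃ P : Polynomial ℝ, P ≠ 0 ∧ ∀ t : ℝ, Set.InjOn n S →
      (∃ y, ∀ η ∈ S, lor y η = -(1 + t ^ (n η + 1))) → ¬ LinearIndepOn ℝ id (S : Set (Mink d)) →
      P.IsRoot t := by
    intro S
    by_cases hS : Set.InjOn n S ∧ ¬ LinearIndepOn ℝ id (S : Set (Mink d))
    · obtain ⟨f, hf, i, hi, hfi⟩ := not_linearIndepOn_finset_iff.1 hS.2
      refine ⟨∑ η ∈ S, Polynomial.C (f η) * (1 + Polynomial.X ^ (n η + 1)), fun h0 => hfi ?_, ?_⟩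
      · have h2 := congrArg (fun P => Polynomial.coeff P (n i + 1)) h0
        simp only [Polynomial.finsetSum_coeff, Polynomial.coeff_C_mul, Polynomial.coeff_add,
          Polynomial.coeff_X_pow, Polynomial.coeff_one, Polynomial.coeff_zero] at h2
        rw [Finset.sum_eq_single i] at h2
        · simpa using h2
        · intro j hj hji
          have : n i ≠ n j := fun e => hji (hS.1 hj hi e.symm)
          simp [this]
        · intro h; exact absurd hi h
      · rintro t - ⟨y, hy⟩ -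
        have h2 := congrArg (lor y) hf
        rw [b_lor_sum, lor_zero_right] at h2
        simp only [Polynomial.IsRoot, Polynomial.eval_finsetSum, Polynomial.eval_mul,
          Polynomial.eval_C, Polynomial.eval_add, Polynomial.eval_one, Polynomial.eval_pow,
          Polynomial.eval_X]
        rw [← neg_eq_zero, ← h2, ← Finset.sum_neg_distrib]
        refine Finset.sum_congr rfl fun η hη => ?_
        rw [lor_smul_right, id, hy η hη]
        ring
    · exact ⟨1, one_ne_zero, fun t h1 _ h2 => absurd ⟨h1, h2⟩ hS⟩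
  choose P hP hP' using h1
  have h2 : {S : Finset (Mink d) | (S : Set (Mink d)) ⊆ A}.Countable := by
    refine ((Set.countable_ofPred_finite_subset hA).preimage_of_injOn
      (f := fun S : Finset (Mink d) => (S : Set (Mink d)))
      fun _ _ _ _ h => Finset.coe_injective h).mono fun S hS => ?_
    exact And.intro S.finite_toSet hS
  have h3 : (⋃ S ∈ {S : Finset (Mink d) | (S : Set (Mink d)) ⊆ A}, {t | (P S).IsRoot t}).Countable :=
    h2.biUnion fun S _ => (Polynomial.finite_setOfPred_isRoot (hP S)).countable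
  obtain ⟨t, ht, ht0, ht1⟩ := h3.dense_compl ℝ |>.exists_between (show (0 : ℝ) < 1 from one_pos)
  refine ⟨t, ht0, ht1, fun S hS hn hy => ?_⟩
  by_contra hc
  exact ht (Set.mem_biUnion hS (hP' S t hn hy hc))

variable {d : ℕ} (L : Cusped d)

lemma wt_fin (M : ℝ) : {η ∈ cusps L | η.1 ≤ M}.Finite := by
  rw [b_cusps_eq]; exact L.old.B_fin M

lemma wt_count : (cusps L).Countable := by
  refine (Set.countable_iUnion fun m : ℕ => (wt_fin L m).countable).mono fun η hη => ?_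
  obtain ⟨m, hm⟩ := exists_nat_ge η.1
  exact Set.mem_iUnion.2 ⟨m, hη, hm⟩

lemma wt_sep {η η' : Mink d} (h : η ∈ cusps L) (h' : η' ∈ cusps L) (hne : η ≠ η') :
    1 ≤ - lor η η' := L.old.B_sep (b_cusps_eq L ▸ h) (b_cusps_eq L ▸ h') hne

lemma wt_eq {η η' x : Mink d} (h : η ∈ cusps L) (h' : η' ∈ cusps L) (hx : x ∈ Hyp d)
    (h1 : - lor x η < 1) (h2 : - lor x η' < 1) : η = η' :=
  L.old.B_eq (b_cusps_eq L ▸ h) (b_cusps_eq L ▸ h') ⟨hx, h1⟩ ⟨hx, h2⟩

lemma wt_near : ∃ R : ℝ, 0 < R ∧ ∀ x ∈ Hyp d, ∃ η ∈ cusps L, - lor x η ≤ R := by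
  obtain ⟨R, hR⟩ := cusps_cpt L (H := ⊤) inferInstance
  obtain ⟨c⟩ := L.ne
  refine ⟨max 1 (2 * R * (L.b c).1), lt_max_of_lt_left one_pos, fun x hx => ?_⟩
  by_cases h : Thick (cusps L) 1 x
  · obtain ⟨g, -, hg⟩ := hR x hx h
    refine ⟨_, cusps_inv L g⁻¹ _ (b_mem L c), le_max_of_le_right ?_⟩
    have n1 := cusps_nul L _ (b_mem L c)
    have h1 := tri_fut (b_sheet L g hx) oo_mem n1.fut
    rw [lor_comm _ (oo d), lor_oo, lor_oo, neg_neg, neg_neg] at h1
    rw [lor_comm, b_adj, lor_comm]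
    refine h1.trans ?_
    have := n1.2
    gcongr
  · simp only [Thick, not_forall, not_le] at h
    obtain ⟨η, hη, h1⟩ := h
    exact ⟨η, hη, le_max_of_le_left h1.le⟩

lemma wt_cpt {H : Subgroup L.G} (hH : H.FiniteIndex) :
    ∃ R : ℝ, ∀ x ∈ Hyp d, Thick (cusps L) (1 / 2) x → ∃ g ∈ H, (L.lin g x).1 ≤ R := by
  obtain ⟨R, h⟩ := cusps_cpt L hH
  refine ⟨max R (R * 3), fun x hx ht => ?_⟩
  by_cases h1 : Thick (cusps L) 1 x
  · obtain ⟨g, hg, h2⟩ := h x hx h1
    exact ⟨g, hg, h2.trans (le_max_left _ _)⟩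
  simp only [Thick, not_forall, not_le] at h1
  obtain ⟨η, hη, h1⟩ := h1
  obtain ⟨a1, a2, a3⟩ := horo_pt hx (cusps_nul L η hη)
  set y := (- lor x η)⁻¹ • x + ((1 - ((- lor x η)⁻¹) ^ 2) / 2) • η with hy
  obtain ⟨g, hg, h2⟩ := h y a1 (cusps_horo L η hη y a1 a2)
  refine ⟨g, hg, le_trans ?_ (le_max_right _ _)⟩
  have h3 := tri3 oo_mem (b_sheet L g a1) (b_sheet L g hx)
  rw [lor_oo, lor_oo, neg_neg, neg_neg, b_isom, lor_comm y x, a3] at h3
  have h4 : (- lor x η)⁻¹ ≤ (1 / 2)⁻¹ := inv_anti₀ (by norm_num) (ht η hη)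
  have h5 := (b_sheet L g a1).2
  calc (L.lin g x).1 ≤ 2 * (L.lin g y).1 * (((- lor x η)⁻¹ + (- lor x η)) / 2) := h3
    _ ≤ 2 * (L.lin g y).1 * (3 / 2) :=
      mul_le_mul_of_nonneg_left (by norm_num at h4 ⊢; linarith) (by positivity)
    _ = (L.lin g y).1 * 3 := by ring
    _ ≤ R * 3 := by linarith

/-- an invariant numbering of the orbits of cusps -/
lemma wt_lab (H : Subgroup L.G) : ∃ n : Mink d → ℕ, (∀ g ∈ H, ∀ η, n (L.lin g η) = n η) ∧
    ∀ η ∈ cusps L, ∀ η' ∈ cusps L, n η = n η' → ∃ g ∈ H, η' = L.lin g η := by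
  let o : Mink d → Set (Mink d) := fun η => {η' | ∃ g ∈ H, η' = L.lin g η}
  obtain ⟨f, hf⟩ := Set.countable_iff_exists_injOn.1 ((wt_count L).image o)
  refine ⟨fun η => f (o η), fun g hg η => congrArg f ?_, fun η hη η' hη' h => ?_⟩
  · ext η'
    constructor
    · rintro ⟨k, hk, rfl⟩
      exact ⟨k * g, H.mul_mem hk hg, (b_mul L k g η).symm⟩
    · rintro ⟨k, hk, rfl⟩
      exact ⟨k * g⁻¹, H.mul_mem hk (H.inv_mem hg), by rw [b_mul, b_inv]⟩
  · have h1 : o η = o η' := hf ⟨η, hη, rfl⟩ ⟨η', hη', rfl⟩ h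
    have h2 : η' ∈ o η' := ⟨1, H.one_mem, by rw [map_one]; rfl⟩
    rwa [← h1] at h2

lemma wt_close {x η η' : Mink d} (hx : x ∈ Hyp d) (h : Nul η) (h' : Nul η') {M : ℝ}
    (h1 : - lor x η ≤ M) (h2 : - lor x η' ≤ M) : - lor η η' ≤ 2 * M ^ 2 := by
  have a1 := cs_at hx η η'
  have a2 := lor_neg hx h.fut
  have a3 := lor_neg hx h'.fut
  rw [h.1, h'.1, zero_add, zero_add, ← mul_pow, lor_comm η x, lor_comm η' x] at a1
  have a4 := (abs_le_of_sq_le_sq' a1 (by nlinarith)).1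
  have a5 : (- lor x η) * (- lor x η') ≤ M * M :=
    mul_le_mul h1 h2 (by linarith) (by linarith)
  nlinarith

theorem exists_cfg (L : Cusped 3) : ∃ B : ℝ, ∀ H : Subgroup L.G, H.FiniteIndex →
    (∀ g ∈ H, LinearMap.det (L.lin g : Mink 3 →ₗ[ℝ] Mink 3) = 1) →
    (∀ g ∈ H, ∀ η ∈ cusps L, - lor η (L.lin g η) ≤ B → L.lin g η = η) →
    ∃ (K : Cfg H) (u : Mink 3 → ℝ), K.ρ = L.lin.comp H.subtype ∧ (∀ η, 0 < u η) ∧
      (∀ g ∈ H, ∀ η, u (L.lin g η) = u η) ∧ K.C = (fun η => u η • η) '' cusps L ∧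
      Set.InjOn (fun η => u η • η) (cusps L) := by
  obtain ⟨R, R0, hR⟩ := wt_near L
  refine ⟨2 * (2 * R) ^ 2, fun H hH hdet hB => ?_⟩
  obtain ⟨n, hn, hn'⟩ := wt_lab L H
  obtain ⟨t, t0, t1, ht⟩ := wt_gen (wt_count L) n
  obtain ⟨u, hu⟩ : ∃ u : Mink 3 → ℝ, ∀ η, u η * (1 + t ^ (n η + 1)) = 1 :=
    ⟨fun η => (1 + t ^ (n η + 1))⁻¹, fun η => inv_mul_cancel₀ (by positivity)⟩
  have p0 : ∀ η, 0 < t ^ (n η + 1) := fun η => by positivity
  have p1 : ∀ η, t ^ (n η + 1) ≤ 1 := fun η => pow_le_one₀ t0.le t1.le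
  have u0 : ∀ η, 0 < u η := fun η => by
    have := hu η
    have := p0 η
    by_contra hc
    nlinarith [not_lt.1 hc]
  have u1 : ∀ η, u η ≤ 1 := fun η => by nlinarith [hu η, p0 η, u0 η]
  have u2 : ∀ η, 1 / 2 ≤ u η := fun η => by nlinarith [hu η, p1 η, u0 η]
  have uinv : ∀ g ∈ H, ∀ η, u (L.lin g η) = u η := fun g hg η => by
    have a1 := hu (L.lin g η)
    rw [hn g hg] at a1
    exact mul_right_cancel₀ (add_pos one_pos (p0 η)).ne' (a1.trans (hu η).symm)
  set C : Set (Mink 3) := (fun η => u η • η) '' cusps L with hC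
  have light : ∀ η ∈ C, Nul η := by
    rintro _ ⟨η, hη, rfl⟩
    obtain ⟨a1, a2⟩ := cusps_nul L η hη
    exact ⟨by simp only [lor_smul_left, lor_smul_right, a1, mul_zero], mul_pos (u0 η) a2⟩
  have neg : ∀ η ∈ cusps L, ∀ η' ∈ cusps L, η ≠ η' → lor (u η • η) (u η' • η') < 0 := by
    intro η hη η' hη' hne
    rw [lor_smul_left, lor_smul_right]
    exact mul_neg_of_pos_of_neg (u0 η) (mul_neg_of_pos_of_neg (u0 η')
      (by linarith [wt_sep L hη hη' hne]))
  have near : ∀ x ∈ Hyp 3, ∃ η ∈ C, - lor x η ≤ R := fun x hx => by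
    obtain ⟨η, hη, h⟩ := hR x hx
    refine ⟨_, ⟨η, hη, rfl⟩, ?_⟩
    have := lor_neg hx (cusps_nul L η hη).fut
    simp only [lor_smul_right]
    nlinarith [u1 η]
  have act : ∀ (g : H) η, L.lin g (u η • η) = u (L.lin g η) • L.lin g η := fun g η => by
    rw [map_smul, uinv g g.2]
  have fix : ∀ (g : H) η, L.lin g (u η • η) = u η • η → L.lin g η = η := fun g η h => by
    rw [map_smul] at h
    exact smul_right_injective _ (u0 η).ne' h
  have key : ∀ y, (∀ η ∈ C, lor y η ≤ -1) → ∀ g ∈ H, ∀ η ∈ cusps L, lor y (u η • η) = -1 →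
      lor y (u η • L.lin g η) = -1 → L.lin g η = η := by
    intro y hy g hg η hη h1 h2
    obtain ⟨s, s0, s1, x, hx, rfl⟩ := q_time light near hy
    have b : ∀ ξ, lor (s • x) (u η • ξ) = -1 → Nul ξ → - lor x ξ ≤ 2 * R := fun ξ h hξ => by
      rw [lor_smul_left, lor_smul_right] at h
      have a1 := lor_neg hx hξ.fut
      have a2 : s * (1 / 2 * - lor x ξ) ≤ s * (u η * - lor x ξ) :=
        mul_le_mul_of_nonneg_left (mul_le_mul_of_nonneg_right (u2 η) (by linarith)) s0.le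
      have a3 : s * (- lor x ξ) ≤ s * (2 * R) := by nlinarith
      exact le_of_mul_le_mul_left a3 s0
    have n1 := cusps_nul L η hη
    have n2 := cusps_nul L _ (cusps_inv L g η hη)
    exact hB g hg η hη (wt_close hx n1 n2 (b _ h1 n1) (b _ h2 n2))
  obtain ⟨R', hR'⟩ := wt_cpt L hH
  refine ⟨{ ρ := L.lin.comp H.subtype
            isom := fun g => b_isom L g
            sheet := fun g x hx => b_sheet L g hx
            det := fun g => hdet g g.2
            free := fun g x hx h => Subtype.ext (L.free g x hx h)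
            C := C
            light := light
            inv := ?_
            lf := fun M => ?_
            neg := ?_
            near := ⟨R, near⟩
            gen := fun y hy => ?_
            lab := ?_
            all := ?_
            cpt := ⟨2 * R', ?_⟩
            transl := ?_
            move := ?_ }, u, rfl, u0, uinv, rfl, ?_⟩
  · rintro g _ ⟨η, hη, rfl⟩
    exact ⟨_, cusps_inv L g η hη, (act g η).symm⟩
  · refine ((wt_fin L (2 * M)).image fun η => u η • η).subset ?_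
    rintro _ ⟨⟨η, hη, rfl⟩, h⟩
    refine ⟨η, ⟨hη, ?_⟩, rfl⟩
    simp only [Prod.smul_fst, smul_eq_mul] at h
    nlinarith [u2 η, (cusps_nul L η hη).2]
  · rintro _ ⟨η, hη, rfl⟩ _ ⟨η', hη', rfl⟩ hne
    exact neg η hη η' hη' fun e => hne (by rw [e])
  · have a1 : LinearIndepOn ℝ id {η ∈ cusps L | lor y (u η • η) = -1} := by
      refine linearIndepOn_iff_linearIndepOn_finset.2 fun S hS =>
        ht S (fun η hη => (hS hη).1) (fun η hη η' hη' e => ?_) ⟨y, fun η hη => ?_⟩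
      · obtain ⟨g, hg, rfl⟩ := hn' η (hS hη).1 η' (hS hη').1 e
        refine (key y hy g hg η (hS hη).1 (hS hη).2 ?_).symm
        rw [← uinv g hg η]
        exact (hS hη').2
      · have a2 := (hS hη).2
        rw [lor_smul_right] at a2
        have a3 := hu η
        calc lor y η = (u η * (1 + t ^ (n η + 1))) * lor y η := by rw [a3, one_mul]
          _ = (u η * lor y η) * (1 + t ^ (n η + 1)) := by ring
          _ = _ := by rw [a2]; ring
    have a2 : LinearIndepOn ℝ (fun η => u η • η) {η ∈ cusps L | lor y (u η • η) = -1} :=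
      LinearIndependent.units_smul a1 fun η => Units.mk0 (u η) (u0 η).ne'
    refine a2.id_image.mono ?_
    rintro _ ⟨⟨η, hη, rfl⟩, h⟩
    exact ⟨η, ⟨hη, h⟩, rfl⟩
  · rintro y hy g _ ⟨η, hη, rfl⟩ h1 h2
    change L.lin g (u η • η) = u η • η
    change lor y (L.lin g (u η • η)) = -1 at h2
    rw [map_smul] at h2 ⊢
    rw [key y hy g g.2 η hη h1 h2]
  · rintro _ ⟨η, hη, rfl⟩
    have n1 := cusps_nul L η hη
    have n2 : Nul ((2 : ℝ) • η) :=
      ⟨by simp only [lor_smul_left, lor_smul_right, n1.1, mul_zero], mul_pos two_pos n1.2⟩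
    obtain ⟨x, hx, h⟩ : ∃ x ∈ Hyp 3, lor x ((2 : ℝ) • η) = -1 :=
      ⟨_, (horo_pt oo_mem n2).1, (horo_pt oo_mem n2).2.1⟩
    rw [lor_smul_right] at h
    have e : lor ((2 / u η) • x) (u η • η) = -1 := by
      rw [lor_smul_left, lor_smul_right, ← h]
      field_simp [(u0 η).ne']
    refine ⟨(2 / u η) • x, ?_, e⟩
    rintro _ ⟨η', hη', rfl⟩
    by_cases hne : η' = η
    · rw [hne]; exact e.le
    · have a1 : 1 ≤ - lor x η' := by
        by_contra hc
        exact hne (wt_eq L hη' hη hx (not_le.1 hc) (by linarith))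
      have a2 : 2 ≤ 2 / u η := by
        rw [le_div_iff₀ (u0 η)]; linarith [u1 η]
      have a3 : 1 / 2 * 1 ≤ u η' * - lor x η' := mul_le_mul (u2 η') a1 one_pos.le (u0 η').le
      have a4 : 2 * (1 / 2 * 1) ≤ 2 / u η * (u η' * - lor x η') :=
        mul_le_mul a2 a3 (by norm_num) (by linarith)
      simp only [lor_smul_left, lor_smul_right]
      linarith
  · rintro y hy _ ⟨η, hη, rfl⟩ _ ⟨η', hη', rfl⟩ hne h1 h2
    obtain ⟨s, s0, -, x, hx, rfl⟩ := q_time light near hy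
    have b : ∀ ξ, lor (s • x) (u ξ • ξ) = -1 → 1 ≤ - lor x ξ → s ≤ 2 := fun ξ h hξ => by
      rw [lor_smul_left, lor_smul_right] at h
      have a3 : 1 / 2 * 1 ≤ u ξ * - lor x ξ := mul_le_mul (u2 ξ) hξ one_pos.le (u0 ξ).le
      nlinarith
    have s2 : s ≤ 2 := by
      by_cases c1 : 1 ≤ - lor x η
      · exact b η h1 c1
      by_cases c2 : 1 ≤ - lor x η'
      · exact b η' h2 c2
      exact absurd (by rw [wt_eq L hη hη' hx (not_le.1 c1) (not_le.1 c2)]) hne
    obtain ⟨g, hg, h⟩ := hR' x hx fun ξ hξ => by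
      have a1 := hy _ ⟨ξ, hξ, rfl⟩
      simp only [lor_smul_left, lor_smul_right] at a1
      have a2 := lor_neg hx (cusps_nul L ξ hξ).fut
      have a3 : u ξ * - lor x ξ ≤ 1 * - lor x ξ := mul_le_mul_of_nonneg_right (u1 ξ) (by linarith)
      have a4 : s * (u ξ * - lor x ξ) ≤ 2 * (1 * - lor x ξ) :=
        mul_le_mul s2 a3 (mul_nonneg (u0 ξ).le (by linarith)) two_pos.le
      linarith
    refine ⟨⟨g, hg⟩, ?_⟩
    change (L.lin g (s • x)).1 ≤ 2 * R'
    rw [map_smul, Prod.smul_fst, smul_eq_mul]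
    exact mul_le_mul s2 h (b_sheet L g hx).2.le two_pos.le
  · rintro g _ ⟨η, hη, rfl⟩ h v hv
    rw [lor_smul_right] at hv
    obtain ⟨s, hs⟩ := cusps_transl L g η hη (fix g η h) v
      ((mul_eq_zero.1 hv).resolve_left (u0 η).ne')
    refine ⟨s / u η, ?_⟩
    change L.lin g v = v + (s / u η) • u η • η
    rw [hs, smul_smul, div_mul_cancel₀ _ (u0 η).ne']
  · rintro _ ⟨η, hη, rfl⟩ w hw h1
    rw [lor_smul_right] at hw
    obtain ⟨g, hg, h2, h3⟩ := cusps_move L hH η hη w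
      ((mul_eq_zero.1 hw).resolve_left (u0 η).ne') h1
    refine ⟨⟨g, hg⟩, ?_, h3⟩
    change L.lin g (u η • η) = u η • η
    rw [map_smul, h2]
  · intro η hη η' hη' e
    by_contra hne
    have a1 := neg η hη η' hη' hne
    simp only at e
    rw [← e, (light _ ⟨η, hη, rfl⟩).1] at a1
    exact lt_irrefl _ a1

end Pool.Agent.Lib.MP_661727_gt.T3
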