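import Pool.Agent.Lib.MP_661727_gt.T3.Grp
import Pool.Agent.Lib.MP_661727_gt.T3.MkUni
import Pool.Agent.Lib.MP_661727_gt.T3.MkTri
import Pool.Agent.Lib.MP_661727_gt.T3.Wt
import Pool.Agent.Lib.MP_661727_gt.T3.Cong
import Pool.Agent.Lib.MP_661727_gt.Ar.Top

/-! Covers of hyperbolic three-manifolds with prescribed cusp groups. -/

namespace Pool.Agent.Lib.MP_661727_gt.T3

open Multiplicative Ar

lemma cov_geo (L : Cusped 3) {b : ℕ} (hb : 0 < b) : ∃ (H : Subgroup L.G) (κ : Type) (_ : Finite κ)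
    (P : κ → Subgroup H) (γ : κ → L.G) (π : κ → L.C) (e1 : ℕ), H.Normal ∧ H.FiniteIndex ∧
    Nonempty (Uni H P) ∧ 0 < e1 ∧ e1.Coprime b ∧ (∀ c h, L.α c (ofAdd (e1 • h)) ∈ H) ∧
    (∀ c (g : H), g ∈ P c ↔ ∃ h, (g : L.G) = γ c * L.α (π c) h * (γ c)⁻¹) ∧
    ∀ g c', ∃ c, ∃ g0 ∈ H, c' = π c ∧
      ∀ h, g * L.α c' h * g⁻¹ = g0 * (γ c * L.α c' h * (γ c)⁻¹) * g0⁻¹ := by
  obtain ⟨B, hB⟩ := exists_cfg L
  obtain ⟨H, hn, hf, h1, h2, e1, h3, h4, h5⟩ := exists_sep L B hb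
  obtain ⟨K, u, k1, k2, k3, k4, k5⟩ := hB H hf h1 h2
  obtain ⟨T⟩ := exists_tri K
  obtain ⟨κ, hκ, xc, hx⟩ := T.exists_reps
  have hc : ∀ c, ∃ (γ : L.G) (c' : L.C),
      (xc c : Mink 3) = u (L.lin γ (L.b c')) • L.lin γ (L.b c') := fun c => by
    obtain ⟨_, ⟨γ, c', rfl⟩, e⟩ := k4.subset (xc c).2
    exact ⟨γ, c', e.symm⟩
  choose γ π hc using hc
  have hs : ∀ (g : H) (x : K.C), ((g • x : K.C) : Mink 3) = L.lin g x := fun g x => by
    show K.ρ g x = _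
    rw [k1]; rfl
  refine ⟨H, κ, hκ, fun c => MulAction.stabilizer H (xc c), γ, π, e1, hn, hf, exists_uni T hx, h3, h4,
    h5, fun c g => ?_, fun g c' => ?_⟩
  · rw [MulAction.mem_stabilizer_iff, Subtype.ext_iff, hs, hc, map_smul,
      (smul_right_injective (Mink 3) (k2 _).ne').eq_iff]
    constructor
    · intro e
      obtain ⟨h, hh⟩ := (L.α_range (π c) ((γ c)⁻¹ * g * γ c)).2 (by
        change L.lin _ _ = _
        rw [b_mul, b_mul, e, b_inv])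
      exact ⟨h, by rw [hh]; group⟩
    · rintro ⟨h, e⟩
      rw [e, b_mul, b_mul, b_inv, b_fix]
  · have hη : L.lin g (L.b c') ∈ cusps L := ⟨g, c', rfl⟩
    obtain ⟨c, g0, e⟩ := hx.ex ⟨u (L.lin g (L.b c')) • L.lin g (L.b c'), k4.superset ⟨_, hη, rfl⟩⟩
    have e' : u (L.lin g (L.b c')) • L.lin g (L.b c') = ((g0 • xc c : K.C) : Mink 3) :=
      congrArg Subtype.val e
    rw [hs, hc, map_smul, ← k3 g0 g0.2 (L.lin (γ c) _), ← b_mul] at e'
    obtain ⟨rfl, e2⟩ := top_conj L (k5 hη ⟨_, _, rfl⟩ e')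
    exact ⟨c, g0, g0.2, rfl, fun h => by rw [e2]; group⟩

lemma cov_lat (A : AddSubgroup (Zk 2)) (hA : A.FiniteIndex) {f : ℕ} (hf : ∀ h, f • h ∈ A) :
    ∃ j ϑ : Zk 2 →+ Zk 2, Function.Injective j ∧ j.range = A ∧ ∀ h, j (ϑ h) = f • h := by
  have h1 : Module.finrank ℤ (AddSubgroup.toIntSubmodule A) = Module.finrank ℤ (Zk 2) := by
    rw [← Submodule.finiteQuotient_iff]
    exact AddSubgroup.finite_quotient_of_finiteIndex (H := A)
  let ε := (LinearEquiv.ofFinrankEq _ _ h1).toAddEquiv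
  let t : Zk 2 →+ AddSubgroup.toIntSubmodule A :=
    { toFun := fun h => ⟨f • h, hf h⟩
      map_zero' := Subtype.ext (by simp)
      map_add' := fun x y => Subtype.ext (by simp) }
  refine ⟨(AddSubgroup.toIntSubmodule A).subtype.toAddMonoidHom.comp ε.symm.toAddMonoidHom,
    ε.toAddMonoidHom.comp t, Subtype.val_injective.comp ε.symm.injective, ?_, fun h => ?_⟩
  · ext x
    exact ⟨by rintro ⟨y, rfl⟩; exact (ε.symm y).2, fun hx => ⟨ε ⟨x, hx⟩, by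
      show (ε.symm (ε ⟨x, hx⟩)).1 = x
      rw [ε.symm_apply_apply]⟩⟩
  · show (ε.symm (ε (t h))).1 = _
    rw [ε.symm_apply_apply]; rfl

theorem cov3 (L : Cusped 3) (A : L.C → AddSubgroup (Zk (3 - 1))) (hA : ∀ c, (A c).FiniteIndex)
    {b : ℕ} (hb : 0 < b) : Good b (L.Cov A) := by
  have := L.fin
  have := Fintype.ofFinite L.C
  obtain ⟨H, κ, hκ, P, γ, π, e1, hn, hf, ⟨V⟩, h1, h2, h3, h4, h5⟩ := cov_geo L hb
  obtain ⟨f, f0, f1⟩ : ∃ f : ℕ, 0 < f ∧ ∀ c h, f • h ∈ A c := by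
    refine ⟨∏ c, (A c).index, Finset.prod_pos fun c _ => Nat.pos_of_ne_zero (hA c).index_ne_zero,
      fun c h => ?_⟩
    obtain ⟨m, hm⟩ := Finset.dvd_prod_of_mem (fun c => (A c).index) (Finset.mem_univ c)
    rw [hm, mul_smul]
    exact (A c).nsmul_index_mem _
  choose j ϑ j1 j2 j3 using fun c => cov_lat (A c) (hA c) (f1 c)
  have j4 : ∀ c w, ϑ c (j c w) = f • w := fun c w => j1 c (by rw [j3, map_nsmul])
  choose a ha using fun c (g : P c) => (h4 c g.1).1 g.2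
  have ha' : ∀ c (g : P c) h, ((g : H) : L.G) = γ c * L.α (π c) h * (γ c)⁻¹ → a c g = h :=
    fun c g h e => L.α_inj (π c) (mul_left_cancel (mul_right_cancel ((ha c g).symm.trans e)))
  let a' : ∀ c, P c →* Multiplicative (Zk 2) := fun c => MonoidHom.mk' (a c) fun g h => ha' c _ _ (by
    rw [Subgroup.coe_mul, Subgroup.coe_mul, ha c g, ha c h, map_mul]; group)
  let θ : ∀ c, P c →* Multiplicative (Zk 2) := fun c =>
    (AddMonoidHom.toMultiplicative (ϑ (π c))).comp (a' c)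
  have θ0 : ∀ c g, (θ c g).toAdd = ϑ (π c) (a c g).toAdd := fun c g => rfl
  have mk : ∀ c (h : Zk 2), ∃ g : P c, a c g = ofAdd (e1 • h) := fun c h =>
    ⟨⟨⟨_, hn.conj_mem _ (h3 (π c) h) (γ c)⟩, (h4 c _).2 ⟨_, rfl⟩⟩, ha' c _ _ rfl⟩
  have a1 : ∀ c, Function.Injective (a' c) := fun c g h e => Subtype.ext (Subtype.ext (by
    rw [ha c g, ha c h]; exact congrArg (fun x => γ c * L.α (π c) x * (γ c)⁻¹) e))
  obtain ⟨n, n0, hV⟩ := V.grp θ (fun c g h e => a1 c (toAdd.injective (nsmul_right_injective f0.ne' (by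
      show f • (a c g).toAdd = f • (a c h).toAdd
      rw [← j3 (π c), ← j3 (π c), ← θ0, ← θ0, e]))))
    (Nat.mul_pos h1 f0) fun c w => by
      obtain ⟨g, hg⟩ := mk c (j (π c) w)
      exact ⟨g, toAdd.injective (by rw [θ0, hg, toAdd_ofAdd, map_nsmul, j4, toAdd_ofAdd, mul_smul])⟩
  refine ⟨e1, n * f, h1, h2, Nat.mul_pos n0 f0, fun l lp hl => ?_⟩
  have lf : ¬ l ∣ f := fun h => hl (h.mul_left _)
  obtain ⟨e0, j0, p1, p2, p3, hV⟩ := hV l lp fun h => hl (h.mul_right _)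
  refine ⟨f * e0, j0, Nat.mul_pos f0 p1, fun h => ((Nat.Prime.dvd_mul lp).1 h).elim lf p2, p3, ?_⟩
  rintro _ e_pos ⟨t, rfl⟩ le
  have q0 : 0 < e0 * t := Nat.pos_of_mul_pos_left (mul_assoc f e0 t ▸ e_pos)
  obtain ⟨s0, hV⟩ := hV (e0 * t) q0 (Dvd.intro _ rfl) fun h => le (mul_assoc f e0 t ▸ h.mul_left f)
  refine ⟨s0 + 1, fun s hs k hk hk1 => ?_⟩
  obtain ⟨H', n1, n2, hH⟩ := hV s (by omega)
  have lk : ¬ l ∣ k := fun h => by
    have h5 : l ∣ f * e0 * t * k + 1 := hk ▸ dvd_pow_self l (Nat.mul_pos p3 (by omega)).ne'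
    exact lp.one_lt.ne' (Nat.dvd_one.1 ((Nat.dvd_add_right (h.mul_left _)).1 h5))
  have k0 : k ≠ 0 := fun h => lk (h ▸ dvd_zero l)
  have hQ : ∀ x : ℤ, ((l : ℤ) ^ (j0 * s) - 1 ∣ (e0 * t : ℕ) * x) ↔ ((k * f : ℕ) : ℤ) ∣ x := fun x => by
    have : (l : ℤ) ^ (j0 * s) - 1 = (e0 * t : ℕ) * ((k * f : ℕ) : ℤ) := by
      have := congrArg (Nat.cast : ℕ → ℤ) hk
      push_cast at this ⊢
      linear_combination -this
    rw [this, mul_dvd_mul_iff_left (by exact_mod_cast q0.ne')]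
  have key : ∀ c (g : P c), (g : H) ∈ H' ↔ ∃ x ∈ A (π c), (a c g).toAdd = (l * k) • x := by
    intro c g
    rw [hH c g]
    simp only [hQ, θ0]
    constructor
    · rintro ⟨d1, g', d2⟩
      choose w hw using d1
      have d3 : (a c g).toAdd = l • (a c g').toAdd := by
        rw [d2]; exact congrArg toAdd (map_pow (a' c) g' l)
      have d4 : ∀ i, (l : ℤ) ∣ w i := fun i => by
        have : (l : ℤ) ∣ ((k * f : ℕ) : ℤ) * w i := by
          rw [← hw i, d3, map_nsmul]; exact ⟨ϑ (π c) (a c g').toAdd i, by simp⟩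
        exact (Nat.isCoprime_iff_coprime.2 ((Nat.Prime.coprime_iff_not_dvd lp).2 fun h =>
          ((Nat.Prime.dvd_mul lp).1 h).elim lk lf)).dvd_of_dvd_mul_left this
      choose w' hw' using d4
      refine ⟨j (π c) w', j2 (π c) ▸ ⟨w', rfl⟩, nsmul_right_injective f0.ne' ?_⟩
      show f • (a c g).toAdd = f • (l * k) • j (π c) w'
      rw [← j3 (π c), ← map_nsmul, ← map_nsmul]
      congr 1
      funext i
      rw [hw i, hw' i, Pi.smul_apply, Pi.smul_apply, nsmul_eq_mul, nsmul_eq_mul]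
      push_cast
      ring
    · rintro ⟨x, hx, e⟩
      obtain ⟨w, rfl⟩ : x ∈ (j (π c)).range := (j2 (π c)).symm ▸ hx
      obtain ⟨m, hm⟩ := hk1
      obtain ⟨g', hg'⟩ := mk c (m • j (π c) w)
      refine ⟨fun i => ⟨l * w i, ?_⟩, g', a1 c (toAdd.injective ?_)⟩
      · rw [e, map_nsmul, j4, Pi.smul_apply, Pi.smul_apply, nsmul_eq_mul, nsmul_eq_mul]
        push_cast
        ring
      · rw [map_pow]
        show (a c g).toAdd = l • (a c g').toAdd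
        rw [e, hg', toAdd_ofAdd, smul_smul, smul_smul, hm, mul_assoc]
  have fi : (H'.map H.subtype).FiniteIndex := ⟨by
    rw [Subgroup.index_map_subtype]
    exact mul_ne_zero n2.index_ne_zero hf.index_ne_zero⟩
  refine ⟨(H'.map H.subtype).normalCore, inferInstance, inferInstance, fun c' h => ⟨fun hh => ?_, ?_⟩⟩
  · obtain ⟨c, g0, m0, rfl, e⟩ := h5 1 c'
    obtain ⟨y, hy, e'⟩ := hh 1
    have e2 : (((⟨g0, m0⟩⁻¹ * y * ⟨g0, m0⟩⁻¹⁻¹ : H)) : L.G) =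
        γ c * L.α (π c) (ofAdd h) * (γ c)⁻¹ := by
      have : (y : L.G) = _ := e'.trans (e _)
      simp only [Subgroup.coe_mul, Subgroup.coe_inv, this]
      group
    obtain ⟨x, hx, e3⟩ := (key c ⟨_, (h4 c _).2 ⟨_, e2⟩⟩).1 (n1.conj_mem _ hy _)
    rw [ha' c _ _ e2] at e3
    exact ⟨x, hx, e3⟩
  · rintro ⟨x, hx, rfl⟩ g
    obtain ⟨c, g0, m0, rfl, e⟩ := h5 g c'
    obtain ⟨m, hm⟩ := hk1
    obtain ⟨g', hg'⟩ := mk c ((l * m) • x)
    have e1' : e1 • (l * m) • x = (l * k) • x := by rw [smul_smul, hm, mul_left_comm]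
    rw [e1'] at hg'
    refine ⟨_, n1.conj_mem _ ((key c g').2 ⟨x, hx, by rw [hg']; rfl⟩) ⟨g0, m0⟩, ?_⟩
    rw [e, ← hg', ← ha c g']
    rfl

end Pool.Agent.Lib.MP_661727_gt.T3
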