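import Pool.Agent.Lib.MP_661727_gt.T3.Defs

/-! Multiplicative relations on plane curves. -/

namespace Pool.Agent.Lib.MP_661727_gt.T3

open Polynomial Multiplicative

variable {k : Type} [Field k] [IsAlgClosed k]

namespace Bn

variable {E : Type} [Field E] [Algebra k E]

lemma const_of_int {z : E} (hz : IsIntegral k z) : ∃ α : k, z = algebraMap k E α := by
  obtain ⟨α, h⟩ := minpoly.mem_range_of_degree_eq_one k z
    (IsAlgClosed.degree_eq_one_of_irreducible k (minpoly.irreducible hz))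
  exact ⟨α, h.symm⟩

lemma const_of_pow (z : Eˣ) {n : ℕ} (hn : 0 < n) {α : k}
    (h : ((z ^ (n : ℤ) : Eˣ) : E) = algebraMap k E α) :
    ∃ γ : kˣ, z = Units.map (algebraMap k E).toMonoidHom γ := by
  have h1 : IsIntegral k ((z : E) ^ n) := by
    rw [zpow_natCast, Units.val_pow_eq_pow_val] at h
    rw [h]
    exact isIntegral_algebraMap
  obtain ⟨β, hβ⟩ := const_of_int (IsIntegral.of_pow hn h1)
  have h0 : β ≠ 0 := fun e => z.ne_zero (by rw [hβ, e, map_zero])
  exact ⟨Units.mk0 β h0, Units.ext hβ⟩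

end Bn

/-- a multiplicative relation on a plane curve has bounded exponents -/
lemma binom {E : Type} [Field E] [Algebra k E] (x y : Eˣ) {D : ℕ} (c : Fin D × Fin D → k) (hc : c ≠ 0)
    (h : ∑ i, algebraMap k E (c i) * (x : E) ^ (i.1 : ℕ) * (y : E) ^ (i.2 : ℕ) = 0)
    (hx : ∀ α : k, (x : E) ≠ algebraMap k E α) {a b : ℤ} (hab : a ≠ 0 ∨ b ≠ 0)
    (h1 : ∃ α : k, ((x ^ a * y ^ b : Eˣ) : E) = algebraMap k E α) :
    ∃ a' b' : ℤ, (a' ≠ 0 ∨ b' ≠ 0) ∧ |a'| ≤ D ∧ |b'| ≤ D ∧
      ∃ α : k, ((x ^ a' * y ^ b' : Eˣ) : E) = algebraMap k E α := by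
  classical
  have hg : 0 < Int.gcd a b := Int.gcd_pos_iff.2 hab
  obtain ⟨p, q, hpq, ha, hb⟩ := Int.exists_gcd_one hg
  obtain ⟨u, v, huv⟩ := Int.isCoprime_iff_gcd_eq_one.2 hpq
  obtain ⟨α, hα⟩ := h1
  obtain ⟨γ, hγ⟩ := Bn.const_of_pow (x ^ p * y ^ q) hg (α := α) (by
    rw [mul_zpow, ← zpow_mul, ← zpow_mul, ← ha, ← hb, hα])
  set φ : kˣ →* Eˣ := Units.map (algebraMap k E).toMonoidHom with hφ
  have hv : ∀ δ : kˣ, ((φ δ : Eˣ) : E) = algebraMap k E δ := fun _ => rfl
  set w : Eˣ := x ^ v * y ^ (-u) with hw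
  have key : ∀ i j : ℤ, x ^ i * y ^ j = φ (γ ^ (u * i + v * j)) * w ^ (q * i - p * j) := by
    intro i j
    rw [map_zpow, ← hγ, hw, mul_zpow, mul_zpow, ← zpow_mul, ← zpow_mul, ← zpow_mul, ← zpow_mul,
      mul_mul_mul_comm, ← zpow_add, ← zpow_add]
    congr 2
    · linear_combination (-i) * huv
    · linear_combination (-j) * huv
  set e : Fin D × Fin D → ℤ := fun i => q * (i.1 : ℕ) - p * (i.2 : ℕ) with he
  by_cases hinj : Function.Injective e
  · exfalso
    have ht : Transcendental k (w : E) := by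
      intro hal
      obtain ⟨β, hβ⟩ := Bn.const_of_int hal.isIntegral
      have := key 1 0
      simp only [zpow_one, zpow_zero, mul_one, mul_zero, add_zero, sub_zero] at this
      refine hx ((γ ^ u : kˣ) * β ^ q) ?_
      rw [this, Units.val_mul, hv, Units.val_zpow_eq_zpow_val w, hβ, map_mul,
        map_zpow₀ (algebraMap k E) β]
    set N : ℤ := ∑ i, |e i| with hN
    have hpos : ∀ i, 0 ≤ e i + N := fun i => by
      have h2 : |e i| ≤ N := Finset.single_le_sum (f := fun i => |e i|)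
        (fun j _ => abs_nonneg _) (Finset.mem_univ i)
      have := neg_abs_le (e i)
      omega
    set d : Fin D × Fin D → k := fun i =>
      c i * ((γ ^ (u * (i.1 : ℕ) + v * (i.2 : ℕ)) : kˣ) : k) with hd
    have hp : (∑ i, monomial (e i + N).toNat (d i) : k[X]) = 0 := by
      refine transcendental_iff.1 ht _ ?_
      rw [map_sum, ← zero_mul (((w ^ N : Eˣ) : E)), ← h, Finset.sum_mul]
      refine Finset.sum_congr rfl fun i _ => ?_
      have h2 := congrArg (fun z : Eˣ => (z : E)) (key (i.1 : ℕ) (i.2 : ℕ))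
      simp only [zpow_natCast, Units.val_mul, Units.val_pow_eq_pow_val, hv] at h2
      have h3 : (w : E) ^ (e i + N).toNat = ((w ^ e i : Eˣ) : E) * ((w ^ N : Eˣ) : E) := by
        rw [← Units.val_mul, ← zpow_add, ← Units.val_pow_eq_pow_val, ← zpow_natCast,
          Int.toNat_of_nonneg (hpos i)]
      rw [aeval_monomial, h3, mul_assoc (algebraMap k E (c i)), h2, hd, map_mul]
      simp only [he, mul_assoc]
    refine hc (funext fun j => ?_)
    have h2 := congrArg (fun r : k[X] => r.coeff (e j + N).toNat) hp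
    simp only [finsetSum_coeff, coeff_monomial, coeff_zero] at h2
    rw [Finset.sum_eq_single j (fun i _ hi => if_neg fun h3 => hi (hinj (by
      have := hpos i
      have := hpos j
      omega))) (by simp), if_pos rfl] at h2
    exact (mul_eq_zero.1 h2).resolve_right (Units.ne_zero _)
  · obtain ⟨i, j, h2, h3⟩ := Function.not_injective_iff.1 hinj
    have b1 := i.1.2
    have b2 := i.2.2
    have b3 := j.1.2
    have b4 := j.2.2
    refine ⟨((i.1 : ℕ) : ℤ) - (j.1 : ℕ), ((i.2 : ℕ) : ℤ) - (j.2 : ℕ), ?_, abs_le.2 ⟨by omega, by omega⟩,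
      abs_le.2 ⟨by omega, by omega⟩, (γ ^ (u * (((i.1 : ℕ) : ℤ) - (j.1 : ℕ)) +
        v * (((i.2 : ℕ) : ℤ) - (j.2 : ℕ))) : kˣ), ?_⟩
    · by_contra hcon
      push Not at hcon
      exact h3 (Prod.ext (Fin.ext (by omega)) (Fin.ext (by omega)))
    · have h4 : q * (((i.1 : ℕ) : ℤ) - (j.1 : ℕ)) - p * (((i.2 : ℕ) : ℤ) - (j.2 : ℕ)) = 0 := by
        simp only [he] at h2
        linear_combination h2
      rw [key, h4, zpow_zero, mul_one, hv]

end Pool.Agent.Lib.MP_661727_gt.T3
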