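import Pool.Agent.Lib.MP_661727_gt.T3.Mat
import Pool.Agent.Lib.MP_661727_gt.T3.Spec
import Pool.Agent.Lib.MP_661727_gt.T3.Kum

/-! Curves of representations. -/

namespace Pool.Agent.Lib.MP_661727_gt.T3

open Polynomial Multiplicative

lemma crv_embed {R S M : Type} [CommRing R] [IsDomain R] [CommRing S] [IsDomain S] [Field M]
    [IsAlgClosed M] [Algebra R S] [Algebra R M] (hS : Function.Injective (algebraMap R S))
    (hM : Function.Injective (algebraMap R M)) :
    ∃ e : Subalgebra.algebraicClosure R S →ₐ[R] M, Function.Injective e := by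
  have hB : Function.Injective (algebraMap R (Subalgebra.algebraicClosure R S)) := by
    intro a b h
    exact hS (congrArg Subtype.val h)
  have : FaithfulSMul R (Subalgebra.algebraicClosure R S) :=
    (faithfulSMul_iff_algebraMap_injective _ _).2 hB
  have : FaithfulSMul R M := (faithfulSMul_iff_algebraMap_injective _ _).2 hM
  refine ⟨IsAlgClosed.lift, (injective_iff_map_eq_zero _).2 fun y hy => ?_⟩
  by_contra h0
  obtain ⟨r, hr, c, hc⟩ := (Algebra.IsAlgebraic.isAlgebraic (R := R) y).exists_nonzero_dvd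
    (mem_nonZeroDivisors_of_ne_zero h0)
  have h1 := congrArg (IsAlgClosed.lift (R := R) (S := Subalgebra.algebraicClosure R S) (M := M)) hc
  rw [AlgHom.commutes, map_mul, hy, zero_mul] at h1
  exact hr (hM (by rw [h1, map_zero]))

lemma crv_rel (q : ℤ[X][X]) (hq : q ≠ 0) : ∃ (D : ℕ) (c : Fin D × Fin D → ℤ), c ≠ 0 ∧
    ∀ (E : Type) [CommRing E] (x y : E), ∑ i, (c i : E) * x ^ (i.1 : ℕ) * y ^ (i.2 : ℕ) =
      q.eval₂ (eval₂RingHom (Int.castRingHom E) (x - 1)) y := by
  set D := q.natDegree + q.support.sup (fun j => (q.coeff j).natDegree) + 1 with hD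
  have h1 : q.natDegree < D := by omega
  have h2 : ∀ j, (taylor (-1) (q.coeff j)).natDegree < D := by
    intro j
    rw [natDegree_taylor]
    by_cases hj : j ∈ q.support
    · have := Finset.le_sup (f := fun j => (q.coeff j).natDegree) hj
      omega
    · rw [notMem_support_iff.1 hj, natDegree_zero]
      omega
  refine ⟨D, fun i => (taylor (-1) (q.coeff i.2)).coeff i.1, fun h => ?_, fun E _ x y => ?_⟩
  · have h3 := congrFun h (⟨_, h2 q.natDegree⟩, ⟨_, h1⟩)
    simp only [Pi.zero_apply] at h3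
    have h4 : taylor (-1) (q.coeff q.natDegree) = 0 := leadingCoeff_eq_zero.1 h3
    rw [taylor_eq_zero] at h4
    exact hq (leadingCoeff_eq_zero.1 h4)
  · rw [eval₂_eq_sum_range' _ h1, Fintype.sum_prod_type_right, Finset.sum_range]
    refine Finset.sum_congr rfl fun j _ => ?_
    simp only
    rw [← Finset.sum_mul]
    congr 1
    have h5 : eval₂RingHom (Int.castRingHom E) (x - 1) (q.coeff j) =
        (taylor (-1) (q.coeff j)).eval₂ (Int.castRingHom E) x := by
      rw [taylor_apply, eval₂_comp]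
      simp [sub_eq_add_neg]
    rw [h5, eval₂_eq_sum_range' _ (h2 j), Finset.sum_range]
    rfl

lemma crv_basis {Q : Type} [Group Q] (θ : Q →* Multiplicative (Zk 2)) (hθ : Function.Injective θ)
    {f : ℕ} (hf : 0 < f) (hθ' : ∀ w, ofAdd (f • w) ∈ θ.range) :
    ∃ μ lam : Q, (∀ h, h ^ f = μ ^ (θ h).toAdd 0 * lam ^ (θ h).toAdd 1) ∧
      ∀ a b : ℤ, μ ^ a * lam ^ b = 1 → a = 0 ∧ b = 0 := by
  obtain ⟨μ, hμ⟩ := hθ' (Pi.single 0 1)
  obtain ⟨lam, hlam⟩ := hθ' (Pi.single 1 1)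
  have key : ∀ a b : ℤ, (θ (μ ^ a * lam ^ b)).toAdd = ![f * a, f * b] := by
    intro a b
    rw [map_mul, map_zpow, map_zpow, hμ, hlam]
    ext i
    fin_cases i <;> simp [mul_comm]
  refine ⟨μ, lam, fun h => hθ (toAdd.injective ?_), fun a b h => ?_⟩
  · rw [key, map_pow]
    ext i
    fin_cases i <;> simp
  · have h1 := key a b
    rw [h, map_one] at h1
    have h2 := congrFun h1 0
    have h3 := congrFun h1 1
    simp at h2 h3
    omega

lemma crv_root {Q : Type} [Group Q] (θ : Q →* Multiplicative (Zk 2)) (hθ : Function.Injective θ)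
    {f l : ℕ} (hl : l.Coprime f) (hθ' : ∀ w, ofAdd (f • w) ∈ θ.range) {h : Q}
    (hh : ∀ i, (l : ℤ) ∣ (θ h).toAdd i) : ∃ h', h = h' ^ l := by
  choose w hw using hh
  obtain ⟨g, hg⟩ := hθ' w
  obtain ⟨a, b, hab⟩ := Nat.isCoprime_iff_coprime.2 hl
  refine ⟨h ^ a * g ^ b, hθ (toAdd.injective ?_)⟩
  rw [map_pow, map_mul, map_zpow, map_zpow, hg]
  ext i
  simp only [toAdd_pow, toAdd_mul, toAdd_zpow, toAdd_ofAdd, Pi.smul_apply, Pi.add_apply, hw,
    smul_eq_mul]
  simp only [nsmul_eq_mul]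
  linear_combination (-(l : ℤ) * w i) * hab

namespace Uni

variable {G κ : Type} [Group G] {P : κ → Subgroup G} (V : Uni G P)

lemma χ_mul (c : κ) {g h : G} (hg : g ∈ P c) (hh : h ∈ P c) :
    V.χ c (g * h) = V.χ c g * V.χ c h ∧ V.β c (g * h) = V.β c g + V.χ c g * V.β c h := by
  apply aff_inj
  have h1 := V.conj c _ (mul_mem hg hh)
  rw [map_mul, V.conj c g hg, V.conj c h hh] at h1
  rw [← aff_mul]
  have h2 : V.S c * (aff (V.χ c g) (V.β c g) * aff (V.χ c h) (V.β c h)) * (V.S c)⁻¹ =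
      V.S c * aff (V.χ c (g * h)) (V.β c (g * h)) * (V.S c)⁻¹ := by
    rw [← h1]
    group
  exact (mul_left_cancel (mul_right_cancel h2)).symm

/-- the linear part as a homomorphism -/
def χh (c : κ) : P c →* V.Rˣ :=
  MonoidHom.mk' (fun h => V.χ c h) fun g h => (V.χ_mul c g.2 h.2).1

/-- the translation part as a homomorphism -/
def βh (c : κ) {E : Type} [CommRing E] (π : V.R →+* E) (hπ : ∀ h ∈ P c, π (V.χ c h) = 1) :
    P c →* Multiplicative E :=
  MonoidHom.mk' (fun h => ofAdd (π (V.β c h))) fun g h => by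
    rw [← ofAdd_add, Subgroup.coe_mul, (V.χ_mul c g.2 h.2).2, map_add, map_mul, hπ g g.2, one_mul]

lemma βh_comb (c : κ) {E : Type} [CommRing E] (π : V.R →+* E) (hπ : ∀ h ∈ P c, π (V.χ c h) = 1)
    {h μ lam : P c} {f : ℕ} {a b : ℤ} (e : h ^ f = μ ^ a * lam ^ b) :
    f * π (V.β c h) = a * π (V.β c μ) + b * π (V.β c lam) := by
  have h1 := congrArg (fun x => (V.βh c π hπ x).toAdd) e
  simp only [map_pow, map_mul, map_zpow, toAdd_pow, toAdd_mul, toAdd_zpow, nsmul_eq_mul,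
    zsmul_eq_mul] at h1
  exact h1

include V in
lemma comm (c : κ) {g h : G} (hg : g ∈ P c) (hh : h ∈ P c) : g * h = h * g := by
  have hi : Function.Injective (V.βh c V.ψ0 (V.par c)) :=
    (injective_iff_map_eq_one _).2 fun a ha =>
      Subtype.ext (V.inj c a a.2 (ofAdd.injective ha))
  have h1 : (⟨g, hg⟩ * ⟨h, hh⟩ : P c) = ⟨h, hh⟩ * ⟨g, hg⟩ :=
    hi (by rw [map_mul, map_mul, mul_comm])
  exact congrArg Subtype.val h1

lemma cross (c : κ) {g h : G} (hg : g ∈ P c) (hh : h ∈ P c) :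
    ((V.χ c g : V.R) - 1) * V.β c h = ((V.χ c h : V.R) - 1) * V.β c g := by
  have h1 := (V.χ_mul c hg hh).2
  have h2 := (V.χ_mul c hh hg).2
  rw [V.comm c hg hh, h2] at h1
  linear_combination -h1

theorem curve [Finite κ] (θ : ∀ c, P c →* Multiplicative (Zk 2))
    (hθ : ∀ c, Function.Injective (θ c)) {f : ℕ} (hf : 0 < f)
    (hθ' : ∀ c w, ofAdd (f • w) ∈ (θ c).range) (c0 : κ) :
    ∃ n : ℕ, 0 < n ∧ ∀ (l : ℕ) [Fact l.Prime], ¬ l ∣ n →
      ∃ (A : Type) (_ : CommRing A) (ψ : V.R →+* A) (ι : A →+* UU (kk l)) (τ : A),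
        Algebra.FiniteType ℤ A ∧ Function.Injective ι ∧
        (∀ c, c ≠ c0 → ∀ h ∈ P c, ψ (V.χ c h) = 1) ∧
        (∀ h ∈ P c0, ψ (V.β c0 h) = (ψ (V.χ c0 h) - 1) * τ) ∧
        ∀ h ∈ P c0, (∃ α : kk l, ι (ψ (V.χ c0 h)) = algebraMap _ _ α) → h = 1 := by
  classical
  have := Fintype.ofFinite κ
  choose μ lam hb hi using fun c => crv_basis (θ c) (hθ c) hf (hθ' c)
  have hμ1 : ∀ c, (μ c : G) ≠ 1 := fun c h => by
    have h1 : μ c = 1 := Subtype.ext h
    exact one_ne_zero (hi c 1 0 (by simp [h1])).1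
  obtain ⟨A, hA, hT⟩ := V.dfm (fun c => μ c) (fun c => ⟨(μ c).2, hμ1 c⟩) c0
  obtain ⟨D, cf, hcf, hrel⟩ := crv_rel _ (hA (V.χ c0 (lam c0)))
  obtain ⟨i0, hi0⟩ := Function.ne_iff.1 hcf
  obtain ⟨s, hs⟩ := V.ft.out
  set W : Finset (ℤ × ℤ) := (Finset.Icc (-(D : ℤ)) D ×ˢ Finset.Icc (-(D : ℤ)) D).erase 0 with hW
  obtain ⟨n, hn, hψ⟩ := hT (Finset.univ.image (fun c => V.β c (μ c)) ∪
    W.image fun w => V.β c0 (μ c0 ^ w.1 * lam c0 ^ w.2 : P c0)) (by
      intro r hr
      rcases Finset.mem_union.1 hr with hr | hr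
      · obtain ⟨c, -, rfl⟩ := Finset.mem_image.1 hr
        exact fun h => hμ1 c (V.inj c _ (μ c).2 h)
      · obtain ⟨w, hw, rfl⟩ := Finset.mem_image.1 hr
        intro h
        have h1 := hi c0 _ _ (Subtype.ext (V.inj c0 _ (μ c0 ^ w.1 * lam c0 ^ w.2).2 h))
        exact (Finset.mem_erase.1 hw).1 (Prod.ext h1.1 h1.2))
  refine ⟨n * ((cf i0).natAbs * ∏ r ∈ s, (A r).leadingCoeff.leadingCoeff.natAbs), ?_,
    fun l hl hln => ?_⟩
  · refine Nat.mul_pos hn (Nat.mul_pos (Int.natAbs_pos.2 hi0) (Finset.prod_pos fun r _ => ?_))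
    exact Int.natAbs_pos.2 (leadingCoeff_ne_zero.2 (leadingCoeff_ne_zero.2 (hA r)))
  obtain ⟨ψ, h1, h2, h3, h4⟩ := hψ l hl.out (fun h => hln (h.mul_right _)) (kk l)
  have hcast : ∀ z : ℤ, (z : kk l) = 0 → l ∣ z.natAbs := fun z hz =>
    Int.natCast_dvd.1 ((CharP.intCast_eq_zero_iff (kk l) l z).1 hz)
  have halg : ∀ p : (kk l)[X], algebraMap (kk l)[X] (PowerSeries (kk l)) p = p := fun p => by
    rw [PowerSeries.algebraMap_apply']
    simp
  have hU : Function.Injective (algebraMap (kk l)[X] (UU (kk l))) := by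
    rw [IsScalarTower.algebraMap_eq (kk l)[X] (FractionRing (kk l)[X]) (UU (kk l))]
    exact (algebraMap (FractionRing (kk l)[X]) (UU (kk l))).injective.comp
      (IsFractionRing.injective _ _)
  obtain ⟨e, he⟩ := crv_embed (R := (kk l)[X]) (S := PowerSeries (kk l)) (M := UU (kk l))
    (fun a b h => Polynomial.coe_injective _ (by rw [← halg, ← halg, h])) hU
  have hmem : ∀ r, ψ r ∈ Subalgebra.algebraicClosure (kk l)[X] (PowerSeries (kk l)) := by
    intro r
    have hr : r ∈ Algebra.adjoin ℤ (s : Set V.R) := hs ▸ Algebra.mem_top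
    induction hr using Algebra.adjoin_induction with
    | mem r hr =>
      refine ⟨(A r).map (mapRingHom (Int.castRingHom (kk l))), fun h => hln ?_, ?_⟩
      · have h5 := congrArg (fun q => (q.coeff (A r).natDegree).coeff (A r).leadingCoeff.natDegree) h
        simp only [coeff_map, coe_mapRingHom, coeff_zero] at h5
        exact ((hcast _ h5).trans (Finset.dvd_prod_of_mem
          (fun r => (A r).leadingCoeff.leadingCoeff.natAbs) hr)).mul_left _ |>.mul_left _
      · rw [aeval_def, eval₂_map, ← h4 r]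
        congr 1
        refine Polynomial.ringHom_ext' (RingHom.ext_int _ _) ?_
        simp [halg]
    | algebraMap z =>
      rw [eq_intCast, map_intCast]
      exact intCast_mem _ _
    | add a b _ _ ha hb =>
      rw [map_add]
      exact add_mem ha hb
    | mul a b _ _ ha hb =>
      rw [map_mul]
      exact mul_mem ha hb
  set ψ1 : V.R →+* Subalgebra.algebraicClosure (kk l)[X] (PowerSeries (kk l)) :=
    ψ.codRestrict _ hmem with hψ1
  set φ : V.R →+* UU (kk l) := (e : _ →+* UU (kk l)).comp ψ1 with hφ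
  have hφp : ∀ r (p : (kk l)[X]), φ r = algebraMap _ _ p ↔ ψ r = p := by
    intro r p
    rw [← e.commutes p, ← halg]
    exact ⟨fun h => congrArg Subtype.val (he h), fun h => congrArg e (Subtype.ext h)⟩
  set t : UU (kk l) := algebraMap (kk l)[X] _ X with ht
  have ht0 : t ≠ 0 := fun h => X_ne_zero (hU (h.trans (map_zero _).symm))
  have hx : φ (V.χ c0 (μ c0)) = 1 + t := by
    have h5 := (hφp (V.χ c0 (μ c0)) (1 + X)).2 (by simpa using h1)
    rwa [map_add, map_one] at h5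
  have hcc : ∀ c, PowerSeries.constantCoeff (ψ (V.β c (μ c))) ≠ 0 := fun c =>
    h3 _ (Finset.mem_union_left _ (Finset.mem_image.2 ⟨c, Finset.mem_univ _, rfl⟩))
  have hC : ∀ α : kk l, algebraMap (kk l) (UU (kk l)) α = algebraMap (kk l)[X] _ (C α) :=
    fun α => IsScalarTower.algebraMap_apply (kk l) (kk l)[X] (UU (kk l)) α
  set Φ : V.R[X] →+* UU (kk l) := eval₂RingHom φ t⁻¹ with hΦ
  refine ⟨Φ.range, inferInstance, Φ.rangeRestrict.comp C, Φ.range.subtype,
    Φ.rangeRestrict (C (V.β c0 (μ c0)) * X), ?_, Subtype.val_injective, fun c hc h hh => ?_,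
    fun h hh => ?_, fun h hh hα => ?_⟩
  · have h5 : Algebra.FiniteType ℤ V.R[X] := Algebra.FiniteType.trans V.ft inferInstance
    have h6 : (Int.castRingHom V.R[X]).FiniteType := by
      have := RingHom.finiteType_algebraMap.2 h5
      rwa [RingHom.ext_int (algebraMap ℤ V.R[X]) (Int.castRingHom _)] at this
    have h7 := h6.comp_surjective Φ.rangeRestrict_surjective
    rw [RingHom.ext_int (Φ.rangeRestrict.comp _) (algebraMap ℤ Φ.range)] at h7
    exact RingHom.finiteType_algebraMap.1 h7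
  · have h5 := congrArg ψ (V.cross c (μ c).2 hh)
    rw [map_mul, map_mul, map_sub, map_sub, map_one, h2 c hc, sub_self, zero_mul] at h5
    have h6 : ψ (V.β c (μ c)) ≠ 0 := fun h => hcc c (by rw [h, map_zero])
    have h7 : ψ (V.χ c h) = 1 := sub_eq_zero.1 ((mul_eq_zero.1 h5.symm).resolve_right h6)
    have h8 := (hφp (V.χ c h) 1).2 (by simpa using h7)
    apply Subtype.ext
    simpa [hΦ] using h8
  · have h5 := congrArg φ (V.cross c0 (μ c0).2 hh)
    rw [map_mul, map_mul, map_sub, map_sub, map_one, hx] at h5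
    apply Subtype.ext
    simp only [hΦ, RingHom.comp_apply, RingHom.coe_rangeRestrict, coe_eval₂RingHom, eval₂_C,
      Subring.coe_mul, AddSubgroupClass.coe_sub, OneMemClass.coe_one, map_mul, eval₂_X]
    field_simp
    linear_combination h5
  · obtain ⟨α, hα⟩ := hα
    have hα' : φ (V.χ c0 h) = algebraMap _ _ α := by simpa [hΦ] using hα
    by_contra hne
    set χ' : P c0 →* (UU (kk l))ˣ := (Units.map φ.toMonoidHom).comp (V.χh c0) with hχ'
    have hv : ∀ g : P c0, (χ' g : UU (kk l)) = φ (V.χ c0 g) := fun g => rfl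
    have hab : (θ c0 ⟨h, hh⟩).toAdd 0 ≠ 0 ∨ (θ c0 ⟨h, hh⟩).toAdd 1 ≠ 0 := by
      by_contra hc
      push Not at hc
      refine hne (congrArg Subtype.val (hθ c0 (a₁ := ⟨h, hh⟩) (a₂ := 1) (toAdd.injective ?_)))
      ext i
      fin_cases i
      · simpa using hc.1
      · simpa using hc.2
    obtain ⟨a', b', hab', ha', hb', α', hα''⟩ := binom (k := kk l) (χ' (μ c0)) (χ' (lam c0))
      (fun i => (cf i : kk l)) (fun h0 => hln
        ((hcast _ (congrFun h0 i0)).mul_right _ |>.mul_left _)) (by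
        simp only [map_intCast]
        rw [hrel, hv, hv, hx, add_sub_cancel_left]
        have h5 : ψ1 (V.χ c0 (lam c0)) = ⟨ψ (V.χ c0 (lam c0)), hmem _⟩ := rfl
        have h6 : ((A (V.χ c0 (lam c0))).eval₂ (eval₂RingHom (Int.castRingHom _)
            (algebraMap (kk l)[X] _ X)) (ψ1 (V.χ c0 (lam c0)))) = 0 := by
          apply Subtype.val_injective
          rw [← Subalgebra.coe_val, ← AlgHom.coe_toRingHom, hom_eval₂, map_zero, ← h4]
          congr 1
          refine Polynomial.ringHom_ext' (RingHom.ext_int _ _) ?_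
          simp [halg]
        have h7 := congrArg (e : _ →+* UU (kk l)) h6
        rw [hom_eval₂, map_zero] at h7
        rw [← h7]
        congr 1
        refine Polynomial.ringHom_ext' (RingHom.ext_int _ _) ?_
        simp [ht])
      (fun α h0 => by
        rw [hv, hx, hC, ht, ← map_one (algebraMap (kk l)[X] (UU (kk l))), ← map_add] at h0
        have h5 := congrArg (fun q => q.coeff 1) (hU h0)
        simp [coeff_one] at h5)
      hab ⟨α ^ f, by
        rw [← map_zpow, ← map_zpow, ← map_mul, ← hb c0, map_pow, Units.val_pow_eq_pow_val, hv, hα',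
          map_pow]⟩
    rw [← map_zpow, ← map_zpow, ← map_mul, hv, hC, hφp] at hα''
    have h5 := congrArg ψ (V.cross c0 (μ c0).2 (μ c0 ^ a' * lam c0 ^ b').2)
    rw [map_mul, map_mul, map_sub, map_sub, map_one, h1, hα'', add_sub_cancel_left, coe_C] at h5
    have h6 := congrArg PowerSeries.constantCoeff h5
    rw [map_mul, map_mul, PowerSeries.constantCoeff_X, zero_mul, map_sub,
      PowerSeries.constantCoeff_C, map_one] at h6
    have h7 : α' = 1 := sub_eq_zero.1 ((mul_eq_zero.1 h6.symm).resolve_right (hcc c0))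
    rw [h7, map_one, sub_self, zero_mul] at h5
    have h8 := (mul_eq_zero.1 h5).resolve_left PowerSeries.X_ne_zero
    refine h3 _ (Finset.mem_union_right _ (Finset.mem_image.2 ⟨(a', b'), ?_, rfl⟩))
      (by rw [h8, map_zero])
    simp only [hW, Finset.mem_erase, Finset.mem_product, Finset.mem_Icc, ne_eq, Prod.mk_eq_zero]
    exact ⟨fun h0 => hab'.elim (fun h => h h0.1) fun h => h h0.2, abs_le.1 ha', abs_le.1 hb'⟩

include V in
/-- the part at the characteristic -/
theorem lpart [Finite κ] (θ : ∀ c, P c →* Multiplicative (Zk 2))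
    (hθ : ∀ c, Function.Injective (θ c)) {f : ℕ} (hf : 0 < f)
    (hθ' : ∀ c w, ofAdd (f • w) ∈ (θ c).range) :
    ∃ n : ℕ, 0 < n ∧ ∀ l : ℕ, l.Prime → ¬ l ∣ n → ∃ H : Subgroup G, H.Normal ∧ H.FiniteIndex ∧
      ∀ c, ∀ h ∈ P c, (h ∈ H ↔ ∃ h' ∈ P c, h = h' ^ l) := by
  classical
  have := Fintype.ofFinite κ
  have := V.ft
  choose μ lam hb hi using fun c => crv_basis (θ c) (hθ c) hf (hθ' c)
  have ft2 : Algebra.FiniteType ℤ (TensorProduct ℤ V.R V.R) :=
    Algebra.FiniteType.trans V.ft inferInstance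
  set i1 : V.R →+* TensorProduct ℤ V.R V.R := Algebra.TensorProduct.includeLeftRingHom with hi1
  set i2 : V.R →+* TensorProduct ℤ V.R V.R :=
    (Algebra.TensorProduct.includeRight (R := ℤ) (A := V.R) (B := V.R)).toRingHom with hi2
  set ψ : TensorProduct ℤ V.R V.R →+* ℂ := (Algebra.TensorProduct.productMap V.ψ0.toIntAlgHom
    ((starRingEnd ℂ).comp V.ψ0).toIntAlgHom).toRingHom with hψ
  have e1 : ∀ r, ψ (i1 r) = V.ψ0 r := fun r => by simp [hψ, hi1]
  have e2 : ∀ r, ψ (i2 r) = starRingEnd ℂ (V.ψ0 r) := fun r => by simp [hψ, hi2]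
  obtain ⟨n, hn, hφ⟩ := spec ft2 ψ (u := ∏ c, (i1 (V.β c (μ c)) * i2 (V.β c (lam c)) -
      i1 (V.β c (lam c)) * i2 (V.β c (μ c)))) (by
    rw [map_prod]
    refine Finset.prod_ne_zero_iff.2 fun c _ h0 => ?_
    rw [map_sub, map_mul, map_mul, e1, e1, e2, e2] at h0
    have hm : V.ψ0 (V.β c (μ c)) ≠ 0 := fun h => by
      have h1 : μ c = 1 := Subtype.ext (V.inj c _ (μ c).2 h)
      exact one_ne_zero (hi c 1 0 (by simp [h1])).1
    obtain ⟨h, hh, h1⟩ := V.span c (Complex.I * starRingEnd ℂ (V.ψ0 (V.β c (μ c))))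
      (mul_ne_zero Complex.I_ne_zero ((_root_.map_ne_zero _).2 hm))
    have h2 := V.βh_comb c V.ψ0 (V.par c) (hb c ⟨h, hh⟩)
    have h3 := congrArg Complex.im h0
    have h4 := congrArg (fun z => (Complex.I * starRingEnd ℂ (V.ψ0 (V.β c (μ c))) * z).re) h2
    have hf' : (f : ℝ) ≠ 0 := Nat.cast_ne_zero.2 hf.ne'
    apply h1
    apply mul_left_cancel₀ hf'
    simp only [Complex.mul_re, Complex.mul_im, Complex.I_re, Complex.I_im, Complex.conj_re,
      Complex.conj_im, Complex.add_re, Complex.add_im, Complex.natCast_re, Complex.natCast_im,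
      Complex.intCast_re, Complex.intCast_im, Complex.sub_im, Complex.zero_im] at h3 h4 ⊢
    linear_combination h4 + (((θ c ⟨h, hh⟩).toAdd 1 : ℝ) / 2) * h3)
  refine ⟨n * f, Nat.mul_pos hn hf, fun l hl hln => ?_⟩
  have := Fact.mk hl
  obtain ⟨φ, h1, h2, h3⟩ := hφ l hl (fun h => hln (h.mul_right _)) (kk l)
  have p1 : ∀ c, ∀ h ∈ P c, φ.comp i1 (V.χ c h) = 1 := fun c h hh => by
    have h4 := h2 (i1 (V.χ c h) - 1) (by rw [map_sub, e1, V.par c h hh, map_one, sub_self])
    rwa [map_sub, map_one, sub_eq_zero] at h4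
  have p2 : ∀ c, ∀ h ∈ P c, φ.comp i2 (V.χ c h) = 1 := fun c h hh => by
    have h4 := h2 (i2 (V.χ c h) - 1)
      (by rw [map_sub, e2, V.par c h hh, map_one, map_one, sub_self])
    rwa [map_sub, map_one, sub_eq_zero] at h4
  have hk : ∀ (π : V.R →+* kk l) c, (∀ h ∈ P c, π (V.χ c h) = 1) → ∀ h ∈ P c,
      (h ∈ ((mp π).comp V.ρ).ker ↔ π (V.β c h) = 0) := fun π c hπ h hh => by
    have h4 : Units.map π.toMonoidHom (V.χ c h) = 1 := Units.ext (hπ h hh)
    rw [MonoidHom.mem_ker, MonoidHom.comp_apply, V.conj c h hh, map_mul, map_mul, map_inv, mp_aff,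
      h4, mul_inv_eq_one, mul_eq_left, ← aff_one]
    exact ⟨fun h5 => (aff_inj h5).2, fun h5 => by rw [h5]⟩
  have := mp_fi V.ρ (φ.comp i1) (h3.subset (by rintro _ ⟨r, rfl⟩; exact ⟨_, rfl⟩))
  have := mp_fi V.ρ (φ.comp i2) (h3.subset (by rintro _ ⟨r, rfl⟩; exact ⟨_, rfl⟩))
  refine ⟨((mp (φ.comp i1)).comp V.ρ).ker ⊓ ((mp (φ.comp i2)).comp V.ρ).ker, inferInstance,
    inferInstance, fun c h hh => ?_⟩
  rw [Subgroup.mem_inf, hk _ c (p1 c) h hh, hk _ c (p2 c) h hh]
  constructor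
  · rintro ⟨q1, q2⟩
    have h4 := V.βh_comb c _ (p1 c) (hb c ⟨h, hh⟩)
    have h5 := V.βh_comb c _ (p2 c) (hb c ⟨h, hh⟩)
    rw [q1, mul_zero] at h4
    rw [q2, mul_zero] at h5
    rw [map_prod] at h1
    have h6 := Finset.prod_ne_zero_iff.1 h1 c (Finset.mem_univ _)
    rw [map_sub, map_mul, map_mul] at h6
    simp only [RingHom.comp_apply] at h4 h5
    have ha : (((θ c ⟨h, hh⟩).toAdd 0 : ℤ) : kk l) = 0 := by
      apply mul_right_cancel₀ h6
      linear_combination (-φ (i2 (V.β c (lam c)))) * h4 + φ (i1 (V.β c (lam c))) * h5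
    have hb' : (((θ c ⟨h, hh⟩).toAdd 1 : ℤ) : kk l) = 0 := by
      apply mul_right_cancel₀ h6
      linear_combination φ (i2 (V.β c (μ c))) * h4 - φ (i1 (V.β c (μ c))) * h5
    obtain ⟨h', hh'⟩ := crv_root (θ c) (hθ c)
      ((Nat.Prime.coprime_iff_not_dvd hl).2 fun h => hln (h.mul_left _)) (hθ' c) (h := ⟨h, hh⟩)
      (fun i => by
        fin_cases i
        · exact (CharP.intCast_eq_zero_iff (kk l) l _).1 ha
        · exact (CharP.intCast_eq_zero_iff (kk l) l _).1 hb')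
    exact ⟨h', h'.2, congrArg Subtype.val hh'⟩
  · rintro ⟨h', hh', rfl⟩
    have key : ∀ (π : V.R →+* kk l), (∀ h ∈ P c, π (V.χ c h) = 1) → π (V.β c (h' ^ l)) = 0 := by
      intro π hπ
      have h4 := V.βh_comb c π hπ (h := ⟨h', hh'⟩ ^ l) (μ := ⟨h', hh'⟩) (lam := 1) (f := 1) (a := l)
        (b := 0) (by simp)
      simpa using h4
    exact ⟨key _ (p1 c), key _ (p2 c)⟩

end Uni

end Pool.Agent.Lib.MP_661727_gt.T3
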