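import Pool.Agent.Lib.MP_661727_gt.Ar.B2

/-! Three-dimensional bases: definitions. -/

namespace Pool.Agent.Lib.MP_661727_gt

/-- a regular finite cover whose cusp groups are `k • A c` -/
def Cusped.Cov {d : ℕ} (L : Cusped d) (A : L.C → AddSubgroup (Zk (d - 1))) (k : ℕ) : Prop :=
  ∃ H : Subgroup L.G, H.Normal ∧ H.FiniteIndex ∧
    ∀ c h, L.α c (Multiplicative.ofAdd h) ∈ H ↔ ∃ a ∈ A c, h = k • a

namespace T3

open Polynomial Equiv Ar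

/-- the set of numbers for which a property is known -/
def Good (b : ℕ) (Pr : ℕ → Prop) : Prop :=
  ∃ e1 n : ℕ, 0 < e1 ∧ e1.Coprime b ∧ 0 < n ∧ ∀ l : ℕ, l.Prime → ¬ l ∣ n →
    ∃ e0 j0 : ℕ, 0 < e0 ∧ ¬ l ∣ e0 ∧ 0 < j0 ∧ ∀ e : ℕ, 0 < e → e0 ∣ e → ¬ l ∣ e →
      ∃ s0 : ℕ, ∀ s, s0 ≤ s → ∀ k : ℕ, e * k + 1 = l ^ (j0 * s) → e1 ∣ k → Pr (l * k)

/-- vectors with coordinates in an ideal of a subring -/
def lat {d : ℕ} (R : Subring ℝ) (I : Ideal R) : Set (Mink d) :=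
  {v | (∃ r ∈ I, (r : ℝ) = v.1) ∧ ∀ i, ∃ r ∈ I, (r : ℝ) = v.2 i}

abbrev kk (l : ℕ) [Fact l.Prime] := AlgebraicClosure (ZMod l)

abbrev UU (k : Type) [Field k] := AlgebraicClosure (FractionRing k[X])

section
variable {R : Type} [CommRing R]

abbrev G3 (R : Type) [CommRing R] := (Matrix (Fin 3) (Fin 3) R)ˣ

/-- the map `w ↦ a w + b` in the adjoint representation -/
def aff (a : Rˣ) (b : R) : G3 R where
  val := !![a, 2 * b, b ^ 2 * a⁻¹; 0, 1, b * a⁻¹; 0, 0, (a⁻¹ : Rˣ)]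
  inv := !![(a⁻¹ : Rˣ), -2 * b * a⁻¹, b ^ 2 * a⁻¹; 0, 1, -b; 0, 0, a]
  val_inv := by
    have h := a.mul_inv
    ext i j
    fin_cases i <;> fin_cases j <;> simp [Matrix.mul_apply, Fin.sum_univ_three]
    · linear_combination (-2 * b) * h
    · linear_combination (b ^ 2) * h
  inv_val := by
    have h := a.mul_inv
    ext i j
    fin_cases i <;> fin_cases j <;> simp [Matrix.mul_apply, Fin.sum_univ_three]
    · ring
    · ring

/-- the map `w ↦ 1 / w` -/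
def jj : G3 R where
  val := !![0, 0, -1; 0, -1, 0; -1, 0, 0]
  inv := !![0, 0, -1; 0, -1, 0; -1, 0, 0]
  val_inv := by
    ext i j
    fin_cases i <;> fin_cases j <;> simp [Matrix.mul_apply, Fin.sum_univ_three]
  inv_val := by
    ext i j
    fin_cases i <;> fin_cases j <;> simp [Matrix.mul_apply, Fin.sum_univ_three]

/-- change of coefficients -/
def mp {R' : Type} [CommRing R'] (π : R →+* R') : G3 R →* G3 R' :=
  Units.map π.mapMatrix.toMonoidHom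

def br (p q : R × R) : R := p.1 * q.2 - p.2 * q.1

/-- signed monomials in `z i` (index `false`) and `1 - z i` (index `true`) -/
abbrev Mon (I : Type) := ℤˣ × Multiplicative (I × Bool → ℤ)

variable {I : Type} [Fintype I]

def ev (x : I × Bool → Rˣ) : Mon I →* Rˣ where
  toFun m := Units.map (Int.castRingHom R).toMonoidHom m.1 * ∏ j, x j ^ m.2.toAdd j
  map_one' := by simp
  map_mul' a b := by
    simp only [Prod.fst_mul, Prod.snd_mul, map_mul, toAdd_mul, Pi.add_apply, zpow_add,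
      Finset.prod_mul_distrib]
    exact mul_mul_mul_comm _ _ _ _

def Sol (x : I × Bool → Rˣ) : Prop := ∀ i, (x (i, false) : R) + x (i, true) = 1

/-- logarithmic derivative of a monomial with respect to `z i` -/
def row (x : I × Bool → Rˣ) (m : Mon I) (i : I) : R :=
  m.2.toAdd (i, false) * ((x (i, false))⁻¹ : Rˣ) - m.2.toAdd (i, true) * ((x (i, true))⁻¹ : Rˣ)

def dl (x : I × Bool → Rˣ) (m : Mon I) (w : I → R) : R := ∑ i, row x m i * w i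

def jac (x : I × Bool → Rˣ) (m : I → Mon I) : Matrix I I R := Matrix.of fun j i => row x (m j) i

/-- the span of the exponent vectors -/
def exs {ι : Type} (E : ι → Mon I) : Submodule ℚ (I × Bool → ℚ) :=
  Submodule.span ℚ (Set.range fun e j => ((E e).2.toAdd j : ℚ))

/-- the universal solution of a system of monomial equations -/
structure Univ {ι : Type} (E : ι → Mon I) (x : I × Bool → Rˣ) : Prop where
  sol : Sol x
  eqn : ∀ e, ev x (E e) = 1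
  gen : Subring.closure (Set.range (fun j => (x j : R)) ∪
    Set.range fun j => (((x j)⁻¹ : Rˣ) : R)) = ⊤
  lift : ∀ (R' : Type) [CommRing R'] (x' : I × Bool → R'ˣ), Sol x' → (∀ e, ev x' (E e) = 1) →
    ∃ ψ : R →+* R', ∀ j, ψ (x j) = x' j

/-- `ψ0` has deformations in positive characteristic that move `u c0` and fix the other `u c` -/
def Dfm {κ : Type} (ψ0 : R →+* ℂ) (u : κ → Rˣ) (c0 : κ) : Prop :=
  ∃ A : R → ℤ[X][X], (∀ r, A r ≠ 0) ∧ ∀ T : Finset R, (∀ r ∈ T, ψ0 r ≠ 0) →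
    ∃ n : ℕ, 0 < n ∧ ∀ l : ℕ, l.Prime → ¬ l ∣ n →
      ∀ (k : Type) [Field k] [IsAlgClosed k] [CharP k l], ∃ ψ : R →+* PowerSeries k,
        ψ (u c0) = 1 + PowerSeries.X ∧ (∀ c, c ≠ c0 → ψ (u c) = 1) ∧
        (∀ r ∈ T, PowerSeries.constantCoeff (ψ r) ≠ 0) ∧
        ∀ r, (A r).eval₂ (eval₂RingHom (Int.castRingHom _) PowerSeries.X) (ψ r) = 0

end

/-- a rigid system of monomial equations -/
structure MS (I ι κ : Type) [Fintype I] [Fintype κ] where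
  E : ι → Mon I
  M : κ → Mon I
  x0 : I × Bool → ℂˣ
  sol : Sol x0
  e0 : ∀ e, ev x0 (E e) = 1
  m0 : ∀ c, ev x0 (M c) = 1
  rk : Module.finrank ℚ (exs E) + Fintype.card κ ≤ Fintype.card I
  rig : ∀ w, (∀ e, dl x0 (E e) w = 0) → (∀ c, dl x0 (M c) w = 0) → w = 0

/-- coordinate of `s` when `p, q, r` are at `∞, 0, 1` -/
noncomputable def cr (p q r s : ℂ × ℂ) : ℂ := br s q * br p r / (br r q * br p s)

/-- A group of isometries and a generic system of light-like vectors. -/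
structure Cfg (G : Type) [Group G] where
  ρ : G →* (Mink 3 ≃ₗ[ℝ] Mink 3)
  isom : ∀ g x y, lor (ρ g x) (ρ g y) = lor x y
  sheet : ∀ g, ∀ x ∈ Hyp 3, ρ g x ∈ Hyp 3
  det : ∀ g, LinearMap.det (ρ g : Mink 3 →ₗ[ℝ] Mink 3) = 1
  free : ∀ g, ∀ x ∈ Hyp 3, ρ g x = x → g = 1
  C : Set (Mink 3)
  light : ∀ η ∈ C, Nul η
  inv : ∀ g, ∀ η ∈ C, ρ g η ∈ C
  lf : ∀ R : ℝ, {η ∈ C | η.1 ≤ R}.Finite
  neg : ∀ η ∈ C, ∀ η' ∈ C, η ≠ η' → lor η η' < 0
  near : ∃ R : ℝ, ∀ x ∈ Hyp 3, ∃ η ∈ C, - lor x η ≤ R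
  gen : ∀ y, (∀ η ∈ C, lor y η ≤ -1) → LinearIndepOn ℝ id {η ∈ C | lor y η = -1}
  lab : ∀ y, (∀ η ∈ C, lor y η ≤ -1) → ∀ g, ∀ η ∈ C, lor y η = -1 → lor y (ρ g η) = -1 → ρ g η = η
  all : ∀ η ∈ C, ∃ y, (∀ η' ∈ C, lor y η' ≤ -1) ∧ lor y η = -1
  cpt : ∃ R : ℝ, ∀ y, (∀ η ∈ C, lor y η ≤ -1) → ∀ η ∈ C, ∀ η' ∈ C, η ≠ η' → lor y η = -1 →
    lor y η' = -1 → ∃ g, (ρ g y).1 ≤ R
  transl : ∀ g, ∀ η ∈ C, ρ g η = η → ∀ v, lor v η = 0 → ∃ s : ℝ, ρ g v = v + s • η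
  move : ∀ η ∈ C, ∀ w, lor w η = 0 → lor w w = 1 → ∃ g, ρ g η = η ∧ ρ g w ≠ w

namespace Cfg

variable {G : Type} [Group G] (K : Cfg G)

instance act : MulAction G K.C where
  smul g η := ⟨K.ρ g η, K.inv g η η.2⟩
  one_smul η := Subtype.ext (show K.ρ 1 η = η by rw [map_one]; rfl)
  mul_smul g h η := Subtype.ext (show K.ρ (g * h) η = K.ρ g (K.ρ h η) by rw [map_mul]; rfl)

/-- the dual polyhedron -/
def Q : Set (Mink 3) := {y | ∀ η ∈ K.C, lor y η ≤ -1}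

/-- a vertex `y` of the polyhedron with its four facets in some order -/
structure Flag (φ : Fin 4 → Mink 3) (y : Mink 3) : Prop where
  mem : y ∈ K.Q
  inj : Function.Injective φ
  sub : ∀ j, φ j ∈ K.C
  act : ∀ j, lor y (φ j) = -1

end Cfg

abbrev s0 : Perm (Fin 4) := swap 0 1
abbrev s1 : Perm (Fin 4) := swap 1 2
abbrev s2 : Perm (Fin 4) := swap 2 3

/-- An invariant geometric ideal triangulation, given by its ordered tetrahedra. -/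
structure Tri (G X : Type) [Group G] [MulAction G X] where
  F : Type
  [act : MulAction G F]
  ne : Nonempty F
  v : F → Fin 4 → X
  v_smul : ∀ (g : G) φ j, v (g • φ) j = g • v φ j
  ext : ∀ φ ψ, v φ = v ψ → φ = ψ
  pm : F → Perm (Fin 4) → F
  v_pm : ∀ φ s j, v (pm φ s) j = v φ (s j)
  lab : ∀ φ i j (g : G), g • v φ i = v φ j → i = j
  free : ∀ (g : G) (x y : X), x ≠ y → g • x = x → g • y = y → g = 1
  fin : ∃ S : Set F, S.Finite ∧ ∀ φ : F, ∃ g : G, g • φ ∈ S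
  all : ∀ x, ∃ φ, v φ 0 = x
  flip : F → F
  v_flip : ∀ φ j, j ≠ 3 → v (flip φ) j = v φ j
  flip_ne : ∀ φ, flip φ ≠ φ
  two : ∀ φ ψ, (∀ j, j ≠ 3 → v ψ j = v φ j) → ψ = φ ∨ ψ = flip φ
  ht : F → ℝ
  ht_pm : ∀ φ s, ht (pm φ s) = ht φ
  ht_fin : ∀ R, {φ | ht φ ≤ R}.Finite
  ht_ne : ∀ φ, ht (flip φ) ≠ ht φ
  min0 : ∀ φ ψ, (∀ s, ht φ < ht (flip (pm φ s))) → (∀ s, ht ψ < ht (flip (pm ψ s))) →
    ∃ s, ψ = pm φ s
  min1 : ∀ φ ψ, v φ 0 = v ψ 0 → (∀ s, s 0 = 0 → ht φ < ht (flip (pm φ s))) →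
    (∀ s, s 0 = 0 → ht ψ < ht (flip (pm ψ s))) → ∃ s, ψ = pm φ s
  max2 : ∀ φ, ht (flip φ) < ht φ → ht (flip (pm φ s2)) < ht φ → ∀ ψ, v ψ 0 = v φ 0 →
    v ψ 1 = v φ 1 → ht ψ < ht φ ∨ ∃ s, ψ = pm φ s
  sp : X → ℂ × ℂ
  br_ne : ∀ x y, x ≠ y → br (sp x) (sp y) ≠ 0
  cr_smul : ∀ (g : G) φ, cr (sp (g • v φ 0)) (sp (g • v φ 1)) (sp (g • v φ 2)) (sp (g • v φ 3)) =
    cr (sp (v φ 0)) (sp (v φ 1)) (sp (v φ 2)) (sp (v φ 3))
  im_flip : ∀ φ, (cr (sp (v φ 0)) (sp (v φ 1)) (sp (v φ 2)) (sp (v (flip φ) 3))).im *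
    (cr (sp (v φ 0)) (sp (v φ 1)) (sp (v φ 2)) (sp (v φ 3))).im < 0
  par : ∀ (g : G) φ, g • v φ 0 = v φ 0 →
    cr (sp (v φ 0)) (sp (v φ 1)) (sp (v φ 2)) (sp (g • v φ 2)) -
      cr (sp (v φ 0)) (sp (v φ 1)) (sp (v φ 2)) (sp (g • v φ 1)) = 1
  span : ∀ φ (z : ℂ), z ≠ 0 → ∃ g : G, g • v φ 0 = v φ 0 ∧
    (z * cr (sp (v φ 0)) (sp (v φ 1)) (sp (v φ 2)) (sp (g • v φ 1))).re ≠ 0

attribute [instance] Tri.act

/-- brackets of the points `∞, 0, 1, z i` -/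
def bm {I : Type} [DecidableEq I] (i : I) : Fin 4 → Fin 4 → Mon I :=
  ![![1, 1, 1, 1],
    ![(-1, 1), 1, (-1, 1), (-1, .ofAdd (Pi.single (i, false) 1))],
    ![(-1, 1), 1, 1, (1, .ofAdd (Pi.single (i, true) 1))],
    ![(-1, 1), (1, .ofAdd (Pi.single (i, false) 1)), (-1, .ofAdd (Pi.single (i, true) 1)), 1]]

/-- shape of the tetrahedron `i` in the order `s` -/
def tab {I : Type} [DecidableEq I] (i : I) (s : Perm (Fin 4)) : Mon I :=
  bm i (s 3) (s 1) * bm i (s 0) (s 2) / (bm i (s 2) (s 1) * bm i (s 0) (s 3))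

namespace Tri

variable {G X : Type} [Group G] [MulAction G X] (T : Tri G X)

/-- rotation about the first edge -/
def rot (φ : T.F) : T.F := T.flip (T.pm φ s2)

/-- geometric shape -/
noncomputable def Z0 (φ : T.F) : ℂ :=
  cr (T.sp (T.v φ 0)) (T.sp (T.v φ 1)) (T.sp (T.v φ 2)) (T.sp (T.v φ 3))

/-- geometric translation length -/
noncomputable def b0 (φ : T.F) (g : G) : ℂ :=
  cr (T.sp (T.v φ 0)) (T.sp (T.v φ 1)) (T.sp (T.v φ 2)) (T.sp (g • T.v φ 1))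

/-- developing maps -/
structure Dev {R : Type} [CommRing R] (Z : T.F → Rˣ) (D : T.F → G3 R) : Prop where
  flip : ∀ φ, D (T.flip φ) = D φ
  p0 : ∀ φ, D (T.pm φ s0) = D φ * jj
  p1 : ∀ φ, D (T.pm φ s1) = D φ * aff (-1) 1
  p2 : ∀ φ, D (T.pm φ s2) = D φ * aff (Z φ) 0

/-- coordinates on the set of orbits of ordered tetrahedra -/
structure Base where
  I : Type
  [fin : Fintype I]
  [dec : DecidableEq I]
  tet : T.F → I
  pos : T.F → Perm (Fin 4)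
  tet_smul : ∀ (g : G) φ, tet (g • φ) = tet φ
  pos_smul : ∀ (g : G) φ, pos (g • φ) = pos φ
  tet_pm : ∀ φ s, tet (T.pm φ s) = tet φ
  pos_pm : ∀ φ s, pos (T.pm φ s) = pos φ * s
  orb : ∀ φ ψ, tet φ = tet ψ → pos φ = pos ψ → ∃ g : G, ψ = g • φ
  surj : ∀ i s, ∃ φ, tet φ = i ∧ pos φ = s
  sgn : ∀ φ, 0 < (T.Z0 φ).im ↔ Perm.sign (pos φ) = 1

attribute [instance] Base.fin Base.dec

variable {T} (B : T.Base)

def Base.mon (φ : T.F) : Mon B.I := tab (B.tet φ) (B.pos φ)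

/-- edge monomials -/
noncomputable def Base.em (φ : T.F) : Mon B.I :=
  ∏ n ∈ Finset.range (Function.minimalPeriod T.rot φ), B.mon (T.rot^[n] φ)

/-- the gluing equations -/
noncomputable def Base.E (φ : {φ : T.F // 0 < (T.Z0 φ).im}) : Mon B.I := B.em φ.1

/-- `m` is the derivative of the transition from `φ` to `ψ` -/
def Base.Hol (φ ψ : T.F) (m : Mon B.I) : Prop :=
  ∀ (R : Type) [CommRing R] (x : B.I × Bool → Rˣ) (D : T.F → G3 R),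
    T.Dev (fun φ => ev x (B.mon φ)) D → ∃ b, D ψ = D φ * aff (ev x m) b

end Tri

/-- `xc` is a system of representatives of the orbits -/
structure Reps (G : Type) {X κ : Type} [Group G] [MulAction G X] (xc : κ → X) : Prop where
  ex : ∀ x, ∃ c, ∃ g : G, x = g • xc c
  uq : ∀ c c' (g : G), g • xc c = xc c' → c = c'

/-- the universal representation -/
structure Uni (G : Type) [Group G] {κ : Type} (P : κ → Subgroup G) where
  R : Type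
  [cr : CommRing R]
  ft : Algebra.FiniteType ℤ R
  ρ : G →* G3 R
  S : κ → G3 R
  χ : κ → G → Rˣ
  β : κ → G → R
  conj : ∀ c, ∀ h ∈ P c, ρ h = S c * aff (χ c h) (β c h) * (S c)⁻¹
  ψ0 : R →+* ℂ
  par : ∀ c, ∀ h ∈ P c, ψ0 (χ c h) = 1
  inj : ∀ c, ∀ h ∈ P c, ψ0 (β c h) = 0 → h = 1
  span : ∀ c (z : ℂ), z ≠ 0 → ∃ h ∈ P c, (z * ψ0 (β c h)).re ≠ 0
  dfm : ∀ μ : κ → G, (∀ c, μ c ∈ P c ∧ μ c ≠ 1) → ∀ c0, Dfm ψ0 (fun c => χ c (μ c)) c0

attribute [instance] Uni.cr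

end T3

end Pool.Agent.Lib.MP_661727_gt
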