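import Pool.Agent.Lib.MP_661727_gt.T3.T1

/-! Shape monomials. -/

namespace Pool.Agent.Lib.MP_661727_gt.T3

open Equiv

section
variable {I : Type} [DecidableEq I]

lemma Shp_swap (i : I) {a b : Fin 4} (h : a ≠ b) : bm i a b = (-1, 1) * bm i b a := by
  fin_cases a <;> fin_cases b <;> first | exact absurd rfl h | simp [bm, Prod.ext_iff]

omit [DecidableEq I] in
lemma Shp_sq : ((-1, 1) : Mon I) * (-1, 1) = 1 := by
  simp [Prod.ext_iff]

lemma Shp_tab_s0 (i : I) (s : Perm (Fin 4)) : tab i (s * s0) = (tab i s)⁻¹ := by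
  have hne : ∀ a b : Fin 4, a ≠ b → s a ≠ s b := fun a b h => s.injective.ne h
  simp only [tab, Perm.mul_apply]
  rw [show s0 0 = 1 from rfl, show s0 1 = 0 from rfl, show s0 2 = 2 from rfl,
    show s0 3 = 3 from rfl, inv_div, Shp_swap i (hne 3 0 (by decide)),
    Shp_swap i (hne 1 2 (by decide)), Shp_swap i (hne 2 0 (by decide)),
    Shp_swap i (hne 1 3 (by decide)), mul_mul_mul_comm, Shp_sq, one_mul,
    mul_mul_mul_comm, Shp_sq, one_mul, mul_comm (bm i (s 0) (s 3)), mul_comm (bm i (s 0) (s 2))]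

lemma Shp_tab_s2 (i : I) (s : Perm (Fin 4)) : tab i (s * s2) = (tab i s)⁻¹ := by
  simp only [tab, Perm.mul_apply]
  rw [show s2 0 = 0 from rfl, show s2 1 = 1 from rfl, show s2 2 = 3 from rfl,
    show s2 3 = 2 from rfl, inv_div]

lemma Shp_tab_one (i : I) : tab i 1 = (1, .ofAdd (Pi.single (i, false) 1)) := by
  simp [tab, bm]

lemma Shp_tab_cyc (i : I) (s : Perm (Fin 4)) :
    tab i s * tab i (s * (s1 * s2)) * tab i (s * (s2 * s1)) = (-1, 1) := by
  have hne : ∀ a b : Fin 4, a ≠ b → s a ≠ s b := fun a b h => s.injective.ne h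
  simp only [tab, Perm.mul_apply]
  rw [show s1 (s2 0) = 0 from rfl, show s1 (s2 1) = 2 from rfl, show s1 (s2 2) = 3 from rfl,
    show s1 (s2 3) = 1 from rfl, show s2 (s1 0) = 0 from rfl, show s2 (s1 1) = 3 from rfl,
    show s2 (s1 2) = 1 from rfl, show s2 (s1 3) = 2 from rfl,
    Shp_swap i (hne 1 2 (by decide)), Shp_swap i (hne 1 3 (by decide)),
    Shp_swap i (hne 3 2 (by decide))]
  have h := Shp_sq (I := I)
  generalize ((-1, 1) : Mon I) = e at h ⊢
  have he : e⁻¹ = e := inv_eq_of_mul_eq_one_right h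
  generalize bm i (s 3) (s 1) = a, bm i (s 0) (s 2) = b, bm i (s 2) (s 1) = c,
    bm i (s 0) (s 3) = d, bm i (s 2) (s 3) = f, bm i (s 0) (s 1) = g
  have : a * b / (c * d) * (e * c * d / (e * f * g)) * (f * g / (e * a * b)) = e⁻¹ := by
    apply Additive.ofMul.injective
    simp only [ofMul_mul, ofMul_div, ofMul_inv]
    abel
  rw [this, he]

variable [Fintype I] {R : Type} [CommRing R]

/-- the points `∞, 0, 1, z` -/
def Shp_std (z : R) : Fin 4 → R × R := ![(1, 0), (0, 1), (1, 1), (z, 1)]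

lemma Shp_ev_bm {x : I × Bool → Rˣ} (h : Sol x) (i : I) {a b : Fin 4} (hab : a ≠ b) :
    (ev x (bm i a b) : R) = br (Shp_std (x (i, false) : R) a) (Shp_std (x (i, false) : R) b) := by
  have h1 := h i
  have e0 := ev_single x 1 (i, false)
  have e1 := ev_single x (-1) (i, false)
  have e2 := ev_single x 1 (i, true)
  have e3 := ev_single x (-1) (i, true)
  have e4 := ev_sign x (-1)
  have e5 : (ev x (1 : Mon I) : R) = 1 := by rw [map_one]; rfl
  fin_cases a <;> fin_cases b <;> first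
    | exact absurd rfl hab
    | (simp only [bm, Shp_std, br, Fin.zero_eta, Fin.mk_one, Fin.reduceFinMk, Matrix.cons_val_zero,
        Matrix.cons_val_one, Matrix.cons_val, e0, e1, e2, e3, e4, e5, Units.val_one, Units.val_neg,
        Int.cast_one, Int.cast_neg]
       first | ring1 | linear_combination h1 | linear_combination -h1)

lemma Shp_ev_tab {x : I × Bool → Rˣ} (h : Sol x) (i : I) (s : Perm (Fin 4)) :
    (ev x (tab i s) : R) * (br (Shp_std (x (i, false) : R) (s 2)) (Shp_std (x (i, false) : R) (s 1)) *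
      br (Shp_std (x (i, false) : R) (s 0)) (Shp_std (x (i, false) : R) (s 3))) =
    br (Shp_std (x (i, false) : R) (s 3)) (Shp_std (x (i, false) : R) (s 1)) *
      br (Shp_std (x (i, false) : R) (s 0)) (Shp_std (x (i, false) : R) (s 2)) := by
  have hne : ∀ a b : Fin 4, a ≠ b → s a ≠ s b := fun a b h => s.injective.ne h
  rw [← Shp_ev_bm h i (hne 2 1 (by decide)), ← Shp_ev_bm h i (hne 0 3 (by decide)),
    ← Shp_ev_bm h i (hne 3 1 (by decide)), ← Shp_ev_bm h i (hne 0 2 (by decide)),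
    ← Units.val_mul, ← Units.val_mul, ← Units.val_mul, ← map_mul, ← map_mul, ← map_mul, tab,
    div_mul_cancel]

lemma Shp_ev_s1 {x : I × Bool → Rˣ} (h : Sol x) (i : I) (s : Perm (Fin 4)) :
    (ev x (tab i (s * s1)) : R) = 1 - ev x (tab i s) := by
  have hne : ∀ a b : Fin 4, a ≠ b → s a ≠ s b := fun a b h => s.injective.ne h
  have h1 := Shp_ev_tab h i s
  have h2 := Shp_ev_tab h i (s * s1)
  simp only [Perm.mul_apply] at h2
  rw [show s1 0 = 0 from rfl, show s1 1 = 2 from rfl, show s1 2 = 1 from rfl,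
    show s1 3 = 3 from rfl] at h2
  have hu : IsUnit (br (Shp_std (x (i, false) : R) (s 2)) (Shp_std (x (i, false) : R) (s 1)) *
      br (Shp_std (x (i, false) : R) (s 0)) (Shp_std (x (i, false) : R) (s 3))) := by
    rw [← Shp_ev_bm h i (hne 2 1 (by decide)), ← Shp_ev_bm h i (hne 0 3 (by decide))]
    exact (Units.isUnit _).mul (Units.isUnit _)
  refine hu.mul_right_cancel ?_
  rw [sub_mul, h1]
  simp only [br] at h2 ⊢
  linear_combination -h2

end

namespace Tri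

variable {G X : Type} [Group G] [MulAction G X] {T : Tri G X}

/-- flags in one orbit of the group and of the reorderings -/
def Shp_rel (T : Tri G X) : Setoid T.F where
  r φ ψ := ∃ (g : G) (s : Perm (Fin 4)), ψ = g • T.pm φ s
  iseqv := by
    refine ⟨fun φ => ⟨1, 1, by rw [T.pm_one, one_smul]⟩, ?_, ?_⟩
    · rintro φ ψ ⟨g, s, rfl⟩
      exact ⟨g⁻¹, s⁻¹, by
        rw [T.pm_smul, T.pm_pm, mul_inv_cancel, T.pm_one, inv_smul_smul]⟩
    · rintro φ ψ χ ⟨g, s, rfl⟩ ⟨h, t, rfl⟩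
      exact ⟨h * g, s * t, by rw [T.pm_smul, T.pm_pm, mul_smul]⟩

lemma Shp_mk (g : G) (φ : T.F) (s : Perm (Fin 4)) :
    Quotient.mk (Shp_rel T) (g • T.pm φ s) = Quotient.mk (Shp_rel T) φ :=
  (Quotient.sound (show (Shp_rel T).r φ _ from ⟨g, s, rfl⟩)).symm

theorem exists_base (T : Tri G X) : Nonempty T.Base := by
  classical
  have ht1 : ∀ (g : G) φ, Quotient.mk (Shp_rel T) (g • φ) = Quotient.mk _ φ :=
    fun g φ => by rw [← Shp_mk g φ 1, T.pm_one]
  have ht2 : ∀ φ s, Quotient.mk (Shp_rel T) (T.pm φ s) = Quotient.mk _ φ :=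
    fun φ s => by rw [← Shp_mk 1 φ s, one_smul]
  let I := Quotient (Shp_rel T)
  have hfin : Finite I := by
    obtain ⟨S, hS, h⟩ := T.fin
    have := hS.to_subtype
    refine Finite.of_surjective (fun ψ : S => (Quotient.mk (Shp_rel T) ψ.1 : I)) ?_
    intro i
    induction i using Quotient.inductionOn with
    | h φ =>
      obtain ⟨g, hg⟩ := h φ
      exact ⟨⟨g • φ, hg⟩, ht1 g φ⟩
  have hb : ∀ i : I, ∃ φ, Quotient.mk (Shp_rel T) φ = i ∧ 0 < (T.Z0 φ).im := by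
    intro i
    induction i using Quotient.inductionOn with
    | h φ =>
      by_cases h : 0 < (T.Z0 φ).im
      · exact ⟨φ, rfl, h⟩
      · refine ⟨T.pm φ s0, ht2 φ s0, ?_⟩
        rw [T.Z0_s0]
        exact (T1_inv_im (T.Z0_im φ)).2 h
  choose b hb hb' using hb
  have hp : ∀ φ, ∃ (s : Perm (Fin 4)) (g : G), φ = g • T.pm (b (Quotient.mk _ φ)) s := by
    intro φ
    obtain ⟨g, s, e⟩ := Quotient.exact (hb (Quotient.mk (Shp_rel T) φ))
    exact ⟨s, g, e⟩
  choose pos hpos using hp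
  have huq : ∀ (φ : T.F) (s : Perm (Fin 4)) (g : G), φ = g • T.pm (b (Quotient.mk _ φ)) s →
      pos φ = s := by
    intro φ s g e
    obtain ⟨g', e'⟩ := hpos φ
    refine (T.pm_inj (b (Quotient.mk _ φ)) (g := g⁻¹ * g') ?_).1
    rw [mul_smul, ← e', inv_smul_eq_iff]
    exact e
  refine ⟨@Base.mk G X _ _ T I (Fintype.ofFinite I) inferInstance (Quotient.mk _) pos ht1 ?_ ht2
    ?_ ?_ ?_ ?_⟩
  · intro g φ
    obtain ⟨g', e⟩ := hpos φ
    refine huq _ _ (g * g') ?_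
    rw [ht1, mul_smul, ← e]
  · intro φ s
    obtain ⟨g', e⟩ := hpos φ
    refine huq _ _ g' ?_
    rw [ht2, ← T.pm_pm, ← T.pm_smul, ← e]
  · intro φ ψ h1 h2
    obtain ⟨g, e⟩ := hpos φ
    obtain ⟨g', e'⟩ := hpos ψ
    refine ⟨g' * g⁻¹, ?_⟩
    rw [mul_smul]
    conv_rhs => rw [e, inv_smul_smul, h1, h2]
    exact e'
  · intro i s
    have h1 : (Quotient.mk (Shp_rel T) (T.pm (b i) s) : I) = i := by rw [ht2, hb]
    exact ⟨T.pm (b i) s, h1, huq _ _ 1 (by rw [h1, one_smul])⟩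
  · intro φ
    obtain ⟨g, e⟩ := hpos φ
    conv_lhs => rw [e, T.Z0_smul, T.im_pm]
    simp [hb']

namespace Base

variable (B : T.Base) {R : Type} [CommRing R]

lemma mon_smul (g : G) (φ : T.F) : B.mon (g • φ) = B.mon φ := by
  unfold mon
  rw [B.tet_smul, B.pos_smul]

lemma mon_s0 (φ : T.F) : B.mon (T.pm φ s0) = (B.mon φ)⁻¹ := by
  unfold mon
  rw [B.tet_pm, B.pos_pm, Shp_tab_s0]

lemma mon_s2 (φ : T.F) : B.mon (T.pm φ s2) = (B.mon φ)⁻¹ := by
  unfold mon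
  rw [B.tet_pm, B.pos_pm, Shp_tab_s2]

lemma mon_one {φ : T.F} (h : B.pos φ = 1) :
    B.mon φ = (1, .ofAdd (Pi.single (B.tet φ, false) 1)) := by
  unfold mon
  rw [h, Shp_tab_one]

lemma mon_cyc (φ : T.F) :
    B.mon φ * B.mon (T.pm φ (s1 * s2)) * B.mon (T.pm φ (s2 * s1)) = (-1, 1) := by
  unfold mon
  rw [B.tet_pm, B.pos_pm, B.tet_pm, B.pos_pm, Shp_tab_cyc]

lemma ev_s1 {x : B.I × Bool → Rˣ} (h : Sol x) (φ : T.F) :
    (ev x (B.mon (T.pm φ s1)) : R) = 1 - ev x (B.mon φ) := by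
  unfold mon
  rw [B.tet_pm, B.pos_pm, Shp_ev_s1 h]

/-- local spinors -/
lemma exists_loc {x : B.I × Bool → Rˣ} (h : Sol x) : ∃ p : T.F → Fin 4 → R × R,
    (∀ φ s j, p (T.pm φ s) j = p φ (s j)) ∧ (∀ φ i j, i ≠ j → IsUnit (br (p φ i) (p φ j))) ∧
    ∀ φ, (ev x (B.mon φ) : R) * (br (p φ 2) (p φ 1) * br (p φ 0) (p φ 3)) =
      br (p φ 3) (p φ 1) * br (p φ 0) (p φ 2) := by
  refine ⟨fun φ j => Shp_std (x (B.tet φ, false) : R) (B.pos φ j), ?_, ?_, ?_⟩
  · intro φ s j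
    simp only [B.tet_pm, B.pos_pm, Perm.mul_apply]
  · intro φ i j hij
    rw [← Shp_ev_bm h (B.tet φ) ((B.pos φ).injective.ne hij)]
    exact Units.isUnit _
  · intro φ
    exact Shp_ev_tab h (B.tet φ) (B.pos φ)

lemma exists_x0 : ∃ x0 : B.I × Bool → ℂˣ, Sol x0 ∧ (∀ φ, (ev x0 (B.mon φ) : ℂ) = T.Z0 φ) ∧
    ∀ e, ev x0 (B.E e) = 1 := by
  choose b hb hb' using fun i => B.surj i 1
  have hne : ∀ i, 1 - T.Z0 (b i) ≠ 0 := fun i => by
    rw [← T.Z0_s1]; exact T.Z0_ne _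
  let x0 : B.I × Bool → ℂˣ := fun j =>
    if j.2 then Units.mk0 _ (hne j.1) else Units.mk0 _ (T.Z0_ne (b j.1))
  have hs : Sol x0 := fun i => by simp [x0]
  have hz : ∀ φ, (ev x0 (B.mon φ) : ℂ) = T.Z0 φ := by
    intro φ
    obtain ⟨g, e⟩ := B.orb (T.pm (b (B.tet φ)) (B.pos φ)) φ (by rw [B.tet_pm, hb])
      (by rw [B.pos_pm, hb', one_mul])
    rw [e, B.mon_smul, T.Z0_smul]
    refine T.pm_ind (b (B.tet φ)) (fun ψ => (ev x0 (B.mon ψ) : ℂ) = T.Z0 ψ) ?_ ?_ ?_ ?_ _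
    · rw [B.mon_one (hb' _), ev_single, hb]
      simp [x0]
    · intro ψ hψ
      rw [B.mon_s0, T.Z0_s0, map_inv, Units.val_inv_eq_inv_val, hψ]
    · intro ψ hψ
      rw [B.ev_s1 hs, T.Z0_s1, hψ]
    · intro ψ hψ
      rw [B.mon_s2, T.Z0_s2, map_inv, Units.val_inv_eq_inv_val, hψ]
  refine ⟨x0, hs, hz, fun e => Units.ext ?_⟩
  unfold E em
  rw [map_prod, Units.coe_prod, Finset.prod_congr rfl fun n _ => hz _]
  exact T.Z0_prod _ (Function.isPeriodicPt_minimalPeriod _ _)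

end Base

end Tri

end Pool.Agent.Lib.MP_661727_gt.T3
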