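import Pool.Agent.Lib.MP_661727_gt.T3.Pot
import Pool.Agent.Lib.MP_661727_gt.T3.Shp

/-! Developing maps. -/

namespace Pool.Agent.Lib.MP_661727_gt.T3

open Equiv

lemma dev_perm : ∀ s : Perm (Fin 4), s 3 = 3 →
    s = 1 ∨ s = s0 ∨ s = s1 ∨ s = s0 * s1 ∨ s = s1 * s0 ∨ s = s0 * s1 * s0 := by
  decide

lemma dev_s0 : s0 0 = 1 ∧ s0 1 = 0 ∧ s0 2 = 2 := by decide
lemma dev_s1 : s1 0 = 0 ∧ s1 1 = 2 ∧ s1 2 = 1 := by decide
lemma dev_s2 : s2 0 = 0 ∧ s2 1 = 1 ∧ s2 2 = 3 := by decide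
lemma dev_s22 : s2 * s2 = 1 := by decide
lemma dev_sg : Perm.sign s2 ≠ 1 := by decide

lemma dev_br_self {R : Type} [CommRing R] (p : R × R) : br p p = 0 := by
  unfold br
  ring

namespace Tri

variable {G X : Type} [Group G] [MulAction G X] {T : Tri G X} {R : Type} [CommRing R]
  {Z : T.F → Rˣ} {D D' : T.F → G3 R}

theorem Base.exists_dev (B : T.Base) {x : B.I × Bool → Rˣ} (h : Sol x)
    (he : ∀ e, ev x (B.E e) = 1) : ∃ D, T.Dev (fun φ => ev x (B.mon φ)) D := by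
  classical
  obtain ⟨fr, hfr⟩ := exists_fr (R := R)
  obtain ⟨p, hp, hu, hz⟩ := B.exists_loc h
  obtain ⟨g, hg⟩ : ∃ g : T.F → G3 R, ∀ φ, g φ = fr (p φ 0) (p φ 1) (p φ 2) := ⟨_, fun _ => rfl⟩
  have hf := fun φ => hfr (p φ 0) (p φ 1) (p φ 2) (hu φ 0 1 (by decide)) (hu φ 0 2 (by decide))
    (hu φ 1 2 (by decide))
  have g0 : ∀ φ, g (T.pm φ s0) = g φ * jj := fun φ => by
    rw [hg, hg, hp, hp, hp, dev_s0.1, dev_s0.2.1, dev_s0.2.2]
    exact (hf φ).1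
  have g1 : ∀ φ, g (T.pm φ s1) = g φ * aff (-1) 1 := fun φ => by
    rw [hg, hg, hp, hp, hp, dev_s1.1, dev_s1.2.1, dev_s1.2.2]
    exact (hf φ).2.1
  have g2 : ∀ φ, g (T.pm φ s2) = g φ * aff (ev x (B.mon φ)) 0 := fun φ => by
    rw [hg, hg, hp, hp, hp, dev_s2.1, dev_s2.2.1, dev_s2.2.2]
    refine (hf φ).2.2 _ _ _ _ (hu φ 0 1 (by decide)) (hu φ 0 3 (by decide))
      (hu φ 1 3 (by decide)) ?_ ?_
    · rw [dev_br_self, zero_mul, zero_mul]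
    · rw [add_zero]
      exact hz φ
  obtain ⟨w, hw⟩ := cyc_pot T.rot T.rot_per (fun φ => ev x (B.mon φ))
    (fun φ => 0 < (T.Z0 φ).im) T.im_rot fun φ hφ => by
      have := he ⟨φ, hφ⟩
      rwa [Base.E, Base.em, map_prod] at this
  have am : ∀ a a' : Rˣ, aff a (0 : R) * aff a' 0 = aff (a * a') 0 := fun a a' => by
    rw [aff_mul, mul_zero, add_zero]
  obtain ⟨D, hD, hD'⟩ := T.pot g
    (fun φ => if 0 < (T.Z0 φ).im then aff (w φ) 0 else aff (w (T.flip φ)) 0)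
    (fun φ s hs => by
      rcases dev_perm s hs with rfl | rfl | rfl | rfl | rfl | rfl <;>
        simp only [← T.pm_pm, T.pm_one, g0, g1, mul_assoc, inv_mul_cancel, inv_mul_cancel_left])
    (fun φ => by
      by_cases hφ : 0 < (T.Z0 φ).im
      · have : ¬ 0 < (T.Z0 (T.flip φ)).im := fun h' => (T.im_flip' φ).1 h' hφ
        simp only [if_pos hφ, if_neg this, T.flip_flip]
      · simp only [if_neg hφ, if_pos ((T.im_flip' φ).2 hφ)])
    (fun φ => by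
      rw [g2, inv_mul_cancel_left]
      by_cases hφ : 0 < (T.Z0 φ).im
      · have : ¬ 0 < (T.Z0 (T.pm φ s2)).im := fun h' => dev_sg (((T.im_pm φ s2).1 h').1 hφ)
        simp only [if_pos hφ, if_neg this]
        rw [am, ← hw φ hφ]
        rfl
      · have h2 : 0 < (T.Z0 (T.pm φ s2)).im :=
          (T.im_pm φ s2).2 ⟨fun h' => absurd h' hφ, fun h' => absurd h' dev_sg⟩
        have h3 := hw _ h2
        rw [rot, T.pm_pm, dev_s22, T.pm_one, B.mon_s2, map_inv] at h3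
        simp only [if_neg hφ, if_pos h2]
        rw [am, h3, inv_mul_cancel_right])
  refine ⟨D, hD, fun φ => ?_, fun φ => ?_, fun φ => ?_⟩
  · rw [hD', g0, inv_mul_cancel_left]
  · rw [hD', g1, inv_mul_cancel_left]
  · rw [hD', g2, inv_mul_cancel_left]

lemma Dev.uniq (h : T.Dev Z D) (h' : T.Dev Z D') (φ ψ : T.F) :
    D' φ * (D φ)⁻¹ = D' ψ * (D ψ)⁻¹ := by
  refine T.conn0 φ (fun ψ => D' φ * (D φ)⁻¹ = D' ψ * (D ψ)⁻¹) rfl ?_ ?_ ?_ ?_ ψ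
  · intro ψ e
    rw [e, h.p0, h'.p0]
    group
  · intro ψ e
    rw [e, h.p1, h'.p1]
    group
  · intro ψ e
    rw [e, h.p2, h'.p2]
    group
  · intro ψ e
    rw [e, h.flip, h'.flip]

lemma Dev.map {R' : Type} [CommRing R'] (h : T.Dev Z D) (π : R →+* R') :
    T.Dev (fun φ => Units.map π.toMonoidHom (Z φ)) fun φ => mp π (D φ) := by
  refine ⟨fun φ => ?_, fun φ => ?_, fun φ => ?_, fun φ => ?_⟩
  · rw [h.flip]
  · rw [h.p0, map_mul, mp_jj]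
  · have e : Units.map π.toMonoidHom (-1) = -1 := by
      ext
      simp
    rw [h.p1, map_mul, mp_aff, map_one, e]
  · rw [h.p2, map_mul, mp_aff, map_zero]

lemma Dev.rep (h : T.Dev Z D) (hZ : ∀ (g : G) φ, Z (g • φ) = Z φ) :
    ∃ ρ : G →* G3 R, ∀ g φ, D (g • φ) = ρ g * D φ := by
  obtain ⟨φ0⟩ := T.ne
  have hg : ∀ g : G, T.Dev Z fun φ => D (g • φ) := fun g =>
    ⟨fun φ => by rw [← T.flip_smul, h.flip], fun φ => by rw [← T.pm_smul, h.p0],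
      fun φ => by rw [← T.pm_smul, h.p1], fun φ => by rw [← T.pm_smul, h.p2, hZ]⟩
  have k : ∀ (g : G) φ, D (g • φ) = D (g • φ0) * (D φ0)⁻¹ * D φ := fun g φ => by
    have := h.uniq (hg g) φ0 φ
    rw [this, inv_mul_cancel_right]
  refine ⟨MonoidHom.mk' (fun g => D (g • φ0) * (D φ0)⁻¹) fun a b => ?_, k⟩
  rw [mul_smul, k a (b • φ0), mul_assoc]

lemma Base.exists_hol (B : T.Base) {φ ψ : T.F} (e : T.v ψ 0 = T.v φ 0) : ∃ m, B.Hol φ ψ m := by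
  refine T.conn1 φ (fun ψ => ∃ m, B.Hol φ ψ m) ⟨1, fun R _ x D _ => ⟨0, ?_⟩⟩ ?_ ?_ ?_ ψ e
  · rw [map_one, aff_one, mul_one]
  · rintro ψ ⟨m, hm⟩
    refine ⟨m * (-1, 1), fun R _ x D hD => ?_⟩
    obtain ⟨b, hb⟩ := hm R x D hD
    have e : ev x (-1, 1) = -1 := by
      ext
      rw [ev_sign]
      simp
    exact ⟨_, by rw [hD.p1, hb, mul_assoc, aff_mul, map_mul, e]⟩
  · rintro ψ ⟨m, hm⟩
    refine ⟨m * B.mon ψ, fun R _ x D hD => ?_⟩
    obtain ⟨b, hb⟩ := hm R x D hD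
    exact ⟨_, by rw [hD.p2, hb, mul_assoc, aff_mul, map_mul]⟩
  · rintro ψ ⟨m, hm⟩
    refine ⟨m, fun R _ x D hD => ?_⟩
    obtain ⟨b, hb⟩ := hm R x D hD
    exact ⟨b, by rw [hD.flip, hb]⟩

lemma dev_br (φ : T.F) {i j : Fin 4} (h : i ≠ j) : br (T.sp (T.v φ i)) (T.sp (T.v φ j)) ≠ 0 :=
  T.br_ne _ _ (T.v_ne φ h)

lemma dev_br' (φ : T.F) {g : G} (e : g • T.v φ 0 = T.v φ 0) {j : Fin 4} (h : 0 ≠ j) :
    br (T.sp (T.v φ 0)) (T.sp (g • T.v φ j)) ≠ 0 := by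
  have := dev_br (g • φ) h
  rwa [T.v_smul, T.v_smul, e] at this

/-- the geometric developing map -/
lemma dev_geo (T : Tri G X) : ∃ D : T.F → G3 ℂ,
    (∀ Z : T.F → ℂˣ, (∀ φ, (Z φ : ℂ) = T.Z0 φ) → T.Dev Z D) ∧
      ∀ φ (g : G), g • T.v φ 0 = T.v φ 0 → D (g • φ) = D φ * aff 1 (T.b0 φ g) := by
  obtain ⟨fr, hfr⟩ := exists_fr (R := ℂ)
  have hf := fun φ : T.F => hfr _ _ _ (dev_br φ (i := 0) (j := 1) (by decide)).isUnit
    (dev_br φ (i := 0) (j := 2) (by decide)).isUnit (dev_br φ (i := 1) (j := 2) (by decide)).isUnit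
  refine ⟨fun φ => fr (T.sp (T.v φ 0)) (T.sp (T.v φ 1)) (T.sp (T.v φ 2)), fun Z hZ =>
    ⟨fun φ => ?_, fun φ => ?_, fun φ => ?_, fun φ => ?_⟩, fun φ g e => ?_⟩
  · rw [T.v_flip φ 0 (by decide), T.v_flip φ 1 (by decide), T.v_flip φ 2 (by decide)]
  · rw [T.v_pm, T.v_pm, T.v_pm, dev_s0.1, dev_s0.2.1, dev_s0.2.2]
    exact (hf φ).1
  · rw [T.v_pm, T.v_pm, T.v_pm, dev_s1.1, dev_s1.2.1, dev_s1.2.2]
    exact (hf φ).2.1
  · rw [T.v_pm, T.v_pm, T.v_pm, dev_s2.1, dev_s2.2.1, dev_s2.2.2]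
    refine (hf φ).2.2 _ _ _ _ (dev_br φ (by decide)).isUnit (dev_br φ (by decide)).isUnit
      (dev_br φ (by decide)).isUnit ?_ ?_
    · rw [dev_br_self, zero_mul, zero_mul]
    · rw [add_zero, hZ, Z0, cr]
      exact div_mul_cancel₀ _ (mul_ne_zero (dev_br φ (by decide)) (dev_br φ (by decide)))
  · have e12 : br (T.sp (g • T.v φ 1)) (T.sp (g • T.v φ 2)) ≠ 0 := by
      have := dev_br (g • φ) (i := 1) (j := 2) (by decide)
      rwa [T.v_smul, T.v_smul] at this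
    show fr (T.sp (T.v (g • φ) 0)) (T.sp (T.v (g • φ) 1)) (T.sp (T.v (g • φ) 2)) = _
    rw [T.v_smul, T.v_smul, T.v_smul, e]
    refine (hf φ).2.2 _ _ _ _ (dev_br' φ e (by decide)).isUnit (dev_br' φ e (by decide)).isUnit
      e12.isUnit ?_ ?_
    · rw [b0, cr]
      exact div_mul_cancel₀ _ (mul_ne_zero (dev_br φ (by decide)) (dev_br' φ e (by decide)))
    · rw [Units.val_one, b0, ← T.par g φ e, sub_add_cancel, cr]
      exact div_mul_cancel₀ _ (mul_ne_zero (dev_br φ (by decide)) (dev_br' φ e (by decide)))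

lemma Dev.geo {Z : T.F → ℂˣ} {D : T.F → G3 ℂ} (h : T.Dev Z D) (hZ : ∀ φ, (Z φ : ℂ) = T.Z0 φ)
    (φ : T.F) {g : G} (e : g • T.v φ 0 = T.v φ 0) : D (g • φ) = D φ * aff 1 (T.b0 φ g) := by
  obtain ⟨D0, h0, h1⟩ := T.dev_geo
  have := (h0 Z hZ).uniq h φ (g • φ)
  rw [h1 φ g e] at this
  calc D (g • φ) = D (g • φ) * (D0 φ * aff 1 (T.b0 φ g))⁻¹ * (D0 φ * aff 1 (T.b0 φ g)) := by
        rw [inv_mul_cancel_right]
    _ = D φ * aff 1 (T.b0 φ g) := by rw [← this, mul_assoc, inv_mul_cancel_left]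

lemma b0_inj (φ : T.F) {g : G} (e : g • T.v φ 0 = T.v φ 0) (h : T.b0 φ g = 0) : g = 1 := by
  rw [b0, cr, div_eq_zero_iff, mul_eq_zero, mul_eq_zero] at h
  refine T.free g _ _ (T.v_ne φ (i := 0) (j := 1) (by decide)) e ?_
  by_contra hne
  rcases h with (h | h) | h | h
  · exact T.br_ne _ _ hne h
  · exact dev_br φ (by decide) h
  · exact dev_br φ (by decide) h
  · exact dev_br' φ e (by decide) h

lemma stab_comm (T : Tri G X) {x : X} {g h : G} (hg : g • x = x) (hh : h • x = x) :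
    g * h = h * g := by
  obtain ⟨φ, rfl⟩ := T.all x
  obtain ⟨D, h0, h1⟩ := T.dev_geo
  obtain ⟨ρ, hρ⟩ := (h0 (fun φ => Units.mk0 _ (T.Z0_ne φ)) fun _ => rfl).rep fun g φ => by
    ext
    exact T.Z0_smul g φ
  have k : ∀ a : G, a • T.v φ 0 = T.v φ 0 → ρ a = D φ * aff 1 (T.b0 φ a) * (D φ)⁻¹ :=
    fun a ha => by rw [← h1 φ a ha, hρ, mul_inv_cancel_right]
  have c : ρ (g * h) = ρ (h * g) := by
    have : aff (1 : ℂˣ) (T.b0 φ g) * aff 1 (T.b0 φ h) = aff 1 (T.b0 φ h) * aff 1 (T.b0 φ g) := by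
      rw [aff_mul, aff_mul, Units.val_one, one_mul, one_mul, one_mul, add_comm]
    rw [map_mul, map_mul, k g hg, k h hh]
    calc _ = D φ * (aff 1 (T.b0 φ g) * aff 1 (T.b0 φ h)) * (D φ)⁻¹ := by group
      _ = _ := by rw [this]; group
  have f : ((h * g)⁻¹ * (g * h)) • T.v φ 0 = T.v φ 0 := by
    rw [mul_smul, mul_smul g, hh, hg, inv_smul_eq_iff, mul_smul, hg, hh]
  have z := k _ f
  rw [map_mul, map_inv, c, inv_mul_cancel, eq_mul_inv_iff_mul_eq, one_mul, left_eq_mul,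
    ← aff_one] at z
  exact (inv_mul_eq_one.1 (b0_inj φ f (aff_inj z).2)).symm

end Tri

end Pool.Agent.Lib.MP_661727_gt.T3
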