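import Pool.Agent.Lib.MP_661727_gt.T3.Defs
import Pool.Agent.Lib.MP_661727_gt.FF.Fin

/-! Characters from points over finite fields. -/

namespace Pool.Agent.Lib.MP_661727_gt.T3

open Polynomial Multiplicative

lemma ff_ext {U P : Type} [Field U] [IsAlgClosed U] [Group P] (c : P →* Uˣ)
    (θ : P →* Multiplicative (Zk 2)) (hθ : Function.Injective θ) :
    ∃ g : ℕ → Multiplicative (Zk 2) →* U,
      (∀ (m n : ℕ) w, n ≠ 0 → g (m * n) (ofAdd (n • w)) = g m (ofAdd w)) ∧
      ∀ h, g 1 (θ h) = c h := by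
  let _ : DivisibleBy (Additive Uˣ) ℕ := divisibleByOfSMulRightSurj _ _ fun {n} hn x => by
    obtain ⟨z, hz⟩ := IsAlgClosed.exists_pow_nat_eq (x.toMul : U) (Nat.pos_of_ne_zero hn)
    have h0 : z ≠ 0 := by
      rintro rfl
      exact x.toMul.ne_zero (by rw [← hz, zero_pow hn])
    exact ⟨Additive.ofMul (Units.mk0 z h0), Additive.toMul.injective (Units.ext (by simpa using hz))⟩
  let _ : DivisibleBy (Additive Uˣ) ℤ := AddGroup.divisibleByIntOfDivisibleByNat _
  let f1 : Additive θ.range →+ (Fin 2 → ℚ) :=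
    { toFun := fun r i => ((r.toMul : Multiplicative (Zk 2)).toAdd i : ℚ)
      map_zero' := funext fun i => by simp
      map_add' := fun x y => funext fun i => by simp }
  have hf1 : Function.Injective f1 := fun x y h =>
    Additive.toMul.injective (Subtype.ext (toAdd.injective (funext fun i =>
      Int.cast_injective (congrFun h i))))
  obtain ⟨G, hG⟩ := (Module.Baer.of_divisible (Additive Uˣ)).extension_property_addMonoidHom f1 hf1
    (MonoidHom.toAdditive (c.comp (MonoidHom.ofInjective hθ).symm.toMonoidHom))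
  refine ⟨fun n =>
    { toFun := fun w => ((G fun i => (w.toAdd i : ℚ) / n).toMul : Uˣ)
      map_one' := ?_
      map_mul' := fun x y => ?_ }, fun m n w hn => ?_, fun h => ?_⟩
  · have : (fun i => (((1 : Multiplicative (Zk 2)).toAdd i : ℤ) : ℚ) / n) = 0 :=
      funext fun i => by simp
    rw [this, map_zero]
    rfl
  · rw [← Units.val_mul, ← toMul_add, ← map_add]
    refine congrArg (fun v => ((G v).toMul : U)) (funext fun i => ?_)
    simp [add_div]
  · refine congrArg (fun v => ((G v).toMul : U)) (funext fun i => ?_)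
    have : (n : ℚ) ≠ 0 := by exact_mod_cast hn
    rw [toAdd_ofAdd, toAdd_ofAdd, Pi.smul_apply, nsmul_eq_mul, Int.cast_mul, Int.cast_natCast,
      Nat.cast_mul, mul_comm (m : ℚ), mul_div_mul_left _ _ this]
  · have h1 := DFunLike.congr_fun hG (Additive.ofMul (MonoidHom.ofInjective hθ h))
    have h2 : (fun i => (((θ h).toAdd i : ℤ) : ℚ) / (1 : ℕ)) =
        f1 (Additive.ofMul (MonoidHom.ofInjective hθ h)) := funext fun i => by
      rw [Nat.cast_one, div_one]
      rfl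
    show ((G fun i => (((θ h).toAdd i : ℤ) : ℚ) / (1 : ℕ)).toMul : U) = _
    rw [h2, ← AddMonoidHom.comp_apply, h1]
    simp

variable (l : ℕ) [Fact l.Prime]

theorem ff {A : Type} [CommRing A] (ft : Algebra.FiniteType ℤ A) (ι : A →+* UU (kk l))
    (hι : Function.Injective ι) {P : Type} [Group P] (χ : P →* Aˣ)
    (θ : P →* Multiplicative (Zk 2)) (hθ : Function.Injective θ) {f : ℕ} (hf : ¬ l ∣ f)
    (hθ' : ∀ w, ofAdd (f • w) ∈ θ.range)
    (ind : ∀ h, (∃ α : kk l, ι (χ h) = algebraMap _ _ α) → h = 1) :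
    ∃ e0 j0 : ℕ, 0 < e0 ∧ ¬ l ∣ e0 ∧ 0 < j0 ∧ ∀ e j : ℕ, 0 < e → e0 ∣ e → ¬ l ∣ e → 0 < j → j0 ∣ j →
      ∃ s0, ∀ s, s0 ≤ s → ∀ h, (¬ ∀ i, (l ^ (j * s) - 1 : ℤ) ∣ e * (θ h).toAdd i) →
        ∃ π : A →+* kk l, π (χ h) ≠ 1 ∧
          ∀ h', (∀ i, (l ^ (j * s) - 1 : ℤ) ∣ e * (θ h').toAdd i) → π (χ h') = 1 := by
  have hl : l.Prime := Fact.out
  have hf0 : f ≠ 0 := fun h => hf (h ▸ dvd_zero l)
  have : CharP (FractionRing (kk l)[X]) l :=
    charP_of_injective_algebraMap (algebraMap (kk l) (FractionRing (kk l)[X])).injective l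
  have : CharP (UU (kk l)) l :=
    charP_of_injective_algebraMap (algebraMap (kk l) (UU (kk l))).injective l
  obtain ⟨S, hS⟩ := ft.out
  have hS' : Subring.closure (Set.range (Subtype.val : S → A)) = ⊤ := by
    rw [Subtype.range_coe_subtype, eq_top_iff]
    intro x _
    have : x ∈ Algebra.adjoin ℤ (S : Set A) := hS ▸ Algebra.mem_top
    rwa [Algebra.adjoin_int] at this
  choose n hn using fun a : S => MP_587b89_lc.exists_sep (E := FractionRing (kk l)[X]) l
    (Algebra.IsIntegral.isIntegral (ι a))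
  obtain ⟨N, hN⟩ := (Set.finite_range n).bddAbove
  let κ : A →+* UU (kk l) := (iterateFrobenius _ l N).comp ι
  have hκ : ∀ a, κ a = ι a ^ l ^ N := fun a => iterateFrobenius_def ..
  have hsep : ∀ x, IsSeparable (FractionRing (kk l)[X]) (κ x) := fun x => by
    have : Subring.closure (Set.range (Subtype.val : S → A)) ≤
        (separableClosure (FractionRing (kk l)[X]) (UU (kk l))).toSubalgebra.toSubring.comap κ :=
      Subring.closure_le.2 (by
        rintro _ ⟨a, rfl⟩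
        show IsSeparable _ (κ a)
        rw [hκ]
        exact hn a N (hN ⟨a, rfl⟩))
    exact this (hS' ▸ Subring.mem_top x)
  obtain ⟨g, hg, hg1⟩ := ff_ext ((Units.map (κ : A →* UU (kk l))).comp χ) θ hθ
  have hg2 : ∀ h, g 1 (θ h) = κ (χ h) := hg1
  have hg3 : ∀ w : Zk 2, ∃ h, θ h = ofAdd (f • w) ∧ g 1 (ofAdd w) ^ f = κ (χ h) := fun w => by
    obtain ⟨h, e⟩ := hθ' w
    exact ⟨h, e, by rw [← hg2, e, ofAdd_nsmul, map_pow]⟩
  obtain ⟨e0, j0, h1, h2, h3, H⟩ := FF.core l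
    (fun c => by simpa only [ZMod.card] using MP_587b89_lc.periodic (F := ZMod l) c)
    _ hS' κ hsep g hg hf
    (fun w => by
      obtain ⟨h, -, e⟩ := hg3 w.toAdd
      exact ⟨_, e⟩)
    (fun w hw halg => by
      obtain ⟨h, e1, e2⟩ := hg3 w
      have h1 := halg.pow f
      rw [e2, hκ] at h1
      obtain ⟨α, hα⟩ := FF.root_mem (h1.of_pow (pow_pos hl.pos N))
      rw [ind h ⟨α, hα.symm⟩, map_one] at e1
      exact smul_ne_zero hf0 hw (ofAdd_eq_one.1 e1.symm))
  refine ⟨e0, j0, h1, h2, h3, fun e j he h4 h5 hj h6 => ?_⟩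
  obtain ⟨s0, hs0⟩ := H e j he h4 h5 hj h6
  refine ⟨s0, fun s hs h hh => ?_⟩
  obtain ⟨ρ, c, p1, p2, p3⟩ := hs0 s hs (e • (θ h).toAdd) (by simpa using hh)
  have key : ∀ h, ρ (χ h) = c (ofAdd (e • (θ h).toAdd)) := fun h => p3 _ _ (by
    have := hg 1 e (θ h).toAdd he.ne'
    rw [one_mul] at this
    rw [this, ofAdd_toAdd, hg2])
  refine ⟨ρ, by rwa [key], fun h' hh' => ?_⟩
  choose z hz using hh'
  have : e • (θ h').toAdd = (l ^ (j * s) - 1) • z := funext fun i => by
    rw [Pi.smul_apply, Pi.smul_apply, nsmul_eq_mul, nsmul_eq_mul, hz,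
      Nat.cast_sub (Nat.one_le_pow _ _ hl.pos), Nat.cast_pow, Nat.cast_one]
  rw [key, this, ofAdd_nsmul, map_pow, p2]

end Pool.Agent.Lib.MP_661727_gt.T3
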