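import Pool.Agent.Lib.MP_661727_gt.T3.Crv
import Pool.Agent.Lib.MP_661727_gt.T3.FF

/-! Finite quotients with prescribed kernels on the cusp groups. -/

namespace Pool.Agent.Lib.MP_661727_gt.T3

open Multiplicative

lemma grp_conj {R : Type} [CommRing R] (S x : G3 R) : S * x * S⁻¹ = 1 ↔ x = 1 := by
  constructor
  · intro h
    have : x = S⁻¹ * (S * x * S⁻¹) * S := by group
    rw [this, h]; group
  · rintro rfl; group

lemma Uni.grp_ker {G κ : Type} [Group G] {P : κ → Subgroup G} (V : Uni G P) {R' : Type}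
    [CommRing R'] (φ : V.R →+* R') (c : κ) {h : G} (hh : h ∈ P c) :
    h ∈ ((mp φ).comp V.ρ).ker ↔ φ (V.χ c h) = 1 ∧ φ (V.β c h) = 0 := by
  rw [MonoidHom.mem_ker, MonoidHom.comp_apply, V.conj c h hh, map_mul, map_mul, map_inv, grp_conj,
    mp_aff, ← aff_one]
  constructor
  · intro e
    obtain ⟨e1, e2⟩ := aff_inj e
    exact ⟨by simpa using congrArg Units.val e1, e2⟩
  · rintro ⟨e1, e2⟩
    have : Units.map φ.toMonoidHom (V.χ c h) = 1 := Units.ext (by simpa using e1)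
    rw [this, e2]

lemma Uni.grp_pow {G κ : Type} [Group G] {P : κ → Subgroup G} (V : Uni G P) {R' : Type}
    [CommRing R'] (φ : V.R →+* R') (c : κ) {h : G} (hh : h ∈ P c) {l : ℕ} (hl : (l : R') = 0)
    (h1 : φ (V.χ c h) = 1) : h ^ l ∈ ((mp φ).comp V.ρ).ker := by
  have : Units.map φ.toMonoidHom (V.χ c h) = 1 := Units.ext (by simpa using h1)
  rw [MonoidHom.mem_ker, map_pow, MonoidHom.comp_apply, V.conj c h hh, map_mul, map_mul, map_inv,
    conj_pow, grp_conj, mp_aff, this, aff_pow, hl, zero_mul, aff_one]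

/-- the linear part on a cusp group after a change of coefficients -/
def Uni.grpChi {G κ : Type} [Group G] {P : κ → Subgroup G} (V : Uni G P) {A : Type} [CommRing A]
    (ψ : V.R →+* A) (c : κ) : P c →* Aˣ :=
  MonoidHom.mk' (fun h => Units.map ψ.toMonoidHom (V.χ c h)) (fun g h => by
    rw [← map_mul, Subgroup.coe_mul, (V.χ_mul c g.2 h.2).1])

theorem Uni.grp {G κ : Type} [Group G] {P : κ → Subgroup G} (V : Uni G P) [Finite κ]
    (θ : ∀ c, P c →* Multiplicative (Zk 2)) (hθ : ∀ c, Function.Injective (θ c)) {f : ℕ}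
    (hf : 0 < f) (hθ' : ∀ c w, ofAdd (f • w) ∈ (θ c).range) :
    ∃ n : ℕ, 0 < n ∧ ∀ l : ℕ, l.Prime → ¬ l ∣ n → ∃ e0 j0 : ℕ, 0 < e0 ∧ ¬ l ∣ e0 ∧ 0 < j0 ∧
      ∀ e : ℕ, 0 < e → e0 ∣ e → ¬ l ∣ e → ∃ s0 : ℕ, ∀ s, s0 ≤ s →
        ∃ H : Subgroup G, H.Normal ∧ H.FiniteIndex ∧ ∀ c (h : P c), ((h : G) ∈ H ↔
          (∀ i, (l ^ (j0 * s) - 1 : ℤ) ∣ e * (θ c h).toAdd i) ∧ ∃ h' : P c, h = h' ^ l) := by
  classical
  have := Fintype.ofFinite κ
  choose nc hnc hcurve using fun c => V.curve θ hθ hf hθ' c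
  obtain ⟨nL, hnL, hL⟩ := V.lpart θ hθ hf hθ'
  refine ⟨f * nL * ∏ c, nc c, by
    have := Finset.prod_pos (s := Finset.univ) (f := nc) fun c _ => hnc c
    positivity, fun l hl hln => ?_⟩
  have : Fact l.Prime := ⟨hl⟩
  have hlf : ¬ l ∣ f := fun h => hln ((h.mul_right _).mul_right _)
  have hlL : ¬ l ∣ nL := fun h => hln ((h.mul_left _).mul_right _)
  have hlc : ∀ c, ¬ l ∣ nc c := fun c h =>
    hln ((h.trans (Finset.dvd_prod_of_mem _ (Finset.mem_univ c))).mul_left _)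
  choose A iA ψ ι τ ft hι hoth hown hind using fun c => hcurve c l (hlc c)
  obtain ⟨HL, hLn, hLf, hLm⟩ := hL l hl hlL
  choose e0 j0 he0 hle0 hj0 hff using fun c =>
    ff l (ft c) (ι c) (hι c) (V.grpChi (ψ c) c) (θ c) (hθ c) hlf (hθ' c)
      (fun h hh => Subtype.ext (hind c h h.2 hh))
  refine ⟨∏ c, e0 c, ∏ c, j0 c, Finset.prod_pos fun c _ => he0 c, ?_,
    Finset.prod_pos fun c _ => hj0 c, fun e he hee hle => ?_⟩
  · intro h
    obtain ⟨c, -, hc⟩ := (Prime.dvd_finsetProd_iff hl.prime _).1 h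
    exact hle0 c hc
  set j := ∏ c, j0 c with hj
  have hjp : 0 < j := Finset.prod_pos fun c _ => hj0 c
  choose s0 hs0 using fun c => hff c e j he
    ((Finset.dvd_prod_of_mem _ (Finset.mem_univ c)).trans hee) hle hjp
    (Finset.dvd_prod_of_mem _ (Finset.mem_univ c))
  refine ⟨Finset.univ.sup s0 + 1, fun s hs => ?_⟩
  have hsc : ∀ c, s0 c ≤ s := fun c =>
    (Finset.le_sup (f := s0) (Finset.mem_univ c)).trans (by omega)
  have h1 : 1 < l ^ (j * s) := Nat.one_lt_pow (Nat.mul_pos hjp (by omega)).ne' hl.one_lt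
  obtain ⟨M, hM⟩ : ∃ M : ℕ, l ^ (j * s) = M + 1 + 1 := ⟨l ^ (j * s) - 2, by omega⟩
  have hMz : ((l : ℤ) ^ (j * s) - 1) = ((M + 1 : ℕ) : ℤ) := by
    have : ((l ^ (j * s) : ℕ) : ℤ) = ((M + 1 + 1 : ℕ) : ℤ) := by rw [hM]
    push_cast at this ⊢
    linarith
  let red : ∀ c, P c → Fin 2 → ZMod (M + 1) := fun c h i => ((e * (θ c h).toAdd i : ℤ) : _)
  let J := Σ c, {r : Fin 2 → ZMod (M + 1) // ∃ h : P c, red c h = r ∧
    ¬ ∀ i, (l ^ (j * s) - 1 : ℤ) ∣ e * (θ c h).toAdd i}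
  have hπ : ∀ x : J, ∃ π : A x.1 →+* kk l,
      (∀ h : P x.1, red x.1 h = x.2.1 → π (V.grpChi (ψ x.1) x.1 h) ≠ 1) ∧
      ∀ h' : P x.1, (∀ i, (l ^ (j * s) - 1 : ℤ) ∣ e * (θ x.1 h').toAdd i) →
        π (V.grpChi (ψ x.1) x.1 h') = 1 := by
    rintro ⟨c, r, h, hr, hh⟩
    obtain ⟨π, p1, p2⟩ := hs0 c s (hsc c) h hh
    refine ⟨π, fun (g : P c) (hg : red c g = r) (e1 : π (V.grpChi (ψ c) c g) = 1) => p1 ?_, p2⟩
    have hk : π (V.grpChi (ψ c) c (g⁻¹ * h)) = 1 := by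
      refine p2 _ fun i => ?_
      have e2 : red c g i = red c h i := congrFun (hg.trans hr.symm) i
      have := (ZMod.intCast_eq_intCast_iff_dvd_sub _ _ (M + 1)).1 e2
      rw [← hMz] at this
      convert this using 1
      simp only [map_mul, map_inv, toAdd_mul, toAdd_inv, Pi.add_apply, Pi.neg_apply]
      ring
    have : h = g * (g⁻¹ * h) := by group
    rw [this, map_mul, Units.val_mul, map_mul, e1, hk, one_mul]
  choose π p1 p2 using hπ
  let Kr : J → Subgroup G := fun x => ((mp ((π x).comp (ψ x.1))).comp V.ρ).ker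
  have hKn : ∀ x, (Kr x).Normal := fun x => MonoidHom.normal_ker _
  have hKf : ∀ x, (Kr x).FiniteIndex := fun x => mp_fi _ _ (fin_range V.ft l _)
  have : (⨅ x, Kr x).Normal := Subgroup.normal_iInf_normal hKn
  have : (⨅ x, Kr x).FiniteIndex := Subgroup.finiteIndex_iInf hKf
  refine ⟨HL ⊓ ⨅ x, Kr x, inferInstance, inferInstance, fun c h => ?_⟩
  rw [Subgroup.mem_inf, Subgroup.mem_iInf, hLm c h h.2]
  constructor
  · rintro ⟨⟨h', hh', e1⟩, hK⟩
    refine ⟨?_, ⟨h', hh'⟩, Subtype.ext (by simpa using e1)⟩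
    by_contra hh
    exact p1 ⟨c, red c h, h, rfl, hh⟩ h rfl
      ((V.grp_ker _ c h.2).1 (hK ⟨c, red c h, h, rfl, hh⟩)).1
  · rintro ⟨hd, h', e1⟩
    refine ⟨⟨h', h'.2, by simp [e1]⟩, fun x => ?_⟩
    by_cases hc : c = x.1
    · obtain ⟨c1, r⟩ := x
      dsimp only at hc
      subst hc
      have q : π ⟨c, r⟩ (ψ c (V.χ c h)) = 1 := p2 ⟨c, r⟩ h hd
      refine (V.grp_ker _ c h.2).2 ⟨q, ?_⟩
      rw [RingHom.comp_apply, hown c h h.2, map_mul, map_sub, q, map_one, sub_self, zero_mul]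
    · rw [e1, Subgroup.coe_pow]
      refine V.grp_pow _ c h'.2 (CharP.cast_eq_zero _ l) ?_
      rw [RingHom.comp_apply, hoth x.1 c hc h' h'.2, map_one]

end Pool.Agent.Lib.MP_661727_gt.T3
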