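import Pool.Agent.Lib.MP_661727_gt.T3.Mat

/-! Square systems of monomial equations. -/

namespace Pool.Agent.Lib.MP_661727_gt.T3

open Polynomial

variable {I : Type} [Fintype I] [DecidableEq I]

omit [Fintype I] [DecidableEq I] in
lemma hens_inv {R R' : Type} [CommRing R] [CommRing R'] (π : R →+* R') {a : Rˣ} {b : R'ˣ}
    (h : π a = b) : π ((a⁻¹ : Rˣ) : R) = ((b⁻¹ : R'ˣ) : R') := by
  have : (b : R') * π ((a⁻¹ : Rˣ) : R) = 1 := by
    rw [← h, ← map_mul, a.mul_inv, map_one]
  exact (Units.inv_eq_of_mul_eq_one_right this).symm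

omit [Fintype I] [DecidableEq I] in
lemma hens_row {R R' : Type} [CommRing R] [CommRing R'] (π : R →+* R') {x : I × Bool → Rˣ}
    {x' : I × Bool → R'ˣ} (h : ∀ j, π (x j) = x' j) (m : Mon I) (i : I) :
    π (row x m i) = row x' m i := by
  simp only [row, map_sub, map_mul, map_intCast, hens_inv π (h _)]

lemma hens_step {k : Type} [Field k] (x : I × Bool → kˣ) (m : I → Mon I)
    (hd : (jac x m).det ≠ 0) (τ : I → PowerSeries k) (n : ℕ)
    (y : I × Bool → (PowerSeries k)ˣ) (hy : Sol y)
    (hc : ∀ j, PowerSeries.constantCoeff (y j : PowerSeries k) = x j)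
    (he : ∀ j, PowerSeries.X ^ (n + 1) ∣ (ev y (m j) : PowerSeries k) - τ j) :
    ∃ y' : I × Bool → (PowerSeries k)ˣ, Sol y' ∧
      (∀ j, PowerSeries.constantCoeff (y' j : PowerSeries k) = x j) ∧
      (∀ j, PowerSeries.X ^ (n + 1 + 1) ∣ (ev y' (m j) : PowerSeries k) - τ j) ∧
      ∀ j, PowerSeries.X ^ (n + 1) ∣ (y' j : PowerSeries k) - (y j : PowerSeries k) := by
  choose e he using he
  obtain ⟨w0, hw0⟩ : ∃ w0 : I → k, (jac x m).mulVec w0 =
      fun j => - PowerSeries.constantCoeff (e j) * ((ev x (m j))⁻¹ : kˣ) := by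
    have hu : IsUnit (jac x m) := (Matrix.isUnit_iff_isUnit_det _).2 hd.isUnit
    exact (Matrix.mulVec_surjective_iff_isUnit.2 hu) _
  set t : PowerSeries k := PowerSeries.X ^ (n + 1) with ht
  have ht0 : PowerSeries.constantCoeff t = 0 := by simp [ht]
  let w : I → PowerSeries k := fun i => PowerSeries.C (w0 i)
  let v : I × Bool → PowerSeries k := fun j => y j + (if j.2 then -1 else 1) * (t * w j.1)
  have hv : ∀ j, PowerSeries.constantCoeff (v j) = x j := by
    intro j
    simp only [v, map_add, map_mul, ht0, hc, zero_mul, mul_zero, add_zero]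
  have hu : ∀ j, IsUnit (v j) := fun j => by
    rw [PowerSeries.isUnit_iff_constantCoeff, hv]
    exact (x j).isUnit
  refine ⟨fun j => (hu j).unit, fun i => ?_, fun j => ?_, fun j => ?_, fun j => ?_⟩
  · have := hy i
    simp only [IsUnit.unit_spec, v]
    simp only [Bool.false_eq_true, if_false, if_true]
    linear_combination this
  · simpa only [IsUnit.unit_spec] using hv j
  · have h1 := ev_var (x := y) (x' := fun j => (hu j).unit)
      (Ideal.span {(PowerSeries.X ^ (n + 1 + 1) : PowerSeries k)}) (t := t)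
      (Ideal.mem_span_singleton.2 (by
        rw [ht, ← pow_add]
        exact pow_dvd_pow _ (by omega))) w
      (fun i => by simp [v]) (fun i => by simp [v]) (m j)
    rw [Ideal.mem_span_singleton] at h1
    have h2 : PowerSeries.X ∣ e j + (ev y (m j) : PowerSeries k) * dl y (m j) w := by
      rw [PowerSeries.X_dvd_iff, map_add, map_mul, ev_map' (PowerSeries.constantCoeff (R := k)) hc]
      have h3 : PowerSeries.constantCoeff (dl y (m j) w) = (jac x m).mulVec w0 j := by
        simp only [dl, map_sum, map_mul, hens_row (PowerSeries.constantCoeff (R := k)) hc, w,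
          PowerSeries.constantCoeff_C, Matrix.mulVec, dotProduct, jac, Matrix.of_apply]
      rw [h3, hw0]
      have := (ev x (m j)).mul_inv
      linear_combination (- PowerSeries.constantCoeff (e j)) * this
    obtain ⟨c, hc2⟩ := h2
    obtain ⟨d, hd2⟩ := h1
    refine ⟨d + c, ?_⟩
    have h4 := he j
    have h5 : (PowerSeries.X : PowerSeries k) ^ (n + 1 + 1) = t * PowerSeries.X := pow_succ _ _
    rw [h5] at hd2 ⊢
    linear_combination hd2 + h4 + t * hc2
  · refine ⟨(if j.2 then -1 else 1) * w j.1, ?_⟩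
    simp only [IsUnit.unit_spec, v]
    ring

theorem hensel {k : Type} [Field k] (x : I × Bool → kˣ) (hx : Sol x) (m : I → Mon I)
    (hd : (jac x m).det ≠ 0) (τ : I → PowerSeries k)
    (hτ : ∀ j, PowerSeries.constantCoeff (τ j) = ev x (m j)) :
    ∃ x' : I × Bool → (PowerSeries k)ˣ, Sol x' ∧
      (∀ j, PowerSeries.constantCoeff (x' j : PowerSeries k) = x j) ∧
      ∀ j, (ev x' (m j) : PowerSeries k) = τ j := by
  let P : ℕ → (I × Bool → (PowerSeries k)ˣ) → Prop := fun n y => Sol y ∧
    (∀ j, PowerSeries.constantCoeff (y j : PowerSeries k) = x j) ∧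
    ∀ j, PowerSeries.X ^ (n + 1) ∣ (ev y (m j) : PowerSeries k) - τ j
  have h0 : P 0 fun j => Units.map (PowerSeries.C : k →+* PowerSeries k).toMonoidHom (x j) := by
    have hc : ∀ j, PowerSeries.constantCoeff
        ((Units.map (PowerSeries.C : k →+* PowerSeries k).toMonoidHom (x j) : (PowerSeries k)ˣ) :
          PowerSeries k) = x j := fun j => by simp
    refine ⟨hx.map _, hc, fun j => ?_⟩
    rw [zero_add, pow_one, PowerSeries.X_dvd_iff, map_sub,
      ev_map' (PowerSeries.constantCoeff (R := k)) hc, hτ, sub_self]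
  have hs : ∀ n (y : {y // P n y}), ∃ y' : {y // P (n + 1) y},
      ∀ j, PowerSeries.X ^ (n + 1) ∣ (y'.1 j : PowerSeries k) - (y.1 j : PowerSeries k) := by
    intro n y
    obtain ⟨y', a, b, c, d⟩ := hens_step x m hd τ n y.1 y.2.1 y.2.2.1 y.2.2.2
    exact ⟨⟨y', a, b, c⟩, d⟩
  choose f hf using hs
  let s : ∀ n, {y // P n y} := fun n => Nat.rec ⟨_, h0⟩ f n
  have hss : ∀ n j, PowerSeries.X ^ (n + 1) ∣ ((s (n + 1)).1 j : PowerSeries k) -
      ((s n).1 j : PowerSeries k) :=
    fun n j => hf n (s n) j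
  have hle : ∀ d n, d ≤ n → ∀ j,
      PowerSeries.X ^ (d + 1) ∣ ((s n).1 j : PowerSeries k) - ((s d).1 j : PowerSeries k) := by
    intro d n h j
    induction n, h using Nat.le_induction with
    | base => simp
    | succ n hn ih =>
      have := dvd_add ((pow_dvd_pow PowerSeries.X (by omega : d + 1 ≤ n + 1)).trans (hss n j)) ih
      simpa using this
  let L : I × Bool → PowerSeries k := fun j =>
    PowerSeries.mk fun d => PowerSeries.coeff d ((s d).1 j : PowerSeries k)
  have hL : ∀ n j, PowerSeries.X ^ (n + 1) ∣ L j - ((s n).1 j : PowerSeries k) := by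
    intro n j
    rw [PowerSeries.X_pow_dvd_iff]
    intro d hd
    have := PowerSeries.X_pow_dvd_iff.1 (hle d n (by omega) j) d (by omega)
    rw [map_sub] at this ⊢
    simp only [L, PowerSeries.coeff_mk]
    linear_combination -this
  have hz : ∀ a : PowerSeries k, (∀ n, PowerSeries.X ^ (n + 1) ∣ a) → a = 0 := by
    intro a ha
    ext d
    exact PowerSeries.X_pow_dvd_iff.1 (ha d) d (by omega)
  have hc : ∀ j, PowerSeries.constantCoeff (L j) = x j := by
    intro j
    have := hL 0 j
    rw [zero_add, pow_one, PowerSeries.X_dvd_iff, map_sub, (s 0).2.2.1] at this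
    exact sub_eq_zero.1 this
  have hu : ∀ j, IsUnit (L j) := fun j => by
    rw [PowerSeries.isUnit_iff_constantCoeff, hc]
    exact (x j).isUnit
  refine ⟨fun j => (hu j).unit, fun i => ?_, fun j => ?_, fun j => ?_⟩
  · simp only [IsUnit.unit_spec]
    refine sub_eq_zero.1 (hz _ fun n => ?_)
    have h1 := dvd_add (hL n (i, false)) (hL n (i, true))
    have h2 := (s n).2.1 i
    convert h1 using 1
    linear_combination h2
  · simpa only [IsUnit.unit_spec] using hc j
  · refine sub_eq_zero.1 (hz _ fun n => ?_)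
    have h1 := ev_var (x := (s n).1) (x' := fun j => (hu j).unit)
      (Ideal.span {(PowerSeries.X ^ (n + 1) : PowerSeries k)}) (t := 0) (by simp) 0
      (fun i => by simpa [Ideal.mem_span_singleton] using hL n (i, false))
      (fun i => by simpa [Ideal.mem_span_singleton] using hL n (i, true)) (m j)
    rw [Ideal.mem_span_singleton] at h1
    have h2 := dvd_add h1 ((s n).2.2.2 j)
    convert h2 using 1
    ring

omit [DecidableEq I] in
lemma hens_log {A B M : Type} [CommRing A] [CommRing B] [Algebra A B] [AddCommGroup M]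
    [Module A M] [Module B M] (D : Derivation A B M) (x : I × Bool → Bˣ) (hx : Sol x) (m : Mon I) :
    (((ev x m)⁻¹ : Bˣ) : B) • D (ev x m : B) = ∑ i, row x m i • D (x (i, false) : B) := by
  let φ : Bˣ →* Multiplicative M :=
    { toFun := fun u => .ofAdd (((u⁻¹ : Bˣ) : B) • D (u : B))
      map_one' := by simp
      map_mul' := fun u v => by
        rw [← ofAdd_add, Units.val_mul, D.leibniz, smul_add, smul_smul, smul_smul, add_comm]
        congr 2
        · congr 1
          rw [mul_inv, Units.val_mul, mul_assoc, v.inv_mul, mul_one]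
        · congr 1
          rw [mul_inv, Units.val_mul, mul_right_comm, u.inv_mul, one_mul] }
  have hφ : ∀ u, (φ u).toAdd = ((u⁻¹ : Bˣ) : B) • D (u : B) := fun u => rfl
  have h1 : φ (Units.map (Int.castRingHom B).toMonoidHom m.1) = 1 := by
    apply Multiplicative.toAdd.injective
    rw [hφ]
    have : ((Units.map (Int.castRingHom B).toMonoidHom m.1 : Bˣ) : B) = ((m.1 : ℤ) : B) := rfl
    rw [this, D.map_intCast, smul_zero, toAdd_one]
  have h2 : ∀ i, D (x (i, true) : B) = - D (x (i, false) : B) := fun i => by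
    have := congrArg D (hx i)
    rw [map_add, D.map_one_eq_zero] at this
    exact eq_neg_of_add_eq_zero_right this
  rw [← hφ]
  have h3 : ev x m = Units.map (Int.castRingHom B).toMonoidHom m.1 * ∏ j, x j ^ m.2.toAdd j := rfl
  rw [h3, map_mul, h1, one_mul, map_prod, toAdd_prod, Fintype.sum_prod_type]
  refine Finset.sum_congr rfl fun i _ => ?_
  rw [Fintype.sum_bool, map_zpow φ, map_zpow φ, toAdd_zpow, toAdd_zpow, hφ, hφ, h2, row, sub_smul,
    mul_smul, mul_smul, Int.cast_smul_eq_zsmul, Int.cast_smul_eq_zsmul, smul_neg, smul_neg]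
  abel

lemma hens_der {A B M : Type} [CommRing A] [CommRing B] [Algebra A B] [AddCommGroup M]
    [Module A M] [Module B M] (D : Derivation A B M) (x : I × Bool → Bˣ) (hx : Sol x)
    (m : I → Mon I) {δ : B} (hd : δ * (jac x m).det = 1)
    (hm : ∀ j, (ev x (m j) : B) ∈ Set.range (algebraMap A B))
    (hg : Algebra.adjoin A (insert δ (Set.range (fun j => (x j : B)) ∪
      Set.range fun j => (((x j)⁻¹ : Bˣ) : B))) = ⊤) (b : B) : D b = 0 := by
  have h1 : ∀ j, ∑ i, jac x m j i • D (x (i, false) : B) = 0 := by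
    intro j
    obtain ⟨a, ha⟩ := hm j
    have := hens_log D x hx (m j)
    rw [← ha, D.map_algebraMap, smul_zero] at this
    exact this.symm
  have h2 : ∀ i, D (x (i, false) : B) = 0 := by
    intro i
    have h3 : ∑ j, (jac x m).adjugate i j • ∑ l, jac x m j l • D (x (l, false) : B) =
        (jac x m).det • D (x (i, false) : B) := by
      simp only [Finset.smul_sum, smul_smul]
      rw [Finset.sum_comm]
      simp only [← Finset.sum_smul, ← Matrix.mul_apply, Matrix.adjugate_mul]
      rw [Finset.sum_eq_single i]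
      · simp
      · intro l _ hl
        simp [Matrix.one_apply_ne hl.symm]
      · simp
    simp only [h1, smul_zero, Finset.sum_const_zero] at h3
    rw [← one_smul B (D _), ← hd, mul_smul, ← h3, smul_zero]
  have h3 : ∀ j, D (x j : B) = 0 := by
    rintro ⟨i, _ | _⟩
    · exact h2 i
    · have := congrArg D (hx i)
      rwa [map_add, D.map_one_eq_zero, h2, zero_add] at this
  have h4 : ∀ a c : B, a * c = 1 → D c = 0 → D a = 0 := by
    intro a c h hc
    have := congrArg D h
    rw [D.leibniz, hc, smul_zero, zero_add, D.map_one_eq_zero] at this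
    rw [← one_smul B (D a), ← h, mul_smul, this, smul_zero]
  let S : Subalgebra A B :=
    { carrier := {b | D b = 0}
      mul_mem' := fun {a c} ha hc => by
        simp only [Set.mem_setOf_eq] at ha hc ⊢
        rw [D.leibniz, ha, hc, smul_zero, smul_zero, add_zero]
      add_mem' := fun {a c} ha hc => by
        simp only [Set.mem_setOf_eq] at ha hc ⊢
        rw [map_add, ha, hc, add_zero]
      algebraMap_mem' := fun a => D.map_algebraMap a }
  have h5 : ∀ j, (((x j)⁻¹ : Bˣ) : B) ∈ S := fun j => h4 _ _ (x j).inv_mul (h3 j)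
  have h6 : (jac x m).det ∈ S := by
    rw [Matrix.det_apply']
    refine S.sum_mem fun σ _ => S.mul_mem (intCast_mem S _) (S.prod_mem fun i _ => ?_)
    exact S.sub_mem (S.mul_mem (intCast_mem S _) (h5 _)) (S.mul_mem (intCast_mem S _) (h5 _))
  have h7 : (⊤ : Subalgebra A B) ≤ S := by
    rw [← hg, Algebra.adjoin_le_iff]
    rintro _ (rfl | ⟨j, rfl⟩ | ⟨j, rfl⟩)
    · exact h4 _ _ hd h6
    · exact h3 j
    · exact h5 j
  exact h7 Algebra.mem_top

open TensorProduct in
lemma hens_alg {A B : Type} [CommRing A] [IsDomain A] [CommRing B] [Algebra A B]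
    [Algebra.FormallyUnramified A B] [Algebra.FiniteType A B] (u : B) : IsAlgebraic A u := by
  let K := FractionRing A
  have : Module.Finite K (K ⊗[A] B) := Algebra.FormallyUnramified.finite_of_free K (K ⊗[A] B)
  have h1 : IsAlgebraic K ((1 : K) ⊗ₜ[A] u) := IsAlgebraic.of_finite K _
  obtain ⟨p, hp, h2⟩ := (IsFractionRing.isAlgebraic_iff A K (K ⊗[A] B)).2 h1
  have h3 : (TensorProduct.mk A K B 1) (aeval u p) = 0 := by
    have := aeval_algHom_apply (Algebra.TensorProduct.includeRight : B →ₐ[A] K ⊗[A] B) u p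
    rw [Algebra.TensorProduct.includeRight_apply, h2] at this
    exact this.symm
  obtain ⟨a, ha⟩ := (IsLocalizedModule.eq_zero_iff (nonZeroDivisors A) _).1 h3
  refine ⟨C a.1 * p, mul_ne_zero (C_ne_zero.2 (nonZeroDivisors.coe_ne_zero a)) hp, ?_⟩
  rw [map_mul, aeval_C, ← Algebra.smul_def]
  exact ha

theorem unr {B : Type} [CommRing B] [Algebra ℤ[X] B] (x : I × Bool → Bˣ) (hx : Sol x)
    (m : I → Mon I) {δ : B} (hd : δ * (jac x m).det = 1)
    (hm : ∀ j, (ev x (m j) : B) ∈ Set.range (algebraMap ℤ[X] B))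
    (hg : Algebra.adjoin ℤ[X] (insert δ (Set.range (fun j => (x j : B)) ∪
      Set.range fun j => (((x j)⁻¹ : Bˣ) : B))) = ⊤) (u : B) : IsAlgebraic ℤ[X] u := by
  have : Algebra.FiniteType ℤ[X] B := ⟨Subalgebra.fg_def.2
    ⟨_, ((Set.finite_range _).union (Set.finite_range _)).insert δ, hg⟩⟩
  have : Algebra.FormallyUnramified ℤ[X] B := by
    refine ⟨subsingleton_of_forall_eq 0 fun ω => ?_⟩
    have h1 : ω ∈ Submodule.span B (Set.range (KaehlerDifferential.D ℤ[X] B)) := by
      rw [KaehlerDifferential.span_range_derivation]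
      trivial
    have h2 : Submodule.span B (Set.range (KaehlerDifferential.D ℤ[X] B)) ≤ ⊥ := by
      rw [Submodule.span_le]
      rintro _ ⟨b, rfl⟩
      exact hens_der _ x hx m hd hm hg b
    exact h2 h1
  exact hens_alg u

end Pool.Agent.Lib.MP_661727_gt.T3
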