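import Pool.Agent.Lib.MP_661727_gt.T3.Defs

/-! Matrices and monomials. -/

namespace Pool.Agent.Lib.MP_661727_gt.T3

variable {R R' : Type} [CommRing R] [CommRing R'] {I : Type} [Fintype I]

lemma mat_aff_val (a : Rˣ) (b : R) : (aff a b).val =
    !![(a : R), 2 * b, b ^ 2 * (a⁻¹ : Rˣ); 0, 1, b * (a⁻¹ : Rˣ); 0, 0, (a⁻¹ : Rˣ)] := rfl

lemma mat_jj_val : (jj : G3 R).val = !![0, 0, -1; 0, -1, 0; -1, 0, 0] := rfl

lemma aff_mul (a a' : Rˣ) (b b' : R) : aff a b * aff a' b' = aff (a * a') (b + a * b') := by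
  have h := a.mul_inv
  apply Units.ext
  rw [Units.val_mul, mat_aff_val, mat_aff_val, mat_aff_val]
  ext i j
  fin_cases i <;> fin_cases j <;> simp [Matrix.mul_apply, Fin.sum_univ_three]
  · ring
  · linear_combination (-(a : R) * b' ^ 2 * (a'⁻¹ : Rˣ) - 2 * b * b' * (a'⁻¹ : Rˣ)) * h
  · linear_combination (-b' * (a'⁻¹ : Rˣ)) * h
  · ring

lemma aff_one : aff (1 : Rˣ) (0 : R) = 1 := by
  apply Units.ext
  rw [mat_aff_val]
  ext i j
  fin_cases i <;> fin_cases j <;> simp

lemma aff_inj {a a' : Rˣ} {b b' : R} (h : aff a b = aff a' b') : a = a' ∧ b = b' := by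
  have h0 : (a : R) = a' := congrArg (fun g : G3 R => g.val 0 0) h
  have h1 : b * (a⁻¹ : Rˣ) = b' * (a'⁻¹ : Rˣ) := congrArg (fun g : G3 R => g.val 1 2) h
  obtain rfl : a = a' := Units.ext h0
  exact ⟨rfl, (Units.mul_left_inj _).1 h1⟩

lemma aff_inv (a : Rˣ) (b : R) : (aff a b)⁻¹ = aff a⁻¹ (-(a⁻¹ : Rˣ) * b) := by
  rw [inv_eq_iff_mul_eq_one, aff_mul, mul_inv_cancel, ← aff_one]
  have h := a.mul_inv
  have : b + a * (-(a⁻¹ : Rˣ) * b) = 0 := by linear_combination (-b) * h
  rw [this]

lemma aff_pow (b : R) (n : ℕ) : aff 1 b ^ n = aff 1 (n * b) := by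
  induction n with
  | zero => rw [pow_zero, Nat.cast_zero, zero_mul, aff_one]
  | succ n ih =>
    rw [pow_succ, ih, aff_mul, mul_one]
    have : (n : R) * b + (1 : Rˣ) * b = ((n + 1 : ℕ) : R) * b := by push_cast; ring
    rw [this]

lemma mat_mp_val (π : R →+* R') (g : G3 R) : (mp π g).val = g.val.map π := rfl

lemma mp_aff (π : R →+* R') (a : Rˣ) (b : R) :
    mp π (aff a b) = aff (Units.map π.toMonoidHom a) (π b) := by
  apply Units.ext
  rw [mat_mp_val, mat_aff_val, mat_aff_val]
  have h2 : π 2 = 2 := map_ofNat π 2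
  ext i j
  fin_cases i <;> fin_cases j <;> simp [h2]

lemma mp_jj (π : R →+* R') : mp π jj = jj := by
  apply Units.ext
  rw [mat_mp_val, mat_jj_val, mat_jj_val]
  ext i j
  fin_cases i <;> fin_cases j <;> simp

lemma mp_fi {G : Type} [Group G] (ρ : G →* G3 R) (π : R →+* R') (h : (Set.range π).Finite) :
    ((mp π).comp ρ).ker.FiniteIndex := by
  have h1 : {m : Matrix (Fin 3) (Fin 3) R' | ∀ i, ∀ j, m i j ∈ Set.range π}.Finite :=
    Set.Finite.pi' (t := fun _ : Fin 3 => {v : Fin 3 → R' | ∀ j, v j ∈ Set.range π})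
      fun _ => Set.Finite.pi' fun _ => h
  have h2 := h1.preimage (f := (Units.val : G3 R' → _)) Units.val_injective.injOn
  have h3 : (((mp π).comp ρ).range : Set (G3 R')).Finite := by
    refine h2.subset ?_
    rintro _ ⟨g, rfl⟩ i j
    exact ⟨(ρ g).val i j, rfl⟩
  have : Finite ((mp π).comp ρ).range := h3
  exact Subgroup.finiteIndex_ker _

/-- the symmetric square of a two by two matrix -/
def matSy (a b c d : R) : Matrix (Fin 3) (Fin 3) R :=
  !![a ^ 2, 2 * a * b, b ^ 2; a * c, a * d + b * c, b * d; c ^ 2, 2 * c * d, d ^ 2]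

lemma matSy_mul (a b c d a' b' c' d' : R) : matSy a b c d * matSy a' b' c' d' =
    matSy (a * a' + b * c') (a * b' + b * d') (c * a' + d * c') (c * b' + d * d') := by
  ext i j
  fin_cases i <;> fin_cases j <;> simp [matSy, Matrix.mul_apply, Fin.sum_univ_three] <;> ring

lemma matSy_smul (t a b c d : R) :
    matSy (t * a) (t * b) (t * c) (t * d) = t ^ 2 • matSy a b c d := by
  ext i j
  fin_cases i <;> fin_cases j <;> simp [matSy] <;> ring

lemma matSy_diag (t : R) : matSy t 0 0 t = t ^ 2 • (1 : Matrix (Fin 3) (Fin 3) R) := by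
  ext i j
  fin_cases i <;> fin_cases j <;> simp [matSy] <;> ring

/-- `g` is the adjoint image of the two by two matrix -/
def MatRp (g : G3 R) (a b c d : R) : Prop := (a * d - b * c) • g.val = matSy a b c d

lemma MatRp.ex {a b c d : R} (h : IsUnit (a * d - b * c)) : ∃ g : G3 R, MatRp g a b c d := by
  obtain ⟨u, hu⟩ := h
  have hi := u.mul_inv
  have e : ((u⁻¹ : Rˣ) : R) * (u⁻¹ : Rˣ) * (u : R) ^ 2 = 1 := by
    linear_combination ((u : R) * (u⁻¹ : Rˣ) + 1) * hi
  refine ⟨⟨((u⁻¹ : Rˣ) : R) • matSy a b c d, ((u⁻¹ : Rˣ) : R) • matSy d (-b) (-c) a, ?_, ?_⟩, ?_⟩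
  · rw [smul_mul_smul_comm, matSy_mul]
    have e1 : a * d + b * -c = u := by rw [hu]; ring
    have e2 : a * -b + b * a = 0 := by ring
    have e3 : c * d + d * -c = 0 := by ring
    have e4 : c * -b + d * a = u := by rw [hu]; ring
    rw [e1, e2, e3, e4, matSy_diag, smul_smul, e, one_smul]
  · rw [smul_mul_smul_comm, matSy_mul]
    have e1 : d * a + -b * c = u := by rw [hu]; ring
    have e2 : d * b + -b * d = 0 := by ring
    have e3 : -c * a + a * c = 0 := by ring
    have e4 : -c * b + a * d = u := by rw [hu]; ring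
    rw [e1, e2, e3, e4, matSy_diag, smul_smul, e, one_smul]
  · show (a * d - b * c) • (((u⁻¹ : Rˣ) : R) • matSy a b c d) = matSy a b c d
    rw [smul_smul, ← hu, hi, one_smul]

lemma MatRp.uq {a b c d : R} (h : IsUnit (a * d - b * c)) {g g' : G3 R} (h1 : MatRp g a b c d)
    (h2 : MatRp g' a b c d) : g = g' :=
  Units.ext (h.smul_left_cancel.1 (h1.trans h2.symm))

lemma MatRp.mul {a b c d a' b' c' d' : R} {g g' : G3 R} (h1 : MatRp g a b c d)
    (h2 : MatRp g' a' b' c' d') :
    MatRp (g * g') (a * a' + b * c') (a * b' + b * d') (c * a' + d * c') (c * b' + d * d') := by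
  unfold MatRp at *
  rw [← matSy_mul, ← h1, ← h2, smul_mul_smul_comm, Units.val_mul]
  have : (a * a' + b * c') * (c * b' + d * d') - (a * b' + b * d') * (c * a' + d * c') =
      (a * d - b * c) * (a' * d' - b' * c') := by ring
  rw [this]

lemma MatRp.smul {a b c d : R} {g : G3 R} (h : MatRp g a b c d) (t : R) :
    MatRp g (t * a) (t * b) (t * c) (t * d) := by
  unfold MatRp at *
  rw [matSy_smul, ← h, smul_smul]
  have : t * a * (t * d) - t * b * (t * c) = t ^ 2 * (a * d - b * c) := by ring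
  rw [this]

lemma MatRp.of_eq {a b c d a' b' c' d' : R} {g : G3 R} (h : MatRp g a b c d) (ha : a = a')
    (hb : b = b') (hc : c = c') (hd : d = d') : MatRp g a' b' c' d' := by
  subst ha hb hc hd; exact h

lemma matRp_jj : MatRp (jj : G3 R) 0 1 1 0 := by
  unfold MatRp
  rw [mat_jj_val]
  ext i j
  fin_cases i <;> fin_cases j <;> simp [matSy]

lemma matRp_aff (a : Rˣ) (b : R) : MatRp (aff a b) a b 0 1 := by
  have h := a.mul_inv
  unfold MatRp
  rw [mat_aff_val]
  ext i j
  fin_cases i <;> fin_cases j <;> simp [matSy]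
  · ring
  · ring
  · linear_combination (b ^ 2) * h
  · linear_combination b * h

lemma mat_br_swap (p q : R × R) : br q p = - br p q := by unfold br; ring

/-- the frame that sends `∞, 0, 1` to `p, q, r` -/
lemma exists_fr : ∃ fr : R × R → R × R → R × R → G3 R, ∀ p q r, IsUnit (br p q) → IsUnit (br p r) →
    IsUnit (br q r) → fr q p r = fr p q r * jj ∧ fr p r q = fr p q r * aff (-1) 1 ∧
      ∀ (q' r' : R × R) (a : Rˣ) (b : R), IsUnit (br p q') → IsUnit (br p r') → IsUnit (br q' r') →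
        b * (br r q * br p q') = br q' q * br p r →
        (a + b) * (br r q * br p r') = br r' q * br p r → fr p q' r' = fr p q r * aff a b := by
  have hu : ∀ p q r : R × R, IsUnit (br p q) → IsUnit (br p r) → IsUnit (br q r) →
      IsUnit (br r q * p.1 * (br p r * q.2) - br p r * q.1 * (br r q * p.2)) := by
    intro p q r h1 h2 h3
    have : br r q * p.1 * (br p r * q.2) - br p r * q.1 * (br r q * p.2) =
        - (br p q * br p r * br q r) := by unfold br; ring
    rw [this]
    exact ((h1.mul h2).mul h3).neg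
  have hex : ∀ p q r : R × R, ∃ g : G3 R, IsUnit (br p q) → IsUnit (br p r) → IsUnit (br q r) →
      MatRp g (br r q * p.1) (br p r * q.1) (br r q * p.2) (br p r * q.2) := by
    intro p q r
    by_cases h : IsUnit (br p q) ∧ IsUnit (br p r) ∧ IsUnit (br q r)
    · obtain ⟨g, hg⟩ := MatRp.ex (hu p q r h.1 h.2.1 h.2.2)
      exact ⟨g, fun _ _ _ => hg⟩
    · exact ⟨1, fun h1 h2 h3 => absurd ⟨h1, h2, h3⟩ h⟩
  choose fr hfr using hex
  refine ⟨fr, fun p q r h1 h2 h3 => ⟨?_, ?_, ?_⟩⟩
  · have h1' : IsUnit (br q p) := by rw [mat_br_swap]; exact h1.neg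
    refine MatRp.uq (hu q p r h1' h3 h2) (hfr q p r h1' h3 h2) ?_
    refine (((hfr p q r h1 h2 h3).mul matRp_jj).smul (-1)).of_eq ?_ ?_ ?_ ?_ <;>
      (unfold br; ring)
  · have h3' : IsUnit (br r q) := by rw [mat_br_swap]; exact h3.neg
    refine MatRp.uq (hu p r q h2 h1 h3') (hfr p r q h2 h1 h3') ?_
    refine ((hfr p q r h1 h2 h3).mul (matRp_aff (-1) 1)).of_eq ?_ ?_ ?_ ?_ <;>
      (unfold br; push_cast; ring)
  · intro q' r' a b k1 k2 k3 e1 e2
    have hA := (hfr p q' r' k1 k2 k3).smul (br p q * br p r)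
    have hB := ((hfr p q r h1 h2 h3).mul (matRp_aff a b)).smul (br p r' * br p q')
    have ea : (a : R) * br r q * (br p r' * br p q') = br p q * br p r * br r' q' := by
      have : br r' q * br p q' - br q' q * br p r' = br p q * br r' q' := by unfold br; ring
      linear_combination br p q' * e2 - br p r' * e1 + br p r * this
    have p1 : br p q * q'.1 = br q' q * p.1 + br p q' * q.1 := by unfold br; ring
    have p2 : br p q * q'.2 = br q' q * p.2 + br p q' * q.2 := by unfold br; ring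
    refine MatRp.uq ?_ hA (hB.of_eq ?_ ?_ ?_ ?_)
    · have : br p q * br p r * (br r' q' * p.1) * (br p q * br p r * (br p r' * q'.2)) -
          br p q * br p r * (br p r' * q'.1) * (br p q * br p r * (br r' q' * p.2)) =
          (br p q * br p r) ^ 2 *
            (br r' q' * p.1 * (br p r' * q'.2) - br p r' * q'.1 * (br r' q' * p.2)) := by ring
      rw [this]
      exact ((h1.mul h2).pow 2).mul (hu p q' r' k1 k2 k3)
    · linear_combination p.1 * ea
    · linear_combination (br p r' * p.1) * e1 - (br p r * br p r') * p1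
    · linear_combination p.2 * ea
    · linear_combination (br p r' * p.2) * e1 - (br p r * br p r') * p2

lemma mat_ev_apply (x : I × Bool → Rˣ) (m : Mon I) :
    ev x m = Units.map (Int.castRingHom R).toMonoidHom m.1 * ∏ j, x j ^ m.2.toAdd j := rfl

lemma ev_map (π : R →+* R') (x : I × Bool → Rˣ) (m : Mon I) :
    ev (fun j => Units.map π.toMonoidHom (x j)) m = Units.map π.toMonoidHom (ev x m) := by
  rw [mat_ev_apply, mat_ev_apply, map_mul, map_prod]
  simp only [map_zpow]
  have : Units.map (Int.castRingHom R').toMonoidHom m.1 =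
      Units.map π.toMonoidHom (Units.map (Int.castRingHom R).toMonoidHom m.1) := by
    apply Units.ext
    simp
  rw [this]

lemma ev_map' (π : R →+* R') {x : I × Bool → Rˣ} {x' : I × Bool → R'ˣ} (h : ∀ j, π (x j) = x' j)
    (m : Mon I) : π (ev x m) = ev x' m := by
  have : x' = fun j => Units.map π.toMonoidHom (x j) := funext fun j => Units.ext (h j).symm
  rw [this, ev_map]
  rfl

lemma ev_single [DecidableEq I] (x : I × Bool → Rˣ) (ε : ℤˣ) (j : I × Bool) :
    (ev x (ε, .ofAdd (Pi.single j 1)) : R) = (ε : ℤ) * x j := by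
  rw [mat_ev_apply, Finset.prod_eq_single j]
  · simp
  · intro k _ hk
    simp [Pi.single_eq_of_ne hk]
  · simp

lemma ev_sign (x : I × Bool → Rˣ) (ε : ℤˣ) : (ev x (ε, 1) : R) = (ε : ℤ) := by
  rw [mat_ev_apply]
  simp

lemma Sol.map (π : R →+* R') {x : I × Bool → Rˣ} (h : Sol x) :
    Sol fun j => Units.map π.toMonoidHom (x j) := by
  intro i
  have := congrArg π (h i)
  rw [map_add, map_one] at this
  exact this

lemma dl_mul (x : I × Bool → Rˣ) (m m' : Mon I) (w : I → R) :
    dl x (m * m') w = dl x m w + dl x m' w := by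
  unfold dl row
  rw [← Finset.sum_add_distrib]
  refine Finset.sum_congr rfl fun i _ => ?_
  simp only [Prod.snd_mul, toAdd_mul, Pi.add_apply]
  push_cast
  ring

lemma dl_one (x : I × Bool → Rˣ) (w : I → R) : dl x 1 w = 0 := by
  have := dl_mul x 1 1 w
  rw [mul_one] at this
  linear_combination -this

lemma dl_inv (x : I × Bool → Rˣ) (m : Mon I) (w : I → R) : dl x m⁻¹ w = - dl x m w := by
  have := dl_mul x m⁻¹ m w
  rw [inv_mul_cancel, dl_one] at this
  linear_combination -this

lemma mat_dl_map (π : R →+* R') (x : I × Bool → Rˣ) (m : Mon I) (w : I → R) :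
    dl (fun j => Units.map π.toMonoidHom (x j)) m (fun i => π (w i)) = π (dl x m w) := by
  unfold dl row
  rw [map_sum]
  refine Finset.sum_congr rfl fun i _ => ?_
  simp

/-- the exponential of a square-zero element -/
def matExp {t : R} (ht : t * t = 0) : Multiplicative R →* Rˣ where
  toFun a := ⟨1 + t * a.toAdd, 1 - t * a.toAdd, by linear_combination (-a.toAdd ^ 2) * ht,
    by linear_combination (-a.toAdd ^ 2) * ht⟩
  map_one' := Units.ext (by simp)
  map_mul' a b := Units.ext (by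
    show 1 + t * (a.toAdd + b.toAdd) = (1 + t * a.toAdd) * (1 + t * b.toAdd)
    linear_combination (-a.toAdd * b.toAdd) * ht)

lemma mat_ev_var {x x' : I × Bool → Rˣ} {t : R} (ht : t * t = 0) (w : I → R)
    (h0 : ∀ i, (x' (i, false) : R) = x (i, false) + t * w i)
    (h1 : ∀ i, (x' (i, true) : R) = x (i, true) - t * w i) (m : Mon I) :
    (ev x' m : R) = ev x m * (1 + t * dl x m w) := by
  let a : I × Bool → R := fun j => (if j.2 then -1 else 1) * ((x j)⁻¹ : Rˣ) * w j.1
  have hx : ∀ j, x' j = x j * matExp ht (.ofAdd (a j)) := by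
    rintro ⟨i, b⟩
    apply Units.ext
    have h := (x (i, b)).mul_inv
    show (x' (i, b) : R) = x (i, b) * (1 + t * a (i, b))
    cases b
    · rw [h0]
      simp only [a, Bool.false_eq_true, if_false]
      linear_combination (-t * w i) * h
    · rw [h1]
      simp only [a, if_true]
      linear_combination (t * w i) * h
  have hs : ∏ j, matExp ht (.ofAdd (a j)) ^ m.2.toAdd j = matExp ht (.ofAdd (dl x m w)) := by
    simp only [← map_zpow]
    rw [← map_prod]
    refine congrArg _ ?_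
    simp only [← ofAdd_zsmul]
    rw [← ofAdd_sum]
    refine congrArg _ ?_
    rw [Fintype.sum_prod_type]
    unfold dl row
    refine Finset.sum_congr rfl fun i _ => ?_
    rw [Fintype.sum_bool]
    simp only [a, Bool.false_eq_true, if_false, if_true, zsmul_eq_mul]
    ring
  have : ev x' m = ev x m * matExp ht (.ofAdd (dl x m w)) := by
    rw [mat_ev_apply, mat_ev_apply, ← hs, mul_assoc, ← Finset.prod_mul_distrib]
    simp only [hx, mul_zpow]
  rw [this]
  rfl

/-- first order variation of a monomial -/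
lemma ev_var {x x' : I × Bool → Rˣ} (J : Ideal R) {t : R} (ht : t * t ∈ J) (w : I → R)
    (h0 : ∀ i, (x' (i, false) : R) - (x (i, false) + t * w i) ∈ J)
    (h1 : ∀ i, (x' (i, true) : R) - (x (i, true) - t * w i) ∈ J) (m : Mon I) :
    (ev x' m : R) - ev x m * (1 + t * dl x m w) ∈ J := by
  let π := Ideal.Quotient.mk J
  have := mat_ev_var (x := fun j => Units.map π.toMonoidHom (x j))
    (x' := fun j => Units.map π.toMonoidHom (x' j)) (t := π t)
    (by rw [← map_mul]; exact Ideal.Quotient.eq_zero_iff_mem.2 ht) (fun i => π (w i))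
    (fun i => by
      have := Ideal.Quotient.eq.2 (h0 i)
      rw [map_add, map_mul] at this
      exact this)
    (fun i => by
      have := Ideal.Quotient.eq.2 (h1 i)
      rw [map_sub, map_mul] at this
      exact this) m
  rw [ev_map, ev_map, mat_dl_map] at this
  rw [← Ideal.Quotient.eq, map_mul, map_add, map_one, map_mul]
  exact this

/-- evaluation of the free ring at a family of units -/
noncomputable def matEv (x : I × Bool → Rˣ) : MvPolynomial ((I × Bool) ⊕ (I × Bool)) ℤ →+* R :=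
  MvPolynomial.eval₂Hom (Int.castRingHom R)
    (Sum.elim (fun j => (x j : R)) fun j => (((x j)⁻¹ : Rˣ) : R))

/-- the polynomials that vanish on all solutions -/
def matId {ι : Type} (E : ι → Mon I) : Ideal (MvPolynomial ((I × Bool) ⊕ (I × Bool)) ℤ) where
  carrier := {f | ∀ (S : Type) [CommRing S] (x : I × Bool → Sˣ), Sol x → (∀ e, ev x (E e) = 1) →
    matEv x f = 0}
  add_mem' := fun {f g} hf hg S _ x h1 h2 => by
    rw [map_add, hf S x h1 h2, hg S x h1 h2, add_zero]
  zero_mem' := fun S _ x _ _ => map_zero _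
  smul_mem' := fun c f hf S _ x h1 h2 => by
    rw [smul_eq_mul, map_mul, hf S x h1 h2, mul_zero]

lemma exists_univ {ι : Type} (E : ι → Mon I) :
    ∃ (R : Type) (_ : CommRing R) (x : I × Bool → Rˣ), Univ E x := by
  let π := Ideal.Quotient.mk (matId E)
  have hu : ∀ j, π (MvPolynomial.X (.inl j)) * π (MvPolynomial.X (.inr j)) = 1 := by
    intro j
    rw [← map_mul, ← map_one π]
    refine Ideal.Quotient.eq.2 fun S _ x _ _ => ?_
    simp [matEv]
  let x : I × Bool → (_ ⧸ matId E)ˣ := fun j =>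
    ⟨π (MvPolynomial.X (.inl j)), π (MvPolynomial.X (.inr j)), hu j, by rw [mul_comm, hu j]⟩
  have key : ∀ (S : Type) [CommRing S] (x' : I × Bool → Sˣ), Sol x' → (∀ e, ev x' (E e) = 1) →
      ∃ ψ : (_ ⧸ matId E) →+* S, (∀ j, ψ (x j) = x' j) ∧ ∀ f, ψ (π f) = matEv x' f := by
    intro S _ x' h1 h2
    refine ⟨Ideal.Quotient.lift _ (matEv x') fun f hf => hf S x' h1 h2, fun j => ?_,
      fun f => Ideal.Quotient.lift_mk _ _ _⟩
    show Ideal.Quotient.lift _ (matEv x') _ (Ideal.Quotient.mk _ (MvPolynomial.X (.inl j))) = _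
    rw [Ideal.Quotient.lift_mk]
    simp [matEv]
  have sep : ∀ r : _ ⧸ matId E, (∀ (S : Type) [CommRing S] (x' : I × Bool → Sˣ), Sol x' →
      (∀ e, ev x' (E e) = 1) → ∀ ψ : (_ ⧸ matId E) →+* S, (∀ j, ψ (x j) = x' j) → ψ r = 0) →
      r = 0 := by
    intro r hr
    obtain ⟨f, rfl⟩ := Ideal.Quotient.mk_surjective r
    refine Ideal.Quotient.eq_zero_iff_mem.2 fun S _ x' h1 h2 => ?_
    obtain ⟨ψ, hψ, hf⟩ := key S x' h1 h2
    rw [← hf]
    exact hr S x' h1 h2 ψ hψ
  refine ⟨_, inferInstance, x, fun i => ?_, fun e => ?_, ?_, fun S _ x' h1 h2 => ?_⟩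
  · refine sub_eq_zero.1 (sep _ fun S _ x' h1 _ ψ hψ => ?_)
    rw [map_sub, map_add, hψ, hψ, map_one, h1 i, sub_self]
  · refine Units.ext (sub_eq_zero.1 (sep _ fun S _ x' _ h2 ψ hψ => ?_))
    rw [map_sub, ev_map' ψ hψ, h2 e, Units.val_one, Units.val_one, map_one, sub_self]
  · rw [eq_top_iff]
    intro r _
    obtain ⟨f, rfl⟩ := Ideal.Quotient.mk_surjective r
    induction f using MvPolynomial.induction_on with
    | C a =>
      rw [eq_intCast MvPolynomial.C a, map_intCast]
      exact intCast_mem _ a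
    | add f g hf hg =>
      rw [map_add]
      exact add_mem (hf trivial) (hg trivial)
    | mul_X f j hf =>
      rw [map_mul]
      refine mul_mem (hf trivial) (Subring.subset_closure ?_)
      cases j with
      | inl j => exact Or.inl ⟨j, rfl⟩
      | inr j => exact Or.inr ⟨j, rfl⟩
  · obtain ⟨ψ, hψ, -⟩ := key S x' h1 h2
    exact ⟨ψ, hψ⟩

lemma Univ.ft {ι : Type} {E : ι → Mon I} {x : I × Bool → Rˣ} (h : Univ E x) :
    Algebra.FiniteType ℤ R := by
  refine ⟨Subalgebra.fg_def.2 ⟨_, (Set.finite_range fun j => (x j : R)).union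
    (Set.finite_range fun j => (((x j)⁻¹ : Rˣ) : R)), ?_⟩⟩
  rw [Algebra.adjoin_int, h.gen]
  rfl

lemma Univ.ext {ι : Type} {E : ι → Mon I} {x : I × Bool → Rˣ} (h : Univ E x) {π π' : R →+* R'}
    (e : ∀ j, π (x j) = π' (x j)) : π = π' := by
  refine RingHom.eq_of_eqOn_set_dense h.gen ?_
  rintro _ (⟨j, rfl⟩ | ⟨j, rfl⟩)
  · exact e j
  · have h1 : π (x j) * π ((x j)⁻¹ : Rˣ) = 1 := by rw [← map_mul, Units.mul_inv, map_one]
    have h2 : π' (x j) * π' ((x j)⁻¹ : Rˣ) = 1 := by rw [← map_mul, Units.mul_inv, map_one]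
    show π ((x j)⁻¹ : Rˣ) = π' ((x j)⁻¹ : Rˣ)
    linear_combination π' ((x j)⁻¹ : Rˣ) * h1 - π ((x j)⁻¹ : Rˣ) * h2 -
      π ((x j)⁻¹ : Rˣ) * π' ((x j)⁻¹ : Rˣ) * e j

end Pool.Agent.Lib.MP_661727_gt.T3
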