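import Pool.Agent.Lib.MP_661727_gt.T3.Defs

/-! The dual polyhedron: vertices and edges. -/

namespace Pool.Agent.Lib.MP_661727_gt.T3

open Ar

namespace P1

lemma norm_time {d : ℕ} {z : Mink d} (h : lor z z < 0) (h1 : 0 < z.1) :
    ∃ s : ℝ, 0 < s ∧ s * s = - lor z z ∧ ∃ x ∈ Hyp d, z = s • x := by
  have h0 : 0 < - lor z z := by linarith
  have h2 := Real.sqrt_pos.2 h0
  have h3 := Real.mul_self_sqrt h0.le
  refine ⟨√(- lor z z), h2, h3, (√(- lor z z))⁻¹ • z, ⟨?_, ?_⟩, ?_⟩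
  · rw [lor_smul_left, lor_smul_right]
    field_simp
    nlinarith
  · simp only [Prod.smul_fst, smul_eq_mul]
    positivity
  · rw [smul_smul, mul_inv_cancel₀ h2.ne', one_smul]

lemma time_low {d : ℕ} {C : Set (Mink d)} {R : ℝ}
    (hR : ∀ x ∈ Hyp d, ∃ η ∈ C, - lor x η ≤ R) {s : ℝ} (hs : 0 < s) {x : Mink d} (hx : x ∈ Hyp d)
    (hy : ∀ η ∈ C, lor (s • x) η ≤ -1) : 1 ≤ s * R := by
  obtain ⟨η, hη, h⟩ := hR x hx
  have h1 := hy η hη
  rw [lor_smul_left] at h1
  nlinarith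

/-- the pairing with a fixed vector -/
def lorL {d : ℕ} (e : Mink d) : Mink d →ₗ[ℝ] ℝ where
  toFun v := lor v e
  map_add' u v := lor_add_left u v e
  map_smul' t v := lor_smul_left t v e

lemma lor_sum_left {d : ℕ} {ι : Type} (s : Finset ι) (f : ι → Mink d) (e : Mink d) :
    lor (∑ i ∈ s, f i) e = ∑ i ∈ s, lor (f i) e := map_sum (lorL e) f s

lemma rank4 : Module.finrank ℝ (Mink 3) = 4 := by
  simp [Module.finrank_prod]

lemma pos_low {α : Type} {F : Set α} (hF : F.Finite) (f : α → ℝ) (h : ∀ a ∈ F, 0 < f a) :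
    ∃ δ : ℝ, 0 < δ ∧ ∀ a ∈ F, δ ≤ f a := by
  rcases F.eq_empty_or_nonempty with rfl | hne
  · exact ⟨1, one_pos, by simp⟩
  · obtain ⟨a, ha, hm⟩ := Set.exists_min_image F f hF hne
    exact ⟨f a, h a ha, hm⟩

end P1

open P1

/-- the polyhedron lies inside the light cone -/
lemma q_time {d : ℕ} {C : Set (Mink d)} (hC : ∀ η ∈ C, Nul η) {R : ℝ}
    (hR : ∀ x ∈ Hyp d, ∃ η ∈ C, - lor x η ≤ R) {y : Mink d} (hy : ∀ η ∈ C, lor y η ≤ -1) :
    ∃ s : ℝ, 0 < s ∧ 1 ≤ s * R ∧ ∃ x ∈ Hyp d, y = s • x := by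
  obtain ⟨a, ha0, ha⟩ : ∃ a : ℝ, 0 ≤ a ∧ a * a = y.2 ⬝ᵥ y.2 :=
    ⟨√(y.2 ⬝ᵥ y.2), Real.sqrt_nonneg _, Real.mul_self_sqrt (dot_nonneg _)⟩
  by_cases h : a < y.1
  · have h1 : lor y y < 0 := by
      simp only [lor]
      nlinarith
    obtain ⟨s, hs, -, x, hx, e⟩ := norm_time h1 (by linarith)
    exact ⟨s, hs, time_low hR hs hx (e ▸ hy), x, hx, e⟩
  · exfalso
    push Not at h
    obtain ⟨δ, hδ, hδ1, hδ2⟩ : ∃ δ : ℝ, 0 < δ ∧ δ ≤ 1 ∧ δ * (2 * a + 1) * (R * R) < 1 := by
      have h0 := mul_self_nonneg R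
      have h1 : 0 < (2 * a + 1) * (R * R + 1) := mul_pos (by linarith) (by linarith)
      have h2 : 1 ≤ (2 * a + 1) * (R * R + 1) := by nlinarith [mul_self_nonneg R]
      refine ⟨((2 * a + 1) * (R * R + 1))⁻¹, inv_pos.2 h1, inv_le_one_of_one_le₀ h2, ?_⟩
      rw [mul_assoc, inv_mul_lt_iff₀ h1]
      nlinarith
    set z : Mink d := y + (a - y.1 + δ) • oo d with hz
    have z1 : z.1 = a + δ := by simp [hz]; ring
    have z2 : z.2 = y.2 := by simp [hz]
    have hzz : - lor z z = 2 * a * δ + δ * δ := by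
      simp only [lor, z1, z2, ← ha]
      ring
    have hzC : ∀ η ∈ C, lor z η ≤ -1 := fun η hη => by
      have h1 := hy η hη
      have h2 := (hC η hη).2
      rw [hz, lor_add_left, lor_smul_left, lor_oo]
      nlinarith
    obtain ⟨s, hs, hss, x, hx, e⟩ := norm_time (z := z) (by nlinarith) (by linarith)
    have h1 := time_low hR hs hx (e ▸ hzC)
    have h2 : 1 ≤ (s * R) * (s * R) := by nlinarith
    have h3 : s * s ≤ δ * (2 * a + 1) := by nlinarith
    have h4 : (s * s) * (R * R) ≤ δ * (2 * a + 1) * (R * R) :=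
      mul_le_mul_of_nonneg_right h3 (mul_self_nonneg R)
    nlinarith

namespace Cfg

variable {G : Type} [Group G] {K : Cfg G} {φ ψ : Fin 4 → Mink 3} {y y' e : Mink 3}

lemma act_fin (R : ℝ) : {η ∈ K.C | ∃ y ∈ K.Q, y.1 ≤ R ∧ lor y η = -1}.Finite := by
  obtain ⟨R0, hR0⟩ := K.near
  refine (K.lf (2 * R * (R0 * R0))).subset ?_
  rintro η ⟨hη, y, hy, h1, h2⟩
  refine ⟨hη, ?_⟩
  obtain ⟨s, hs, hsR, x, hx, rfl⟩ := q_time K.light hR0 hy
  have h3 := tri_fut oo_mem hx (K.light η hη).fut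
  rw [lor_oo, lor_oo, neg_neg, neg_neg] at h3
  rw [lor_smul_left] at h2
  simp only [Prod.smul_fst, smul_eq_mul] at h1
  have x1 := hx.2
  have hR0' : 0 < R0 := by nlinarith
  have h4 : - lor x η ≤ R0 := by
    have h5 : 0 < - lor x η := by linarith [lor_neg hx (K.light η hη).fut]
    nlinarith
  have h5 : x.1 ≤ R * R0 := by nlinarith
  have h6 : 0 < - lor x η := by linarith [lor_neg hx (K.light η hη).fut]
  calc η.1 ≤ 2 * x.1 * (- lor x η) := h3
    _ ≤ 2 * (R * R0) * R0 := by gcongr; nlinarith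
    _ = 2 * R * (R0 * R0) := by ring

lemma P1_time (hy : y ∈ K.Q) : lor y y < 0 ∧ 0 < y.1 := by
  obtain ⟨R0, hR0⟩ := K.near
  obtain ⟨s, hs, -, x, hx, rfl⟩ := q_time K.light hR0 hy
  refine ⟨?_, mul_pos hs hx.2⟩
  rw [lor_smul_left, lor_smul_right, hx.1]
  nlinarith

lemma recess (h : ∀ η ∈ K.C, lor e η ≤ 0) : e = 0 ∨ Fut e := by
  obtain ⟨R0, hR0⟩ := K.near
  obtain ⟨η0, hη0, -⟩ := hR0 _ oo_mem
  obtain ⟨y, hy, -⟩ := K.all η0 hη0
  have key : ∀ t : ℝ, 0 ≤ t → lor (y + t • e) (y + t • e) < 0 ∧ 0 < (y + t • e).1 := fun t ht =>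
    P1_time (K := K) fun η hη => by
      have h1 := hy η hη
      have h2 := h η hη
      rw [lor_add_left, lor_smul_left]
      nlinarith
  have h1 : lor e e ≤ 0 := by
    by_contra hc
    push Not at hc
    have a1 := abs_nonneg (lor y y)
    have a2 := abs_nonneg (lor y e)
    have a3 := neg_abs_le (lor y y)
    have a4 := neg_abs_le (lor y e)
    obtain ⟨t, ht1, ht⟩ : ∃ t : ℝ, 1 ≤ t ∧ |lor y y| + 2 * |lor y e| ≤ t * lor e e := by
      refine ⟨(|lor y y| + 2 * |lor y e|) / lor e e + 1, ?_, ?_⟩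
      · have : 0 ≤ (|lor y y| + 2 * |lor y e|) / lor e e := by positivity
        linarith
      · rw [add_mul, div_mul_cancel₀ _ hc.ne']
        linarith
    have h2 := (key t (by linarith)).1
    simp only [lor_add_left, lor_add_right, lor_smul_left, lor_smul_right, lor_comm e y] at h2
    nlinarith
  rcases causal h1 with h2 | h2 | h2
  · exact Or.inl h2
  · exact Or.inr h2
  · exfalso
    have h3 : 0 < - e.1 := h2.2
    have h4 := (key 0 le_rfl).2
    have h5 := (key (y.1 / - e.1) (by simp at h4; positivity)).2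
    simp only [Prod.fst_add, Prod.smul_fst, smul_eq_mul] at h5
    have h6 : y.1 / - e.1 * e.1 = - y.1 := by
      have : e.1 ≠ 0 := by linarith [h3] |> fun (h : e.1 < 0) => h.ne
      field_simp
    linarith

lemma P1_near (hy : y ∈ K.Q) (M : ℝ) : {η ∈ K.C | - lor y η ≤ M}.Finite := by
  obtain ⟨R0, hR0⟩ := K.near
  obtain ⟨s, hs, -, x, hx, rfl⟩ := q_time K.light hR0 hy
  refine (K.lf (2 * x.1 * (M / s))).subset ?_
  rintro η ⟨hη, h1⟩
  refine ⟨hη, ?_⟩
  have h3 := tri_fut oo_mem hx (K.light η hη).fut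
  rw [lor_oo, lor_oo, neg_neg, neg_neg] at h3
  rw [lor_smul_left] at h1
  have h4 : - lor x η ≤ M / s := by
    rw [le_div_iff₀ hs]
    linarith
  have x1 := hx.2
  exact h3.trans (by gcongr)

lemma P1_bound (hy : y ∈ K.Q) (e : Mink 3) :
    ∃ B : ℝ, 0 < B ∧ ∀ η ∈ K.C, lor e η ≤ B * (- lor y η) := by
  obtain ⟨R0, hR0⟩ := K.near
  obtain ⟨s, hs, -, x, hx, rfl⟩ := q_time K.light hR0 hy
  have q0 := q_nonneg hx e
  obtain ⟨r, hr0, hr⟩ : ∃ r : ℝ, 0 ≤ r ∧ r ^ 2 = lor e e + lor e x ^ 2 :=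
    ⟨√(lor e e + lor e x ^ 2), Real.sqrt_nonneg _, Real.sq_sqrt q0⟩
  refine ⟨(r + |lor e x| + 1) / s, by positivity, fun η hη => ?_⟩
  have h1 := cs_at hx e η
  have h2 : 0 < - lor x η := by linarith [lor_neg hx (K.light η hη).fut]
  rw [(K.light η hη).1, zero_add, ← hr, lor_comm η x] at h1
  have h3 : lor e η + lor e x * lor x η ≤ r * (- lor x η) := by
    apply le_of_pow_le_pow_left₀ (n := 2) (by norm_num) (by positivity)
    rw [mul_pow, neg_sq]
    exact h1
  have h4 := le_abs_self (lor e x)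
  have h5 : (r + |lor e x| + 1) / s * - lor (s • x) η = (r + |lor e x| + 1) * - lor x η := by
    rw [lor_smul_left]
    field_simp
  rw [h5]
  nlinarith

lemma exit (hy : y ∈ K.Q) (h : ∃ η ∈ K.C, 0 < lor e η) : ∃ s : ℝ, 0 ≤ s ∧ y + s • e ∈ K.Q ∧
    ∃ η ∈ K.C, lor (y + s • e) η = -1 ∧ 0 < lor e η := by
  set T : Set ℝ := {r | ∃ η ∈ K.C, 0 < lor e η ∧ r = (-1 - lor y η) / lor e η} with hT
  have hne : T.Nonempty := by
    obtain ⟨η, hη, h1⟩ := h
    exact ⟨_, η, hη, h1, rfl⟩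
  have h0 : ∀ r ∈ T, 0 ≤ r := by
    rintro r ⟨η, hη, h1, rfl⟩
    have := hy η hη
    exact div_nonneg (by linarith) h1.le
  have hb : BddBelow T := ⟨0, h0⟩
  have hs : 0 ≤ sInf T := le_csInf hne h0
  have hz : y + sInf T • e ∈ K.Q := fun η hη => by
    have h1 := hy η hη
    rw [lor_add_left, lor_smul_left]
    by_cases h2 : 0 < lor e η
    · have h3 : sInf T ≤ (-1 - lor y η) / lor e η := csInf_le hb ⟨η, hη, h2, rfl⟩
      rw [le_div_iff₀ h2] at h3
      linarith
    · push Not at h2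
      nlinarith
  refine ⟨sInf T, hs, hz, ?_⟩
  by_contra hc
  push Not at hc
  set z := y + sInf T • e with hzd
  obtain ⟨B, hB, hB'⟩ := P1_bound hz e
  have hF : {η ∈ K.C | - lor z η ≤ 2 ∧ 0 < lor e η}.Finite :=
    (P1_near hz 2).subset fun η hη => ⟨hη.1, hη.2.1⟩
  obtain ⟨δ, hδ, hδ'⟩ := pos_low hF (fun η => (-1 - lor z η) / lor e η) fun η hη => by
    have h1 := hz η hη.1
    have h2 : lor z η ≠ -1 := fun h3 => absurd hη.2.2 (not_lt.2 (hc η hη.1 h3))
    exact div_pos (by have := lt_of_le_of_ne h1 h2; linarith) hη.2.2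
  have hm : 0 < min δ (1 / (2 * B)) := lt_min hδ (by positivity)
  have : sInf T + min δ (1 / (2 * B)) ≤ sInf T := by
    refine le_csInf hne ?_
    rintro r ⟨η, hη, h1, rfl⟩
    rw [le_div_iff₀ h1]
    have e1 : lor z η = lor y η + sInf T * lor e η := by rw [hzd, lor_add_left, lor_smul_left]
    by_cases h2 : - lor z η ≤ 2
    · have h3 := (min_le_left δ (1 / (2 * B))).trans (hδ' η ⟨hη, h2, h1⟩)
      rw [le_div_iff₀ h1] at h3
      linarith
    · push Not at h2
      have h3 := min_le_right δ (1 / (2 * B))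
      rw [le_div_iff₀ (by positivity)] at h3
      have h4 := hB' η hη
      have h5 : min δ (1 / (2 * B)) * lor e η ≤ min δ (1 / (2 * B)) * (B * - lor z η) :=
        mul_le_mul_of_nonneg_left h4 hm.le
      nlinarith
  linarith

lemma P1_li {ι : Type} {f : ι → Mink 3} (hy : y ∈ K.Q) (hi : Function.Injective f)
    (h1 : ∀ j, f j ∈ K.C) (h2 : ∀ j, lor y (f j) = -1) : LinearIndependent ℝ f :=
  LinearIndependent.comp (K.gen y hy)
    (fun j => (⟨f j, h1 j, h2 j⟩ : {η ∈ K.C | lor y η = -1}))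
    fun _ _ hij => hi (congrArg Subtype.val hij)

lemma Flag.li (h : K.Flag φ y) : LinearIndependent ℝ φ := P1_li h.mem h.inj h.sub h.act

lemma Flag.all (h : K.Flag φ y) {η : Mink 3} (hη : η ∈ K.C) (h1 : lor y η = -1) :
    ∃ j, η = φ j := by
  by_contra hc
  push Not at hc
  have hi : Function.Injective (fun o : Option (Fin 4) => o.elim η φ) := by
    rintro (_ | a) (_ | b) hab
    · rfl
    · exact absurd hab (hc b)
    · exact absurd hab.symm (hc a)
    · exact congrArg some (h.inj hab)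
  have := (P1_li h.mem hi (by rintro (_ | a); exacts [hη, h.sub a])
    (by rintro (_ | a); exacts [h1, h.act a])).fintype_card_le_finrank
  rw [rank4] at this
  simp at this

lemma Flag.zero (h : K.Flag φ y) (he : ∀ j, lor e (φ j) = 0) : e = 0 := by
  have h1 : Submodule.span ℝ (Set.range φ) = ⊤ :=
    h.li.span_eq_top_of_card_eq_finrank (by rw [rank4]; simp)
  have h2 : lorL e = 0 := by
    refine LinearMap.ext_on_range h1 fun j => ?_
    exact (lor_comm _ _).trans (he j)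
  have h3 : lor (oo 3) e = 0 := congrArg (fun f : Mink 3 →ₗ[ℝ] ℝ => f (oo 3)) h2
  have h4 : lor e e = 0 := congrArg (fun f : Mink 3 →ₗ[ℝ] ℝ => f e) h2
  exact q_eq_zero oo_mem ((lor_comm _ _).trans h3) h4.le

lemma Flag.uniq (h : K.Flag φ y) (h' : K.Flag φ y') : y = y' :=
  sub_eq_zero.1 (h.zero fun j => by rw [lor_sub_left, h.act, h'.act, sub_self])

lemma Flag.same (h : K.Flag φ y) (h' : K.Flag ψ y) : ∃ s : Equiv.Perm (Fin 4), ψ = φ ∘ s := by
  choose f hf using fun j => h.all (h'.sub j) (h'.act j)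
  have hi : Function.Injective f := fun a b hab => h'.inj (by rw [hf, hf, hab])
  exact ⟨Equiv.ofBijective f hi.bijective_of_finite, funext hf⟩

lemma Flag.pm (h : K.Flag φ y) (s : Equiv.Perm (Fin 4)) : K.Flag (φ ∘ s) y :=
  ⟨h.mem, h.inj.comp s.injective, fun _ => h.sub _, fun _ => h.act _⟩

lemma Flag.smul (h : K.Flag φ y) (g : G) : K.Flag (fun j => K.ρ g (φ j)) (K.ρ g y) := by
  refine ⟨fun η hη => ?_, (K.ρ g).injective.comp h.inj, fun j => K.inv g _ (h.sub j),
    fun j => by rw [K.isom, h.act]⟩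
  have e : η = K.ρ g (K.ρ g⁻¹ η) := by
    rw [map_inv]
    exact ((K.ρ g).apply_symm_apply η).symm
  rw [e, K.isom]
  exact h.mem _ (K.inv _ _ hη)

lemma Flag.P1_dual (h : K.Flag φ y) (c : Fin 4 → ℝ) : ∃ e, ∀ j, lor e (φ j) = c j := by
  have h1 : Function.Injective (LinearMap.pi fun j => lorL (φ j) : Mink 3 →ₗ[ℝ] Fin 4 → ℝ) :=
    (injective_iff_map_eq_zero _).2 fun e he => h.zero fun j => congrFun he j
  obtain ⟨e, he⟩ := (LinearMap.injective_iff_surjective_of_finrank_eq_finrank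
    (by rw [rank4]; simp)).1 h1 c
  exact ⟨e, fun j => congrFun he j⟩

/-- the edge opposite to the last facet ends in another vertex -/
lemma Flag.edge (h : K.Flag φ y) : ∃ ψ y', K.Flag ψ y' ∧ (∀ j, j ≠ 3 → ψ j = φ j) ∧ y' ≠ y := by
  obtain ⟨e, he⟩ := h.P1_dual fun j => if j = 3 then -1 else 0
  have e3 : lor e (φ 3) = -1 := by simpa using he 3
  have e0 : ∀ j, j ≠ 3 → lor e (φ j) = 0 := fun j hj => by simpa [hj] using he j
  have hex : ∃ η ∈ K.C, 0 < lor e η := by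
    by_contra hc
    push Not at hc
    rcases recess hc with rfl | h1
    · rw [lor_zero_left] at e3
      norm_num at e3
    · obtain ⟨s, rfl⟩ := null_par (K.light _ (h.sub 0)) (e0 0 (by decide)) h1.1
      have h2 := K.neg _ (h.sub 0) _ (h.sub 1) (h.inj.ne (by decide))
      have h3 := e0 1 (by decide)
      rw [lor_smul_left] at h3 e3
      rw [(mul_eq_zero.1 h3).resolve_right h2.ne] at e3
      norm_num at e3
  obtain ⟨s, hs, hq, η, hη, h1, h2⟩ := exit h.mem hex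
  have hne : ∀ j, η ≠ φ j := fun j hj => by
    rw [hj, he] at h2
    split_ifs at h2 <;> norm_num at h2
  have hs0 : s ≠ 0 := by
    rintro rfl
    rw [zero_smul, add_zero] at h1
    obtain ⟨j, hj⟩ := h.all hη h1
    exact hne j hj
  refine ⟨Function.update φ 3 η, y + s • e, ⟨hq, ?_, fun j => ?_, fun j => ?_⟩,
    fun j hj => Function.update_of_ne hj _ _, fun hc => ?_⟩
  · intro a b hab
    by_cases ha : a = 3 <;> by_cases hb : b = 3
    · rw [ha, hb]
    · rw [ha, Function.update_self, Function.update_of_ne hb] at hab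
      exact absurd hab (hne b)
    · rw [hb, Function.update_self, Function.update_of_ne ha] at hab
      exact absurd hab.symm (hne a)
    · rw [Function.update_of_ne ha, Function.update_of_ne hb] at hab
      exact h.inj hab
  · by_cases hj : j = 3
    · rw [hj, Function.update_self]; exact hη
    · rw [Function.update_of_ne hj]; exact h.sub j
  · by_cases hj : j = 3
    · rw [hj, Function.update_self]; exact h1
    · rw [Function.update_of_ne hj, lor_add_left, lor_smul_left, h.act, e0 j hj]; ring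
  · have h3 := congrArg (fun v => lor v (φ 3)) hc
    simp only [lor_add_left, lor_smul_left, e3] at h3
    exact hs0 (by linarith)

lemma Flag.P1_lt (h : K.Flag φ y) (h' : K.Flag ψ y') (e : ∀ j, j ≠ 3 → ψ j = φ j) (hne : ψ ≠ φ) :
    lor y (ψ 3) < -1 := by
  refine lt_of_le_of_ne (h.mem _ (h'.sub 3)) fun hc => ?_
  obtain ⟨j, hj⟩ := h.all (h'.sub 3) hc
  by_cases h3 : j = 3
  · refine hne (funext fun i => ?_)
    by_cases hi : i = 3
    · rw [hi, hj, h3]
    · exact e i hi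
  · exact h3 (h'.inj (by rw [e j h3, hj]))

lemma Flag.side (h : K.Flag φ y) (h' : K.Flag ψ y') (e : ∀ j, j ≠ 3 → ψ j = φ j) (hne : ψ ≠ φ) :
    lor (y' - y) (φ 3) < 0 ∧ 0 < lor (y' - y) (ψ 3) := by
  have h1 := h.P1_lt h' e hne
  have h2 := h'.P1_lt h (fun j hj => (e j hj).symm) hne.symm
  rw [lor_sub_left, lor_sub_left, h.act, h'.act]
  constructor <;> linarith

lemma Flag.two {χ : Fin 4 → Mink 3} {z : Mink 3} (h : K.Flag φ y) (h' : K.Flag ψ y')
    (h'' : K.Flag χ z) (e : ∀ j, j ≠ 3 → ψ j = φ j) (e' : ∀ j, j ≠ 3 → χ j = φ j) (hne : ψ ≠ φ) :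
    χ = φ ∨ χ = ψ := by
  by_contra hc
  push Not at hc
  obtain ⟨a1, a2⟩ := h.side h' e hne
  obtain ⟨b1, b2⟩ := h.side h'' e' hc.1
  have e'' : ∀ j, j ≠ 3 → χ j = ψ j := fun j hj => (e' j hj).trans (e j hj).symm
  obtain ⟨c1, c2⟩ := h'.side h'' e'' hc.2
  have key : lor (z - y) (φ 3) • (y' - y) - lor (y' - y) (φ 3) • (z - y) = 0 := by
    refine h.zero fun j => ?_
    rw [lor_sub_left, lor_smul_left, lor_smul_left]
    by_cases hj : j = 3
    · rw [hj]; ring
    · have d1 := h'.act j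
      have d2 := h''.act j
      rw [e j hj] at d1
      rw [e' j hj] at d2
      rw [lor_sub_left y', lor_sub_left z y (φ j), d1, d2, h.act]
      ring
  have k1 := congrArg (fun v => lor v (ψ 3)) key
  have k2 := congrArg (fun v => lor v (χ 3)) key
  simp only [lor_zero_left] at k1 k2
  rw [lor_sub_left, lor_smul_left, lor_smul_left] at k1 k2
  have f1 : lor (z - y) (ψ 3) = lor (z - y') (ψ 3) + lor (y' - y) (ψ 3) := by
    simp only [lor_sub_left]; ring
  have f2 : lor (y' - y) (χ 3) = lor (z - y) (χ 3) - lor (z - y') (χ 3) := by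
    simp only [lor_sub_left]; ring
  rw [f1] at k1
  rw [f2] at k2
  have g1 : lor (y' - y) (φ 3) < lor (z - y) (φ 3) := by nlinarith [mul_pos_of_neg_of_neg a1 c1]
  have g2 : lor (z - y) (φ 3) < lor (y' - y) (φ 3) := by nlinarith [mul_neg_of_neg_of_pos b1 c2]
  linarith

/-- the polyhedron lies in the cone spanned by the edges at a vertex -/
lemma Flag.cone (h : K.Flag φ y) (n : Fin 4 → Mink 3) (hn : ∀ i, n i ∈ K.Q)
    (h1 : ∀ i j, i ≠ j → lor (n i) (φ j) = -1) (h2 : ∀ i, n i ≠ y) (hy : y' ∈ K.Q) :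
    ∃ a : Fin 4 → ℝ, (∀ i, 0 ≤ a i) ∧ (∀ i, lor y' (φ i) = -1 → a i = 0) ∧
      y' = y + ∑ i, a i • (n i - y) := by
  have hc : ∀ i, lor (n i) (φ i) + 1 < 0 := fun i => by
    have h3 := hn i _ (h.sub i)
    refine lt_of_le_of_ne (by linarith) fun h4 => h2 i (sub_eq_zero.1 (h.zero fun j => ?_))
    rw [lor_sub_left, h.act]
    by_cases hij : i = j
    · rw [← hij]; linarith
    · rw [h1 i j hij]; ring
  refine ⟨fun i => (lor y' (φ i) + 1) / (lor (n i) (φ i) + 1), fun i => ?_, fun i hi => ?_, ?_⟩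
  · have h3 := hy _ (h.sub i)
    exact div_nonneg_of_nonpos (by linarith) (hc i).le
  · simp [hi]
  · refine sub_eq_zero.1 (h.zero fun j => ?_)
    rw [lor_sub_left, lor_add_left, lor_sum_left, Finset.sum_eq_single j, lor_smul_left,
      lor_sub_left, h.act]
    · have := (hc j).ne
      field_simp
      ring
    · intro i _ hij
      rw [lor_smul_left, lor_sub_left, h.act, h1 i j hij]
      ring
    · simp

end Cfg

end Pool.Agent.Lib.MP_661727_gt.T3
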