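import Pool.Agent.Lib.MP_661727_gt.T3.P1

/-! The dual polyhedron: finiteness. -/

namespace Pool.Agent.Lib.MP_661727_gt.T3

open Ar

/-- three vectors have a common non-zero orthogonal vector -/
lemma p2_perp (a b c : Mink 3) : ∃ e : Mink 3, e ≠ 0 ∧ lor e a = 0 ∧ lor e b = 0 ∧ lor e c = 0 := by
  let f : Mink 3 →ₗ[ℝ] (Fin 3 → ℝ) :=
    { toFun := fun e j => lor e (![a, b, c] j)
      map_add' := fun x y => funext fun j => lor_add_left _ _ _
      map_smul' := fun s x => funext fun j => by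
        simp only [lor_smul_left, RingHom.id_apply, Pi.smul_apply, smul_eq_mul] }
  have h : LinearMap.ker f ≠ ⊥ := LinearMap.ker_ne_bot_of_finrank_lt (by simp)
  obtain ⟨e, he, h0⟩ := (Submodule.ne_bot_iff _).1 h
  have h1 : f e = 0 := he
  exact ⟨e, h0, congrFun h1 0, congrFun h1 1, congrFun h1 2⟩

/-- the moment curve meets a hyperplane in finitely many points -/
lemma p2_roots {d : Mink 3} (hd : d ≠ 0) :
    {t : ℝ | lor d (1, ![t, t ^ 2, t ^ 3]) = 0}.Finite := by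
  let p : Polynomial ℝ := Polynomial.monomial 0 (- d.1) + Polynomial.monomial 1 (d.2 0) +
    Polynomial.monomial 2 (d.2 1) + Polynomial.monomial 3 (d.2 2)
  have hp : p ≠ 0 := fun h => hd <| by
    have h0 := congrArg (fun q : Polynomial ℝ => q.coeff 0) h
    have h1 := congrArg (fun q : Polynomial ℝ => q.coeff 1) h
    have h2 := congrArg (fun q : Polynomial ℝ => q.coeff 2) h
    have h3 := congrArg (fun q : Polynomial ℝ => q.coeff 3) h
    simp [p, Polynomial.coeff_monomial] at h0 h1 h2 h3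
    refine Prod.ext h0 (funext fun j => ?_)
    fin_cases j
    · exact h1
    · exact h2
    · exact h3
  refine (Polynomial.finite_setOfPred_isRoot hp).subset fun t ht => ?_
  simp only [Set.mem_ofPred_eq, lor, dotProduct, Fin.sum_univ_three] at ht
  simp only [Set.mem_ofPred_eq, Polynomial.IsRoot, p, Polynomial.eval_add, Polynomial.eval_monomial]
  simp at ht
  linarith

/-- the height function of a point near the time axis is proper -/
lemma p2_low {y : Mink 3} (hy : Fut y) {t : ℝ} (h0 : 0 < t) (h1 : t < 1 / 4) :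
    y.1 ≤ 2 * - lor y (1, ![t, t ^ 2, t ^ 3]) := by
  have h2 := dot_cs y.2 ![t, t ^ 2, t ^ 3]
  have h3 : y.2 ⬝ᵥ y.2 ≤ y.1 ^ 2 := by
    have := hy.1
    simp only [lor] at this
    nlinarith
  have h4 : (![t, t ^ 2, t ^ 3] : Fin 3 → ℝ) ⬝ᵥ ![t, t ^ 2, t ^ 3] ≤ 1 / 4 := by
    have a1 : t ^ 2 ≤ t := by nlinarith
    have a2 : t ^ 3 ≤ t := by nlinarith
    have a3 : 0 < t ^ 2 := by positivity
    have a4 : 0 < t ^ 3 := by positivity
    simp only [dotProduct, Fin.sum_univ_three, Matrix.cons_val_zero, Matrix.cons_val_one,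
      Matrix.cons_val]
    nlinarith
  have h5 : (y.2 ⬝ᵥ ![t, t ^ 2, t ^ 3]) ^ 2 ≤ (y.1 / 2) ^ 2 :=
    calc _ ≤ _ := h2
      _ ≤ y.1 ^ 2 * (1 / 4) := mul_le_mul h3 h4 (dot_nonneg _) (sq_nonneg _)
      _ = _ := by ring
  have h6 := (abs_le_of_sq_le_sq' h5 (by linarith [hy.2])).2
  simp only [lor]
  linarith

namespace Cfg

variable {G : Type} [Group G] (K : Cfg G)

lemma p2_fut {y : Mink 3} (hy : y ∈ K.Q) : Fut y := by
  obtain ⟨R, hR⟩ := K.near
  obtain ⟨s, hs, -, x, hx, rfl⟩ := q_time K.light hR hy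
  refine ⟨?_, ?_⟩
  · rw [lor_smul_left, lor_smul_right, hx.1]; nlinarith
  · exact mul_pos hs hx.2

/-- one more active facet -/
lemma p2_step {y : Mink 3} (hy : y ∈ K.Q) (a b c : Mink 3) : ∃ y' ∈ K.Q, ∃ η ∈ K.C,
    lor y' η = -1 ∧ η ≠ a ∧ η ≠ b ∧ η ≠ c ∧
      lor y' a = lor y a ∧ lor y' b = lor y b ∧ lor y' c = lor y c := by
  have key : ∀ e : Mink 3, lor e a = 0 → lor e b = 0 → lor e c = 0 → (∃ η ∈ K.C, 0 < lor e η) →
      ∃ y' ∈ K.Q, ∃ η ∈ K.C, lor y' η = -1 ∧ η ≠ a ∧ η ≠ b ∧ η ≠ c ∧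
        lor y' a = lor y a ∧ lor y' b = lor y b ∧ lor y' c = lor y c := by
    intro e ha hb hc h
    obtain ⟨s, -, hq, η, hη, h1, h2⟩ := exit hy h
    refine ⟨_, hq, η, hη, h1, ?_, ?_, ?_, ?_, ?_, ?_⟩
    · rintro rfl; exact h2.ne' ha
    · rintro rfl; exact h2.ne' hb
    · rintro rfl; exact h2.ne' hc
    · rw [lor_add_left, lor_smul_left, ha]; ring
    · rw [lor_add_left, lor_smul_left, hb]; ring
    · rw [lor_add_left, lor_smul_left, hc]; ring
  obtain ⟨e, h0, ha, hb, hc⟩ := p2_perp a b c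
  by_cases h : ∃ η ∈ K.C, 0 < lor e η
  · exact key e ha hb hc h
  · refine key (-e) (by rw [lor_neg_left, ha, neg_zero]) (by rw [lor_neg_left, hb, neg_zero])
      (by rw [lor_neg_left, hc, neg_zero]) ?_
    by_contra h'
    push Not at h h'
    have f1 := (recess h).resolve_left h0
    have f2 := (recess h').resolve_left (neg_ne_zero.2 h0)
    have := f1.2
    have h3 := f2.2
    simp only [Prod.fst_neg] at h3
    linarith

lemma exists_flag {η : Mink 3} (hη : η ∈ K.C) : ∃ φ y, K.Flag φ y ∧ φ 0 = η := by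
  obtain ⟨y0, q0, a0⟩ := K.all η hη
  obtain ⟨y1, q1, η1, c1, a1, n10, -, -, e10, -, -⟩ := K.p2_step (y := y0) q0 η η η
  obtain ⟨y2, q2, η2, c2, a2, n20, n21, -, e20, e21, -⟩ := K.p2_step q1 η η1 η1
  obtain ⟨y3, q3, η3, c3, a3, n30, n31, n32, e30, e31, e32⟩ := K.p2_step q2 η η1 η2
  refine ⟨![η, η1, η2, η3], y3, ⟨q3, ?_, ?_, ?_⟩, rfl⟩
  · intro i j h
    fin_cases i <;> fin_cases j <;> simp at h ⊢ <;>
      first
        | exact n10 h | exact n10 h.symm | exact n20 h | exact n20 h.symm | exact n21 h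
        | exact n21 h.symm | exact n30 h | exact n30 h.symm | exact n31 h | exact n31 h.symm
        | exact n32 h | exact n32 h.symm
  · intro j
    fin_cases j
    · exact hη
    · exact c1
    · exact c2
    · exact c3
  · intro j
    fin_cases j
    · exact e30.trans (e20.trans (e10.trans a0))
    · exact e31.trans (e21.trans a1)
    · exact e32.trans a2
    · exact a3

lemma flag_fin (R : ℝ) : {φ | ∃ y, K.Flag φ y ∧ y.1 ≤ R}.Finite := by
  refine (Set.Finite.pi' fun _ : Fin 4 => act_fin (K := K) R).subset ?_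
  rintro φ ⟨y, h, hy⟩ j
  exact ⟨h.sub j, y, h.mem, hy, h.act j⟩

lemma flag_orb : ∃ S : Set (Fin 4 → Mink 3), S.Finite ∧ ∀ φ y, K.Flag φ y →
    ∃ g, (fun j => K.ρ g (φ j)) ∈ S := by
  obtain ⟨R, hR⟩ := K.cpt
  refine ⟨_, K.flag_fin R, fun φ y h => ?_⟩
  obtain ⟨g, hg⟩ := hR y h.mem _ (h.sub 0) _ (h.sub 1) (fun e => by simpa using h.inj e)
    (h.act 0) (h.act 1)
  exact ⟨g, _, h.smul g, hg⟩

/-- there are countably many vertices -/
lemma p2_count : {y | ∃ φ, K.Flag φ y}.Countable := by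
  have h1 : ∀ n : ℕ, {y | ∃ φ, K.Flag φ y ∧ y.1 ≤ n}.Finite := fun n => by
    refine ((K.flag_fin n).biUnion (t := fun φ => {y | K.Flag φ y}) fun φ _ =>
      Set.Subsingleton.finite fun y h y' h' => Flag.uniq h h').subset ?_
    rintro y ⟨φ, h, hy⟩
    exact Set.mem_biUnion (x := φ) ⟨y, h, hy⟩ h
  refine (Set.countable_iUnion fun n => (h1 n).countable).mono ?_
  rintro y ⟨φ, h⟩
  obtain ⟨n, hn⟩ := exists_nat_ge y.1
  exact Set.mem_iUnion.2 ⟨n, φ, h, hn⟩

/-- a generic proper height function -/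
lemma exists_ht : ∃ x : Mink 3, (∀ φ y ψ y', K.Flag φ y → K.Flag ψ y' → lor y x = lor y' x → y = y') ∧
    ∀ R : ℝ, {φ | ∃ y, K.Flag φ y ∧ - lor y x ≤ R}.Finite := by
  have hc : (⋃ y ∈ {y | ∃ φ, K.Flag φ y}, ⋃ y' ∈ {y | ∃ φ, K.Flag φ y},
      {t : ℝ | y ≠ y' ∧ lor (y - y') (1, ![t, t ^ 2, t ^ 3]) = 0}).Countable := by
    refine K.p2_count.biUnion fun y _ => K.p2_count.biUnion fun y' _ => ?_
    by_cases h : y = y'
    · simp [h]
    · exact (p2_roots (sub_ne_zero.2 h)).countable.mono fun t ht => ht.2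
  obtain ⟨t, ht, h0, h1⟩ := (hc.dense_compl ℝ).exists_between (show (0 : ℝ) < 1 / 4 by norm_num)
  refine ⟨(1, ![t, t ^ 2, t ^ 3]), fun φ y ψ y' h h' e => ?_, fun R => ?_⟩
  · by_contra hne
    refine ht (Set.mem_biUnion (x := y) ⟨φ, h⟩ (Set.mem_biUnion (x := y') ⟨ψ, h'⟩ ⟨hne, ?_⟩))
    rw [lor_sub_left, e, sub_self]
  · refine (K.flag_fin (2 * R)).subset ?_
    rintro φ ⟨y, h, hy⟩
    have := p2_low (K.p2_fut h.mem) h0 h1
    exact ⟨y, h, by linarith⟩

lemma free2 (g : G) {η η' : Mink 3} (hη : η ∈ K.C) (hη' : η' ∈ K.C) (h : η ≠ η')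
    (h1 : K.ρ g η = η) (h2 : K.ρ g η' = η') : g = 1 := by
  have hn := K.neg η hη η' hη' h
  have l1 := K.light η hη
  have l2 := K.light η' hη'
  have h3 : 0 < -2 * lor η η' := by linarith
  have h4 : 0 < √(-2 * lor η η') := Real.sqrt_pos.2 h3
  have h5 := Real.mul_self_sqrt h3.le
  refine K.free g ((√(-2 * lor η η'))⁻¹ • (η + η')) ⟨?_, ?_⟩ (by rw [map_smul, map_add, h1, h2])
  · simp only [lor_smul_left, lor_smul_right, lor_add_left, lor_add_right, l1.1, l2.1,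
      lor_comm η' η]
    generalize √(-2 * lor η η') = c at h4 h5
    have h6 : c⁻¹ * c = 1 := inv_mul_cancel₀ h4.ne'
    linear_combination (c⁻¹ * c⁻¹) * h5 - (c⁻¹ * c + 1) * h6
  · exact mul_pos (inv_pos.2 h4) (add_pos l1.2 l2.2)

lemma ne : K.C.Nonempty := by
  obtain ⟨R, hR⟩ := K.near
  obtain ⟨η, hη, -⟩ := hR _ oo_mem
  exact ⟨η, hη⟩

end Cfg

end Pool.Agent.Lib.MP_661727_gt.T3
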