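import Pool.Agent.Lib.MP_661727_gt.T3.T1

/-! Connectedness and simple connectedness. -/

namespace Pool.Agent.Lib.MP_661727_gt.T3

open Equiv

lemma pot_mult {Y A : Type} [CommGroup A] (f : Y → Y) (Z : Y → A) (y : Y) (P : ℕ)
    (hP : f^[P] y = y) (h : ∏ n ∈ Finset.range P, Z (f^[n] y) = 1) (j : ℕ) :
    ∏ n ∈ Finset.range (P * j), Z (f^[n] y) = 1 := by
  induction j with
  | zero => simp
  | succ j ih =>
    rw [Nat.mul_succ, add_comm, Finset.prod_range_add, h, one_mul, ← ih]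
    refine Finset.prod_congr rfl fun n _ => ?_
    rw [add_comm, Function.iterate_add_apply, hP]

/-- potential along the cycles of a map with periodic points only -/
lemma cyc_pot {Y A : Type} [CommGroup A] (f : Y → Y) (hf : ∀ y, y ∈ Function.periodicPts f)
    (Z : Y → A) (p : Y → Prop) (hp : ∀ y, p (f y) ↔ p y)
    (h : ∀ y, p y → ∏ n ∈ Finset.range (Function.minimalPeriod f y), Z (f^[n] y) = 1) :
    ∃ w : Y → A, ∀ y, p y → w (f y) = w y * Z y := by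
  classical
  let S : Setoid Y :=
    { r := fun x y => ∃ n, f^[n] x = y
      iseqv :=
        { refl := fun x => ⟨0, rfl⟩
          symm := by
            rintro x y ⟨n, rfl⟩
            obtain ⟨P, hP, hx⟩ := hf x
            refine ⟨(P - 1) * n, ?_⟩
            rw [← Function.iterate_add_apply]
            have e : (P - 1) * n + n = P * n := by
              obtain ⟨P', rfl⟩ : ∃ P', P = P' + 1 := ⟨P - 1, by omega⟩
              simp [add_mul]
            rw [e]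
            exact (hx.mul_const n).eq
          trans := by
            rintro x y z ⟨n, rfl⟩ ⟨m, rfl⟩
            exact ⟨m + n, Function.iterate_add_apply f m n x⟩ } }
  have hpn : ∀ n y, p (f^[n] y) ↔ p y := by
    intro n
    induction n with
    | zero => intro y; rfl
    | succ n ih => intro y; rw [Function.iterate_succ_apply', hp, ih]
  have key0 : ∀ r n k, p r → f^[n + k] r = f^[n] r →
      ∏ i ∈ Finset.range (n + k), Z (f^[i] r) = ∏ i ∈ Finset.range n, Z (f^[i] r) := by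
    intro r n k hr e
    have e1 : Function.IsPeriodicPt f k (f^[n] r) := by
      show f^[k] (f^[n] r) = f^[n] r
      rw [← Function.iterate_add_apply, add_comm, e]
    obtain ⟨j, hj⟩ := e1.minimalPeriod_dvd
    have e2 := pot_mult f Z (f^[n] r) _ (Function.isPeriodicPt_minimalPeriod f _).eq
      (h _ ((hpn n r).2 hr)) j
    rw [← hj] at e2
    rw [Finset.prod_range_add]
    have e3 : ∏ i ∈ Finset.range k, Z (f^[n + i] r) = 1 := by
      rw [← e2]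
      refine Finset.prod_congr rfl fun i _ => ?_
      rw [add_comm, Function.iterate_add_apply]
    rw [e3, mul_one]
  have key : ∀ r n m, p r → f^[m] r = f^[n] r →
      ∏ i ∈ Finset.range m, Z (f^[i] r) = ∏ i ∈ Finset.range n, Z (f^[i] r) := by
    intro r n m hr e
    rcases le_total n m with hle | hle
    · obtain ⟨k, rfl⟩ := Nat.exists_eq_add_of_le hle
      exact key0 r n k hr e
    · obtain ⟨k, rfl⟩ := Nat.exists_eq_add_of_le hle
      exact (key0 r m k hr e.symm).symm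
  have hr : ∀ y : Y, ∃ n, f^[n] (Quotient.mk S y).out = y := fun y => Quotient.mk_out (s := S) y
  choose N hN using hr
  refine ⟨fun y => ∏ i ∈ Finset.range (N y), Z (f^[i] (Quotient.mk S y).out), fun y hy => ?_⟩
  have e : Quotient.mk S (f y) = Quotient.mk S y :=
    (Quotient.sound (s := S) (show ∃ n, f^[n] y = f y from ⟨1, rfl⟩)).symm
  have hpr : p (Quotient.mk S y).out := by
    rw [← hpn (N y), hN y]; exact hy
  have e1 := hN (f y)
  show ∏ i ∈ Finset.range (N (f y)), Z (f^[i] (Quotient.mk S (f y)).out) = _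
  rw [e] at e1 ⊢
  rw [key _ (N y + 1) (N (f y)) hpr (by rw [e1, Function.iterate_succ_apply', hN y]),
    Finset.prod_range_succ, hN y]

namespace Tri

variable {G X : Type} [Group G] [MulAction G X] (T : Tri G X)

lemma pot_wf : WellFounded (fun a b : T.F => T.ht a < T.ht b) := by
  have hfin : ∀ b : T.F, {ψ | T.ht ψ < T.ht b}.Finite := fun b =>
    (T.ht_fin (T.ht b)).subset fun ψ (h : T.ht ψ < T.ht b) => (le_of_lt h : T.ht ψ ≤ T.ht b)
  refine Subrelation.wf (r := InvImage (· < ·) fun b : T.F => {ψ | T.ht ψ < T.ht b}.ncard) ?_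
    (InvImage.wf _ wellFounded_lt)
  intro a b hab
  refine Set.ncard_lt_ncard ⟨fun ψ (h : T.ht ψ < T.ht a) => (h.trans hab : T.ht ψ < T.ht b), ?_⟩
    (hfin b)
  intro h
  have h' : T.ht a < T.ht a := h (show a ∈ {ψ | T.ht ψ < T.ht b} from hab)
  exact lt_irrefl _ h'

lemma pot_back (φ : T.F) (s : Perm (Fin 4)) : T.pm (T.pm φ s) s⁻¹ = φ := by
  rw [T.pm_pm, mul_inv_cancel, T.pm_one]

lemma pot_lt {φ : T.F} {s : Perm (Fin 4)} (h : ¬ T.ht φ < T.ht (T.flip (T.pm φ s))) :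
    T.ht (T.flip (T.pm φ s)) < T.ht φ := by
  refine lt_of_le_of_ne (not_lt.1 h) ?_
  rw [← T.ht_pm φ s]
  exact T.ht_ne _

theorem conn0 (φ : T.F) (P : T.F → Prop) (h : P φ) (h0 : ∀ ψ, P ψ → P (T.pm ψ s0))
    (h1 : ∀ ψ, P ψ → P (T.pm ψ s1)) (h2 : ∀ ψ, P ψ → P (T.pm ψ s2))
    (h3 : ∀ ψ, P ψ → P (T.flip ψ)) (ψ : T.F) : P ψ := by
  have hpm : ∀ a s, P (T.pm a s) ↔ P a := fun a s =>
    ⟨fun e => T.pot_back a s ▸ T.pm_ind _ P e h0 h1 h2 s⁻¹, fun e => T.pm_ind _ P e h0 h1 h2 s⟩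
  have hfl : ∀ a, P (T.flip a) ↔ P a := fun a =>
    ⟨fun e => T.flip_flip a ▸ h3 _ e, h3 a⟩
  have key : ∀ a, ∃ μ, (∀ s, T.ht μ < T.ht (T.flip (T.pm μ s))) ∧ (P μ ↔ P a) := by
    intro a
    induction a using T.pot_wf.induction with
    | _ a ih =>
      by_cases hm : ∀ s, T.ht a < T.ht (T.flip (T.pm a s))
      · exact ⟨a, hm, Iff.rfl⟩
      · obtain ⟨s, hs⟩ := not_forall.1 hm
        obtain ⟨μ, hμ, e⟩ := ih _ (T.pot_lt hs)
        exact ⟨μ, hμ, e.trans ((hfl _).trans (hpm _ _))⟩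
  obtain ⟨μ, hμ, e⟩ := key φ
  obtain ⟨ν, hν, e'⟩ := key ψ
  obtain ⟨s, rfl⟩ := T.min0 μ ν hμ hν
  exact e'.1 ((hpm _ _).2 (e.2 h))

theorem conn1 (φ : T.F) (P : T.F → Prop) (h : P φ) (h1 : ∀ ψ, P ψ → P (T.pm ψ s1))
    (h2 : ∀ ψ, P ψ → P (T.pm ψ s2)) (h3 : ∀ ψ, P ψ → P (T.flip ψ)) (ψ : T.F)
    (e : T.v ψ 0 = T.v φ 0) : P ψ := by
  have hpm : ∀ a (s : Perm (Fin 4)), s 0 = 0 → (P (T.pm a s) ↔ P a) := fun a s hs =>
    ⟨fun e => T.pot_back a s ▸ T.pm_ind1 _ P e h1 h2 s⁻¹ (Perm.inv_eq_iff_eq.2 hs.symm),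
      fun e => T.pm_ind1 _ P e h1 h2 s hs⟩
  have hfl : ∀ a, P (T.flip a) ↔ P a := fun a =>
    ⟨fun e => T.flip_flip a ▸ h3 _ e, h3 a⟩
  have key : ∀ a, ∃ μ, (∀ s : Perm (Fin 4), s 0 = 0 → T.ht μ < T.ht (T.flip (T.pm μ s))) ∧
      T.v μ 0 = T.v a 0 ∧ (P μ ↔ P a) := by
    intro a
    induction a using T.pot_wf.induction with
    | _ a ih =>
      by_cases hm : ∀ s : Perm (Fin 4), s 0 = 0 → T.ht a < T.ht (T.flip (T.pm a s))
      · exact ⟨a, hm, rfl, Iff.rfl⟩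
      · obtain ⟨s, hs⟩ := not_forall.1 hm
        obtain ⟨hs0, hs⟩ := Classical.not_imp.1 hs
        obtain ⟨μ, hμ, ev, e⟩ := ih _ (T.pot_lt hs)
        refine ⟨μ, hμ, ?_, e.trans ((hfl _).trans (hpm _ _ hs0))⟩
        rw [ev, T.v_flip _ 0 (by decide), T.v_pm, hs0]
  obtain ⟨μ, hμ, ev, e1⟩ := key φ
  obtain ⟨ν, hν, ev', e'⟩ := key ψ
  have e2 : T.v μ 0 = T.v ν 0 := by rw [ev, ev', e]
  obtain ⟨s, rfl⟩ := T.min1 μ ν e2 hμ hν
  have hs : s 0 = 0 := by
    by_contra hs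
    rw [T.v_pm] at e2
    exact T.v_ne μ hs e2.symm
  exact e'.1 ((hpm _ _ hs).2 (e1.2 h))

lemma pot_low (φ : T.F) (a1 : T.ht (T.flip φ) < T.ht φ)
    (a2 : T.ht (T.flip (T.pm φ s2)) < T.ht φ) (n : ℕ) (h0 : 0 < n)
    (hn : n < Function.minimalPeriod T.rot φ) : T.ht (T.rot^[n] φ) < T.ht φ := by
  obtain ⟨e0, e1⟩ := T.v_rot φ n
  rcases T.max2 φ a1 a2 _ e0 e1 with h | ⟨s, hs⟩
  · exact h
  exfalso
  rw [hs, T.v_pm] at e0 e1
  have b0 : s 0 = 0 := by
    by_contra hc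
    exact T.v_ne φ hc e0
  have b1 : s 1 = 1 := by
    by_contra hc
    exact T.v_ne φ hc e1
  have hc : ∀ t : Perm (Fin 4), t 0 = 0 → t 1 = 1 → t = 1 ∨ t = s2 := by decide
  rcases hc s b0 b1 with rfl | rfl
  · rw [T.pm_one] at hs
    exact absurd (Function.IsPeriodicPt.minimalPeriod_le h0 hs) (not_le.2 hn)
  · have him : ∀ m, 0 < (T.Z0 (T.rot^[m] φ)).im ↔ 0 < (T.Z0 φ).im := by
      intro m
      induction m with
      | zero => rfl
      | succ m ih => rw [Function.iterate_succ_apply', T.im_rot, ih]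
    have h1 := him n
    rw [hs, T.im_pm] at h1
    have h2 : ¬ Perm.sign s2 = 1 := by decide
    tauto

lemma pot_edge {Q : Type} [Group Q] (k : T.F → Q) (hk : ∀ ψ, k (T.pm ψ s2) = k ψ) (φ : T.F)
    (a1 : T.ht (T.flip φ) < T.ht φ) (a2 : T.ht (T.flip (T.pm φ s2)) < T.ht φ)
    (b : k (T.flip (T.pm φ s2)) = k (T.pm φ s2))
    (ih : ∀ ψ, T.ht ψ < T.ht φ → T.ht (T.flip ψ) < T.ht φ → k (T.flip ψ) = k ψ) :
    k (T.flip φ) = k φ := by
  have hP := Function.minimalPeriod_pos_of_mem_periodicPts (T.rot_per φ)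
  have key : ∀ n, n < Function.minimalPeriod T.rot φ → k (T.rot^[n] φ) = k φ := by
    intro n
    induction n with
    | zero => intro _; rfl
    | succ n ihn =>
      intro hn
      rw [← ihn (by omega), ← hk (T.rot^[n] φ)]
      rcases Nat.eq_zero_or_pos n with rfl | h0
      · exact b
      · have l1 := T.pot_low φ a1 a2 (n + 1) (by omega) hn
        rw [Function.iterate_succ_apply'] at l1 ⊢
        refine ih _ ?_ l1
        rw [T.ht_pm]
        exact T.pot_low φ a1 a2 n h0 (by omega)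
  obtain ⟨m, hm⟩ : ∃ m, Function.minimalPeriod T.rot φ = m + 1 := ⟨_, (Nat.succ_pred_eq_of_pos hP).symm⟩
  have e : T.rot (T.rot^[m] φ) = φ := by
    rw [← Function.iterate_succ_apply' T.rot m φ]
    have := (Function.isPeriodicPt_minimalPeriod T.rot φ).eq
    rwa [hm] at this
  have e1 : T.flip φ = T.pm (T.rot^[m] φ) s2 := by
    rw [← T.flip_flip (T.pm (T.rot^[m] φ) s2)]
    exact congrArg T.flip e.symm
  rw [e1, hk, key m (by omega)]

lemma pot_E {Q : Type} [Group Q] (g : T.F → Q) : ∃ E : T.F → Q, (∀ φ s, E (T.pm φ s) = E φ) ∧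
    ∀ φ, T.ht (T.flip φ) < T.ht φ → ∃ s, T.ht (T.flip (T.pm φ s)) < T.ht φ ∧
      E (T.flip (T.pm φ s)) * g (T.flip (T.pm φ s)) = E (T.pm φ s) * g (T.pm φ s) := by
  classical
  have := T.ne
  let tet : T.F → Set T.F := fun φ => {ψ | (∃ s, ψ = T.pm φ s) ∧ T.ht (T.flip ψ) < T.ht ψ}
  let c : Set T.F → T.F := fun S => Classical.epsilon fun ψ => ψ ∈ S
  have htet : ∀ φ s, tet (T.pm φ s) = tet φ := by
    intro φ s
    ext ψ
    constructor
    · rintro ⟨⟨t, rfl⟩, h⟩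
      exact ⟨⟨s * t, T.pm_pm _ _ _⟩, h⟩
    · rintro ⟨⟨t, rfl⟩, h⟩
      exact ⟨⟨s⁻¹ * t, by rw [T.pm_pm, mul_inv_cancel_left]⟩, h⟩
  let st : ∀ φ : T.F, (∀ ψ, T.ht ψ < T.ht φ → Q) → Q := fun φ r =>
    if h : T.ht (T.flip (c (tet φ))) < T.ht φ then
      r _ h * g (T.flip (c (tet φ))) * (g (c (tet φ)))⁻¹ else 1
  let E : T.F → Q := T.pot_wf.fix st
  have hE : ∀ φ, E φ = if T.ht (T.flip (c (tet φ))) < T.ht φ then
      E (T.flip (c (tet φ))) * g (T.flip (c (tet φ))) * (g (c (tet φ)))⁻¹ else 1 := by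
    intro φ
    show T.pot_wf.fix st φ = _
    rw [WellFounded.fix_eq]
    rfl
  have hpm : ∀ φ s, E (T.pm φ s) = E φ := by
    intro φ s
    rw [hE (T.pm φ s), hE φ, htet, T.ht_pm]
  refine ⟨E, hpm, fun φ hφ => ?_⟩
  have hc : c (tet φ) ∈ tet φ :=
    Classical.epsilon_spec (p := fun ψ => ψ ∈ tet φ) ⟨φ, ⟨1, (T.pm_one φ).symm⟩, hφ⟩
  obtain ⟨⟨s, hs⟩, hlt⟩ := hc
  have hlt' : T.ht (T.flip (c (tet φ))) < T.ht φ := by
    rw [← T.ht_pm φ s, ← hs]; exact hlt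
  refine ⟨s, hs ▸ hlt', ?_⟩
  rw [hpm, hE φ, if_pos hlt', ← hs, inv_mul_cancel_right]

theorem pot {Q : Type} [Group Q] (g u : T.F → Q)
    (h1 : ∀ φ s, s 3 = 3 →
      (g φ)⁻¹ * g (T.pm φ s) = (g (T.flip φ))⁻¹ * g (T.pm (T.flip φ) s))
    (h2 : ∀ φ, u (T.flip φ) = u φ) (h3 : ∀ φ, u (T.pm φ s2) = u φ * ((g φ)⁻¹ * g (T.pm φ s2))) :
    ∃ D : T.F → Q, (∀ φ, D (T.flip φ) = D φ) ∧
      ∀ φ s, D (T.pm φ s) = D φ * ((g φ)⁻¹ * g (T.pm φ s)) := by
  obtain ⟨E, hE, hd⟩ := T.pot_E g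
  obtain ⟨D, hD⟩ : ∃ D : T.F → Q, ∀ φ, D φ = E φ * g φ := ⟨_, fun _ => rfl⟩
  have hpm : ∀ φ s, D (T.pm φ s) = D φ * ((g φ)⁻¹ * g (T.pm φ s)) := by
    intro φ s
    rw [hD, hD, hE, mul_assoc, mul_inv_cancel_left]
  have face : ∀ ψ (t : Perm (Fin 4)), t 3 = 3 → D (T.flip ψ) = D ψ →
      D (T.flip (T.pm ψ t)) = D (T.pm ψ t) := by
    intro ψ t ht e
    rw [T.flip_pm ψ ht, hpm, hpm, e, h1 ψ t ht]
  have both : ∀ ψ, (T.ht (T.flip ψ) < T.ht ψ → D (T.flip ψ) = D ψ) →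
      (T.ht (T.flip (T.flip ψ)) < T.ht (T.flip ψ) → D (T.flip (T.flip ψ)) = D (T.flip ψ)) →
      D (T.flip ψ) = D ψ := by
    intro ψ a b
    rw [T.flip_flip] at b
    rcases lt_or_gt_of_ne (T.ht_ne ψ) with h | h
    · exact a h
    · exact (b h).symm
  have key : ∀ φ, T.ht (T.flip φ) < T.ht φ → D (T.flip φ) = D φ := by
    intro φ
    induction φ using T.pot_wf.induction with
    | _ φ ih =>
      intro hφ
      obtain ⟨s, hs, e⟩ := hd φ hφ
      rw [← hD, ← hD] at e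
      by_cases h33 : s 3 = 3
      · have := face _ s⁻¹ (Perm.inv_eq_iff_eq.2 h33.symm) e
        rwa [T.pot_back] at this
      have ht : ∀ j : Fin 4, j ≠ 3 → ∃ t : Perm (Fin 4), t 3 = 3 ∧ t 2 = j := by decide
      obtain ⟨t, t3, t2⟩ := ht _ h33
      have r3 : (s⁻¹ * (t * s2)) 3 = 3 := by
        have : s2 3 = 2 := by decide
        rw [Perm.mul_apply, Perm.mul_apply, this, t2]
        exact Perm.inv_eq_iff_eq.2 rfl
      have e2 : T.pm (T.pm φ t) s2 = T.pm (T.pm φ s) (s⁻¹ * (t * s2)) := by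
        rw [T.pm_pm, T.pm_pm, mul_inv_cancel_left]
      have a1 : T.ht (T.flip (T.pm φ t)) < T.ht (T.pm φ t) := by
        rw [T.flip_pm φ t3, T.ht_pm, T.ht_pm]; exact hφ
      have a2 : T.ht (T.flip (T.pm (T.pm φ t) s2)) < T.ht (T.pm φ t) := by
        rw [e2, T.flip_pm _ r3, T.ht_pm, T.ht_pm]; exact hs
      have b : D (T.flip (T.pm (T.pm φ t) s2)) = D (T.pm (T.pm φ t) s2) := by
        rw [e2]; exact face _ _ r3 e
      have main := T.pot_edge (fun ψ => D ψ * (u ψ)⁻¹) (fun ψ => by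
          show D (T.pm ψ s2) * (u (T.pm ψ s2))⁻¹ = D ψ * (u ψ)⁻¹
          rw [hpm, h3]; group) (T.pm φ t) a1 a2
        (by
          show D (T.flip _) * (u (T.flip _))⁻¹ = D _ * (u _)⁻¹
          rw [b, h2])
        (fun ψ l1 l2 => by
          show D (T.flip _) * (u (T.flip _))⁻¹ = D _ * (u _)⁻¹
          rw [T.ht_pm] at l1 l2
          rw [both ψ (ih _ l1) (ih _ l2), h2])
      have main' : D (T.flip (T.pm φ t)) = D (T.pm φ t) := by
        have m2 : D (T.flip (T.pm φ t)) * (u (T.flip (T.pm φ t)))⁻¹ =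
          D (T.pm φ t) * (u (T.pm φ t))⁻¹ := main
        rw [h2] at m2
        exact mul_right_cancel m2
      have := face _ t⁻¹ (Perm.inv_eq_iff_eq.2 t3.symm) main'
      rwa [T.pot_back] at this
  exact ⟨D, fun φ => both φ (key _) (key _), hpm⟩

end Tri

end Pool.Agent.Lib.MP_661727_gt.T3
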