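import Pool.Agent.Lib.MP_661727_gt.T3.Shp

/-! The rank of the gluing equations. -/

namespace Pool.Agent.Lib.MP_661727_gt.T3

open Equiv Finset

section Abs

variable {Φ : Type} [Fintype Φ] [DecidableEq Φ]

/-- sum over a cycle -/
noncomputable def rkCs {M : Type} [AddCommMonoid M] (r : Perm Φ) (h : Φ → M) (a : Φ) : M :=
  ∑ b ∈ univ.filter (fun b => r.SameCycle a b), h b

lemma rkCs_eq {M : Type} [AddCommMonoid M] (r : Perm Φ) (h : Φ → M) (a : Φ) :
    rkCs r h a = ∑ n ∈ range (Function.minimalPeriod r a), h (r^[n] a) := by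
  have hp : 0 < Function.minimalPeriod r a :=
    Function.minimalPeriod_pos_of_mem_periodicPts (r.injective.mem_periodicPts a)
  symm
  refine Finset.sum_bij (fun n _ => r^[n] a) ?_ ?_ ?_ (fun _ _ => rfl)
  · intro n _
    simp only [mem_filter, mem_univ, true_and]
    exact ⟨n, by simp [zpow_natCast, Perm.coe_pow]⟩
  · intro n hn m hm e
    exact Function.iterate_injOn_Iio_minimalPeriod (mem_range.1 hn) (mem_range.1 hm) e
  · intro b hb
    simp only [mem_filter, mem_univ, true_and] at hb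
    obtain ⟨i, -, hi⟩ := hb.exists_pow_eq'
    refine ⟨i % Function.minimalPeriod r a, mem_range.2 (Nat.mod_lt _ hp), ?_⟩
    rw [Function.iterate_mod_minimalPeriod_eq, ← hi, Perm.coe_pow]

variable {r τ : Perm Φ}

omit [Fintype Φ] [DecidableEq Φ] in
lemma rk_sc (hτ : τ * r * τ⁻¹ = r⁻¹) {a b : Φ} (h : r.SameCycle a b) :
    r.SameCycle (τ a) (τ b) := by
  have := h.conj (g := τ)
  rwa [hτ, Perm.sameCycle_inv] at this

/-- unoriented cycles -/
def rkSet (hτ : τ * r * τ⁻¹ = r⁻¹) (hh : ∀ a, τ (τ a) = a) : Setoid Φ where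
  r a b := r.SameCycle a b ∨ r.SameCycle (τ a) b
  iseqv := by
    refine ⟨fun a => Or.inl (Perm.SameCycle.refl _ _), ?_, ?_⟩
    · rintro a b (h | h)
      · exact Or.inl h.symm
      · have := rk_sc hτ h
        rw [hh] at this
        exact Or.inr this.symm
    · rintro a b d (h | h) (h' | h')
      · exact Or.inl (h.trans h')
      · exact Or.inr ((rk_sc hτ h).trans h')
      · exact Or.inr (h.trans h')
      · have := rk_sc hτ h
        rw [hh] at this
        exact Or.inl (this.trans h')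

omit [Fintype Φ] [DecidableEq Φ] in
lemma rk_inv [Finite Φ] {κ : Type} {l : Φ → κ} (hl : ∀ a, l (r a) = l a) {a b : Φ}
    (h : r.SameCycle a b) : l b = l a := by
  obtain ⟨i, -, rfl⟩ := h.exists_pow_eq'
  induction i with
  | zero => rfl
  | succ i ih => rw [pow_succ', Perm.mul_apply, hl]; exact ih ⟨i, by simp⟩

open Classical in
lemma rk_fib {κ M : Type} [AddCommMonoid M] (hτ : τ * r * τ⁻¹ = r⁻¹) (hh : ∀ a, τ (τ a) = a)
    {l : Φ → κ} (hl : ∀ a, l (r a) = l a) (hne : ∀ a, l (τ a) ≠ l a) (h : Φ → M)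
    (hi : ∀ a, h (τ a) = h a) (a : Φ) :
    ∑ b ∈ univ.filter (fun b => Quotient.mk (rkSet hτ hh) b = Quotient.mk _ a), h b =
      rkCs r h a + rkCs r h a := by
  have e1 : univ.filter (fun b => Quotient.mk (rkSet hτ hh) b = Quotient.mk _ a) =
      univ.filter (fun b => r.SameCycle a b) ∪ univ.filter (fun b => r.SameCycle (τ a) b) := by
    ext b
    simp only [mem_filter, mem_univ, true_and, mem_union]
    rw [eq_comm, Quotient.eq]
    rfl
  have e2 : Disjoint (univ.filter (fun b => r.SameCycle a b))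
      (univ.filter (fun b => r.SameCycle (τ a) b)) := by
    rw [Finset.disjoint_filter]
    intro b _ h1 h2
    exact hne a ((rk_inv hl h2).symm.trans (rk_inv hl h1))
  rw [e1, sum_union e2]
  congr 1
  symm
  refine Finset.sum_equiv τ ?_ (fun b _ => (hi b).symm)
  intro b
  simp only [mem_filter, mem_univ, true_and]
  refine ⟨rk_sc hτ, fun h => ?_⟩
  simpa only [hh] using rk_sc hτ h

theorem rk_abs {κ V : Type} [Fintype κ] [AddCommGroup V] [Module ℚ V] (c : Perm Φ)
    (hτ : τ * r * τ⁻¹ = r⁻¹) (hh : ∀ a, τ (τ a) = a) (l : Φ → κ) (hl : ∀ a, l (r a) = l a)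
    (hne : ∀ a, l (τ a) ≠ l a) (hc : ∀ a, l (c a) = l a) (e : Φ → V) (he : ∀ a, e (τ a) = e a)
    (hec : ∀ a, e a + e (c a) + e (c (c a)) = 0) (θ : Φ → ℝ) (hθ : ∀ a, θ (τ a) = θ a)
    (hθc : ∀ a, θ a + θ (c a) + θ (c (c a)) = Real.pi) (hcy : ∀ a, 2 * Real.pi ≤ rkCs r θ a)
    (n : ℕ) (hn : Fintype.card Φ = 12 * n)
    (inj : ∀ α : κ → ℚ, (∀ a, α (l a) + α (l (τ a)) = 0) → α = 0) :
    Module.finrank ℚ (Submodule.span ℚ (Set.range (rkCs r e))) + Fintype.card κ ≤ n := by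
  classical
  let S := rkSet hτ hh
  let q : Φ → Quotient S := Quotient.mk S
  have h3 : ∀ {M : Type} [AddCommMonoid M] (h : Φ → M),
      ∑ a, (h a + h (c a) + h (c (c a))) = ∑ a, h a + ∑ a, h a + ∑ a, h a := by
    intro M _ h
    rw [sum_add_distrib, sum_add_distrib, Equiv.sum_comp c h, Equiv.sum_comp c (fun a => h (c a)),
      Equiv.sum_comp c h]
  have hQ : Fintype.card (Quotient S) ≤ n := by
    have e1 := h3 θ
    simp only [hθc, sum_const, card_univ, hn, nsmul_eq_mul] at e1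
    have e2 : ∑ z : Quotient S, (4 * Real.pi) ≤ ∑ a, θ a := by
      rw [← Finset.sum_fiberwise univ q θ]
      refine sum_le_sum fun z _ => ?_
      obtain ⟨a, rfl⟩ := Quotient.exists_rep z
      have := rk_fib hτ hh hl hne θ hθ a
      have h2 := hcy a
      refine le_trans (show _ ≤ rkCs r θ a + rkCs r θ a by linarith) (le_of_eq ?_)
      convert this.symm
    simp only [sum_const, card_univ, nsmul_eq_mul] at e2
    push_cast at e1
    have : (Fintype.card (Quotient S) : ℝ) * (4 * Real.pi) ≤ n * (4 * Real.pi) := by linarith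
    exact_mod_cast le_of_mul_le_mul_right this (by positivity)
  let L : (Quotient S → ℚ) →ₗ[ℚ] V :=
    { toFun := fun f => ∑ a, f (q a) • e a
      map_add' := fun f g => by simp [add_smul, sum_add_distrib]
      map_smul' := fun t f => by simp [smul_sum, mul_smul] }
  have hlτ : ∀ a, l (τ (r a)) = l (τ a) := fun a =>
    rk_inv hl (rk_sc hτ (⟨1, by simp⟩ : r.SameCycle a (r a)))
  let N : (κ → ℚ) →ₗ[ℚ] (Quotient S → ℚ) :=
    { toFun := fun α => Quotient.lift (fun a => α (l a) + α (l (τ a))) (by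
        rintro a b (h | h)
        · rw [rk_inv hl h, rk_inv hl (rk_sc hτ h)]
        · have := rk_sc hτ h
          rw [hh] at this
          rw [rk_inv hl h, rk_inv hl this, add_comm])
      map_add' := fun α β => by
        funext z
        obtain ⟨a, rfl⟩ := Quotient.exists_rep z
        simp only [Quotient.lift_mk, Pi.add_apply]
        ring
      map_smul' := fun t α => by
        funext z
        obtain ⟨a, rfl⟩ := Quotient.exists_rep z
        simp only [Quotient.lift_mk, Pi.smul_apply, smul_eq_mul, RingHom.id_apply]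
        ring }
  have hN : Function.Injective N := by
    rw [injective_iff_map_eq_zero]
    intro α hα
    exact inj α fun a => congrFun hα (q a)
  have hLN : LinearMap.range N ≤ LinearMap.ker L := by
    rintro _ ⟨α, rfl⟩
    have e0 : ∑ a, α (l a) • e a = 0 := by
      have e1 := h3 fun a => α (l a) • e a
      simp only [hc, ← smul_add, hec, smul_zero, sum_const_zero] at e1
      have : (3 : ℚ) • ∑ a, α (l a) • e a = 0 := by
        rw [e1, show (3 : ℚ) = 1 + 1 + 1 by norm_num, add_smul, add_smul, one_smul]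
      exact (smul_eq_zero.1 this).resolve_left (by norm_num)
    have e2 : ∑ a, α (l (τ a)) • e a = 0 := by
      rw [← e0, ← Equiv.sum_comp τ fun a => α (l a) • e a]
      simp only [he]
    show ∑ a, (α (l a) + α (l (τ a))) • e a = 0
    simp only [add_smul, sum_add_distrib, e0, e2, add_zero]
  have hS : Submodule.span ℚ (Set.range (rkCs r e)) ≤ LinearMap.range L := by
    rw [Submodule.span_le]
    rintro _ ⟨a, rfl⟩
    refine ⟨Pi.single (q a) (1 / 2), ?_⟩
    have := rk_fib hτ hh hl hne e he a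
    show ∑ b, (Pi.single (q a) (1 / 2) : Quotient S → ℚ) (q b) • e b = _
    have e1 : ∑ b, (Pi.single (q a) (1 / 2) : Quotient S → ℚ) (q b) • e b =
        (1 / 2 : ℚ) • ∑ b ∈ univ.filter (fun b => q b = q a), e b := by
      rw [smul_sum, sum_filter]
      refine sum_congr rfl fun b _ => ?_
      rw [Pi.single_apply]
      split_ifs <;> simp
    have e2 : ∑ b ∈ univ.filter (fun b => q b = q a), e b = rkCs r e a + rkCs r e a := by
      convert this
    rw [e1, e2, ← two_smul ℚ, smul_smul]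
    norm_num
  have f1 := LinearMap.finrank_range_add_finrank_ker L
  have f2 := Submodule.finrank_mono hLN
  have f3 := Submodule.finrank_mono hS
  rw [LinearMap.finrank_range_of_inj hN] at f2
  simp only [Module.finrank_fintype_fun_eq_card] at f1 f2
  omega

end Abs

lemma rk_arg_prod (z : ℕ → ℂ) (hz : ∀ i, z i ≠ 0) (n : ℕ) :
    ((∏ i ∈ range n, z i).arg : Real.Angle) = ((∑ i ∈ range n, (z i).arg : ℝ) : Real.Angle) := by
  induction n with
  | zero => simp
  | succ n ih =>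
    rw [prod_range_succ, sum_range_succ, Complex.arg_mul_coe_angle
      (prod_ne_zero_iff.2 fun i _ => hz i) (hz n), ih, Real.Angle.coe_add]

lemma rk_arg_pos {z : ℂ} (h : 0 < z.im) : 0 < z.arg ∧ z.arg < Real.pi := by
  refine ⟨lt_of_le_of_ne (Complex.arg_nonneg_iff.2 h.le) fun e => ?_,
    Complex.arg_lt_pi_iff.2 (Or.inr h.ne')⟩
  exact h.ne' (Complex.arg_eq_zero_iff.1 e.symm).2

lemma rk_arg_cyc (z : ℕ → ℂ) (hz : ∀ i, 0 < (z i).im) {n : ℕ} (hn : 0 < n)
    (h : ∏ i ∈ range n, z i = 1) : 2 * Real.pi ≤ ∑ i ∈ range n, (z i).arg := by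
  have e := rk_arg_prod z (fun i e => by simpa [e] using hz i) n
  rw [h, Complex.arg_one, eq_comm, Real.Angle.angle_eq_iff_two_pi_dvd_sub] at e
  obtain ⟨k, hk⟩ := e
  have hp : 0 < ∑ i ∈ range n, (z i).arg :=
    sum_pos (fun i _ => (rk_arg_pos (hz i)).1) ⟨0, mem_range.2 hn⟩
  rw [sub_zero] at hk
  rw [hk] at hp ⊢
  have hk0 : (0 : ℝ) < k := pos_of_mul_pos_left (by simpa [mul_comm] using hp) (by positivity : (0 : ℝ) ≤ 2 * Real.pi)
  have hk1 : (1 : ℝ) ≤ k := by exact_mod_cast (show (0 : ℤ) < k by exact_mod_cast hk0)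
  nlinarith [Real.pi_pos]

lemma rk_arg_tri {x y z : ℂ} (hx : 0 < x.im) (hy : 0 < y.im) (hz : 0 < z.im)
    (h : x * y * z = -1) : x.arg + y.arg + z.arg = Real.pi := by
  have n : ∀ {w : ℂ}, 0 < w.im → w ≠ 0 := fun hw e => by simp [e] at hw
  have e := Complex.arg_mul_coe_angle (mul_ne_zero (n hx) (n hy)) (n hz)
  rw [h, Complex.arg_neg_one, Complex.arg_mul_coe_angle (n hx) (n hy), ← Real.Angle.coe_add,
    ← Real.Angle.coe_add, eq_comm, Real.Angle.angle_eq_iff_two_pi_dvd_sub] at e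
  obtain ⟨k, hk⟩ := e
  obtain ⟨a1, a2⟩ := rk_arg_pos hx
  obtain ⟨b1, b2⟩ := rk_arg_pos hy
  obtain ⟨c1, c2⟩ := rk_arg_pos hz
  have hp := Real.pi_pos
  have k1 : (k : ℝ) < 1 := by nlinarith
  have k2 : (-1 : ℝ) < k := by nlinarith
  have : k = 0 := by
    have : k < 1 := by exact_mod_cast k1
    have : -1 < k := by exact_mod_cast k2
    omega
  subst this
  simp only [Int.cast_zero, mul_zero] at hk
  linarith

namespace Tri.Base

variable {G X : Type} [Group G] [MulAction G X] {T : Tri G X} (B : T.Base)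

/-- positive flags modulo the group -/
abbrev RkP := B.I × alternatingGroup (Fin 4)

noncomputable def rkS (a : B.RkP) : T.F := (B.surj a.1 a.2).choose

lemma rkS_tet (a : B.RkP) : B.tet (B.rkS a) = a.1 := (B.surj a.1 a.2).choose_spec.1
lemma rkS_pos (a : B.RkP) : B.pos (B.rkS a) = a.2 := (B.surj a.1 a.2).choose_spec.2

lemma rkS_im (a : B.RkP) : 0 < (T.Z0 (B.rkS a)).im := by
  rw [B.sgn, rkS_pos]
  exact Perm.mem_alternatingGroup.1 a.2.2

/-- `φ` represents the class `a` -/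
def RkR (φ : T.F) (a : B.RkP) : Prop := B.tet φ = a.1 ∧ B.pos φ = a.2

lemma rkR_S (a : B.RkP) : B.RkR (B.rkS a) a := ⟨B.rkS_tet a, B.rkS_pos a⟩

lemma rkR_ex {φ : T.F} (h : 0 < (T.Z0 φ).im) : ∃ a, B.RkR φ a :=
  ⟨(B.tet φ, ⟨B.pos φ, Perm.mem_alternatingGroup.2 ((B.sgn φ).1 h)⟩), rfl, rfl⟩

variable {B}

lemma RkR.uq {φ : T.F} {a b : B.RkP} (h : B.RkR φ a) (h' : B.RkR φ b) : a = b :=
  Prod.ext (h.1.symm.trans h'.1) (Subtype.ext (h.2.symm.trans h'.2))

lemma RkR.orb {φ ψ : T.F} {a : B.RkP} (h : B.RkR φ a) (h' : B.RkR ψ a) : ∃ g : G, ψ = g • φ :=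
  B.orb _ _ (h.1.trans h'.1.symm) (h.2.trans h'.2.symm)

lemma RkR.smul {φ : T.F} {a : B.RkP} (h : B.RkR φ a) (g : G) : B.RkR (g • φ) a :=
  ⟨(B.tet_smul g φ).trans h.1, (B.pos_smul g φ).trans h.2⟩

variable (B)

/-- right multiplication by an even permutation -/
def rkM (t : alternatingGroup (Fin 4)) : Perm B.RkP := Equiv.prodCongr (Equiv.refl _) (Equiv.mulRight t)

lemma RkR.pm {B : T.Base} {φ : T.F} {a : B.RkP} (h : B.RkR φ a) (t : alternatingGroup (Fin 4)) :
    B.RkR (T.pm φ t) (B.rkM t a) :=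
  ⟨(B.tet_pm _ _).trans h.1, (B.pos_pm _ _).trans (by rw [h.2]; rfl)⟩

lemma rk_ex_r : ∃ r : Perm B.RkP, ∀ φ a, B.RkR φ a → B.RkR (T.rot φ) (r a) := by
  have h1 : ∀ a, ∃ b, B.RkR (T.rot (B.rkS a)) b := fun a =>
    B.rkR_ex ((T.im_rot _).2 (B.rkS_im a))
  choose f hf using h1
  have h2 : ∀ φ a, B.RkR φ a → B.RkR (T.rot φ) (f a) := by
    intro φ a h
    obtain ⟨g, rfl⟩ := (B.rkR_S a).orb h
    rw [T.rot_smul]
    exact (hf a).smul g
  have h3 : Function.Injective f := by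
    intro a b e
    obtain ⟨g, hg⟩ := (hf a).orb (e ▸ hf b)
    rw [← T.rot_smul] at hg
    have := T.rot_inj hg
    exact ((B.rkR_S a).smul g).uq (this ▸ B.rkR_S b)
  exact ⟨Equiv.ofBijective f (Finite.injective_iff_bijective.1 h3), h2⟩

lemma rk_iter {r : Perm B.RkP} (hr : ∀ φ a, B.RkR φ a → B.RkR (T.rot φ) (r a)) {φ : T.F}
    {a : B.RkP} (h : B.RkR φ a) (n : ℕ) : B.RkR (T.rot^[n] φ) (r^[n] a) := by
  induction n with
  | zero => exact h
  | succ n ih => rw [Function.iterate_succ_apply', Function.iterate_succ_apply']; exact hr _ _ ih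

lemma rk_per {r : Perm B.RkP} (hr : ∀ φ a, B.RkR φ a → B.RkR (T.rot φ) (r a)) {φ : T.F}
    {a : B.RkP} (h : B.RkR φ a) :
    Function.minimalPeriod r a = Function.minimalPeriod T.rot φ := by
  rw [Function.minimalPeriod_eq_minimalPeriod_iff]
  intro n
  have h1 := B.rk_iter hr h n
  constructor
  · intro e
    rw [show r^[n] a = a from e] at h1
    obtain ⟨g, hg⟩ := h.orb h1
    obtain ⟨v0, v1⟩ := T.v_rot φ n
    rw [hg, T.v_smul] at v0 v1
    have := T.free g _ _ (T.v_ne φ (by decide : (0 : Fin 4) ≠ 1)) v0 v1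
    rw [this, one_smul] at hg
    exact hg
  · intro e
    rw [show T.rot^[n] φ = φ from e] at h1
    exact h1.uq h

lemma rk_cs {M : Type} [AddCommMonoid M] {r : Perm B.RkP}
    (hr : ∀ φ a, B.RkR φ a → B.RkR (T.rot φ) (r a)) (f : T.F → M)
    (hf : ∀ (g : G) φ, f (g • φ) = f φ) {φ : T.F} {a : B.RkP} (h : B.RkR φ a) :
    rkCs r (fun b => f (B.rkS b)) a =
      ∑ n ∈ range (Function.minimalPeriod T.rot φ), f (T.rot^[n] φ) := by
  rw [rkCs_eq, B.rk_per hr h]
  refine sum_congr rfl fun n _ => ?_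
  obtain ⟨g, hg⟩ := (B.rk_iter hr h n).orb (B.rkR_S _)
  rw [hg, hf]

lemma rk_val {M : Type} (f : T.F → M) (hf : ∀ (g : G) φ, f (g • φ) = f φ) {φ : T.F} {a : B.RkP}
    (h : B.RkR φ a) : f (B.rkS a) = f φ := by
  obtain ⟨g, hg⟩ := h.orb (B.rkR_S a)
  rw [hg, hf]

end Tri.Base

/-- the exponent vector of a monomial -/
def rkEx {I : Type} (m : Mon I) : I × Bool → ℚ := fun j => (m.2.toAdd j : ℚ)

lemma rkEx_mul {I : Type} (m m' : Mon I) : rkEx (m * m') = rkEx m + rkEx m' := by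
  funext j
  simp [rkEx]

lemma rkEx_prod {I : Type} (m : ℕ → Mon I) (n : ℕ) :
    rkEx (∏ i ∈ range n, m i) = ∑ i ∈ range n, rkEx (m i) := by
  induction n with
  | zero => funext j; simp [rkEx]
  | succ n ih => rw [prod_range_succ, sum_range_succ, rkEx_mul, ih]

def rkT : alternatingGroup (Fin 4) := ⟨s0 * s2, Perm.mem_alternatingGroup.2 (by decide)⟩
def rkC : alternatingGroup (Fin 4) := ⟨s1 * s2, Perm.mem_alternatingGroup.2 (by decide)⟩

theorem Tri.Base.rank {G X κ : Type} [Group G] [MulAction G X] {T : Tri G X} (B : T.Base)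
    [Fintype κ] {xc : κ → X} (h : Reps G xc) :
    Module.finrank ℚ (exs B.E) + Fintype.card κ ≤ Fintype.card B.I := by
  classical
  obtain ⟨r, hr⟩ := B.rk_ex_r
  choose lb gl hlb using h.ex
  have lb_eq : ∀ (g : G) x, lb (g • x) = lb x := by
    intro g x
    refine (h.uq _ _ ((gl (g • x))⁻¹ * g * gl x) ?_).symm
    rw [mul_smul, mul_smul, ← hlb, inv_smul_eq_iff, ← hlb]
  let l : T.F → κ := fun φ => lb (T.v φ 0)
  have l_smul : ∀ (g : G) φ, l (g • φ) = l φ := fun g φ => by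
    simp only [l, T.v_smul, lb_eq]
  let e : T.F → B.I × Bool → ℚ := fun φ => rkEx (B.mon φ)
  have e_smul : ∀ (g : G) φ, e (g • φ) = e φ := fun g φ => by simp only [e, B.mon_smul]
  let θ : T.F → ℝ := fun φ => (T.Z0 φ).arg
  have θ_smul : ∀ (g : G) φ, θ (g • φ) = θ φ := fun g φ => by simp only [θ, T.Z0_smul]
  have vM : ∀ {M : Type} (f : T.F → M), (∀ (g : G) φ, f (g • φ) = f φ) → ∀ t a,
      f (B.rkS (B.rkM t a)) = f (T.pm (B.rkS a) t) := fun f hf t a =>
    B.rk_val f hf ((B.rkR_S a).pm t)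
  have vM2 : ∀ {M : Type} (f : T.F → M), (∀ (g : G) φ, f (g • φ) = f φ) → ∀ a,
      f (B.rkS (B.rkM rkC (B.rkM rkC a))) = f (T.pm (B.rkS a) (s2 * s1)) := fun f hf a => by
    rw [B.rk_val f hf (((B.rkR_S a).pm rkC).pm rkC), T.pm_pm]
    congr 2
    decide
  have hh : ∀ a, B.rkM rkT (B.rkM rkT a) = a := by
    intro a
    have := ((B.rkR_S a).pm rkT).pm rkT
    rw [T.pm_pm, show (rkT : Perm (Fin 4)) * rkT = 1 by decide, T.pm_one] at this
    exact this.uq (B.rkR_S a)
  have hτ : B.rkM rkT * r * (B.rkM rkT)⁻¹ = r⁻¹ := by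
    rw [eq_inv_iff_mul_eq_one, mul_assoc, mul_assoc]
    have k : ∀ a, r (B.rkM rkT (r a)) = B.rkM rkT a := fun a => by
      have h1 := hr _ _ ((hr _ _ (B.rkR_S a)).pm rkT)
      rw [show (rkT : Perm (Fin 4)) = s0 * s2 from rfl, T.rot_rev] at h1
      exact h1.uq ((B.rkR_S a).pm rkT)
    have hi : (B.rkM rkT)⁻¹ = B.rkM rkT := by
      rw [inv_eq_iff_mul_eq_one]
      exact Equiv.ext hh
    rw [hi]
    refine Equiv.ext fun a => ?_
    simp only [Perm.mul_apply, Perm.one_apply]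
    rw [k, hh]
  have lT : ∀ {φ a}, B.RkR φ a → l (B.rkS (B.rkM rkT a)) = lb (T.v φ 1) := fun {φ a} ha => by
    rw [B.rk_val l l_smul (ha.pm rkT)]
    simp only [l, T.v_pm]
    rfl
  have key := rk_abs (B.rkM rkC) hτ hh (fun a => l (B.rkS a)) ?_ ?_ ?_ (fun a => e (B.rkS a)) ?_ ?_
    (fun a => θ (B.rkS a)) ?_ ?_ ?_ (Fintype.card B.I) ?_ ?_
  · refine le_trans (Nat.add_le_add_right (Submodule.finrank_mono ?_) _) key
    refine Submodule.span_mono ?_
    rintro _ ⟨φ, rfl⟩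
    obtain ⟨a, ha⟩ := B.rkR_ex φ.2
    refine ⟨a, ?_⟩
    rw [B.rk_cs hr e e_smul ha]
    exact (rkEx_prod (fun n => B.mon (T.rot^[n] φ.1)) _).symm
  · intro a
    rw [B.rk_val l l_smul (hr _ _ (B.rkR_S a))]
    exact congrArg lb (T.v_rot (B.rkS a) 1).1
  · intro a e1
    rw [lT (B.rkR_S a)] at e1
    have e2 : (gl (T.v (B.rkS a) 0) * (gl (T.v (B.rkS a) 1))⁻¹) • T.v (B.rkS a) 1 =
        T.v (B.rkS a) 0 := by
      rw [mul_smul, inv_smul_eq_iff.2 (hlb (T.v (B.rkS a) 1)), e1]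
      exact (hlb _).symm
    exact absurd (T.lab _ _ _ _ e2) (by decide)
  · intro a
    rw [vM l l_smul]
    simp only [l, T.v_pm]
    rfl
  · intro a
    rw [vM e e_smul]
    simp only [e]
    rw [show (rkT : Perm (Fin 4)) = s0 * s2 from rfl, ← T.pm_pm, B.mon_s2, B.mon_s0, inv_inv]
  · intro a
    rw [vM2 e e_smul, vM e e_smul]
    simp only [e]
    rw [← rkEx_mul, ← rkEx_mul, show (rkC : Perm (Fin 4)) = s1 * s2 from rfl, B.mon_cyc]
    funext j
    simp [rkEx]
  · intro a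
    rw [vM θ θ_smul]
    simp only [θ]
    rw [show (rkT : Perm (Fin 4)) = s0 * s2 from rfl, ← T.pm_pm, T.Z0_s2, T.Z0_s0, inv_inv]
  · intro a
    rw [vM2 θ θ_smul, vM θ θ_smul]
    have hp := B.rkS_im a
    have hs : ∀ s : Perm (Fin 4), Perm.sign s = 1 → 0 < (T.Z0 (T.pm (B.rkS a) s)).im :=
      fun s hs => (T.im_pm _ s).2 ⟨fun _ => hs, fun _ => hp⟩
    refine rk_arg_tri hp (hs _ (by decide)) (hs _ (by decide)) ?_
    rw [show (rkC : Perm (Fin 4)) = s1 * s2 from rfl, ← T.pm_pm, ← T.pm_pm, T.Z0_s2, T.Z0_s1,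
      T.Z0_s1, T.Z0_s2]
    have n0 := T.Z0_ne (B.rkS a)
    have n1 : 1 - T.Z0 (B.rkS a) ≠ 0 := by
      rw [← T.Z0_s1]
      exact T.Z0_ne _
    field_simp
    ring
  · intro a
    rw [B.rk_cs hr θ θ_smul (B.rkR_S a)]
    refine rk_arg_cyc (fun i => T.Z0 (T.rot^[i] (B.rkS a))) (fun i => ?_)
      (Function.minimalPeriod_pos_of_mem_periodicPts (T.rot_per _))
      (T.Z0_prod _ (Function.iterate_minimalPeriod (f := T.rot)))
    induction i with
    | zero => exact B.rkS_im a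
    | succ i ih => rw [Function.iterate_succ_apply', T.im_rot]; exact ih
  · have := two_mul_card_alternatingGroup (α := Fin 4)
    rw [Fintype.card_perm, Fintype.card_fin] at this
    have e4 : Nat.factorial 4 = 24 := by decide
    rw [Fintype.card_prod, show Fintype.card (alternatingGroup (Fin 4)) = 12 by omega, mul_comm]
  · intro α hα
    have k : ∀ φ, 0 < (T.Z0 φ).im → α (lb (T.v φ 0)) + α (lb (T.v φ 1)) = 0 := by
      intro φ hφ
      obtain ⟨a, ha⟩ := B.rkR_ex hφ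
      have := hα a
      simp only [lT ha, B.rk_val l l_smul ha] at this
      exact this
    have k2 : ∀ φ, 0 < (T.Z0 φ).im → α (lb (T.v φ 0)) = 0 := by
      intro φ hφ
      have hs : ∀ s : Perm (Fin 4), Perm.sign s = 1 → 0 < (T.Z0 (T.pm φ s)).im :=
        fun s hs => (T.im_pm _ s).2 ⟨fun _ => hs, fun _ => hφ⟩
      have a1 := k φ hφ
      have a2 := k _ (hs (s1 * s2) (by decide))
      have a3 := k _ (hs (s0 * s1) (by decide))
      simp only [T.v_pm] at a2 a3
      rw [show (s1 * s2) 0 = 0 by decide, show (s1 * s2) 1 = 2 by decide] at a2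
      rw [show (s0 * s1) 0 = 1 by decide, show (s0 * s1) 1 = 2 by decide] at a3
      linarith
    funext c
    obtain ⟨φ, hφ⟩ := T.all (xc c)
    have hc : lb (xc c) = c := h.uq _ _ _ (hlb (xc c)).symm
    rw [← hc, ← hφ]
    by_cases hp : 0 < (T.Z0 φ).im
    · exact k2 φ hp
    · have := k2 (T.flip φ) ((T.im_flip' φ).2 hp)
      rwa [T.v_flip φ 0 (by decide)] at this

end Pool.Agent.Lib.MP_661727_gt.T3
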