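import Pool.Agent.Lib.MP_661727_gt.T3.Cong

/-! Covers that scale all cusp groups. -/

namespace Pool.Agent.Lib.MP_661727_gt.T3

open Multiplicative Ar

/-- a linear form with coefficients in `R` maps `lat R I` into `I` -/
lemma Scal.form {d : ℕ} {R : Subring ℝ} {I : Ideal R} (S : Mink d →ₗ[ℝ] ℝ) (h0 : S (1, 0) ∈ R)
    (h1 : ∀ j, S (0, Pi.single j 1) ∈ R) {v : Mink d} (hv : v ∈ lat R I) :
    ∃ r ∈ I, (r : ℝ) = S v := by
  obtain ⟨⟨r0, m0, e0⟩, hj⟩ := hv
  choose r m e using hj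
  refine ⟨r0 * ⟨_, h0⟩ + ∑ j, r j * ⟨_, h1 j⟩,
    I.add_mem (I.mul_mem_right _ m0) (I.sum_mem fun j _ => I.mul_mem_right _ (m j)), ?_⟩
  have ev : v = v.1 • ((1, 0) : Mink d) + ∑ j, v.2 j • ((0, Pi.single j 1) : Mink d) := by
    refine Prod.ext (by simp [Prod.fst_sum]) (funext fun i => ?_)
    simp [Prod.snd_sum, Finset.sum_apply, Pi.single_apply]
  conv_rhs => rw [ev]
  simp [-Prod.smul_mk, e0, e]

theorem scal {d : ℕ} (L : Cusped d) :
    ∃ b : ℕ, 0 < b ∧ ∀ k : ℕ, 0 < k → k.Coprime b → L.Cov (fun _ => ⊤) k := by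
  have := L.fin
  have := Fintype.ofFinite L.C
  choose S _ hS using b_S L
  let W : Set ℝ := Set.range (fun c => (L.b c).1) ∪
    (Set.range (fun p : L.C × Fin (d - 1) => S p.1 p.2 (1, 0)) ∪
      Set.range fun p : L.C × Fin (d - 1) × Fin d => S p.1 p.2.1 (0, Pi.single p.2.2 1))
  obtain ⟨R, ft, hT, hR⟩ := exists_ring L ((fun r => ((r, 0) : Mink d)) '' W)
    (((Set.finite_range _).union ((Set.finite_range _).union (Set.finite_range _))).image _)
  have hW : ∀ w ∈ W, w ∈ R := fun w hw => by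
    obtain ⟨⟨r, -, e⟩, -⟩ := hT ⟨w, hw, rfl⟩
    exact (show (r : ℝ) = w from e) ▸ r.2
  let β : L.C → R := fun c => ⟨(L.b c).1, hW _ (Or.inl ⟨c, rfl⟩)⟩
  obtain ⟨n, hn, R1, _, φ, hu, -, hk⟩ := spec0 ft (Complex.ofRealHom.comp R.subtype)
    (u := ∏ c, β c) (by
      rw [map_prod]
      exact Finset.prod_ne_zero_iff.2 fun c _ => Complex.ofReal_ne_zero.2 (L.light c).2.ne')
  refine ⟨2 * n, by omega, fun k k0 kc => ?_⟩
  obtain ⟨fin, hdv⟩ := hk k k0 (Nat.Coprime.coprime_mul_left_right kc)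
  have odd : Odd k := Nat.coprime_two_right.1 (Nat.Coprime.coprime_mul_right_right kc)
  obtain ⟨H, h1, h2, h3⟩ := cong_sub L R hR ((Ideal.span {(k : R1)}).comap φ)
    (Finite.of_injective _ Ideal.quotientMap_injective)
  refine ⟨H, h1, h2, fun c h => ⟨fun hh => ?_, ?_⟩⟩
  · have hd : ∀ i, (k : ℤ) ∣ h i := fun i => by
      have a0 : oo d ∈ lat R ⊤ := ⟨⟨1, trivial, rfl⟩, fun _ => ⟨0, trivial, rfl⟩⟩
      obtain ⟨r, a1, a2⟩ := Scal.form (S c i) (hW _ (Or.inr (Or.inl ⟨(c, i), rfl⟩)))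
        (fun j => hW _ (Or.inr (Or.inr ⟨(c, i, j), rfl⟩))) ((h3 _).1 hh _ a0)
      rw [map_sub, hS, add_sub_cancel_left, lor_oo] at a2
      have a3 : r = -((h i : R) * β c) := Subtype.ext (by simpa [β] using a2)
      have a4 : (k : R1) ∣ φ r := Ideal.mem_span_singleton.1 a1
      have a5 : IsUnit (φ (β c)) :=
        isUnit_of_dvd_unit (map_dvd φ (Finset.dvd_prod_of_mem β (Finset.mem_univ c))) hu
      rw [a3, map_neg, dvd_neg, map_mul, map_intCast, a5.dvd_mul_right] at a4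
      exact hdv _ a4
    choose a ha using hd
    exact ⟨a, trivial, funext fun i => by simpa using ha i⟩
  · rintro ⟨a, -, rfl⟩
    refine (h3 _).2 (pow_cong L R hR _ odd ?_ c a)
    rw [Ideal.mem_comap, map_natCast]
    exact Ideal.mem_span_singleton_self _

end Pool.Agent.Lib.MP_661727_gt.T3
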