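import Pool.Agent.Lib.MP_661727_gt.T3.Mat

/-! Combinatorics of a triangulation. -/

namespace Pool.Agent.Lib.MP_661727_gt.T3

open Equiv

lemma T1_br_swap (p q : ℂ × ℂ) : br p q = - br q p := by
  simp only [br]; ring

lemma T1_six : ∀ s : Perm (Fin 4), s 0 = 0 →
    s = 1 ∨ s = s1 ∨ s = s2 ∨ s = s1 * s2 ∨ s = s2 * s1 ∨ s = s1 * s2 * s1 := by
  decide +kernel

lemma T1_inv_im {z : ℂ} (h : z.im ≠ 0) : 0 < (z⁻¹).im ↔ ¬ 0 < z.im := by
  have hz : z ≠ 0 := fun e => h (by rw [e]; rfl)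
  have hn : 0 < Complex.normSq z := Complex.normSq_pos.2 hz
  rw [Complex.inv_im, div_pos_iff_of_pos_right hn]
  constructor
  · intro h1 h2; linarith
  · intro h1
    rcases lt_or_gt_of_ne h with h2 | h2
    · linarith
    · exact absurd h2 h1

lemma T1_sub_im {z : ℂ} (h : z.im ≠ 0) : 0 < (1 - z).im ↔ ¬ 0 < z.im := by
  rw [Complex.sub_im, Complex.one_im]
  constructor
  · intro h1 h2; linarith
  · intro h1
    rcases lt_or_gt_of_ne h with h2 | h2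
    · linarith
    · exact absurd h2 h1

namespace Tri

variable {G X : Type} [Group G] [MulAction G X] (T : Tri G X)

lemma v_ne (φ : T.F) {i j : Fin 4} (h : i ≠ j) : T.v φ i ≠ T.v φ j :=
  fun e => h (T.lab φ i j 1 (by rw [one_smul, e]))

lemma pm_one (φ : T.F) : T.pm φ 1 = φ :=
  T.ext _ _ (funext fun j => by rw [T.v_pm]; rfl)

lemma pm_pm (φ : T.F) (s t : Perm (Fin 4)) : T.pm (T.pm φ s) t = T.pm φ (s * t) :=
  T.ext _ _ (funext fun j => by rw [T.v_pm, T.v_pm, T.v_pm]; rfl)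

lemma pm_smul (g : G) (φ : T.F) (s : Perm (Fin 4)) : T.pm (g • φ) s = g • T.pm φ s :=
  T.ext _ _ (funext fun j => by rw [T.v_pm, T.v_smul, T.v_smul, T.v_pm])

lemma pm_inj (φ : T.F) {s t : Perm (Fin 4)} {g : G} (h : g • T.pm φ s = T.pm φ t) :
    s = t ∧ g = 1 := by
  have h1 : ∀ j, g • T.v φ (s j) = T.v φ (t j) := fun j => by
    rw [← T.v_pm, ← T.v_smul, h, T.v_pm]
  have h2 : s = t := Equiv.ext fun j => T.lab φ _ _ g (h1 j)
  refine ⟨h2, ?_⟩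
  subst h2
  exact T.free g _ _ (T.v_ne φ (s.injective.ne (show (0 : Fin 4) ≠ 1 by decide))) (h1 0) (h1 1)

lemma flip_flip (φ : T.F) : T.flip (T.flip φ) = φ := by
  rcases T.two (T.flip φ) φ (fun j hj => (T.v_flip φ j hj).symm) with h | h
  · exact absurd h.symm (T.flip_ne φ)
  · exact h.symm

lemma flip_smul (g : G) (φ : T.F) : T.flip (g • φ) = g • T.flip φ := by
  rcases T.two (g • φ) (g • T.flip φ)
    (fun j hj => by rw [T.v_smul, T.v_smul, T.v_flip φ j hj]) with h | h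
  · exact absurd (smul_left_cancel g h) (T.flip_ne φ)
  · exact h.symm

lemma T1_pm_injective (s : Perm (Fin 4)) : Function.Injective fun φ => T.pm φ s := by
  intro φ ψ h
  have h' : T.pm (T.pm φ s) s⁻¹ = T.pm (T.pm ψ s) s⁻¹ := congrArg (fun χ => T.pm χ s⁻¹) h
  rwa [T.pm_pm, T.pm_pm, mul_inv_cancel, T.pm_one, T.pm_one] at h'

lemma flip_pm (φ : T.F) {s : Perm (Fin 4)} (h : s 3 = 3) :
    T.flip (T.pm φ s) = T.pm (T.flip φ) s := by
  rcases T.two (T.pm φ s) (T.pm (T.flip φ) s) (fun j hj => by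
    rw [T.v_pm, T.v_pm, T.v_flip φ (s j) (fun e => hj (s.injective (e.trans h.symm)))]) with h1 | h1
  · exact absurd (T.T1_pm_injective s h1) (T.flip_ne φ)
  · exact h1.symm

lemma rot_inj : Function.Injective T.rot := by
  intro φ ψ h
  have h' : T.flip (T.flip (T.pm φ s2)) = T.flip (T.flip (T.pm ψ s2)) := congrArg T.flip h
  rw [T.flip_flip, T.flip_flip] at h'
  exact T.T1_pm_injective s2 h'

lemma rot_smul (g : G) (φ : T.F) : T.rot (g • φ) = g • T.rot φ := by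
  unfold rot
  rw [T.pm_smul, T.flip_smul]

lemma T1_v_rot0 (φ : T.F) : T.v (T.rot φ) 0 = T.v φ 0 := by
  unfold rot
  rw [T.v_flip _ _ (by decide), T.v_pm]; rfl

lemma T1_v_rot1 (φ : T.F) : T.v (T.rot φ) 1 = T.v φ 1 := by
  unfold rot
  rw [T.v_flip _ _ (by decide), T.v_pm]; rfl

lemma T1_v_rot2 (φ : T.F) : T.v (T.rot φ) 2 = T.v φ 3 := by
  unfold rot
  rw [T.v_flip _ _ (by decide), T.v_pm]; rfl

lemma v_rot (φ : T.F) (n : ℕ) : T.v (T.rot^[n] φ) 0 = T.v φ 0 ∧ T.v (T.rot^[n] φ) 1 = T.v φ 1 := by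
  induction n with
  | zero => exact ⟨rfl, rfl⟩
  | succ n ih =>
    rw [Function.iterate_succ_apply', T.T1_v_rot0, T.T1_v_rot1]
    exact ih

lemma fin2 (φ : T.F) : {ψ | T.v ψ 0 = T.v φ 0 ∧ T.v ψ 1 = T.v φ 1}.Finite := by
  obtain ⟨S, hS, h⟩ := T.fin
  choose g hg using h
  refine Set.Finite.of_injOn (f := fun ψ => g ψ • ψ) (t := S) (fun ψ _ => hg ψ) ?_ hS
  intro ψ hψ χ hχ e
  have e1 : χ = ((g χ)⁻¹ * g ψ) • ψ := by
    rw [mul_smul, show g ψ • ψ = g χ • χ from e, inv_smul_smul]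
  have e2 : (g χ)⁻¹ * g ψ = 1 := by
    refine T.free _ _ _ (T.v_ne φ (show (0 : Fin 4) ≠ 1 by decide)) ?_ ?_
    · conv_lhs => rw [← hψ.1, ← T.v_smul, ← e1]
      exact hχ.1
    · conv_lhs => rw [← hψ.2, ← T.v_smul, ← e1]
      exact hχ.2
  rw [e1, e2, one_smul]

lemma rot_per (φ : T.F) : φ ∈ Function.periodicPts T.rot := by
  obtain ⟨a, b, hab, e⟩ := Set.Finite.exists_lt_map_eq_of_forall_mem
    (f := fun n : ℕ => T.rot^[n] φ) (fun n => T.v_rot φ n) (T.fin2 φ)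
  obtain ⟨c, rfl⟩ := Nat.exists_eq_add_of_lt hab
  refine Function.mem_periodicPts.2 ⟨c + 1, Nat.succ_pos c, ?_⟩
  have e' : T.rot^[a] φ = T.rot^[a] (T.rot^[c + 1] φ) := by
    rw [← Function.iterate_add_apply, ← add_assoc]; exact e
  exact ((T.rot_inj.iterate a) e').symm

/-- reversing the edge reverses the rotation -/
lemma rot_rev (φ : T.F) : T.rot (T.pm (T.rot φ) (s0 * s2)) = T.pm φ (s0 * s2) := by
  unfold rot
  rw [T.pm_pm, show s0 * s2 * s2 = s0 by decide, T.flip_pm _ (by decide), T.flip_flip, T.pm_pm,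
    show s2 * s0 = s0 * s2 by decide]

lemma T1_br (φ : T.F) {i j : Fin 4} (h : i ≠ j) : br (T.sp (T.v φ i)) (T.sp (T.v φ j)) ≠ 0 :=
  T.br_ne _ _ (T.v_ne φ h)

lemma Z0_im (φ : T.F) : (T.Z0 φ).im ≠ 0 := by
  intro h
  have h1 := T.im_flip φ
  unfold Z0 at h
  rw [h, mul_zero] at h1
  exact lt_irrefl _ h1

lemma Z0_ne (φ : T.F) : T.Z0 φ ≠ 0 := fun e => T.Z0_im φ (by rw [e]; rfl)

lemma Z0_smul (g : G) (φ : T.F) : T.Z0 (g • φ) = T.Z0 φ := by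
  unfold Z0
  simp only [T.v_smul]
  exact T.cr_smul g φ

lemma Z0_s0 (φ : T.F) : T.Z0 (T.pm φ s0) = (T.Z0 φ)⁻¹ := by
  unfold Z0 cr
  simp only [T.v_pm]
  rw [show s0 0 = 1 from rfl, show s0 1 = 0 from rfl, show s0 2 = 2 from rfl,
    show s0 3 = 3 from rfl, inv_div, T1_br_swap (T.sp (T.v φ 3)) (T.sp (T.v φ 0)),
    T1_br_swap (T.sp (T.v φ 1)) (T.sp (T.v φ 2)), T1_br_swap (T.sp (T.v φ 2)) (T.sp (T.v φ 0)),
    T1_br_swap (T.sp (T.v φ 1)) (T.sp (T.v φ 3))]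
  ring

lemma Z0_s1 (φ : T.F) : T.Z0 (T.pm φ s1) = 1 - T.Z0 φ := by
  unfold Z0 cr
  simp only [T.v_pm]
  rw [show s1 0 = 0 from rfl, show s1 1 = 2 from rfl, show s1 2 = 1 from rfl,
    show s1 3 = 3 from rfl]
  have h1 := T.T1_br φ (show (2 : Fin 4) ≠ 1 by decide)
  have h2 := T.T1_br φ (show (0 : Fin 4) ≠ 3 by decide)
  rw [T1_br_swap (T.sp (T.v φ 1)) (T.sp (T.v φ 2))]
  field_simp
  simp only [br]
  ring

lemma Z0_s2 (φ : T.F) : T.Z0 (T.pm φ s2) = (T.Z0 φ)⁻¹ := by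
  unfold Z0 cr
  simp only [T.v_pm]
  rw [show s2 0 = 0 from rfl, show s2 1 = 1 from rfl, show s2 2 = 3 from rfl,
    show s2 3 = 2 from rfl, inv_div]

lemma im_flip' (φ : T.F) : 0 < (T.Z0 (T.flip φ)).im ↔ ¬ 0 < (T.Z0 φ).im := by
  have h := T.im_flip φ
  have e : T.Z0 (T.flip φ) = cr (T.sp (T.v φ 0)) (T.sp (T.v φ 1)) (T.sp (T.v φ 2))
      (T.sp (T.v (T.flip φ) 3)) := by
    unfold Z0
    rw [T.v_flip φ 0 (by decide), T.v_flip φ 1 (by decide), T.v_flip φ 2 (by decide)]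
  rw [← e] at h
  change (T.Z0 (T.flip φ)).im * (T.Z0 φ).im < 0 at h
  rcases mul_neg_iff.1 h with ⟨h1, h2⟩ | ⟨h1, h2⟩
  · exact ⟨fun _ => not_lt.2 h2.le, fun _ => h1⟩
  · exact ⟨fun h3 => absurd h3 (not_lt.2 h1.le), fun h3 => absurd h2 h3⟩

lemma pm_ind (φ : T.F) (P : T.F → Prop) (h : P φ) (h0 : ∀ ψ, P ψ → P (T.pm ψ s0))
    (h1 : ∀ ψ, P ψ → P (T.pm ψ s1)) (h2 : ∀ ψ, P ψ → P (T.pm ψ s2)) (s : Perm (Fin 4)) :
    P (T.pm φ s) := by
  induction s using Submonoid.induction_of_closure_eq_top_right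
    (Perm.mclosure_swap_castSucc_succ 3) with
  | one => rwa [T.pm_one]
  | mul_right x y hy ih =>
    obtain ⟨i, rfl⟩ := hy
    rw [← T.pm_pm]
    fin_cases i
    · exact h0 _ ih
    · exact h1 _ ih
    · exact h2 _ ih

lemma pm_ind1 (φ : T.F) (P : T.F → Prop) (h : P φ) (h1 : ∀ ψ, P ψ → P (T.pm ψ s1))
    (h2 : ∀ ψ, P ψ → P (T.pm ψ s2)) (s : Perm (Fin 4)) (hs : s 0 = 0) : P (T.pm φ s) := by
  rcases T1_six s hs with rfl | rfl | rfl | rfl | rfl | rfl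
  · rwa [T.pm_one]
  · exact h1 _ h
  · exact h2 _ h
  · rw [← T.pm_pm]; exact h2 _ (h1 _ h)
  · rw [← T.pm_pm]; exact h1 _ (h2 _ h)
  · rw [← T.pm_pm, ← T.pm_pm]; exact h1 _ (h2 _ (h1 _ h))

lemma im_pm (φ : T.F) (s : Perm (Fin 4)) :
    0 < (T.Z0 (T.pm φ s)).im ↔ (0 < (T.Z0 φ).im ↔ Perm.sign s = 1) := by
  have key : ∀ (t u : Perm (Fin 4)), Perm.sign u = -1 →
      (0 < (T.Z0 (T.pm (T.pm φ t) u)).im ↔ ¬ 0 < (T.Z0 (T.pm φ t)).im) →
      (0 < (T.Z0 (T.pm φ t)).im ↔ (0 < (T.Z0 φ).im ↔ Perm.sign t = 1)) →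
      (0 < (T.Z0 (T.pm φ (t * u))).im ↔ (0 < (T.Z0 φ).im ↔ Perm.sign (t * u) = 1)) := by
    intro t u hu h1 h2
    rw [← T.pm_pm, h1, h2, map_mul, hu]
    rcases Int.units_eq_one_or (Perm.sign t) with e | e <;> rw [e] <;> simp
  have h := T.pm_ind φ (fun ψ => ∃ t, ψ = T.pm φ t ∧
      (0 < (T.Z0 (T.pm φ t)).im ↔ (0 < (T.Z0 φ).im ↔ Perm.sign t = 1)))
    ⟨1, (T.pm_one φ).symm, by rw [T.pm_one]; simp⟩
    (by
      rintro ψ ⟨t, rfl, ht⟩
      exact ⟨t * s0, T.pm_pm _ _ _, key t s0 (Perm.sign_swap (by decide))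
        (by rw [T.Z0_s0]; exact T1_inv_im (T.Z0_im _)) ht⟩)
    (by
      rintro ψ ⟨t, rfl, ht⟩
      exact ⟨t * s1, T.pm_pm _ _ _, key t s1 (Perm.sign_swap (by decide))
        (by rw [T.Z0_s1]; exact T1_sub_im (T.Z0_im _)) ht⟩)
    (by
      rintro ψ ⟨t, rfl, ht⟩
      exact ⟨t * s2, T.pm_pm _ _ _, key t s2 (Perm.sign_swap (by decide))
        (by rw [T.Z0_s2]; exact T1_inv_im (T.Z0_im _)) ht⟩) s
  obtain ⟨t, e, ht⟩ := h
  have e' : s = t := (T.pm_inj φ (g := 1) (by rw [one_smul, e])).1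
  rw [e']; exact ht

lemma im_rot (φ : T.F) : 0 < (T.Z0 (T.rot φ)).im ↔ 0 < (T.Z0 φ).im := by
  unfold rot
  rw [T.im_flip', T.Z0_s2, T1_inv_im (T.Z0_im _), not_not]

/-- the geometric shapes satisfy the edge equations -/
lemma Z0_prod (φ : T.F) {n : ℕ} (h : T.rot^[n] φ = φ) :
    ∏ i ∈ Finset.range n, T.Z0 (T.rot^[i] φ) = 1 := by
  set c : ℕ → ℂ := fun i => br (T.sp (T.v (T.rot^[i] φ) 2)) (T.sp (T.v φ 1)) /
    br (T.sp (T.v φ 0)) (T.sp (T.v (T.rot^[i] φ) 2)) with hc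
  have hne : ∀ i, c i ≠ 0 := fun i => by
    refine div_ne_zero ?_ ?_
    · rw [← (T.v_rot φ i).2]; exact T.T1_br _ (by decide)
    · rw [← (T.v_rot φ i).1]; exact T.T1_br _ (by decide)
  have hz : ∀ i, T.Z0 (T.rot^[i] φ) = c (i + 1) / c i := fun i => by
    simp only [hc]
    rw [Function.iterate_succ_apply', T.T1_v_rot2, ← (T.v_rot φ i).1, ← (T.v_rot φ i).2]
    unfold Z0 cr
    have h1 := T.T1_br (T.rot^[i] φ) (show (2 : Fin 4) ≠ 1 by decide)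
    have h2 := T.T1_br (T.rot^[i] φ) (show (0 : Fin 4) ≠ 3 by decide)
    have h3 := T.T1_br (T.rot^[i] φ) (show (0 : Fin 4) ≠ 2 by decide)
    field_simp
  have hp : ∀ m, ∏ i ∈ Finset.range m, T.Z0 (T.rot^[i] φ) = c m / c 0 := fun m => by
    induction m with
    | zero => rw [Finset.prod_range_zero, div_self (hne 0)]
    | succ m ih =>
      rw [Finset.prod_range_succ, ih, hz]
      have h1 := hne m
      have h2 := hne 0
      field_simp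
  rw [hp, show c n = c 0 by simp only [hc, h, Function.iterate_zero, id], div_self (hne 0)]

end Tri

end Pool.Agent.Lib.MP_661727_gt.T3
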