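import Pool.Agent.Lib.MP_661727_gt.T3.Core
import Pool.Agent.Lib.MP_661727_gt.T3.Cov
import Pool.Agent.Lib.MP_661727_gt.T3.Scal
import Pool.Agent.Lib.MP_661727_gt.Ar.Top

/-! Three-dimensional bases. -/

namespace Pool.Agent.Lib.MP_661727_gt.T3

lemma top_cov {d : ℕ} (hd : d = 3) (L : Cusped d) (A : L.C → AddSubgroup (Zk (d - 1)))
    (hA : ∀ c, (A c).FiniteIndex) {b : ℕ} (hb : 0 < b) : Good b (L.Cov A) := by
  subst hd
  exact cov3 L A hA hb

theorem top1 {n : ℕ} (P : Pattern n) (ψ : P.Glue) (irr : Pattern.Irred ψ)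
    (h : ∀ v, P.d v = 3 ∨ (P.N v).Arith) :
    ∃ (P' : Pattern n) (ψ' : P'.Glue), Pattern.Flip ψ' ∧ CE (P.pi1 ψ) (P'.pi1 ψ') := by
  have := P.finV
  obtain ⟨A, h1, -, h2⟩ := core_ce P ψ irr (fun _ => False) fun e h => (h.elim id id).elim
  have := Fintype.ofFinite {v // (P.N v).Arith}
  choose m hm hH using fun v : {v // (P.N v).Arith} => Ar.adapt (P.N v.1) v.2 (A v.1) (h1 v.1)
  obtain ⟨k, k0, -, k1, k2⟩ := pick (V := {v // P.d v = 3}) Nat.one_pos
    (Finset.prod_pos fun v (_ : v ∈ Finset.univ) => hm v) (Nat.coprime_one_right _)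
    (fun v => (P.N v.1).Cov (A v.1)) fun v => top_cov v.2 _ _ (h1 v.1) Nat.one_pos
  refine h2 k k0 fun v => (h v).elim (fun hv => k2 ⟨v, hv⟩) fun hv => ?_
  exact hH ⟨v, hv⟩ k k0 ((Finset.dvd_prod_of_mem m (Finset.mem_univ _)).trans k1)

theorem top2 {n : ℕ} (P : Pattern n) (ψ : P.Glue) (irr : Pattern.Irred ψ)
    (h : ∀ e, (P.d (P.src e) = 3 ∧ P.d (P.tgt e) = 3) ∨ P.d (P.src e) = n ∨ P.d (P.tgt e) = n ∨
      Splits (AddMonoidHom.id _) fun f => (Pattern.fwd ψ e f).1) :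
    ∃ (P' : Pattern n) (ψ' : P'.Glue), Pattern.Flip ψ' ∧ CE (P.pi1 ψ) (P'.pi1 ψ') := by
  have := P.finV
  have := Fintype.ofFinite P.V
  have sub : ∀ v, P.d v = n → Subsingleton (Zk (n - P.d v)) := fun v h =>
    ⟨fun x y => funext fun i => by have := i.2; omega⟩
  obtain ⟨A, h1, h3, h2⟩ := core_ce P ψ irr (fun v => P.d v ≠ 3) fun e he => by
    rcases h e with h | h | h | ⟨b, r, a, c⟩
    · exact he.elim (fun x => (x h.1).elim) fun x => (x h.2).elim
    · have := sub _ h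
      exact ⟨0, fun f => Subsingleton.elim _ _⟩
    · have := sub _ h
      refine ⟨(AddMonoidHom.snd _ _).comp ((ψ e).symm.toAddMonoidHom.comp (AddMonoidHom.inl _ _)),
        fun x => ?_⟩
      show ((ψ e).symm ((ψ e (0, x)).1, 0)).2 = x
      rw [show ((ψ e (0, x)).1, 0) = ψ e (0, x) from Prod.ext rfl (Subsingleton.elim _ _),
        (ψ e).symm_apply_apply]
    · exact ⟨r, fun f => (congrArg r (c f).symm).trans (a f)⟩
  choose b hb hH using fun v => scal (P.N v)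
  have hb' : 0 < ∏ v, b v := Finset.prod_pos fun v _ => hb v
  obtain ⟨k, k0, k1, -, k2⟩ := pick (V := {v // P.d v = 3}) hb' Nat.one_pos (Nat.coprime_one_left _)
    (fun v => (P.N v.1).Cov (A v.1)) fun v => top_cov v.2 _ _ (h1 v.1) hb'
  refine h2 k k0 fun v => (em (P.d v = 3)).elim (fun hv => k2 ⟨v, hv⟩) fun hv => ?_
  rw [show A v = fun _ => ⊤ from funext fun c => h3 v c hv]
  exact hH v k k0 (k1.coprime_dvd_right (Finset.dvd_prod_of_mem b (Finset.mem_univ _)))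

end Pool.Agent.Lib.MP_661727_gt.T3
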